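import Mathlib

/-!
# MP_c281c2_an, sandwiched quasi-relative entropy: definitions

`n` is the index type of the matrices. `ev M` are the eigenvalues with multiplicity, `es f M` the sum of `f` over
the eigenvalues, `N s Y` is the fractional power `Y ^ (-s)` (Balakrishnan formula), `Dat` are the data of a matrix
pencil: `X z = A + z B`, `Y z = C + z D + δ √z`, `M s z = (Y z) ^ (-s) X z`. At the negative real numbers the formulas
give the boundary values from the upper half plane (as `Complex.arg` of a negative number is `π`).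
-/

namespace SRE

open Matrix Complex MeasureTheory Filter Topology
open scoped ComplexOrder

section

variable {n : Type} [Fintype n] [DecidableEq n]

/-- The eigenvalues with multiplicity. -/
noncomputable abbrev ev (M : Matrix n n ℂ) : Multiset ℂ := M.charpoly.roots

/-- The sum of `f` over the eigenvalues. -/
noncomputable def es {E : Type} [AddCommMonoid E] (f : ℂ → E) (M : Matrix n n ℂ) : E :=
  ((ev M).map f).sum

/-- The normalising constant. -/
noncomputable def Kc (s : ℝ) : ℝ := ∫ l in Set.Ioi (0 : ℝ), l ^ (-s) / (l + 1)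

/-- The power `Y ^ (-s)` (`0 < s < 1`). -/
noncomputable def N (s : ℝ) (Y : Matrix n n ℂ) : Matrix n n ℂ :=
  Matrix.of fun i j => ((Kc s : ℝ) : ℂ)⁻¹ *
    ∫ l in Set.Ioi (0 : ℝ), ((l ^ (-s) : ℝ) : ℂ) * ((l : ℂ) • (1 : Matrix n n ℂ) + Y)⁻¹ i j

/-- `Y` has no eigenvalue in `(-∞, 0]`. -/
def Sec (Y : Matrix n n ℂ) : Prop := ∀ l : ℝ, 0 ≤ l → ((l : ℂ) • (1 : Matrix n n ℂ) + Y).det ≠ 0

end

/-- `(α - 1) / α`. -/
noncomputable def sa (α : ℝ) : ℝ := (α - 1) / α

/-- The data of a pencil. -/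
structure Dat (n : Type) where
  /-- the constant term of `X` -/
  A : Matrix n n ℂ
  /-- the coefficient of `z` in `X` -/
  B : Matrix n n ℂ
  /-- the constant term of `Y` -/
  C : Matrix n n ℂ
  /-- the coefficient of `z` in `Y` -/
  D : Matrix n n ℂ
  /-- the regularisation -/
  δ : ℝ

section

variable {n : Type} [Fintype n] [DecidableEq n]

/-- All matrices are positive definite and `0 < δ`. -/
structure Dat.Ok (p : Dat n) : Prop where
  A : p.A.PosDef
  B : p.B.PosDef
  C : p.C.PosDef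
  D : p.D.PosDef
  δ : 0 < p.δ

/-- Exchange of `0` and `∞`. -/
def Dat.swap (p : Dat n) : Dat n := ⟨p.B, p.A, p.D, p.C, p.δ⟩

/-- `X z = A + z B`. -/
def Dat.X (p : Dat n) (z : ℂ) : Matrix n n ℂ := p.A + z • p.B

/-- `Y z = C + z D + δ √z`. -/
noncomputable def Dat.Y (p : Dat n) (z : ℂ) : Matrix n n ℂ :=
  p.C + z • p.D + ((p.δ : ℂ) * z ^ (1 / 2 : ℂ)) • (1 : Matrix n n ℂ)

/-- `M s z = (Y z) ^ (-s) X z`. -/
noncomputable def Dat.M (p : Dat n) (s : ℝ) (z : ℂ) : Matrix n n ℂ := N s (p.Y z) * p.X z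

/-- The sum of the `r ^ α` over the eigenvalues `r` of `M (sa α) z`. -/
noncomputable def Dat.S (p : Dat n) (α : ℝ) (z : ℂ) : ℂ :=
  es (fun r => r ^ (α : ℂ)) (p.M (sa α) z)

open scoped Classical in
/-- The contribution of the eigenvalues with `arg ≤ 0` to `- Im S (-y)`. -/
noncomputable def Dat.sp (p : Dat n) (α y : ℝ) : ℝ :=
  es (fun r => if r.arg ≤ 0 then -(r ^ (α : ℂ)).im else 0) (p.M (sa α) (-(y : ℂ)))

open scoped Classical in
/-- The contribution of the eigenvalues with `0 < arg` to `- Im S (-y)`. -/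
noncomputable def Dat.sm (p : Dat n) (α y : ℝ) : ℝ :=
  es (fun r => if r.arg ≤ 0 then 0 else -(r ^ (α : ℂ)).im) (p.M (sa α) (-(y : ℂ)))

end

open scoped Classical in
/-- The function `w`: `- Im Φ` where `arg Φ < 0`, and `0` elsewhere, for `Φ = r ^ α * (z + q) ^ (α - 1)`. -/
noncomputable def wf (α q : ℝ) (z r : ℂ) : ℝ :=
  if r.im < 0 ∧ α * r.arg + (α - 1) * (z + q).arg < 0 then
    -(r ^ (α : ℂ) * (z + q) ^ ((α - 1 : ℝ) : ℂ)).im else 0

section

variable {n : Type} [Fintype n] [DecidableEq n]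

/-- The subharmonic function on the upper half plane. -/
noncomputable def Dat.W (p : Dat n) (α q : ℝ) (z : ℂ) : ℝ := es (wf α q z) (p.M (sa α) z)

/-- The sandwiched quasi-relative entropy. -/
noncomputable def Psi (α : ℝ) (X Y : Matrix n n ℂ) : ℝ :=
  (cfc (fun x : ℝ => x ^ α) (cfc (fun x : ℝ => x ^ ((1 - α) / (2 * α))) Y * X *
    cfc (fun x : ℝ => x ^ ((1 - α) / (2 * α))) Y)).trace.re

end

end SRE
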