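import Mathlib
import Pool.Agent.Lib_MP_c281c2_an.Defs

/-!
# Piece EALG: eigenvalues with multiplicity, algebra

`mem_ev_iff`: `Polynomial.mem_roots`, `Matrix.mem_spectrum_iff_isRoot_charpoly`, `Matrix.exists_mulVec_eq_zero_iff` for
`r • 1 - M`. `card_ev`: `IsAlgClosed.splits`, `charpoly_natDegree_eq_dim`, `Polynomial.splits_iff_card_roots`.
`norm_ev_le`: `M v = r v`, `i` with `‖v i‖` maximal: `‖r‖ ‖v i‖ ≤ ∑ ‖M i j‖ ‖v j‖ ≤ card n * K * ‖v i‖`.
`ev_smul`, `ev_conjTranspose`: `charpoly (c • M)` has the roots `c r` (for `c = 0` all roots of `X ^ n` are zero; for `c ≠ 0`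
compare `∏ (X - c r)` with the characteristic polynomial by evaluation, `Matrix.eval_charpoly`, `det_smul`; or
`Polynomial.roots` of a product of linear factors); `charpoly_map` and `charpoly_transpose`, `Polynomial.roots_map`.
`es_poly` (trace of a polynomial of a matrix): for `μ : ℂ` factor `C μ - P = C a * ∏ (X - C β)` (`IsAlgClosed.splits`); `det (μ - P(M)) = a ^ n ∏_β det (M - β)`,
`det (M - β) = ∏_r (r - β)` (`det_eq_prod_roots_charpoly` for `M - β`, or `(-1) ^ n *` the characteristic polynomial at `β`, which is `∏_r (β - r)`), so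
`det (μ - P(M)) = ∏_r (μ - P(r))` for all `μ`; hence the characteristic polynomial of `P(M)` is `∏_r (X - C (P(r)))` (`Polynomial.funext`),
its roots are the `P(r)` (`Polynomial.roots_multiset_prod_X_sub_C`), and `Matrix.trace_eq_sum_roots_charpoly`.
-/

namespace SRE

open Matrix Complex MeasureTheory Filter Topology Polynomial

variable {n : Type} [Fintype n] [DecidableEq n]

private theorem EAlg_eval (M : Matrix n n ℂ) (μ : ℂ) :
    (μ • (1 : Matrix n n ℂ) - M).det = ((ev M).map (fun r => μ - r)).prod := by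
  have h1 := (IsAlgClosed.splits M.charpoly).eval_eq_prod_roots_of_monic M.charpoly_monic μ
  rw [Matrix.eval_charpoly, Matrix.scalar_apply, ← Matrix.smul_one_eq_diagonal] at h1
  exact h1

private theorem EAlg_ev {Q : Matrix n n ℂ} {s : Multiset ℂ}
    (h : ∀ μ : ℂ, (μ • (1 : Matrix n n ℂ) - Q).det = (s.map (fun r => μ - r)).prod) : ev Q = s := by
  have h1 : Q.charpoly = (s.map (fun r => X - C r)).prod := by
    refine Polynomial.funext fun μ => ?_
    rw [Matrix.eval_charpoly, Matrix.scalar_apply, ← Matrix.smul_one_eq_diagonal, h,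
      Polynomial.eval_multiset_prod, Multiset.map_map]
    simp
  unfold ev
  rw [h1, Polynomial.roots_multiset_prod_X_sub_C]

theorem card_ev (M : Matrix n n ℂ) : Multiset.card (ev M) = Fintype.card n := by
  rw [← Matrix.charpoly_natDegree_eq_dim M]
  exact (IsAlgClosed.splits M.charpoly).natDegree_eq_card_roots.symm

theorem mem_ev_iff_det {M : Matrix n n ℂ} {r : ℂ} :
    r ∈ ev M ↔ (r • (1 : Matrix n n ℂ) - M).det = 0 := by
  rw [Polynomial.mem_roots M.charpoly_monic.ne_zero, Polynomial.IsRoot.def, Matrix.eval_charpoly,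
    Matrix.scalar_apply, ← Matrix.smul_one_eq_diagonal]

theorem mem_ev_iff {M : Matrix n n ℂ} {r : ℂ} : r ∈ ev M ↔ ∃ v : n → ℂ, v ≠ 0 ∧ M *ᵥ v = r • v := by
  rw [mem_ev_iff_det, ← Matrix.exists_mulVec_eq_zero_iff]
  refine exists_congr fun v => and_congr_right fun _ => ?_
  rw [Matrix.sub_mulVec, Matrix.smul_mulVec, Matrix.one_mulVec, sub_eq_zero]
  exact eq_comm

theorem norm_ev_le {M : Matrix n n ℂ} {K : ℝ} (hM : ∀ i j, ‖M i j‖ ≤ K) {r : ℂ} (hr : r ∈ ev M) :
    ‖r‖ ≤ Fintype.card n * K := by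
  obtain ⟨v, hv, hMv⟩ := mem_ev_iff.1 hr
  obtain ⟨i₀, hi₀⟩ := Function.ne_iff.1 hv
  have : Nonempty n := ⟨i₀⟩
  obtain ⟨i, hi⟩ := Finite.exists_max fun i => ‖v i‖
  have hpos : 0 < ‖v i‖ := (norm_pos_iff.2 hi₀).trans_le (hi i₀)
  have hK : 0 ≤ K := (norm_nonneg _).trans (hM i i)
  have h1 : r * v i = ∑ j, M i j * v j := by
    have := congrFun hMv i
    rw [Pi.smul_apply, smul_eq_mul] at this
    rw [← this]
    rfl
  have h2 : ‖r‖ * ‖v i‖ ≤ Fintype.card n * K * ‖v i‖ := by
    calc ‖r‖ * ‖v i‖ = ‖∑ j, M i j * v j‖ := by rw [← norm_mul, h1]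
      _ ≤ ∑ j, ‖M i j * v j‖ := norm_sum_le _ _
      _ ≤ ∑ _j : n, K * ‖v i‖ := by
          refine Finset.sum_le_sum fun j _ => ?_
          rw [norm_mul]
          exact mul_le_mul (hM i j) (hi j) (norm_nonneg _) hK
      _ = Fintype.card n * K * ‖v i‖ := by
          rw [Finset.sum_const, Finset.card_univ, nsmul_eq_mul, mul_assoc]
  exact le_of_mul_le_mul_right h2 hpos

theorem ev_smul (c : ℂ) (M : Matrix n n ℂ) : ev (c • M) = (ev M).map (fun r => c * r) := by
  refine EAlg_ev fun μ => ?_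
  rw [Multiset.map_map]
  have hconst : ∀ a : ℂ, ((ev M).map (fun _ => a)).prod = a ^ Fintype.card n := by
    intro a
    rw [Multiset.map_const', Multiset.prod_replicate, card_ev]
  rcases eq_or_ne c 0 with rfl | hc
  · rw [zero_smul, sub_zero, Matrix.det_smul, Matrix.det_one, mul_one, ← hconst μ]
    simp
  · have h1 : μ • (1 : Matrix n n ℂ) - c • M = c • ((μ / c) • (1 : Matrix n n ℂ) - M) := by
      rw [smul_sub, smul_smul, mul_div_cancel₀ _ hc]
    rw [h1, Matrix.det_smul, EAlg_eval, ← hconst c, ← Multiset.prod_map_mul]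
    congr 1
    refine Multiset.map_congr rfl fun r _ => ?_
    simp only [Function.comp]
    rw [mul_sub, mul_div_cancel₀ _ hc]

theorem ev_conjTranspose (M : Matrix n n ℂ) : ev Mᴴ = (ev M).map (starRingEnd ℂ) := by
  have h1 : Mᴴ = (Mᵀ).map (starRingEnd ℂ) := rfl
  unfold ev
  rw [h1, Matrix.charpoly_map, Matrix.charpoly_transpose]
  exact (IsAlgClosed.splits M.charpoly).roots_map (starRingEnd ℂ)

theorem ev_mul_comm (M M' : Matrix n n ℂ) : ev (M * M') = ev (M' * M) := by
  unfold ev
  rw [Matrix.charpoly_mul_comm]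

private theorem EAlg_lin (M : Matrix n n ℂ) (β : ℂ) :
    (Polynomial.aeval M (X - C β)).det = ((ev M).map (fun r => (X - C β).eval r)).prod := by
  have h1 : Polynomial.aeval M (X - C β) = (-1 : ℂ) • (β • (1 : Matrix n n ℂ) - M) := by
    rw [map_sub, Polynomial.aeval_X, Polynomial.aeval_C, Algebra.algebraMap_eq_smul_one,
      neg_one_smul, neg_sub]
  have hconst : ((ev M).map (fun _ => (-1 : ℂ))).prod = (-1) ^ Fintype.card n := by
    rw [Multiset.map_const', Multiset.prod_replicate, card_ev]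
  rw [h1, Matrix.det_smul, EAlg_eval, ← hconst, ← Multiset.prod_map_mul]
  congr 1
  refine Multiset.map_congr rfl fun r _ => ?_
  simp

private theorem EAlg_prod (M : Matrix n n ℂ) (s : Multiset ℂ) :
    (Polynomial.aeval M (s.map (fun β => X - C β)).prod).det =
      ((ev M).map (fun r => (s.map (fun β => X - C β)).prod.eval r)).prod := by
  induction s using Multiset.induction_on with
  | empty => simp
  | cons β s ih =>
    rw [Multiset.map_cons, Multiset.prod_cons, map_mul, Matrix.det_mul, EAlg_lin, ih,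
      ← Multiset.prod_map_mul]
    congr 1
    refine Multiset.map_congr rfl fun r _ => ?_
    rw [Polynomial.eval_mul]

private theorem EAlg_det (M : Matrix n n ℂ) (Q : ℂ[X]) :
    (Polynomial.aeval M Q).det = ((ev M).map (fun r => Q.eval r)).prod := by
  have hQ := (IsAlgClosed.splits Q).eq_prod_roots
  have hconst : ((ev M).map (fun _ => Q.leadingCoeff)).prod = Q.leadingCoeff ^ Fintype.card n := by
    rw [Multiset.map_const', Multiset.prod_replicate, card_ev]
  have h1 : (Polynomial.aeval M Q).det = Q.leadingCoeff ^ Fintype.card n *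
      (Polynomial.aeval M (Q.roots.map (fun β => X - C β)).prod).det := by
    conv_lhs => rw [hQ]
    rw [map_mul, Matrix.det_mul, Polynomial.aeval_C, Algebra.algebraMap_eq_smul_one,
      Matrix.det_smul, Matrix.det_one, mul_one]
  rw [h1, EAlg_prod, ← hconst, ← Multiset.prod_map_mul]
  congr 1
  refine Multiset.map_congr rfl fun r _ => ?_
  conv_rhs => rw [hQ]
  rw [Polynomial.eval_mul, Polynomial.eval_C]

theorem es_poly (M : Matrix n n ℂ) (P : ℂ[X]) :
    es (fun r => P.eval r) M = (Polynomial.aeval M P).trace := by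
  have h1 : ev (Polynomial.aeval M P) = (ev M).map (fun r => P.eval r) := by
    refine EAlg_ev fun μ => ?_
    have h2 : μ • (1 : Matrix n n ℂ) - Polynomial.aeval M P = Polynomial.aeval M (C μ - P) := by
      rw [map_sub, Polynomial.aeval_C, Algebra.algebraMap_eq_smul_one]
    rw [h2, EAlg_det, Multiset.map_map]
    congr 1
    refine Multiset.map_congr rfl fun r _ => ?_
    simp
  rw [Matrix.trace_eq_sum_roots_charpoly]
  unfold es
  rw [← h1]

end SRE
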