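import Mathlib
import Pool.Agent.Lib_MP_c281c2_an.Defs
import Pool.Agent.Lib_MP_c281c2_an.EAlg

/-!
# Piece ECONT: continuity of sums over the eigenvalues

`es_tendsto`. By `tendsto_of_seq_tendsto` let `x k → l` be a sequence, and by `tendsto_of_subseq_tendsto` it is enough to find a good
subsequence of every subsequence. Let `r k : Fin m → ℂ` (`m = card n`) be a list of the roots of the characteristic polynomial of `M (x k)`:
`ev (M (x k)) = Multiset.map (r k) Finset.univ.val` (`card_ev`, `Multiset.toList`; or `Multiset.map_univ_coe`). The entries of `M (x k)`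
converge, so they are bounded by some `K`, and `‖r k i‖ ≤ card n * K` (`norm_ev_le`). By compactness (`IsCompact.tendsto_subseq` in
`Fin m → ℂ`, closed ball of the sup norm) `r (φ k) → ρ`. For `z : ℂ`: `∏_i (z - r k i) = det (z - M (x k)) → det (z - M₀)`
(`Matrix.eval_charpoly`, continuity of `det`), and `→ ∏_i (z - ρ i)`; so the characteristic polynomial of `M₀` is `∏ (X - C (ρ i))` and
`ev M₀ = Multiset.map ρ Finset.univ.val`. Then `es (f (x (φ k))) (M (x (φ k))) = ∑_i f (x (φ k)) (r (φ k) i) → ∑_i f₀ (ρ i) = es f₀ M₀`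
by the hypothesis (the pairs `(x (φ k), r (φ k) i)` converge to `(l ×ˢ 𝓝 (ρ i)) ⊓ 𝓟 {...}`).
-/

namespace SRE

open Matrix Complex MeasureTheory Filter Topology Polynomial

variable {n : Type} [Fintype n] [DecidableEq n]

private theorem ECont_list {m : ℕ} (s : Multiset ℂ) (hs : Multiset.card s = m) :
    ∃ r : Fin m → ℂ, s = Finset.univ.val.map r := by
  subst hs
  induction s using Quotient.inductionOn with
  | _ L =>
    refine ⟨fun i => L.get i, ?_⟩
    rw [Fin.univ_val_map]
    exact congrArg _ (List.ofFn_get L).symm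

private theorem ECont_charpoly {m : ℕ} (N : Matrix n n ℂ) (r : Fin m → ℂ)
    (hr : ev N = Finset.univ.val.map r) : N.charpoly = ∏ i, (X - C (r i)) := by
  have h1 : (N.charpoly.roots.map fun a => X - C a).prod = N.charpoly := by
    refine prod_multiset_X_sub_C_of_monic_of_roots_card_eq N.charpoly_monic ?_
    rw [Matrix.charpoly_natDegree_eq_dim]
    exact card_ev N
  have h2 : N.charpoly.roots = Finset.univ.val.map r := hr
  rw [← h1, h2, Multiset.map_map]
  rfl

private theorem ECont_eval {m : ℕ} (N : Matrix n n ℂ) (r : Fin m → ℂ)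
    (hr : ev N = Finset.univ.val.map r) (z : ℂ) :
    (Matrix.scalar n z - N).det = ∏ i, (z - r i) := by
  rw [← Matrix.eval_charpoly, ECont_charpoly N r hr, Polynomial.eval_prod]
  simp

private theorem ECont_es {m : ℕ} {E : Type} [AddCommMonoid E] (g : ℂ → E) (N : Matrix n n ℂ)
    (r : Fin m → ℂ) (hr : ev N = Finset.univ.val.map r) : es g N = ∑ i, g (r i) := by
  have h2 : ev N = Finset.univ.val.map r := hr
  unfold es
  rw [h2, Multiset.map_map]
  rfl

/-- **Continuity of the sums over the eigenvalues.** -/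
theorem es_tendsto {T : Type} {l : Filter T} [l.IsCountablyGenerated] {M : T → Matrix n n ℂ}
    {M₀ : Matrix n n ℂ} (hM : Tendsto M l (𝓝 M₀)) {E : Type} [NormedAddCommGroup E]
    {f : T → ℂ → E} {f₀ : ℂ → E}
    (hf : ∀ r ∈ ev M₀, Tendsto (fun x : T × ℂ => f x.1 x.2)
      ((l ×ˢ 𝓝 r) ⊓ 𝓟 {x : T × ℂ | x.2 ∈ ev (M x.1)}) (𝓝 (f₀ r))) :
    Tendsto (fun x => es (f x) (M x)) l (𝓝 (es f₀ M₀)) := by
  refine tendsto_of_subseq_tendsto fun ns hns => ?_
  have hM1 : Tendsto (fun k => M (ns k)) atTop (𝓝 M₀) := hM.comp hns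
  -- bound of the entries
  have hK : ∃ K : ℝ, ∀ k i j, ‖M (ns k) i j‖ ≤ K := by
    have h1 : Tendsto (fun k => (fun i j => M (ns k) i j : n → n → ℂ)) atTop
        (𝓝 (fun i j => M₀ i j)) := hM1
    have h2 := Metric.isBounded_range_of_tendsto _ h1
    obtain ⟨K, hK⟩ := isBounded_iff_forall_norm_le.1 h2
    refine ⟨K, fun k i j => ?_⟩
    have h3 := hK _ (Set.mem_range_self k)
    have h4 : ‖(fun j => M (ns k) i j : n → ℂ)‖ ≤ K :=
      le_trans (norm_le_pi_norm (fun i j => M (ns k) i j : n → n → ℂ) i) h3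
    exact le_trans (norm_le_pi_norm (fun j => M (ns k) i j : n → ℂ) j) h4
  obtain ⟨K, hK⟩ := hK
  have hlist : ∀ k, ∃ r : Fin (Fintype.card n) → ℂ, ev (M (ns k)) = Finset.univ.val.map r :=
    fun k => ECont_list _ (card_ev _)
  choose r hr using hlist
  have hmem : ∀ k i, r k i ∈ ev (M (ns k)) := by
    intro k i
    have h2 : ev (M (ns k)) = Finset.univ.val.map (r k) := hr k
    rw [h2]
    exact Multiset.mem_map.2 ⟨i, Finset.mem_univ_val i, rfl⟩
  have hball : ∀ k, r k ∈ Metric.closedBall (0 : Fin (Fintype.card n) → ℂ)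
      (max 0 (Fintype.card n * K)) := by
    intro k
    rw [mem_closedBall_zero_iff, pi_norm_le_iff_of_nonneg (le_max_left _ _)]
    intro i
    exact le_trans (norm_ev_le (hK k) (hmem k i)) (le_max_right _ _)
  obtain ⟨ρ, -, φ, hφ, hρ⟩ := (isCompact_closedBall _ _).tendsto_subseq hball
  have hρi : ∀ i, Tendsto (fun k => r (φ k) i) atTop (𝓝 (ρ i)) := fun i => (tendsto_pi_nhds.1 hρ) i
  have hev : ev M₀ = Finset.univ.val.map ρ := by
    have hpoly : M₀.charpoly = ∏ i, (X - C (ρ i)) := by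
      refine Polynomial.funext fun z => ?_
      rw [Matrix.eval_charpoly, Polynomial.eval_prod]
      have h1 : Tendsto (fun k => (Matrix.scalar n z - M (ns (φ k))).det) atTop
          (𝓝 (Matrix.scalar n z - M₀).det) := by
        have hc : Continuous fun N : Matrix n n ℂ => (Matrix.scalar n z - N).det :=
          (continuous_const.sub continuous_id).matrix_det
        exact (hc.tendsto M₀).comp (hM1.comp hφ.tendsto_atTop)
      have h2 : Tendsto (fun k => ∏ i, (z - r (φ k) i)) atTop (𝓝 (∏ i, (z - ρ i))) :=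
        tendsto_finsetProd _ fun i _ => tendsto_const_nhds.sub (hρi i)
      have h3 : (fun k => (Matrix.scalar n z - M (ns (φ k))).det) =
          fun k => ∏ i, (z - r (φ k) i) := by
        funext k
        exact ECont_eval _ _ (hr (φ k)) z
      rw [h3] at h1
      rw [tendsto_nhds_unique h1 h2]
      simp
    have h4 : ev M₀ = (∏ i, (X - C (ρ i)) : ℂ[X]).roots := by
      change M₀.charpoly.roots = _
      rw [hpoly]
    have h5 : (∏ i, (X - C (ρ i)) : ℂ[X]) = ((Finset.univ.val.map ρ).map fun a => X - C a).prod := by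
      rw [Multiset.map_map]
      rfl
    rw [h4, h5, roots_multiset_prod_X_sub_C]
  refine ⟨φ, ?_⟩
  have h1 : (fun k => es (f (ns (φ k))) (M (ns (φ k)))) =
      fun k => ∑ i, f (ns (φ k)) (r (φ k) i) := by
    funext k
    exact ECont_es _ _ _ (hr (φ k))
  rw [h1, ECont_es f₀ M₀ ρ hev]
  refine tendsto_finsetSum _ fun i _ => ?_
  have hi : ρ i ∈ ev M₀ := by
    rw [hev]
    exact Multiset.mem_map.2 ⟨i, Finset.mem_univ_val i, rfl⟩
  have h2 : Tendsto (fun k => (ns (φ k), r (φ k) i)) atTop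
      ((l ×ˢ 𝓝 (ρ i)) ⊓ 𝓟 {x : T × ℂ | x.2 ∈ ev (M x.1)}) := by
    refine tendsto_inf.2 ⟨(hns.comp hφ.tendsto_atTop).prodMk (hρi i), ?_⟩
    refine tendsto_principal.2 (Filter.Eventually.of_forall fun k => ?_)
    exact hmem (φ k) i
  exact (hf (ρ i) hi).comp h2

/-- The eigenvalues near the limit are near eigenvalues of the limit. -/
theorem ev_tendsto {T : Type} {l : Filter T} {M : T → Matrix n n ℂ}
    {M₀ : Matrix n n ℂ} (hM : Tendsto M l (𝓝 M₀)) {U : Set ℂ} (hU : ∀ r ∈ ev M₀, U ∈ 𝓝 r) :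
    ∀ᶠ x in l, ∀ r ∈ ev (M x), r ∈ U := by
  -- bound of the entries near `M₀`
  have hent : ∀ᶠ N : Matrix n n ℂ in 𝓝 M₀, ∀ i j, ‖N i j‖ ≤ ‖M₀ i j‖ + 1 := by
    rw [Filter.eventually_all]
    intro i
    rw [Filter.eventually_all]
    intro j
    have hc : Continuous fun N : Matrix n n ℂ => ‖N i j‖ := by fun_prop
    have h1 := hc.tendsto M₀
    filter_upwards [h1.eventually (gt_mem_nhds (show ‖M₀ i j‖ < ‖M₀ i j‖ + 1 by linarith))] with N hN
    exact hN.le
  obtain ⟨K, hK⟩ : ∃ K : ℝ, ∀ i j, ‖M₀ i j‖ + 1 ≤ K := by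
    refine ⟨∑ i, ∑ j, (‖M₀ i j‖ + 1), fun i j => ?_⟩
    have h1 : ‖M₀ i j‖ + 1 ≤ ∑ j, (‖M₀ i j‖ + 1) :=
      Finset.single_le_sum (f := fun j => ‖M₀ i j‖ + 1) (fun _ _ => by positivity) (Finset.mem_univ j)
    have h2 : ∑ j, (‖M₀ i j‖ + 1) ≤ ∑ i, ∑ j, (‖M₀ i j‖ + 1) :=
      Finset.single_le_sum (f := fun i => ∑ j, (‖M₀ i j‖ + 1)) (fun _ _ => by positivity)
        (Finset.mem_univ i)
    exact h1.trans h2
  set Z : Set ℂ := Metric.closedBall 0 (Fintype.card n * K) \ interior U with hZ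
  have hZc : IsCompact Z := (isCompact_closedBall _ _).diff isOpen_interior
  have hdet : ∀ᶠ N : Matrix n n ℂ in 𝓝 M₀, ∀ r ∈ Z, (r • (1 : Matrix n n ℂ) - N).det ≠ 0 := by
    refine hZc.eventually_forall_of_forall_eventually fun r hr => ?_
    have hne : (r • (1 : Matrix n n ℂ) - M₀).det ≠ 0 := by
      intro h0
      have h1 : r ∈ ev M₀ := mem_ev_iff_det.2 h0
      exact hr.2 (mem_interior_iff_mem_nhds.2 (hU r h1))
    have hc : Continuous fun x : Matrix n n ℂ × ℂ => (x.2 • (1 : Matrix n n ℂ) - x.1).det := by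
      exact ((continuous_snd.smul continuous_const).sub continuous_fst).matrix_det
    exact (hc.tendsto (M₀, r)).eventually (isOpen_ne.mem_nhds hne)
  filter_upwards [hM.eventually hent, hM.eventually hdet] with x h1 h2 r hr
  by_contra hrU
  have h3 : r ∈ Z := by
    refine ⟨?_, fun h => hrU (interior_subset h)⟩
    rw [mem_closedBall_zero_iff]
    exact norm_ev_le (fun i j => (h1 i j).trans (hK i j)) hr
  exact h2 r h3 (mem_ev_iff_det.1 hr)

end SRE
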