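import Mathlib
import Pool.Agent.Lib_MP_c281c2_an.Defs
import Pool.Agent.Lib_MP_c281c2_an.EAlg

/-!
# Piece EHER: Hermite interpolation and Hölder continuity of the eigenvalues

`exists_poly`: Let `T r` be the Taylor polynomial of degree `< m` of `φ r` at `r` (a polynomial in `X - C r`); `φ r z - (T r).eval z = O((z - r) ^ m)`
(`AnalyticAt`, `HasFPowerSeriesAt.isBigO_sub_partialSum_pow`). The ideals `((X - C r) ^ m)`, `r ∈ Z`, are pairwise coprime
(`Polynomial.pairwise_coprime_X_sub_C`, `IsCoprime.pow`), so by the Chinese remainder theorem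
(`Ideal.exists_forall_sub_mem_ideal`, or an induction on `Z` with Bezout) there is `P` with `(X - C r) ^ m ∣ P - T r` for all `r ∈ Z`.

`ev_near`: for `r ∈ ev (M z)`: `∏_{r₀ ∈ ev (M z₀)} (r - r₀) = det (r - M z₀) = det (r - M z₀) - det (r - M z)`, and with the coefficients `c_k(z)` of the
characteristic polynomial of `M z`, which are differentiable at `z₀` (polynomials in the entries: `Matrix.charpoly` coefficients are given by `MvPolynomial`s
(`Matrix.charpoly.univ`), or use that `(r, z) ↦ det (r - M z)` is a sum over permutations of products) so that `|c_k(z) - c_k(z₀)| ≤ C ‖z - z₀‖` near `z₀`, and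
`‖r‖` is bounded near `z₀` (`norm_ev_le`), the absolute value of this is `≤ C' ‖z - z₀‖`. One of the factors is the smallest.

`local_approx`: `P` from `exists_poly` with the exponent `card n * m` (if `m = 0` it is trivial: take exponent `card n * (m + 1)` or so); the value `P.eval r = φ r r` follows
from the `O`-estimate at `z = r` when the exponent is positive. For `z` near `z₀` and `r ∈ ev (M z)` take `r₀` from `ev_near`: `‖r - r₀‖` is small and
`‖φ r₀ r - P.eval r‖ ≤ C ‖r - r₀‖ ^ (card n * m) ≤ C' ‖z - z₀‖ ^ m`. (`ev (M z₀)` is finite: one constant for all `r₀`.)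
-/

namespace SRE

open Matrix Complex MeasureTheory Filter Topology Polynomial

variable {n : Type} [Fintype n] [DecidableEq n]

/-- The Taylor polynomial. -/
private theorem EHer_taylor (φ : ℂ → ℂ) (r : ℂ) (h : AnalyticAt ℂ φ r) (m : ℕ) :
    ∃ T : ℂ[X], (fun z => φ z - T.eval z) =O[𝓝 r] fun z => (z - r) ^ m := by
  obtain ⟨p, hp⟩ := h
  have h1 := hp.isBigO_sub_partialSum_pow m
  refine ⟨∑ k ∈ Finset.range m, Polynomial.C (p.coeff k) * (X - Polynomial.C r) ^ k, ?_⟩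
  have ht : Tendsto (fun z : ℂ => z - r) (𝓝 r) (𝓝 0) := by
    have h := (tendsto_id (α := ℂ) (x := 𝓝 r)).sub_const r
    simpa using h
  have h2 := h1.comp_tendsto ht
  have h3 : (fun z => ‖z - r‖ ^ m) =O[𝓝 r] fun z : ℂ => (z - r) ^ m := by
    refine Asymptotics.IsBigO.of_bound 1 (Eventually.of_forall fun z => ?_)
    simp
  refine (h2.trans h3).congr_left fun z => ?_
  simp only [Function.comp, add_sub_cancel, FormalMultilinearSeries.partialSum,
    Polynomial.eval_finsetSum, Polynomial.eval_mul, Polynomial.eval_C, Polynomial.eval_pow,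
    Polynomial.eval_sub, Polynomial.eval_X, FormalMultilinearSeries.apply_eq_pow_smul_coeff,
    smul_eq_mul]
  congr 1
  exact Finset.sum_congr rfl fun k _ => mul_comm _ _

/-- Chinese remainder theorem. -/
private theorem EHer_crt (Z : Finset ℂ) (T : ℂ → ℂ[X]) (m : ℕ) :
    ∃ P : ℂ[X], ∀ r ∈ Z, (X - Polynomial.C r) ^ m ∣ P - T r := by
  classical
  induction Z using Finset.induction_on with
  | empty => exact ⟨0, by simp⟩
  | insert a Z ha ih =>
    obtain ⟨P, hP⟩ := ih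
    have hc : IsCoprime ((X - Polynomial.C a : ℂ[X]) ^ m)
        (∏ s ∈ Z, (X - Polynomial.C s) ^ m) := by
      refine IsCoprime.prod_right fun s hs => IsCoprime.pow ?_
      refine Polynomial.isCoprime_X_sub_C_of_isUnit_sub ?_
      refine isUnit_iff_ne_zero.2 (sub_ne_zero.2 ?_)
      rintro rfl
      exact ha hs
    obtain ⟨u, v, huv⟩ := hc
    refine ⟨P + v * (∏ s ∈ Z, (X - Polynomial.C s) ^ m) * (T a - P), fun r hr => ?_⟩
    rcases Finset.mem_insert.1 hr with rfl | hr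
    · refine ⟨u * (P - T r), ?_⟩
      linear_combination (T r - P) * huv
    · have h1 := hP r hr
      have h2 : (X - Polynomial.C r : ℂ[X]) ^ m ∣ ∏ s ∈ Z, (X - Polynomial.C s) ^ m :=
        Finset.dvd_prod_of_mem (fun s => (X - Polynomial.C s : ℂ[X]) ^ m) hr
      have h3 : P + v * (∏ s ∈ Z, (X - Polynomial.C s) ^ m) * (T a - P) - T r =
          (P - T r) + v * (T a - P) * (∏ s ∈ Z, (X - Polynomial.C s) ^ m) := by ring
      rw [h3]
      exact dvd_add h1 (h2.mul_left _)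

theorem exists_poly (Z : Finset ℂ) (φ : ℂ → ℂ → ℂ) (hφ : ∀ r ∈ Z, AnalyticAt ℂ (φ r) r) (m : ℕ) :
    ∃ P : ℂ[X], ∀ r ∈ Z, (fun z => φ r z - P.eval z) =O[𝓝 r] fun z => (z - r) ^ m := by
  choose! T hT using fun r hr => EHer_taylor (φ r) r (hφ r hr) m
  obtain ⟨P, hP⟩ := EHer_crt Z T m
  refine ⟨P, fun r hr => ?_⟩
  obtain ⟨Q, hQ⟩ := hP r hr
  have h1 : (fun z => (z - r) ^ m * Q.eval z) =O[𝓝 r] fun z => (z - r) ^ m := by
    have h2 : (fun z => Q.eval z) =O[𝓝 r] fun _ => (1 : ℂ) :=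
      (Q.continuous.tendsto r).isBigO_one ℂ
    simpa using (Asymptotics.isBigO_refl (fun z : ℂ => (z - r) ^ m) (𝓝 r)).mul h2
  refine ((hT r hr).sub h1).congr_left fun z => ?_
  have h3 : P.eval z - (T r).eval z = (z - r) ^ m * Q.eval z := by
    rw [← Polynomial.eval_sub, hQ]
    simp
  linear_combination h3

private theorem EHer_pow_card_le_prod (s : Multiset ℝ) (a : ℝ) (ha : 0 ≤ a)
    (h : ∀ x ∈ s, a ≤ x) : a ^ Multiset.card s ≤ s.prod := by
  induction s using Multiset.induction_on with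
  | empty => simp
  | cons b s ih =>
    rw [Multiset.card_cons, Multiset.prod_cons, pow_succ, mul_comm]
    have hb := h b (Multiset.mem_cons_self _ _)
    have hi := ih (fun x hx => h x (Multiset.mem_cons_of_mem hx))
    exact mul_le_mul hb hi (pow_nonneg ha _) (ha.trans hb)

private theorem EHer_norm_prod (s : Multiset ℂ) : ‖s.prod‖ = (s.map fun a => ‖a‖).prod := by
  induction s using Multiset.induction_on with
  | empty => simp
  | cons b s ih => simp [ih]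

private theorem EHer_det (M : Matrix n n ℂ) (r : ℂ) :
    ‖(r • (1 : Matrix n n ℂ) - M).det‖ = ((ev M).map fun r₀ => ‖r - r₀‖).prod := by
  have h1 : M.charpoly = ((ev M).map fun a => X - Polynomial.C a).prod :=
    (IsAlgClosed.splits M.charpoly).eq_prod_roots_of_monic (M.charpoly_monic)
  have h2 : M.charpoly.eval r = (r • (1 : Matrix n n ℂ) - M).det := by
    rw [Matrix.eval_charpoly]
    congr 2
    ext i j
    simp [Matrix.scalar_apply, Matrix.diagonal_apply, Matrix.one_apply]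
  rw [← h2, h1, Polynomial.eval_multiset_prod, Multiset.map_map]
  rw [EHer_norm_prod, Multiset.map_map]
  congr 1
  exact Multiset.map_congr rfl fun a _ => by simp

/-- The determinant is Lipschitz on bounded sets. -/
private theorem EHer_lip : ∃ K : ℝ, 0 ≤ K ∧ ∀ (R : ℝ) (A B : Matrix n n ℂ) (e : ℝ), 0 ≤ R → 0 ≤ e →
    (∀ i j, ‖A i j‖ ≤ R) → (∀ i j, ‖B i j‖ ≤ R) → (∀ i j, ‖A i j - B i j‖ ≤ e) →
    ‖A.det - B.det‖ ≤ K * R ^ (Fintype.card n - 1) * e := by
  obtain ⟨K, hK, hb⟩ := (Matrix.detRowAlternating (n := n) (R := ℂ)).exists_bound_of_continuous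
    (by exact Continuous.matrix_det continuous_id)
  refine ⟨K * Fintype.card n, by positivity, fun R A B e hR he hA hB hAB => ?_⟩
  have h := (Matrix.detRowAlternating (n := n) (R := ℂ)).norm_image_sub_le_of_bound hK.le hb A B
  have hnA : @norm (n → n → ℂ) _ A ≤ R :=
    (pi_norm_le_iff_of_nonneg hR).2 fun i => (pi_norm_le_iff_of_nonneg hR).2 fun j => hA i j
  have hnB : @norm (n → n → ℂ) _ B ≤ R :=
    (pi_norm_le_iff_of_nonneg hR).2 fun i => (pi_norm_le_iff_of_nonneg hR).2 fun j => hB i j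
  have hn : @norm (n → n → ℂ) _ (A - B) ≤ e :=
    (pi_norm_le_iff_of_nonneg he).2 fun i => (pi_norm_le_iff_of_nonneg he).2 fun j => hAB i j
  refine h.trans ?_
  have h0 : (0 : ℝ) ≤ max (@norm (n → n → ℂ) _ A) (@norm (n → n → ℂ) _ B) :=
    le_max_of_le_left (norm_nonneg (E := n → n → ℂ) A)
  exact mul_le_mul (mul_le_mul_of_nonneg_left (pow_le_pow_left₀ h0 (max_le hnA hnB) _)
    (by positivity)) hn (norm_nonneg (E := n → n → ℂ) (A - B)) (by positivity)

theorem ev_near {M : ℂ → Matrix n n ℂ} {z₀ : ℂ}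
    (hM : ∀ i j, DifferentiableAt ℂ (fun z => M z i j) z₀) :
    ∃ C : ℝ, ∀ᶠ z in 𝓝 z₀, ∀ r ∈ ev (M z), ∃ r₀ ∈ ev (M z₀),
      ‖r - r₀‖ ^ Fintype.card n ≤ C * ‖z - z₀‖ := by
  obtain ⟨K, hK, hlip⟩ := EHer_lip (n := n)
  -- bounds of the entries
  have h1 : ∀ i j, ∃ c : ℝ, 0 ≤ c ∧ ∀ᶠ z in 𝓝 z₀, ‖M z i j - M z₀ i j‖ ≤ c * ‖z - z₀‖ := by
    intro i j
    have h := (hM i j).isBigO_sub
    obtain ⟨c, hc, hb⟩ := h.exists_nonneg
    exact ⟨c, hc, hb.bound⟩
  choose c hc hcb using h1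
  obtain ⟨c₀, hc₀, hcc⟩ : ∃ c₀ : ℝ, 0 ≤ c₀ ∧ ∀ i j, c i j ≤ c₀ := by
    refine ⟨∑ i, ∑ j, c i j, Finset.sum_nonneg fun i _ => Finset.sum_nonneg fun j _ => hc i j,
      fun i j => ?_⟩
    have h1 : c i j ≤ ∑ j, c i j :=
      Finset.single_le_sum (f := fun j => c i j) (fun j _ => hc i j) (Finset.mem_univ j)
    have h2 : ∑ j, c i j ≤ ∑ i, ∑ j, c i j :=
      Finset.single_le_sum (f := fun i => ∑ j, c i j)
        (fun i _ => Finset.sum_nonneg fun j _ => hc i j) (Finset.mem_univ i)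
    exact h1.trans h2
  obtain ⟨L, hL, hLb⟩ : ∃ L : ℝ, 0 ≤ L ∧ ∀ i j, ‖M z₀ i j‖ ≤ L := by
    refine ⟨∑ i, ∑ j, ‖M z₀ i j‖, by positivity, fun i j => ?_⟩
    have h1 : ‖M z₀ i j‖ ≤ ∑ j, ‖M z₀ i j‖ :=
      Finset.single_le_sum (f := fun j => ‖M z₀ i j‖) (fun j _ => norm_nonneg _)
        (Finset.mem_univ j)
    have h2 : ∑ j, ‖M z₀ i j‖ ≤ ∑ i, ∑ j, ‖M z₀ i j‖ :=
      Finset.single_le_sum (f := fun i => ∑ j, ‖M z₀ i j‖)
        (fun i _ => Finset.sum_nonneg fun j _ => norm_nonneg _) (Finset.mem_univ i)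
    exact h1.trans h2
  have hnear : ∀ᶠ z in 𝓝 z₀, ‖z - z₀‖ ≤ 1 := by
    have h := Metric.ball_mem_nhds z₀ one_pos
    filter_upwards [h] with z hz
    rw [← dist_eq_norm]
    exact (Metric.mem_ball.1 hz).le
  have hev : ∀ᶠ z in 𝓝 z₀, ∀ i j, ‖M z i j - M z₀ i j‖ ≤ c i j * ‖z - z₀‖ := by
    rw [Filter.eventually_all]
    intro i
    rw [Filter.eventually_all]
    intro j
    exact hcb i j
  set N : ℝ := (Fintype.card n : ℝ) with hN
  have hN0 : 0 ≤ N := by positivity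
  refine ⟨K * (N * (L + c₀) + (L + c₀)) ^ (Fintype.card n - 1) * c₀, ?_⟩
  filter_upwards [hnear, hev] with z hz hz2 r hr
  have hd : ∀ i j, ‖M z i j - M z₀ i j‖ ≤ c₀ * ‖z - z₀‖ := fun i j =>
    (hz2 i j).trans (mul_le_mul_of_nonneg_right (hcc i j) (norm_nonneg _))
  have hMz : ∀ i j, ‖M z i j‖ ≤ L + c₀ := by
    intro i j
    have h1 : ‖M z i j‖ ≤ ‖M z₀ i j‖ + ‖M z i j - M z₀ i j‖ := by
      have := norm_add_le (M z₀ i j) (M z i j - M z₀ i j)
      rwa [add_sub_cancel] at this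
    have h2 := hd i j
    have h3 : c₀ * ‖z - z₀‖ ≤ c₀ := mul_le_of_le_one_right hc₀ hz
    have h4 := hLb i j
    linarith
  have hr1 : ‖r‖ ≤ N * (L + c₀) := norm_ev_le hMz hr
  have hdet0 : (r • (1 : Matrix n n ℂ) - M z).det = 0 := mem_ev_iff_det.1 hr
  have hone : ∀ i j, ‖(r • (1 : Matrix n n ℂ)) i j‖ ≤ ‖r‖ := by
    intro i j
    rw [Matrix.smul_apply, Matrix.one_apply]
    split_ifs <;> simp
  have hA : ∀ i j, ‖(r • (1 : Matrix n n ℂ) - M z₀) i j‖ ≤ N * (L + c₀) + (L + c₀) := by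
    intro i j
    rw [Matrix.sub_apply]
    refine (norm_sub_le _ _).trans ?_
    have h1 := hone i j
    have h2 := hLb i j
    linarith
  have hB : ∀ i j, ‖(r • (1 : Matrix n n ℂ) - M z) i j‖ ≤ N * (L + c₀) + (L + c₀) := by
    intro i j
    rw [Matrix.sub_apply]
    refine (norm_sub_le _ _).trans ?_
    have h1 := hone i j
    have h2 := hMz i j
    linarith
  have hAB : ∀ i j, ‖(r • (1 : Matrix n n ℂ) - M z₀) i j - (r • (1 : Matrix n n ℂ) - M z) i j‖ ≤
      c₀ * ‖z - z₀‖ := by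
    intro i j
    have h1 : (r • (1 : Matrix n n ℂ) - M z₀) i j - (r • (1 : Matrix n n ℂ) - M z) i j =
        M z i j - M z₀ i j := by
      rw [Matrix.sub_apply, Matrix.sub_apply]
      ring
    rw [h1]
    exact hd i j
  have hlz := hlip (N * (L + c₀) + (L + c₀)) _ _ (c₀ * ‖z - z₀‖) (by positivity) (by positivity)
    hA hB hAB
  rw [hdet0, sub_zero, EHer_det] at hlz
  -- the closest eigenvalue
  have hne : Multiset.card (ev (M z₀)) ≠ 0 := by
    rw [card_ev, ← card_ev (M z)]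
    intro h0
    rw [Multiset.card_eq_zero] at h0
    rw [h0] at hr
    exact absurd hr (Multiset.notMem_zero _)
  have hne2 : (ev (M z₀)).toFinset.Nonempty := by
    rw [Finset.nonempty_iff_ne_empty, Ne, Multiset.toFinset_eq_empty]
    intro h0
    rw [h0] at hne
    simp at hne
  obtain ⟨r₀, hr₀, hmin⟩ := Finset.exists_min_image (ev (M z₀)).toFinset (fun a => ‖r - a‖) hne2
  refine ⟨r₀, Multiset.mem_toFinset.1 hr₀, ?_⟩
  have h5 := EHer_pow_card_le_prod ((ev (M z₀)).map fun a => ‖r - a‖) ‖r - r₀‖ (norm_nonneg _)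
    (by
      intro x hx
      obtain ⟨a, ha, rfl⟩ := Multiset.mem_map.1 hx
      exact hmin a (Multiset.mem_toFinset.2 ha))
  rw [Multiset.card_map, card_ev] at h5
  refine h5.trans (hlz.trans (le_of_eq ?_))
  ring

theorem local_approx {M : ℂ → Matrix n n ℂ} {z₀ : ℂ}
    (hM : ∀ i j, DifferentiableAt ℂ (fun z => M z i j) z₀) {φ : ℂ → ℂ → ℂ}
    (hφ : ∀ r ∈ ev (M z₀), AnalyticAt ℂ (φ r) r) (m : ℕ) :
    ∃ (P : ℂ[X]) (C : ℝ), (∀ r ∈ ev (M z₀), P.eval r = φ r r) ∧ ∀ η > 0, ∀ᶠ z in 𝓝 z₀,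
      ∀ r ∈ ev (M z), ∃ r₀ ∈ ev (M z₀), ‖r - r₀‖ < η ∧
        ‖φ r₀ r - P.eval r‖ ≤ C * ‖z - z₀‖ ^ m := by
  obtain ⟨P, hP⟩ := exists_poly (ev (M z₀)).toFinset φ
    (fun r hr => hφ r (Multiset.mem_toFinset.1 hr)) (Fintype.card n * (m + 1))
  obtain ⟨K, hK⟩ := ev_near hM
  have h1 : ∀ r ∈ (ev (M z₀)).toFinset, ∃ c : ℝ, 0 ≤ c ∧
      ∀ᶠ z in 𝓝 r, ‖φ r z - P.eval z‖ ≤ c * ‖(z - r) ^ (Fintype.card n * (m + 1))‖ := by
    intro r hr
    obtain ⟨c, hc, hb⟩ := (hP r hr).exists_nonneg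
    exact ⟨c, hc, hb.bound⟩
  choose! c hc hcb using h1
  set Z := (ev (M z₀)).toFinset with hZ
  have hc2 : ∀ r ∈ Z, c r ≤ ∑ a ∈ Z, c a := fun r hr =>
    Finset.single_le_sum (fun a ha => hc a ha) hr
  have hc3 : 0 ≤ ∑ a ∈ Z, c a := Finset.sum_nonneg hc
  -- a common radius
  have h2 : ∃ ε > 0, ∀ r ∈ Z, ∀ z, ‖z - r‖ < ε →
      ‖φ r z - P.eval z‖ ≤ c r * ‖(z - r) ^ (Fintype.card n * (m + 1))‖ := by
    have h3 : ∀ r ∈ Z, ∃ ε > 0, ∀ z, ‖z - r‖ < ε →
        ‖φ r z - P.eval z‖ ≤ c r * ‖(z - r) ^ (Fintype.card n * (m + 1))‖ := by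
      intro r hr
      obtain ⟨ε, hε, hb⟩ := Metric.eventually_nhds_iff.1 (hcb r hr)
      refine ⟨ε, hε, fun z hz => hb ?_⟩
      rw [dist_eq_norm]
      exact hz
    choose! e he heb using h3
    rcases Z.eq_empty_or_nonempty with hZe | hZe
    · exact ⟨1, one_pos, by simp [hZe]⟩
    · obtain ⟨r₁, hr₁, hmin⟩ := Finset.exists_min_image Z e hZe
      exact ⟨e r₁, he r₁ hr₁, fun r hr z hz => heb r hr z (hz.trans_le (hmin r hr))⟩
  obtain ⟨ε, hε, hεb⟩ := h2
  refine ⟨P, (∑ a ∈ Z, c a) * (max K 0) ^ (m + 1), ?_, ?_⟩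
  · intro r hr
    have hr' : r ∈ Z := Multiset.mem_toFinset.2 hr
    have hn : Fintype.card n ≠ 0 := by
      rw [← card_ev (M z₀)]
      intro h0
      rw [Multiset.card_eq_zero] at h0
      rw [h0] at hr
      exact absurd hr (Multiset.notMem_zero _)
    have h3 := hεb r hr' r (by simpa using hε)
    rw [sub_self, zero_pow (Nat.mul_ne_zero hn (Nat.succ_ne_zero m)), norm_zero, mul_zero] at h3
    have h4 := norm_le_zero_iff.1 h3
    exact (sub_eq_zero.1 h4).symm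
  · intro η hη
    set μ := min η ε with hμ
    have hμ0 : 0 < μ := lt_min hη hε
    have hsmall : ∀ᶠ z in 𝓝 z₀, max K 0 * ‖z - z₀‖ < μ ^ Fintype.card n := by
      have ht : Tendsto (fun z : ℂ => max K 0 * ‖z - z₀‖) (𝓝 z₀) (𝓝 0) := by
        have h : Continuous fun z : ℂ => max K 0 * ‖z - z₀‖ := by fun_prop
        simpa using h.tendsto z₀
      exact ht.eventually (gt_mem_nhds (pow_pos hμ0 _))
    have hnear : ∀ᶠ z in 𝓝 z₀, ‖z - z₀‖ ≤ 1 := by
      have h := Metric.ball_mem_nhds z₀ one_pos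
      filter_upwards [h] with z hz
      rw [← dist_eq_norm]
      exact (Metric.mem_ball.1 hz).le
    filter_upwards [hK, hsmall, hnear] with z hz1 hz2 hz3 r hr
    obtain ⟨r₀, hr₀, hb⟩ := hz1 r hr
    have hr₀' : r₀ ∈ Z := Multiset.mem_toFinset.2 hr₀
    have hb2 : ‖r - r₀‖ ^ Fintype.card n ≤ max K 0 * ‖z - z₀‖ :=
      hb.trans (mul_le_mul_of_nonneg_right (le_max_left _ _) (norm_nonneg _))
    have hlt : ‖r - r₀‖ < μ := by
      by_contra hcon
      push Not at hcon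
      have h3 := pow_le_pow_left₀ hμ0.le hcon (Fintype.card n)
      exact absurd (h3.trans hb2) (not_le.2 hz2)
    refine ⟨r₀, hr₀, hlt.trans_le (min_le_left _ _), ?_⟩
    have h4 := hεb r₀ hr₀' r (hlt.trans_le (min_le_right _ _))
    refine h4.trans ?_
    rw [norm_pow, pow_mul]
    have hK0 : 0 ≤ max K 0 := le_max_right _ _
    calc c r₀ * (‖r - r₀‖ ^ Fintype.card n) ^ (m + 1)
        ≤ (∑ a ∈ Z, c a) * (max K 0 * ‖z - z₀‖) ^ (m + 1) := by
          gcongr
          exact hc2 r₀ hr₀'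
      _ = (∑ a ∈ Z, c a) * (max K 0) ^ (m + 1) * ‖z - z₀‖ ^ m * ‖z - z₀‖ := by ring
      _ ≤ (∑ a ∈ Z, c a) * (max K 0) ^ (m + 1) * ‖z - z₀‖ ^ m :=
          mul_le_of_le_one_right (by positivity) hz3

end SRE
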