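import Mathlib
import Pool.Agent.Lib_MP_c281c2_an.Defs
import Pool.Agent.Lib_MP_c281c2_an.EAlg
import Pool.Agent.Lib_MP_c281c2_an.EHer

/-!
# Piece EHOL: sums over the eigenvalues of a holomorphic family

`differentiableAt_es`: `P`, `C` from `local_approx` with `φ r = f` for all `r`, `m = 2`. `h z = (aeval (M z) P).trace = es P.eval (M z)` (`es_poly`) is differentiable at `z₀` (entries of
products and sums; induction on `P` or `Polynomial.aeval_eq_sum_range`). `‖es f (M z) - h z‖ ≤ card n * C * ‖z - z₀‖ ^ 2` near `z₀` and `es f (M z₀) = h z₀`. So `es f (M z)` has the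
derivative of `h` at `z₀` (`HasDerivAt` from `isLittleO`).

`touch_es`: `P`, `C` from `local_approx` with `φ`, `m = 3`; `h z = k z * (aeval (M z) P).trace`, which is differentiable near `z₀`. `es (w z₀) (M z₀) = ∑_r Re (k z₀ * φ r r) = ∑_r Re (k z₀ * P r) = Re h z₀`.
Choose `η > 0` such that for all (finitely many) `r₀ ∈ ev (M z₀)` the inequality `hw` holds for `‖z - z₀‖ < η`, `‖r - r₀‖ < η`. For `z` near `z₀`, `r ∈ ev (M z)` and the corresponding `r₀`:
`w z r ≥ Re (k z * φ r₀ r) ≥ Re (k z * P r) - ‖k z‖ C ‖z - z₀‖ ^ 3`, and `‖k z‖` is bounded near `z₀`. Sum over `r ∈ ev (M z)` (`Multiset.sum_map_le_sum_map`).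
-/

namespace SRE

open Matrix Complex MeasureTheory Filter Topology Polynomial

variable {n : Type} [Fintype n] [DecidableEq n]

private theorem EHol_entries {M : ℂ → Matrix n n ℂ} {z₀ : ℂ}
    (hM : ∀ i j, DifferentiableAt ℂ (fun z => M z i j) z₀) (P : ℂ[X]) :
    ∀ i j, DifferentiableAt ℂ (fun z => (Polynomial.aeval (M z) P) i j) z₀ := by
  induction P using Polynomial.induction_on with
  | C a =>
    intro i j
    simp only [Polynomial.aeval_C]
    exact differentiableAt_const _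
  | add p q hp hq =>
    intro i j
    simp only [map_add, Matrix.add_apply]
    exact (hp i j).add (hq i j)
  | monomial k a ih =>
    intro i j
    have h1 : ∀ z, (Polynomial.aeval (M z) (Polynomial.C a * X ^ (k + 1))) i j =
        ∑ l, (Polynomial.aeval (M z) (Polynomial.C a * X ^ k)) i l * M z l j := by
      intro z
      rw [pow_succ, ← mul_assoc, map_mul, Polynomial.aeval_X, Matrix.mul_apply]
    simp only [h1]
    exact DifferentiableAt.fun_sum fun l _ => (ih i l).mul (hM l j)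

private theorem EHol_trace {M : ℂ → Matrix n n ℂ} {z₀ : ℂ}
    (hM : ∀ i j, DifferentiableAt ℂ (fun z => M z i j) z₀) (P : ℂ[X]) :
    DifferentiableAt ℂ (fun z => (Polynomial.aeval (M z) P).trace) z₀ := by
  simp only [Matrix.trace, Matrix.diag_apply]
  exact DifferentiableAt.fun_sum fun i _ => EHol_entries hM P i i

private theorem EHol_sum_le (s : Multiset ℂ) (f g : ℂ → ℝ) (c : ℝ)
    (h : ∀ r ∈ s, g r - c ≤ f r) : (s.map g).sum - Multiset.card s * c ≤ (s.map f).sum := by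
  induction s using Multiset.induction_on with
  | empty => simp
  | cons a s ih =>
    have h1 := h a (Multiset.mem_cons_self a s)
    have h2 := ih fun r hr => h r (Multiset.mem_cons_of_mem hr)
    rw [Multiset.map_cons, Multiset.map_cons, Multiset.sum_cons, Multiset.sum_cons,
      Multiset.card_cons]
    push_cast
    linarith

private theorem EHol_norm_sum (s : Multiset ℂ) (f g : ℂ → ℂ) (c : ℝ)
    (h : ∀ r ∈ s, ‖f r - g r‖ ≤ c) :
    ‖(s.map f).sum - (s.map g).sum‖ ≤ Multiset.card s * c := by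
  induction s using Multiset.induction_on with
  | empty => simp
  | cons a s ih =>
    have h1 := h a (Multiset.mem_cons_self a s)
    have h2 := ih fun r hr => h r (Multiset.mem_cons_of_mem hr)
    rw [Multiset.map_cons, Multiset.map_cons, Multiset.sum_cons, Multiset.sum_cons,
      Multiset.card_cons]
    have h3 : f a + (s.map f).sum - (g a + (s.map g).sum) =
        (f a - g a) + ((s.map f).sum - (s.map g).sum) := by ring
    rw [h3]
    refine (norm_add_le _ _).trans ?_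
    push_cast
    linarith

private theorem EHol_re (s : Multiset ℂ) (f : ℂ → ℂ) :
    (s.map fun r => (f r).re).sum = ((s.map f).sum).re := by
  induction s using Multiset.induction_on with
  | empty => simp
  | cons a s ih => simp [ih]

private theorem EHol_mul (s : Multiset ℂ) (f : ℂ → ℂ) (k : ℂ) :
    (s.map fun r => k * f r).sum = k * (s.map f).sum := by
  induction s using Multiset.induction_on with
  | empty => simp
  | cons a s ih => simp [ih, mul_add]

theorem differentiableAt_es {M : ℂ → Matrix n n ℂ} {z₀ : ℂ} {f : ℂ → ℂ}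
    (hM : ∀ᶠ z in 𝓝 z₀, ∀ i j, DifferentiableAt ℂ (fun z => M z i j) z)
    (hf : ∀ r ∈ ev (M z₀), AnalyticAt ℂ f r) :
    DifferentiableAt ℂ (fun z => es f (M z)) z₀ := by
  obtain ⟨P, C, -, hP⟩ := local_approx (φ := fun _ => f) hM.self_of_nhds hf 2
  have h1 := EHol_trace hM.self_of_nhds P
  have h2 : (fun z => es f (M z) - (Polynomial.aeval (M z) P).trace) =O[𝓝 z₀]
      fun z => ‖z - z₀‖ ^ 2 := by
    refine Asymptotics.IsBigO.of_bound (Fintype.card n * C) ?_
    filter_upwards [hP 1 one_pos] with z hz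
    rw [← es_poly]
    have h3 := EHol_norm_sum (ev (M z)) f (fun r => P.eval r) (C * ‖z - z₀‖ ^ 2) fun r hr => by
      obtain ⟨r₀, -, -, h⟩ := hz r hr
      exact h
    rw [card_ev] at h3
    refine h3.trans (le_of_eq ?_)
    rw [norm_pow, norm_norm]
    ring
  have h3 := (h2.hasFDerivAt (𝕜 := ℂ) (by norm_num)).differentiableAt
  have h4 := h3.add h1
  refine h4.congr_of_eventuallyEq (Eventually.of_forall fun z => ?_)
  simp

/-- A sum over the eigenvalues is touched from below by the real part of a holomorphic function. -/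
theorem touch_es {M : ℂ → Matrix n n ℂ} {z₀ : ℂ} {k : ℂ → ℂ} {w : ℂ → ℂ → ℝ} {φ : ℂ → ℂ → ℂ}
    (hM : ∀ᶠ z in 𝓝 z₀, ∀ i j, DifferentiableAt ℂ (fun z => M z i j) z)
    (hk : ∀ᶠ z in 𝓝 z₀, DifferentiableAt ℂ k z)
    (hφ : ∀ r ∈ ev (M z₀), AnalyticAt ℂ (φ r) r)
    (hw₀ : ∀ r ∈ ev (M z₀), w z₀ r = (k z₀ * φ r r).re)
    (hw : ∀ r₀ ∈ ev (M z₀), ∀ᶠ x : ℂ × ℂ in 𝓝 (z₀, r₀), (k x.1 * φ r₀ x.2).re ≤ w x.1 x.2) :
    ∃ (h : ℂ → ℂ) (C : ℝ), (∀ᶠ z in 𝓝 z₀, DifferentiableAt ℂ h z) ∧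
      es (w z₀) (M z₀) = (h z₀).re ∧
      ∀ᶠ z in 𝓝 z₀, (h z).re - C * ‖z - z₀‖ ^ 3 ≤ es (w z) (M z) := by
  obtain ⟨P, C, hP0, hP⟩ := local_approx (φ := φ) hM.self_of_nhds hφ 3
  obtain ⟨η, hη, hηw⟩ : ∃ η > 0, ∀ r₀ ∈ ev (M z₀), ∀ x : ℂ × ℂ, dist x (z₀, r₀) < η →
      (k x.1 * φ r₀ x.2).re ≤ w x.1 x.2 := by
    have h1 : ∀ r₀ ∈ (ev (M z₀)).toFinset, ∃ η > 0, ∀ x : ℂ × ℂ, dist x (z₀, r₀) < η →
        (k x.1 * φ r₀ x.2).re ≤ w x.1 x.2 := by
      intro r₀ hr₀
      obtain ⟨η, hη, h⟩ := Metric.eventually_nhds_iff.1 (hw r₀ (Multiset.mem_toFinset.1 hr₀))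
      exact ⟨η, hη, fun x hx => h hx⟩
    have h2 : ∀ Z : Finset ℂ, (∀ r₀ ∈ Z, ∃ η > 0, ∀ x : ℂ × ℂ, dist x (z₀, r₀) < η →
        (k x.1 * φ r₀ x.2).re ≤ w x.1 x.2) → ∃ η > 0, ∀ r₀ ∈ Z, ∀ x : ℂ × ℂ,
        dist x (z₀, r₀) < η → (k x.1 * φ r₀ x.2).re ≤ w x.1 x.2 := by
      intro Z
      induction Z using Finset.induction_on with
      | empty => intro _; exact ⟨1, one_pos, by simp⟩
      | insert a Z ha ih =>
        intro h
        obtain ⟨η₁, hη₁, h₁⟩ := ih fun r hr => h r (Finset.mem_insert_of_mem hr)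
        obtain ⟨η₂, hη₂, h₂⟩ := h a (Finset.mem_insert_self a Z)
        refine ⟨min η₁ η₂, lt_min hη₁ hη₂, fun r hr x hx => ?_⟩
        rcases Finset.mem_insert.1 hr with rfl | hr
        · exact h₂ x (hx.trans_le (min_le_right _ _))
        · exact h₁ r hr x (hx.trans_le (min_le_left _ _))
    obtain ⟨η, hη, h⟩ := h2 _ h1
    exact ⟨η, hη, fun r₀ hr₀ => h r₀ (Multiset.mem_toFinset.2 hr₀)⟩
  refine ⟨fun z => k z * (Polynomial.aeval (M z) P).trace,
    Fintype.card n * ((‖k z₀‖ + 1) * max C 0), ?_, ?_, ?_⟩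
  · filter_upwards [hM, hk] with z hz hkz
    exact hkz.mul (EHol_trace hz P)
  · have h1 : es (w z₀) (M z₀) = ((ev (M z₀)).map fun r => (k z₀ * P.eval r).re).sum := by
      unfold es
      congr 1
      refine Multiset.map_congr rfl fun r hr => ?_
      rw [hw₀ r hr, hP0 r hr]
    rw [h1, EHol_re, EHol_mul]
    change _ = (k z₀ * (Polynomial.aeval (M z₀) P).trace).re
    rw [← es_poly]
    rfl
  · have hkb : ∀ᶠ z in 𝓝 z₀, ‖k z‖ ≤ ‖k z₀‖ + 1 := by
      have h1 := hk.self_of_nhds.continuousAt.norm.eventually_lt_const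
        (show ‖k z₀‖ < ‖k z₀‖ + 1 by linarith)
      exact h1.mono fun z hz => hz.le
    filter_upwards [hP η hη, hkb, Metric.ball_mem_nhds z₀ hη] with z hz hkz hball
    have h1 := EHol_sum_le (ev (M z)) (w z) (fun r => (k z * P.eval r).re)
      ((‖k z₀‖ + 1) * max C 0 * ‖z - z₀‖ ^ 3) fun r hr => by
      obtain ⟨r₀, hr₀, h2, h3⟩ := hz r hr
      have h4 : (k z * φ r₀ r).re ≤ w z r := by
        refine hηw r₀ hr₀ (z, r) ?_
        rw [Prod.dist_eq]
        refine max_lt hball ?_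
        rw [dist_eq_norm]
        exact h2
      have h5 : (k z * P.eval r).re - (k z * φ r₀ r).re ≤ ‖k z‖ * ‖φ r₀ r - P.eval r‖ := by
        rw [← Complex.sub_re, ← mul_sub, ← norm_mul, ← norm_neg, ← mul_neg, neg_sub]
        exact Complex.re_le_norm _
      have h6 : ‖k z‖ * ‖φ r₀ r - P.eval r‖ ≤ (‖k z₀‖ + 1) * (max C 0 * ‖z - z₀‖ ^ 3) := by
        refine mul_le_mul hkz (h3.trans ?_) (norm_nonneg _) (by positivity)
        exact mul_le_mul_of_nonneg_right (le_max_left _ _) (by positivity)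
      rw [mul_assoc]
      linarith
    rw [card_ev, EHol_re, EHol_mul] at h1
    rw [← es_poly]
    refine le_trans (le_of_eq ?_) h1
    unfold es
    ring

end SRE
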