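import Mathlib

/-!
# Piece FGEN: derivatives of holomorphic functions, generalities

`deriv_tendsto`: for `r < ρ` the Cauchy estimates: `F κ → F 0` uniformly on the compact ball `closedBall 1 (ρ/2)` as `κ → 0+` (uniform continuity of `F` on the compact set `[0, κ₀] × closedBall 1 (ρ/2)`), so `TendstoLocallyUniformlyOn` on `ball 1 (ρ/2)`,
`TendstoLocallyUniformlyOn.deriv` `k` times (with `DifferentiableOn`; `iteratedDeriv_succ`).

`mono_deriv`: `h t = t ^ a * (iteratedDeriv 2 S t).re` is differentiable at `1` with the derivative `a * (iteratedDeriv 2 S 1).re + (iteratedDeriv 3 S 1).re` (real derivative of the real part of a holomorphic function on the real line: `HasDerivAt.real_of_complex`), and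
the derivative of a function which is monotone near `1` is `≥ 0`.

`mobius`: `G τ = (1 - τ) / 2 * F ((1 + τ) / (1 - τ))`, with `u = (1 + τ) / (1 - τ)`, `u' = 2 / (1 - τ) ^ 2`: `G' = - F(u) / 2 + F'(u) / (1 - τ)`, `G'' = 2 F''(u) / (1 - τ) ^ 3`, `G''' = 6 F''(u) / (1 - τ) ^ 4 + 4 F'''(u) / (1 - τ) ^ 5`, for complex `τ` near `0`
(`F` is holomorphic near `1`, so are its derivatives). `φ` is the real part of `G` on the real line near `0`: its iterated derivatives at `0` are the real parts of those of `G` (`HasDerivAt.real_of_complex` on a neighbourhood, by induction on the order: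
`iteratedDeriv k φ =ᶠ[𝓝 0] fun τ => (iteratedDeriv k G τ).re`).
-/

namespace SRE

open Complex MeasureTheory Filter Topology Metric

private theorem FGen_diffOn {S : ℂ → ℂ} {U : Set ℂ} (hU : IsOpen U)
    (hS : DifferentiableOn ℂ S U) (k : ℕ) : DifferentiableOn ℂ (iteratedDeriv k S) U := by
  induction k with
  | zero => rw [iteratedDeriv_zero]; exact hS
  | succ n ih => rw [iteratedDeriv_succ]; exact ih.deriv hU

theorem deriv_tendsto {F : ℝ → ℂ → ℂ} {κ₀ ρ : ℝ} (hκ : 0 < κ₀) (hρ : 0 < ρ)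
    (hc : ContinuousOn (fun x : ℝ × ℂ => F x.1 x.2) (Set.Icc 0 κ₀ ×ˢ closedBall 1 ρ))
    (hd : ∀ κ ∈ Set.Icc 0 κ₀, DifferentiableOn ℂ (F κ) (ball 1 ρ)) (k : ℕ) :
    Tendsto (fun κ => iteratedDeriv k (F κ) 1) (𝓝[>] 0) (𝓝 (iteratedDeriv k (F 0) 1)) := by
  have hev : ∀ᶠ κ : ℝ in 𝓝[>] 0, κ ∈ Set.Icc 0 κ₀ := by
    filter_upwards [Ioo_mem_nhdsGT hκ] with κ h
    exact ⟨h.1.le, h.2.le⟩
  have hu : TendstoLocallyUniformlyOn (fun κ => F κ) (F 0) (𝓝[>] (0 : ℝ)) (ball 1 ρ) := by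
    have h1 : TendstoUniformlyOn (fun κ => F κ) (F 0) (𝓝[>] (0 : ℝ)) (closedBall 1 ρ) := by
      rw [Metric.tendstoUniformlyOn_iff]
      intro ε hε
      have hK : IsCompact (Set.Icc 0 κ₀ ×ˢ closedBall (1 : ℂ) ρ) :=
        isCompact_Icc.prod (isCompact_closedBall 1 ρ)
      have huc := hK.uniformContinuousOn_of_continuous hc
      rw [Metric.uniformContinuousOn_iff] at huc
      obtain ⟨δ, hδ, h⟩ := huc ε hε
      filter_upwards [hev, Ioo_mem_nhdsGT hδ] with κ h1 h2 z hz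
      refine h (0, z) ⟨⟨le_rfl, hκ.le⟩, hz⟩ (κ, z) ⟨h1, hz⟩ ?_
      rw [Prod.dist_eq, dist_self, Real.dist_eq, zero_sub, abs_neg, abs_of_pos h2.1]
      exact max_lt h2.2 hδ
    exact (h1.mono ball_subset_closedBall).tendstoLocallyUniformlyOn
  have hall : ∀ n : ℕ, TendstoLocallyUniformlyOn (fun κ => iteratedDeriv n (F κ))
      (iteratedDeriv n (F 0)) (𝓝[>] (0 : ℝ)) (ball 1 ρ) := by
    intro n
    induction n with
    | zero => simpa only [iteratedDeriv_zero] using hu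
    | succ n ih =>
      have h2 := ih.deriv (hev.mono fun κ h => FGen_diffOn isOpen_ball (hd κ h) n) isOpen_ball
      simp only [iteratedDeriv_succ]
      exact h2
  exact (hall k).tendsto_at (mem_ball_self hρ)

theorem mono_deriv {S : ℂ → ℂ} (hS : DifferentiableOn ℂ S slitPlane) {a : ℝ}
    (hm : MonotoneOn (fun t : ℝ => t ^ a * (iteratedDeriv 2 S (t : ℂ)).re) (Set.Ioi 0)) :
    0 ≤ a * (iteratedDeriv 2 S 1).re + (iteratedDeriv 3 S 1).re := by
  have h1 : HasDerivAt (iteratedDeriv 2 S) (iteratedDeriv 3 S 1) ((1 : ℝ) : ℂ) := by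
    rw [ofReal_one, iteratedDeriv_succ (n := 2)]
    exact ((FGen_diffOn isOpen_slitPlane hS 2).differentiableAt
      (isOpen_slitPlane.mem_nhds one_mem_slitPlane)).hasDerivAt
  have h2 := h1.real_of_complex
  have h3 : HasDerivAt (fun t : ℝ => t ^ a) (a * (1 : ℝ) ^ (a - 1)) 1 :=
    Real.hasDerivAt_rpow_const (Or.inl one_ne_zero)
  have h4 := h3.mul h2
  rw [Real.one_rpow, Real.one_rpow, mul_one, one_mul, ofReal_one] at h4
  have h5 : AccPt (1 : ℝ) (𝓟 (Set.Ioi 0)) :=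
    uniqueDiffWithinAt_iff_accPt.1 (isOpen_Ioi.uniqueDiffWithinAt (Set.mem_Ioi.2 one_pos))
  exact (h4.hasDerivWithinAt (s := Set.Ioi 0)).nonneg_of_monotoneOn h5 hm

private theorem FGen_iter {G : ℂ → ℂ} (hG : AnalyticAt ℂ G 0) (k : ℕ) :
    iteratedDeriv k (fun τ : ℝ => (G τ).re) =ᶠ[𝓝 0] fun τ : ℝ => (iteratedDeriv k G τ).re := by
  obtain ⟨U, hU, hUo, h0⟩ := _root_.eventually_nhds_iff.1
    (analyticAt_iff_eventually_differentiableAt.1 hG)
  have hd : DifferentiableOn ℂ G U := fun z hz => (hU z hz).differentiableWithinAt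
  have hev : ∀ᶠ τ : ℝ in 𝓝 0, (τ : ℂ) ∈ U := by
    have h1 : Tendsto (fun τ : ℝ => (τ : ℂ)) (𝓝 0) (𝓝 0) := by
      have h2 := continuous_ofReal.tendsto (0 : ℝ)
      rwa [ofReal_zero] at h2
    exact h1 (hUo.mem_nhds h0)
  induction k with
  | zero => simp only [iteratedDeriv_zero]; rfl
  | succ n ih =>
    rw [iteratedDeriv_succ]
    refine ih.deriv.trans ?_
    filter_upwards [hev] with τ hτ
    have h1 : HasDerivAt (iteratedDeriv n G) (iteratedDeriv (n + 1) G τ) (τ : ℂ) := by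
      rw [iteratedDeriv_succ]
      exact ((FGen_diffOn hUo hd n).differentiableAt (hUo.mem_nhds hτ)).hasDerivAt
    exact h1.real_of_complex.deriv

theorem mobius {F : ℂ → ℂ} {φ : ℝ → ℝ} (hF : ∀ᶠ z in 𝓝 (1 : ℂ), DifferentiableAt ℂ F z)
    (hφ : ∀ᶠ τ : ℝ in 𝓝 0, φ τ = (1 - τ) / 2 * (F (((1 + τ) / (1 - τ) : ℝ) : ℂ)).re) :
    ContDiffAt ℝ ⊤ φ 0 ∧ iteratedDeriv 2 φ 0 = 2 * (iteratedDeriv 2 F 1).re ∧
      iteratedDeriv 3 φ 0 = 6 * (iteratedDeriv 2 F 1).re + 4 * (iteratedDeriv 3 F 1).re := by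
  have hA0 : AnalyticAt ℂ F 1 := analyticAt_iff_eventually_differentiableAt.2 hF
  set F1 : ℂ → ℂ := deriv F with hF1
  set F2 : ℂ → ℂ := deriv F1 with hF2
  set F3 : ℂ → ℂ := deriv F2 with hF3
  have hA1 : AnalyticAt ℂ F1 1 := hA0.deriv
  have hA2 : AnalyticAt ℂ F2 1 := hA1.deriv
  set u : ℂ → ℂ := fun τ => (1 + τ) / (1 - τ) with hu
  have hu0 : u 0 = 1 := by simp [hu]
  have hne : (1 : ℂ) - 0 ≠ 0 := by simp
  have huA : AnalyticAt ℂ u 0 :=
    (analyticAt_const.add analyticAt_id).div (analyticAt_const.sub analyticAt_id) hne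
  set G : ℂ → ℂ := fun τ => (1 - τ) / 2 * F (u τ) with hG
  have hGA : AnalyticAt ℂ G 0 := by
    refine AnalyticAt.mul ?_ (AnalyticAt.comp (g := F) (f := u) (by rw [hu0]; exact hA0) huA)
    exact (analyticAt_const.sub analyticAt_id).div_const
  -- derivatives
  have hcont : Tendsto u (𝓝 0) (𝓝 1) := by
    have h1 := huA.continuousAt.tendsto
    rwa [hu0] at h1
  have hev1 : ∀ᶠ τ : ℂ in 𝓝 0, (1 : ℂ) - τ ≠ 0 := by
    have h1 : ContinuousAt (fun τ : ℂ => (1 : ℂ) - τ) 0 := by fun_prop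
    exact h1.eventually_ne hne
  have huD : ∀ τ : ℂ, (1 : ℂ) - τ ≠ 0 → HasDerivAt u (2 / (1 - τ) ^ 2) τ := by
    intro τ h
    have h1 : HasDerivAt (fun τ : ℂ => 1 + τ) 1 τ := (hasDerivAt_id τ).const_add 1
    have h2 : HasDerivAt (fun τ : ℂ => 1 - τ) (-1) τ := (hasDerivAt_id τ).const_sub 1
    have h3 := h1.div h2 h
    have h4 : (2 : ℂ) / (1 - τ) ^ 2 = (1 * (1 - τ) - (1 + τ) * -1) / (1 - τ) ^ 2 := by ring
    rw [h4]
    exact h3
  have hD : ∀ {H : ℂ → ℂ}, AnalyticAt ℂ H 1 → ∀ᶠ τ : ℂ in 𝓝 0,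
      HasDerivAt (fun τ => H (u τ)) (deriv H (u τ) * (2 / (1 - τ) ^ 2)) τ := by
    intro H hH
    have h1 : ∀ᶠ τ : ℂ in 𝓝 0, DifferentiableAt ℂ H (u τ) :=
      hcont (analyticAt_iff_eventually_differentiableAt.1 hH)
    filter_upwards [h1, hev1] with τ h2 h3
    exact HasDerivAt.comp τ h2.hasDerivAt (huD τ h3)
  have hG1 : deriv G =ᶠ[𝓝 0] fun τ => -F (u τ) / 2 + F1 (u τ) / (1 - τ) := by
    filter_upwards [hD hA0, hev1] with τ h1 h2
    have h3 : HasDerivAt (fun τ : ℂ => (1 - τ) / 2) (-1 / 2) τ :=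
      ((hasDerivAt_id τ).const_sub 1).div_const 2
    have h4 := h3.mul h1
    refine h4.deriv.trans ?_
    rw [hF1]
    field_simp
  have hG2 : deriv (deriv G) =ᶠ[𝓝 0] fun τ => 2 * F2 (u τ) / (1 - τ) ^ 3 := by
    refine hG1.deriv.trans ?_
    filter_upwards [hD hA0, hD hA1, hev1] with τ h1 h2 h3
    have h4 : HasDerivAt (fun τ : ℂ => 1 - τ) (-1) τ := (hasDerivAt_id τ).const_sub 1
    have h5 := (h1.neg.div_const 2).add (h2.div h4 h3)
    refine h5.deriv.trans ?_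
    rw [hF2, hF1]
    field_simp
    ring
  have hG3 : deriv (deriv (deriv G)) 0 = 6 * F2 1 + 4 * F3 1 := by
    rw [hG2.deriv_eq]
    have h1 := (hD hA2).self_of_nhds
    have h4 : HasDerivAt (fun τ : ℂ => (1 - τ) ^ 3) (((3 : ℕ) : ℂ) * (1 - 0) ^ (3 - 1) * (-1)) 0 :=
      ((hasDerivAt_id (0 : ℂ)).const_sub 1).pow 3
    have h5 := (h1.const_mul 2).div h4 (by simp)
    refine h5.deriv.trans ?_
    rw [hu0, hF3]
    simp
    ring
  have hφG : φ =ᶠ[𝓝 0] fun τ : ℝ => (G τ).re := by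
    filter_upwards [hφ] with τ h
    rw [h, hG]
    show _ = ((1 - (τ : ℂ)) / 2 * F (u τ)).re
    have h1 : (1 - (τ : ℂ)) / 2 = (((1 - τ) / 2 : ℝ) : ℂ) := by push_cast; ring
    have h2 : u τ = (((1 + τ) / (1 - τ) : ℝ) : ℂ) := by rw [hu]; push_cast; ring
    rw [h1, h2, re_ofReal_mul]
  have hk : ∀ k, iteratedDeriv k φ 0 = (iteratedDeriv k G 0).re := by
    intro k
    have h1 : iteratedDeriv k φ =ᶠ[𝓝 0] iteratedDeriv k (fun τ : ℝ => (G τ).re) := by
      induction k with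
      | zero => simpa only [iteratedDeriv_zero] using hφG
      | succ n ih => rw [iteratedDeriv_succ, iteratedDeriv_succ]; exact ih.deriv
    have h2 := (h1.trans (FGen_iter hGA k)).self_of_nhds
    simpa only [ofReal_zero] using h2
  refine ⟨?_, ?_, ?_⟩
  · have h1 : AnalyticAt ℝ (fun τ : ℝ => (G τ).re) 0 := by
      have h2 : AnalyticAt ℝ G ((0 : ℝ) : ℂ) := by
        rw [ofReal_zero]
        exact hGA.restrictScalars
      exact (reCLM.analyticAt _).comp (AnalyticAt.comp (g := G) (f := fun τ : ℝ => (τ : ℂ)) h2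
        (ofRealCLM.analyticAt 0))
    exact (h1.congr hφG.symm).contDiffAt
  · rw [hk 2, iteratedDeriv_succ, iteratedDeriv_one, hG2.self_of_nhds]
    show (2 * F2 (u 0) / (1 - 0) ^ 3).re = _
    have h1 : iteratedDeriv 2 F 1 = F2 1 := by rw [iteratedDeriv_succ, iteratedDeriv_one]
    rw [h1, hu0, sub_zero, one_pow, div_one]
    simp
  · rw [hk 3]
    have h1 : iteratedDeriv 2 F 1 = F2 1 := by rw [iteratedDeriv_succ, iteratedDeriv_one]
    have h2 : iteratedDeriv 3 F 1 = F3 1 := by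
      rw [iteratedDeriv_succ, iteratedDeriv_succ, iteratedDeriv_one]
    have h3 : iteratedDeriv 3 G 0 = deriv (deriv (deriv G)) 0 := by
      rw [iteratedDeriv_succ, iteratedDeriv_succ, iteratedDeriv_one]
    rw [h1, h2, h3, hG3]
    simp

end SRE
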