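import Mathlib
import Pool.Agent.Lib_MP_c281c2_an.Defs
import Pool.Agent.Lib_MP_c281c2_an.EAlg

/-!
# Piece NINT: the integral for `Y ^ (-s)`: convergence and continuity

Useful bounds. For large `l` (`l > 2 * card n * K` if all `‖Y i j‖ ≤ K`) the entries of `(l + Y)⁻¹` are at most `2 / l` (or `C / l`): if `(l + Y) v = e_j` then
`l ‖v‖ ≤ 1 + card n * K * ‖v‖` in the sup norm. (Alternatively with the operator norm, `open scoped Matrix.Norms.Operator`.) For `l` in a compact interval `[0, R]` and `Y` in a neighbourhood of `Y₀` with `Sec Y₀` the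
inverse is bounded, as `(l, Y) ↦ (l + Y)⁻¹` is continuous at the points with `det ≠ 0` (`Matrix.inv_def`, `Ring.inverse` of the determinant, adjugate), and a tube lemma (`IsCompact`).

`isOpen_sec`: for `Sec Y₀`: `{(l, Y) | det (l + Y) ≠ 0}` is open and contains `[0, R] × {Y₀}`; for `l > R` it is automatic if the entries of `Y` are bounded by `K`.
`exists_bound`: a constant `C` and a neighbourhood: `∀ᶠ Y in 𝓝 Y₀, ∀ l ≥ 0, ∀ i j, ‖((l : ℂ) • 1 + Y)⁻¹ i j‖ ≤ C / (1 + l)`.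
`Kc_pos`: the integrand is positive and integrable (`l ^ (-s)` near `0`, `l ^ (-s-1)` at `∞`). `Kc_tendsto`, `N_tendsto`: dominated convergence
(`tendsto_integral_filter_of_dominated_convergence`) with the bound `(l ^ (-s₁) + l ^ (-s₂)) * C / (1 + l)`, `0 < s₁ < s < s₂ < 1`.
-/

namespace SRE

open Matrix Complex MeasureTheory Filter Topology

variable {n : Type} [Fintype n] [DecidableEq n]

private theorem nint_inv_apply (Z : Matrix n n ℂ) (i j : n) :
    Z⁻¹ i j = (Z.det)⁻¹ * Z.adjugate i j := by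
  rw [Matrix.inv_def, Matrix.smul_apply, Ring.inverse_eq_inv', smul_eq_mul]

omit [Fintype n] in
private theorem nint_cont_aff : Continuous (fun q : Matrix n n ℂ × ℝ =>
    ((q.2 : ℂ) • (1 : Matrix n n ℂ) + q.1)) := by
  fun_prop

private theorem nint_contAt {Y : Matrix n n ℂ} {l : ℝ}
    (h : ((l : ℂ) • (1 : Matrix n n ℂ) + Y).det ≠ 0) (i j : n) :
    ContinuousAt (fun q : Matrix n n ℂ × ℝ => ((q.2 : ℂ) • (1 : Matrix n n ℂ) + q.1)⁻¹ i j)
      (Y, l) := by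
  have h1 : (fun q : Matrix n n ℂ × ℝ => ((q.2 : ℂ) • (1 : Matrix n n ℂ) + q.1)⁻¹ i j) =
      fun q => (((q.2 : ℂ) • (1 : Matrix n n ℂ) + q.1).det)⁻¹ *
        ((q.2 : ℂ) • (1 : Matrix n n ℂ) + q.1).adjugate i j := by
    funext q
    exact nint_inv_apply _ _ _
  rw [h1]
  refine ContinuousAt.mul (ContinuousAt.inv₀ ?_ h) ?_
  · exact (nint_cont_aff.matrix_det).continuousAt
  · exact ((nint_cont_aff.matrix_adjugate).matrix_elem i j).continuousAt

omit [DecidableEq n] in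
private theorem nint_mulVec_le {Y : Matrix n n ℂ} {K : ℝ} (hK : 0 ≤ K) (hY : ∀ i j, ‖Y i j‖ ≤ K)
    (v : n → ℂ) : ‖Y *ᵥ v‖ ≤ Fintype.card n * K * ‖v‖ := by
  rw [pi_norm_le_iff_of_nonneg (by positivity)]
  intro i
  calc ‖(Y *ᵥ v) i‖ = ‖∑ j, Y i j * v j‖ := rfl
    _ ≤ ∑ j, ‖Y i j * v j‖ := norm_sum_le _ _
    _ ≤ ∑ _j : n, K * ‖v‖ := by
        refine Finset.sum_le_sum fun j _ => ?_
        rw [norm_mul]
        exact mul_le_mul (hY i j) (norm_le_pi_norm v j) (norm_nonneg _) hK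
    _ = Fintype.card n * K * ‖v‖ := by
        rw [Finset.sum_const, Finset.card_univ, nsmul_eq_mul]
        ring

private theorem nint_large {Y : Matrix n n ℂ} {K : ℝ} (hK : 0 ≤ K) (hY : ∀ i j, ‖Y i j‖ ≤ K)
    {l : ℝ} (hl : 2 * (Fintype.card n * K) ≤ l) (hl1 : 1 ≤ l) :
    ((l : ℂ) • (1 : Matrix n n ℂ) + Y).det ≠ 0 ∧
      ∀ i j, ‖((l : ℂ) • (1 : Matrix n n ℂ) + Y)⁻¹ i j‖ ≤ 4 / (1 + l) := by
  set Z := (l : ℂ) • (1 : Matrix n n ℂ) + Y with hZ
  have hd : 0 ≤ Fintype.card n * K := by positivity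
  have key : ∀ v : n → ℂ, l / 2 * ‖v‖ ≤ ‖Z *ᵥ v‖ := by
    intro v
    have h1 : Z *ᵥ v = (l : ℂ) • v + Y *ᵥ v := by
      rw [hZ, Matrix.add_mulVec, Matrix.smul_mulVec, Matrix.one_mulVec]
    have h2 : ‖(l : ℂ) • v‖ = l * ‖v‖ := by
      rw [norm_smul, Complex.norm_real, Real.norm_of_nonneg (by linarith)]
    have h3 := nint_mulVec_le hK hY v
    have h4 : ‖(l : ℂ) • v‖ ≤ ‖Z *ᵥ v‖ + ‖Y *ᵥ v‖ := by
      have : (l : ℂ) • v = Z *ᵥ v - Y *ᵥ v := by rw [h1]; abel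
      rw [this]
      exact norm_sub_le _ _
    rw [h2] at h4
    nlinarith [norm_nonneg v]
  have hdet : Z.det ≠ 0 := by
    intro h0
    obtain ⟨v, hv, hv2⟩ := Matrix.exists_mulVec_eq_zero_iff.2 h0
    have h1 := key v
    rw [hv2, norm_zero] at h1
    have h2 : 0 < ‖v‖ := norm_pos_iff.2 hv
    nlinarith
  refine ⟨hdet, fun i j => ?_⟩
  have hunit : IsUnit Z.det := isUnit_iff_ne_zero.2 hdet
  have h1 := key (fun k => Z⁻¹ k j)
  have h2 : Z *ᵥ (fun k => Z⁻¹ k j) = fun k => (1 : Matrix n n ℂ) k j := by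
    funext k
    rw [← Matrix.mul_nonsing_inv Z hunit]
    rfl
  rw [h2] at h1
  have h3 : ‖(fun k => (1 : Matrix n n ℂ) k j)‖ ≤ 1 := by
    rw [pi_norm_le_iff_of_nonneg zero_le_one]
    intro k
    rw [Matrix.one_apply]
    split_ifs <;> simp
  have h4 : ‖Z⁻¹ i j‖ ≤ ‖(fun k => Z⁻¹ k j)‖ := norm_le_pi_norm (fun k => Z⁻¹ k j) i
  have h5 : l / 2 * ‖Z⁻¹ i j‖ ≤ 1 := by
    have : l / 2 * ‖Z⁻¹ i j‖ ≤ l / 2 * ‖(fun k => Z⁻¹ k j)‖ :=
      mul_le_mul_of_nonneg_left h4 (by linarith)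
    linarith
  rw [le_div_iff₀ (by linarith)]
  nlinarith [norm_nonneg (Z⁻¹ i j)]

theorem exists_bound {Y₀ : Matrix n n ℂ} (h₀ : Sec Y₀) :
    ∃ C : ℝ, 0 < C ∧ ∀ᶠ Y in 𝓝 Y₀, Sec Y ∧
      ∀ l : ℝ, 0 ≤ l → ∀ i j, ‖((l : ℂ) • (1 : Matrix n n ℂ) + Y)⁻¹ i j‖ ≤ C / (1 + l) := by
  -- a bound for the entries
  set K : ℝ := 1 + ∑ i, ∑ j, ‖Y₀ i j‖ with hK
  have hK0 : 0 ≤ K := by positivity
  have hKev : ∀ᶠ Y in 𝓝 Y₀, ∀ i j, ‖Y i j‖ ≤ K := by
    rw [eventually_all]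
    intro i
    rw [eventually_all]
    intro j
    have h1 : Tendsto (fun Y : Matrix n n ℂ => ‖Y i j‖) (𝓝 Y₀) (𝓝 ‖Y₀ i j‖) := by
      have : Continuous fun Y : Matrix n n ℂ => ‖Y i j‖ := by fun_prop
      exact this.tendsto Y₀
    have h2 : ‖Y₀ i j‖ < K := by
      have h3 : ‖Y₀ i j‖ ≤ ∑ j, ‖Y₀ i j‖ :=
        Finset.single_le_sum (f := fun j => ‖Y₀ i j‖) (fun _ _ => norm_nonneg _) (Finset.mem_univ j)
      have h4 : ∑ j, ‖Y₀ i j‖ ≤ ∑ i, ∑ j, ‖Y₀ i j‖ :=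
        Finset.single_le_sum (f := fun i => ∑ j, ‖Y₀ i j‖)
          (fun _ _ => Finset.sum_nonneg fun _ _ => norm_nonneg _) (Finset.mem_univ i)
      rw [hK]
      linarith
    exact (h1.eventually (gt_mem_nhds h2)).mono fun Y hY => hY.le
  set R : ℝ := max 1 (2 * (Fintype.card n * K)) with hR
  have hR1 : 1 ≤ R := le_max_left _ _
  have hR2 : 2 * (Fintype.card n * K) ≤ R := le_max_right _ _
  -- the compact part
  set g : Matrix n n ℂ → ℝ → ℝ := fun Y l =>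
    ∑ i, ∑ j, ‖((l : ℂ) • (1 : Matrix n n ℂ) + Y)⁻¹ i j‖ with hg
  have hgc : ∀ l : ℝ, 0 ≤ l → ContinuousAt (fun q : Matrix n n ℂ × ℝ => g q.1 q.2) (Y₀, l) := by
    intro l hl
    refine tendsto_finsetSum _ fun i _ => tendsto_finsetSum _ fun j _ => ?_
    exact (nint_contAt (h₀ l hl) i j).norm
  obtain ⟨M, hM⟩ : ∃ M : ℝ, ∀ l ∈ Set.Icc (0 : ℝ) R, g Y₀ l ≤ M := by
    have h1 : ContinuousOn (fun l => g Y₀ l) (Set.Icc 0 R) := by
      intro l hl
      have h2 := hgc l hl.1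
      have h3 : ContinuousAt (fun l : ℝ => ((Y₀, l) : Matrix n n ℂ × ℝ)) l :=
        (continuous_const.prodMk continuous_id).continuousAt
      exact (ContinuousAt.comp (f := fun l : ℝ => ((Y₀, l) : Matrix n n ℂ × ℝ)) h2 h3).continuousWithinAt
    obtain ⟨M, hM⟩ := isCompact_Icc.bddAbove_image h1
    exact ⟨M, fun l hl => hM ⟨l, hl, rfl⟩⟩
  have hcomp : ∀ᶠ Y in 𝓝 Y₀, ∀ l ∈ Set.Icc (0 : ℝ) R,
      ((l : ℂ) • (1 : Matrix n n ℂ) + Y).det ≠ 0 ∧ g Y l < M + 1 := by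
    refine isCompact_Icc.eventually_forall_of_forall_eventually fun l hl => ?_
    refine Filter.Eventually.and ?_ ?_
    · have h1 : ContinuousAt (fun q : Matrix n n ℂ × ℝ =>
          ((q.2 : ℂ) • (1 : Matrix n n ℂ) + q.1).det) (Y₀, l) :=
        (nint_cont_aff.matrix_det).continuousAt
      exact h1.eventually_ne (h₀ l hl.1)
    · exact (hgc l hl.1).eventually (gt_mem_nhds (lt_of_le_of_lt (hM l hl) (lt_add_one M)))
  have hM0 : 0 ≤ M := by
    refine le_trans ?_ (hM 0 ⟨le_rfl, by linarith⟩)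
    exact Finset.sum_nonneg fun _ _ => Finset.sum_nonneg fun _ _ => norm_nonneg _
  refine ⟨4 + (M + 1) * (1 + R), by positivity, ?_⟩
  filter_upwards [hKev, hcomp] with Y hY1 hY2
  have hboth : ∀ l : ℝ, 0 ≤ l → ((l : ℂ) • (1 : Matrix n n ℂ) + Y).det ≠ 0 ∧
      ∀ i j, ‖((l : ℂ) • (1 : Matrix n n ℂ) + Y)⁻¹ i j‖ ≤ (4 + (M + 1) * (1 + R)) / (1 + l) := by
    intro l hl
    rcases le_total l R with h1 | h1
    · obtain ⟨h2, h3⟩ := hY2 l ⟨hl, h1⟩
      refine ⟨h2, fun i j => ?_⟩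
      have h4 : ‖((l : ℂ) • (1 : Matrix n n ℂ) + Y)⁻¹ i j‖ ≤ g Y l := by
        have h3 : ‖((l : ℂ) • (1 : Matrix n n ℂ) + Y)⁻¹ i j‖ ≤
            ∑ j, ‖((l : ℂ) • (1 : Matrix n n ℂ) + Y)⁻¹ i j‖ :=
          Finset.single_le_sum (f := fun j => ‖((l : ℂ) • (1 : Matrix n n ℂ) + Y)⁻¹ i j‖)
            (fun _ _ => norm_nonneg _) (Finset.mem_univ j)
        exact h3.trans (Finset.single_le_sum
          (f := fun i => ∑ j, ‖((l : ℂ) • (1 : Matrix n n ℂ) + Y)⁻¹ i j‖)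
          (fun _ _ => Finset.sum_nonneg fun _ _ => norm_nonneg _) (Finset.mem_univ i))
      rw [le_div_iff₀ (by linarith)]
      have h5 : ‖((l : ℂ) • (1 : Matrix n n ℂ) + Y)⁻¹ i j‖ * (1 + l) ≤ (M + 1) * (1 + R) :=
        mul_le_mul (h4.trans h3.le) (by linarith) (by linarith) (by linarith)
      linarith
    · obtain ⟨h2, h3⟩ := nint_large hK0 hY1 (hR2.trans h1) (hR1.trans h1)
      refine ⟨h2, fun i j => (h3 i j).trans ?_⟩
      have h6 : 0 ≤ (M + 1) * (1 + R) := by positivity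
      exact div_le_div_of_nonneg_right (by linarith) (by linarith)
  exact ⟨fun l hl => (hboth l hl).1, fun l hl => (hboth l hl).2⟩

theorem isOpen_sec : IsOpen {Y : Matrix n n ℂ | Sec Y} := by
  rw [isOpen_iff_mem_nhds]
  intro Y hY
  obtain ⟨C, _, h⟩ := exists_bound hY
  exact h.mono fun Z hZ => hZ.1

private theorem nint_dom {s : ℝ} (hs : 0 < s) (hs1 : s < 1) :
    IntegrableOn (fun l : ℝ => l ^ (-s) * (1 / (1 + l))) (Set.Ioi 0) := by
  have h0 : Set.Ioi (0 : ℝ) = Set.Ioc 0 1 ∪ Set.Ioi 1 := (Set.Ioc_union_Ioi_eq_Ioi zero_le_one).symm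
  rw [h0]
  have hmeas : ∀ S : Set ℝ, MeasurableSet S → AEStronglyMeasurable
      (fun l : ℝ => l ^ (-s) * (1 / (1 + l))) (volume.restrict S) := by
    intro S _
    have : Measurable (fun l : ℝ => l ^ (-s) * (1 / (1 + l))) := by fun_prop
    exact this.aestronglyMeasurable
  refine IntegrableOn.union ?_ ?_
  · have h1 : IntegrableOn (fun l : ℝ => l ^ (-s)) (Set.Ioc 0 1) := by
      have := (intervalIntegral.intervalIntegrable_rpow' (a := 0) (b := 1)
        (by linarith : (-1 : ℝ) < -s))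
      rwa [intervalIntegrable_iff_integrableOn_Ioc_of_le zero_le_one] at this
    refine Integrable.mono' h1 (hmeas _ measurableSet_Ioc) ?_
    refine (ae_restrict_iff' measurableSet_Ioc).2 (ae_of_all _ fun l hl => ?_)
    have hl0 : 0 < l := hl.1
    have h2 : 0 ≤ l ^ (-s) := Real.rpow_nonneg hl0.le _
    rw [Real.norm_of_nonneg (by positivity)]
    have h3 : 1 / (1 + l) ≤ 1 := by
      rw [div_le_one (by linarith)]
      linarith
    nlinarith
  · have h1 : IntegrableOn (fun l : ℝ => l ^ (-s - 1)) (Set.Ioi 1) :=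
      integrableOn_Ioi_rpow_of_lt (by linarith) zero_lt_one
    refine Integrable.mono' h1 (hmeas _ measurableSet_Ioi) ?_
    refine (ae_restrict_iff' measurableSet_Ioi).2 (ae_of_all _ fun l hl => ?_)
    have hl1 : (1 : ℝ) < l := hl
    have hl0 : 0 < l := by linarith
    have h2 : 0 ≤ l ^ (-s) := Real.rpow_nonneg hl0.le _
    rw [Real.norm_of_nonneg (by positivity), Real.rpow_sub_one hl0.ne']
    have h3 : 1 / (1 + l) ≤ 1 / l := one_div_le_one_div_of_le hl0 (by linarith)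
    calc l ^ (-s) * (1 / (1 + l)) ≤ l ^ (-s) * (1 / l) := mul_le_mul_of_nonneg_left h3 h2
      _ = l ^ (-s) / l := by ring

theorem integrable_Kc {s : ℝ} (hs : 0 < s) (hs1 : s < 1) :
    IntegrableOn (fun l : ℝ => l ^ (-s) / (l + 1)) (Set.Ioi 0) := by
  have h := nint_dom hs hs1
  have h1 : (fun l : ℝ => l ^ (-s) / (l + 1)) = fun l : ℝ => l ^ (-s) * (1 / (1 + l)) := by
    funext l
    rw [add_comm l 1]
    ring
  rw [h1]
  exact h

theorem Kc_pos {s : ℝ} (hs : 0 < s) (hs1 : s < 1) : 0 < Kc s := by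
  unfold Kc
  have hpos : ∀ l ∈ Set.Ioi (0 : ℝ), 0 < l ^ (-s) / (l + 1) := by
    intro l hl
    have hl0 : (0 : ℝ) < l := hl
    have := Real.rpow_pos_of_pos hl0 (-s)
    positivity
  rw [integral_pos_iff_support_of_nonneg_ae ?_ (integrable_Kc hs hs1)]
  · have h1 : Set.Ioi (0 : ℝ) ⊆ Function.support (fun l : ℝ => l ^ (-s) / (l + 1)) := by
      intro l hl
      exact (hpos l hl).ne'
    have h2 : (volume.restrict (Set.Ioi (0 : ℝ))) (Set.Ioi 0) ≤
        (volume.restrict (Set.Ioi (0 : ℝ))) (Function.support (fun l : ℝ => l ^ (-s) / (l + 1))) :=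
      measure_mono h1
    refine lt_of_lt_of_le ?_ h2
    simp
  · refine (ae_restrict_iff' measurableSet_Ioi).2 (ae_of_all _ fun l hl => ?_)
    exact (hpos l hl).le

/-- the resolvent entries as functions of `l` -/
private theorem nint_meas {Y : Matrix n n ℂ} (hY : Sec Y) (i j : n) :
    AEStronglyMeasurable (fun l : ℝ => ((l : ℂ) • (1 : Matrix n n ℂ) + Y)⁻¹ i j)
      (volume.restrict (Set.Ioi 0)) := by
  refine ContinuousOn.aestronglyMeasurable ?_ measurableSet_Ioi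
  intro l hl
  have hl0 : (0 : ℝ) < l := hl
  have h2 := nint_contAt (hY l hl0.le) i j
  have h3 : ContinuousAt (fun l : ℝ => ((Y, l) : Matrix n n ℂ × ℝ)) l :=
    (continuous_const.prodMk continuous_id).continuousAt
  exact (ContinuousAt.comp (f := fun l : ℝ => ((Y, l) : Matrix n n ℂ × ℝ)) h2 h3).continuousWithinAt

theorem integrable_N {s : ℝ} (hs : 0 < s) (hs1 : s < 1) {Y : Matrix n n ℂ} (hY : Sec Y) (i j : n) :
    IntegrableOn (fun l : ℝ => ((l ^ (-s) : ℝ) : ℂ) * ((l : ℂ) • (1 : Matrix n n ℂ) + Y)⁻¹ i j)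
      (Set.Ioi 0) := by
  obtain ⟨C, hC, h⟩ := exists_bound hY
  have hb := h.self_of_nhds.2
  refine Integrable.mono' ((nint_dom hs hs1).const_mul C) ?_ ?_
  · refine AEStronglyMeasurable.mul ?_ (nint_meas hY i j)
    have : Measurable (fun l : ℝ => ((l ^ (-s) : ℝ) : ℂ)) := by fun_prop
    exact this.aestronglyMeasurable
  · refine (ae_restrict_iff' measurableSet_Ioi).2 (ae_of_all _ fun l hl => ?_)
    have hl0 : (0 : ℝ) < l := hl
    have h2 : 0 ≤ l ^ (-s) := Real.rpow_nonneg hl0.le _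
    rw [norm_mul, Complex.norm_real, Real.norm_of_nonneg h2]
    calc l ^ (-s) * ‖((l : ℂ) • (1 : Matrix n n ℂ) + Y)⁻¹ i j‖ ≤ l ^ (-s) * (C / (1 + l)) :=
          mul_le_mul_of_nonneg_left (hb l hl0.le i j) h2
      _ = C * (l ^ (-s) * (1 / (1 + l))) := by ring

/-- dominated convergence -/
private theorem nint_tendsto {E : Type} [NormedAddCommGroup E] [NormedSpace ℝ E] {T : Type}
    {l : Filter T} [l.IsCountablyGenerated] {σ : T → ℝ} {s C : ℝ} (hs : 0 < s) (hs1 : s < 1)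
    (hC : 0 ≤ C) (hσ : Tendsto σ l (𝓝 s)) {f : T → ℝ → E} {g : ℝ → E}
    (hmeas : ∀ᶠ x in l, AEStronglyMeasurable (f x) (volume.restrict (Set.Ioi 0)))
    (hb : ∀ᶠ x in l, ∀ t : ℝ, 0 < t → ‖f x t‖ ≤ C / (1 + t))
    (hlim : ∀ t : ℝ, 0 < t → Tendsto (fun x => f x t) l (𝓝 (g t))) :
    Tendsto (fun x => ∫ t in Set.Ioi (0 : ℝ), t ^ (-σ x) • f x t) l
      (𝓝 (∫ t in Set.Ioi (0 : ℝ), t ^ (-s) • g t)) := by
  have hs2 : 0 < s / 2 := by linarith
  have hs3 : s / 2 < 1 := by linarith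
  have hs4 : 0 < (1 + s) / 2 := by linarith
  have hs5 : (1 + s) / 2 < 1 := by linarith
  have hσ1 : ∀ᶠ x in l, s / 2 ≤ σ x ∧ σ x ≤ (1 + s) / 2 :=
    ((hσ.eventually (lt_mem_nhds (by linarith : s / 2 < s))).and
      (hσ.eventually (gt_mem_nhds (by linarith : s < (1 + s) / 2)))).mono
      fun x hx => ⟨hx.1.le, hx.2.le⟩
  refine tendsto_integral_filter_of_dominated_convergence
    (fun t => C * (t ^ (-(s / 2)) * (1 / (1 + t))) + C * (t ^ (-((1 + s) / 2)) * (1 / (1 + t))))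
    ?_ ?_ ?_ ?_
  · filter_upwards [hmeas] with x hx
    refine AEStronglyMeasurable.smul ?_ hx
    have : Measurable (fun t : ℝ => t ^ (-σ x)) := by fun_prop
    exact this.aestronglyMeasurable
  · filter_upwards [hσ1, hb] with x hx1 hx2
    refine (ae_restrict_iff' measurableSet_Ioi).2 (ae_of_all _ fun t ht => ?_)
    have ht0 : (0 : ℝ) < t := ht
    have h2 : 0 ≤ t ^ (-σ x) := Real.rpow_nonneg ht0.le _
    have h3 : t ^ (-σ x) ≤ t ^ (-(s / 2)) + t ^ (-((1 + s) / 2)) := by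
      have h4 : 0 ≤ t ^ (-(s / 2)) := Real.rpow_nonneg ht0.le _
      have h5 : 0 ≤ t ^ (-((1 + s) / 2)) := Real.rpow_nonneg ht0.le _
      rcases le_total 1 t with h6 | h6
      · have := Real.rpow_le_rpow_of_exponent_le h6 (by linarith [hx1.1] : -σ x ≤ -(s / 2))
        linarith
      · have := Real.rpow_le_rpow_of_exponent_ge ht0 h6
          (by linarith [hx1.2] : -((1 + s) / 2) ≤ -σ x)
        linarith
    rw [norm_smul, Real.norm_of_nonneg h2]
    have h6 : 0 ≤ C / (1 + t) := by positivity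
    calc t ^ (-σ x) * ‖f x t‖ ≤ t ^ (-σ x) * (C / (1 + t)) :=
          mul_le_mul_of_nonneg_left (hx2 t ht0) h2
      _ ≤ (t ^ (-(s / 2)) + t ^ (-((1 + s) / 2))) * (C / (1 + t)) :=
          mul_le_mul_of_nonneg_right h3 h6
      _ = _ := by ring
  · exact ((nint_dom hs2 hs3).const_mul C).add ((nint_dom hs4 hs5).const_mul C)
  · refine (ae_restrict_iff' measurableSet_Ioi).2 (ae_of_all _ fun t ht => ?_)
    have ht0 : (0 : ℝ) < t := ht
    refine Tendsto.smul ?_ (hlim t ht0)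
    have : Continuous (fun a : ℝ => t ^ (-a)) :=
      (Real.continuous_const_rpow ht0.ne').comp continuous_neg
    exact (this.tendsto s).comp hσ

private theorem nint_Kc_tendsto {T : Type} {l : Filter T} [l.IsCountablyGenerated] {σ : T → ℝ}
    {s : ℝ} (hs : 0 < s) (hs1 : s < 1) (hσ : Tendsto σ l (𝓝 s)) :
    Tendsto (fun x => Kc (σ x)) l (𝓝 (Kc s)) := by
  have h := nint_tendsto (C := 1) (f := fun _ t => 1 / (t + 1)) (g := fun t => 1 / (t + 1)) hs hs1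
    zero_le_one hσ ?_ ?_ ?_
  · have h1 : ∀ a : ℝ, Kc a = ∫ t in Set.Ioi (0 : ℝ), t ^ (-a) • (1 / (t + 1)) := by
      intro a
      unfold Kc
      simp only [smul_eq_mul, mul_one_div]
    simp only [h1]
    exact h
  · refine Filter.Eventually.of_forall fun x => ?_
    have : Measurable (fun t : ℝ => 1 / (t + 1)) := by fun_prop
    exact this.aestronglyMeasurable
  · refine Filter.Eventually.of_forall fun x t ht => ?_
    rw [Real.norm_of_nonneg (by positivity), add_comm]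
  · intro t ht
    exact tendsto_const_nhds

theorem N_tendsto {T : Type} {l : Filter T} [l.IsCountablyGenerated] {σ : T → ℝ}
    {Y : T → Matrix n n ℂ} {s : ℝ} {Y₀ : Matrix n n ℂ} (hs : 0 < s) (hs1 : s < 1)
    (hσ : Tendsto σ l (𝓝 s)) (hY : Tendsto Y l (𝓝 Y₀)) (h₀ : Sec Y₀) :
    Tendsto (fun x => N (σ x) (Y x)) l (𝓝 (N s Y₀)) := by
  obtain ⟨C, hC, h⟩ := exists_bound h₀
  have hev := hY.eventually h
  refine tendsto_pi_nhds.2 fun i => tendsto_pi_nhds.2 fun j => ?_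
  have h1 : ∀ (a : ℝ) (Z : Matrix n n ℂ), N a Z i j = ((Kc a : ℝ) : ℂ)⁻¹ *
      ∫ t in Set.Ioi (0 : ℝ), t ^ (-a) • ((t : ℂ) • (1 : Matrix n n ℂ) + Z)⁻¹ i j := by
    intro a Z
    unfold N
    simp only [Matrix.of_apply, Complex.real_smul]
  simp only [h1]
  refine Tendsto.mul ?_ ?_
  · refine Tendsto.inv₀ ?_ ?_
    · exact (Complex.continuous_ofReal.tendsto _).comp (nint_Kc_tendsto hs hs1 hσ)
    · exact_mod_cast (Kc_pos hs hs1).ne'
  · refine nint_tendsto (C := C) hs hs1 hC.le hσ ?_ ?_ ?_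
    · exact hev.mono fun x hx => nint_meas hx.1 i j
    · exact hev.mono fun x hx t ht => hx.2 t ht.le i j
    · intro t ht
      have h2 := nint_contAt (h₀ t ht.le) i j
      have h3 : Tendsto (fun x => ((Y x, t) : Matrix n n ℂ × ℝ)) l (𝓝 (Y₀, t)) :=
        hY.prodMk_nhds tendsto_const_nhds
      exact Tendsto.comp (g := fun q : Matrix n n ℂ × ℝ =>
        ((q.2 : ℂ) • (1 : Matrix n n ℂ) + q.1)⁻¹ i j) (f := fun x => ((Y x, t) : Matrix n n ℂ × ℝ))
        h2 h3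

end SRE
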