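import Mathlib
import Pool.Agent.Lib_MP_c281c2_an.Defs
import Pool.Agent.Lib_MP_c281c2_an.NInt

/-!
# Piece NHOL: `Y ^ (-s)` depends holomorphically on `Y`

Fix `i j` and `z₀ ∈ U`. The integrand `F z l = l ^ (-s) * (l + Y z)⁻¹ i j` is holomorphic in `z` near `z₀` for every `l ≥ 0` (the entries of the inverse are `adjugate / det`), and by `exists_bound` (and continuity of `Y` at `z₀`)
`‖F z l‖ ≤ l ^ (-s) * C / (1 + l)` for all `z` in a ball of radius `2 ρ` around `z₀`, so `‖deriv F‖ ≤ l ^ (-s) * C / (1 + l) / ρ` on the ball of radius `ρ` (Cauchy estimate,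
`Complex.norm_deriv_le_of_forall_mem_sphere_norm_le`). `hasDerivAt_integral_of_dominated_loc_of_deriv_le`.
(An alternative: the integral is continuous and its integrals over circles vanish; or there may be a ready lemma for holomorphic dependence on a parameter.)
-/

namespace SRE

open Matrix Complex MeasureTheory Filter Topology

variable {n : Type} [Fintype n] [DecidableEq n]

private theorem NHol_det {M : ℂ → Matrix n n ℂ} {z₀ : ℂ}
    (hM : ∀ i j, DifferentiableAt ℂ (fun z => M z i j) z₀) :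
    DifferentiableAt ℂ (fun z => (M z).det) z₀ := by
  have h : (fun z => (M z).det) = fun z => ∑ σ : Equiv.Perm n, (Equiv.Perm.sign σ : ℂ) * ∏ i, M z (σ i) i := by
    funext z
    rw [Matrix.det_apply']
  rw [h]
  apply DifferentiableAt.fun_sum
  intro σ _
  apply DifferentiableAt.const_mul
  apply DifferentiableAt.fun_finsetProd
  intro i _
  exact hM _ _

private theorem NHol_inv {M : ℂ → Matrix n n ℂ} {z₀ : ℂ}
    (hM : ∀ i j, DifferentiableAt ℂ (fun z => M z i j) z₀) (h0 : (M z₀).det ≠ 0) (i j : n) :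
    DifferentiableAt ℂ (fun z => (M z)⁻¹ i j) z₀ := by
  have h : (fun z => (M z)⁻¹ i j) = fun z => ((M z).det)⁻¹ * ((M z).updateRow j (Pi.single i 1)).det := by
    funext z
    rw [Matrix.inv_def, Matrix.smul_apply, Matrix.adjugate_apply, Ring.inverse_eq_inv', smul_eq_mul]
  rw [h]
  apply DifferentiableAt.mul
  · exact (NHol_det hM).inv h0
  · apply NHol_det
    intro a b
    by_cases ha : a = j
    · subst ha
      simp only [Matrix.updateRow_self]
      exact differentiableAt_const _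
    · simp only [Matrix.updateRow_ne ha]
      exact hM a b

private theorem NHol_f {U : Set ℂ} (hU : IsOpen U) {Y : ℂ → Matrix n n ℂ}
    (hY : ∀ i j, DifferentiableOn ℂ (fun z => Y z i j) U) (hS : ∀ z ∈ U, Sec (Y z)) (i j : n)
    {l : ℝ} (hl : 0 ≤ l) {z : ℂ} (hz : z ∈ U) :
    DifferentiableAt ℂ (fun z => ((l : ℂ) • (1 : Matrix n n ℂ) + Y z)⁻¹ i j) z := by
  apply NHol_inv
  · intro a b
    have h : (fun z => ((l : ℂ) • (1 : Matrix n n ℂ) + Y z) a b) =
        fun z => ((l : ℂ) • (1 : Matrix n n ℂ)) a b + Y z a b := by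
      funext z
      rw [Matrix.add_apply]
    rw [h]
    exact ((hY a b).differentiableAt (hU.mem_nhds hz)).const_add _
  · exact hS z hz l hl

theorem N_diff {s : ℝ} (hs : 0 < s) (hs1 : s < 1) {U : Set ℂ} (hU : IsOpen U)
    {Y : ℂ → Matrix n n ℂ} (hY : ∀ i j, DifferentiableOn ℂ (fun z => Y z i j) U)
    (hS : ∀ z ∈ U, Sec (Y z)) (i j : n) : DifferentiableOn ℂ (fun z => N s (Y z) i j) U := by
  intro z₀ hz₀
  apply DifferentiableAt.differentiableWithinAt
  obtain ⟨C, hC, hev⟩ := exists_bound (hS z₀ hz₀)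
  have hYc : Tendsto Y (𝓝 z₀) (𝓝 (Y z₀)) := by
    refine tendsto_pi_nhds.2 fun a => tendsto_pi_nhds.2 fun b => ?_
    exact ((hY a b).differentiableAt (hU.mem_nhds hz₀)).continuousAt
  have hN : {z | z ∈ U ∧ ∀ l : ℝ, 0 ≤ l → ∀ i j, ‖((l : ℂ) • (1 : Matrix n n ℂ) + Y z)⁻¹ i j‖ ≤ C / (1 + l)} ∈
      𝓝 z₀ := by
    filter_upwards [hYc.eventually hev, hU.mem_nhds hz₀] with z h1 h2
    exact ⟨h2, h1.2⟩
  obtain ⟨R, hR, hRs⟩ := Metric.mem_nhds_iff.1 hN
  set ρ : ℝ := R / 2 with hρ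
  have hρ0 : 0 < ρ := by rw [hρ]; linarith
  set f : ℝ → ℂ → ℂ := fun l z => ((l : ℂ) • (1 : Matrix n n ℂ) + Y z)⁻¹ i j with hf
  have hsub : ∀ z ∈ Metric.ball z₀ ρ, Metric.closedBall z ρ ⊆ Metric.ball z₀ R := by
    intro z hz w hw
    rw [Metric.mem_ball] at hz ⊢
    rw [Metric.mem_closedBall] at hw
    calc dist w z₀ ≤ dist w z + dist z z₀ := dist_triangle _ _ _
      _ < ρ + ρ := by linarith
      _ = R := by rw [hρ]; ring
  have hfd : ∀ l : ℝ, 0 ≤ l → ∀ z ∈ Metric.ball z₀ R, DifferentiableAt ℂ (f l) z :=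
    fun l hl z hz => NHol_f hU hY hS i j hl (hRs hz).1
  have hder : ∀ l : ℝ, 0 ≤ l → ∀ z ∈ Metric.ball z₀ ρ, ‖deriv (f l) z‖ ≤ C / (1 + l) / ρ := by
    intro l hl z hz
    apply Complex.norm_deriv_le_of_forall_mem_sphere_norm_le hρ0
    · apply DifferentiableOn.diffContOnCl
      intro w hw
      have hw' : w ∈ Metric.closedBall z ρ := Metric.closure_ball_subset_closedBall hw
      exact (hfd l hl w (hsub z hz hw')).differentiableWithinAt
    · intro w hw
      exact (hRs (hsub z hz (Metric.sphere_subset_closedBall hw))).2 l hl i j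
  have hsmall : Metric.ball z₀ ρ ⊆ Metric.ball z₀ R := Metric.ball_subset_ball (by rw [hρ]; linarith)
  set F : ℂ → ℝ → ℂ := fun z l => ((l ^ (-s) : ℝ) : ℂ) * f l z with hF
  set F' : ℂ → ℝ → ℂ := fun z l => ((l ^ (-s) : ℝ) : ℂ) * deriv (f l) z with hF'
  have hFint : ∀ z ∈ U, IntegrableOn (F z) (Set.Ioi 0) := fun z hz => integrable_N hs hs1 (hS z hz) i j
  have hFd : ∀ l : ℝ, 0 ≤ l → ∀ z ∈ Metric.ball z₀ ρ, HasDerivAt (fun z => F z l) (F' z l) z :=
    fun l hl z hz => ((hfd l hl z (hsmall hz)).hasDerivAt).const_mul _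
  have hseq : Tendsto (fun k : ℕ => ((ρ / 2 * (1 / ((k : ℝ) + 1)) : ℝ) : ℂ)) atTop (𝓝[≠] 0) := by
    rw [tendsto_nhdsWithin_iff]
    constructor
    · have h1 : Tendsto (fun k : ℕ => ρ / 2 * (1 / ((k : ℝ) + 1))) atTop (𝓝 (ρ / 2 * 0)) :=
        tendsto_one_div_add_atTop_nhds_zero_nat.const_mul _
      rw [mul_zero] at h1
      have h2 := (Complex.continuous_ofReal.tendsto 0).comp h1
      rw [Complex.ofReal_zero] at h2
      exact h2
    · refine Eventually.of_forall fun k => ?_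
      have h1 : (ρ / 2 * (1 / ((k : ℝ) + 1)) : ℝ) ≠ 0 := by positivity
      exact Complex.ofReal_ne_zero.2 h1
  have hmem : ∀ k : ℕ, z₀ + ((ρ / 2 * (1 / ((k : ℝ) + 1)) : ℝ) : ℂ) ∈ Metric.ball z₀ ρ := by
    intro k
    rw [Metric.mem_ball, dist_eq_norm, add_sub_cancel_left, Complex.norm_real, Real.norm_eq_abs,
      abs_of_pos (by positivity)]
    have h1 : 1 / ((k : ℝ) + 1) ≤ 1 := by
      rw [div_le_one (by positivity)]
      linarith [Nat.cast_nonneg (α := ℝ) k]
    calc ρ / 2 * (1 / ((k : ℝ) + 1)) ≤ ρ / 2 * 1 := by gcongr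
      _ < ρ := by linarith
  have hF'm : AEStronglyMeasurable (F' z₀) (volume.restrict (Set.Ioi (0 : ℝ))) := by
    refine aestronglyMeasurable_of_tendsto_ae atTop (f := fun (k : ℕ) (l : ℝ) =>
      (((ρ / 2 * (1 / ((k : ℝ) + 1)) : ℝ) : ℂ))⁻¹ •
        (F (z₀ + ((ρ / 2 * (1 / ((k : ℝ) + 1)) : ℝ) : ℂ)) l - F z₀ l)) ?_ ?_
    · intro k
      have h1 := (((hFint _ (hRs (hsmall (hmem k))).1).aestronglyMeasurable).sub
        (hFint z₀ hz₀).aestronglyMeasurable).const_smul
          (((ρ / 2 * (1 / ((k : ℝ) + 1)) : ℝ) : ℂ))⁻¹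
      exact h1
    · refine (ae_restrict_iff' measurableSet_Ioi).2 (Eventually.of_forall fun l hl => ?_)
      have h1 := hFd l (le_of_lt hl) z₀ (Metric.mem_ball_self hρ0)
      rw [hasDerivAt_iff_tendsto_slope_zero] at h1
      exact h1.comp hseq
  have hbint : Integrable (fun l : ℝ => l ^ (-s) / (l + 1) * (C / ρ)) (volume.restrict (Set.Ioi 0)) :=
    (integrable_Kc hs hs1).mul_const _
  have hmain := hasDerivAt_integral_of_dominated_loc_of_deriv_le (𝕜 := ℂ)
    (μ := volume.restrict (Set.Ioi (0 : ℝ))) (F := F) (F' := F') (x₀ := z₀)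
    (s := Metric.ball z₀ ρ) (bound := fun l : ℝ => l ^ (-s) / (l + 1) * (C / ρ))
    (Metric.ball_mem_nhds z₀ hρ0)
    (Filter.Eventually.mono (p := fun z => z ∈ U) (hU.mem_nhds hz₀)
      fun z hz => (hFint z hz).aestronglyMeasurable)
    (hFint z₀ hz₀) hF'm
    ((ae_restrict_iff' measurableSet_Ioi).2 (Eventually.of_forall fun l hl z hz => by
      have hl0 : (0 : ℝ) < l := hl
      have h1 := hder l hl0.le z hz
      have h2 : (0 : ℝ) ≤ l ^ (-s) := Real.rpow_nonneg hl0.le _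
      rw [hF']
      simp only
      rw [norm_mul, Complex.norm_real, Real.norm_eq_abs, abs_of_nonneg h2]
      calc l ^ (-s) * ‖deriv (f l) z‖ ≤ l ^ (-s) * (C / (1 + l) / ρ) := by gcongr
        _ = l ^ (-s) / (l + 1) * (C / ρ) := by
            have : l + 1 ≠ 0 := by linarith
            have h4 : (1 : ℝ) + l ≠ 0 := by linarith
            field_simp
            ring))
    hbint
    ((ae_restrict_iff' measurableSet_Ioi).2 (Eventually.of_forall fun l hl z hz =>
      hFd l (le_of_lt hl) z hz))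
  have h3 : (fun z => N s (Y z) i j) = fun z => ((Kc s : ℝ) : ℂ)⁻¹ * ∫ l in Set.Ioi (0 : ℝ), F z l := rfl
  rw [h3]
  exact hmain.2.differentiableAt.const_mul _

end SRE
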