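import Mathlib
import Pool.Agent.Lib_MP_c281c2_an.Defs
import Pool.Agent.Lib_MP_c281c2_an.NInt
import Pool.Agent.Lib_MP_c281c2_an.NHol

/-!
# Piece NDIAG: `Y ^ (-s)` for diagonal matrices, similarity, scaling, adjoint

`cpow_integral`: for real `x > 0` the substitution `l = x u` gives `∫ l ^ (-s) / (l + x) = x ^ (-s) * Kc s`. Both sides are holomorphic on the slit plane (the left side by `N_diff` for `1 × 1` matrices, `Y z = z`, or directly) and agree for
`z > 0`; `AnalyticOnNhd.eqOn_of_preconnected_of_frequently_eq` or similar (the slit plane is preconnected: star-shaped about `1`). `Kc s ≠ 0` (`Kc_pos`).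
`N_diagonal`: the inverse of the diagonal matrix `l + d` is diagonal. `N_conj`: `(l + P Y Q)⁻¹ = P (l + Y)⁻¹ Q` (`Matrix.inv_eq_right_inv`), and the integral of a finite sum of integrable functions
(`integrable_N`). `N_smul`: `(l + r Y)⁻¹ = r⁻¹ (l / r + Y)⁻¹`, substitution `l = r u`. `N_conjTranspose`: `(l + Yᴴ)⁻¹ = ((l + Y)⁻¹)ᴴ` (`Matrix.conjTranspose_nonsing_inv`), `integral_conj`.
-/

namespace SRE

open Matrix Complex MeasureTheory Filter Topology

variable {n : Type} [Fintype n] [DecidableEq n]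

private theorem NDiag_inv_smul {Y : Matrix n n ℂ} (hY : IsUnit Y.det) {c : ℂ} (hc : c ≠ 0) :
    (c • Y)⁻¹ = c⁻¹ • Y⁻¹ := by
  apply Matrix.inv_eq_right_inv
  rw [Matrix.smul_mul, Matrix.mul_smul, smul_smul, mul_inv_cancel₀ hc, one_smul,
    Matrix.mul_nonsing_inv _ hY]

private theorem NDiag_one {l : ℝ} (hl : 0 ≤ l) {z : ℂ} (hz : z ∈ slitPlane) : (l : ℂ) + z ≠ 0 := by
  intro h
  have h1 : z = ((-l : ℝ) : ℂ) := by
    push_cast
    linear_combination h
  rw [h1, Complex.ofReal_mem_slitPlane] at hz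
  linarith

private theorem NDiag_inv_diag {l : ℝ} (hl : 0 ≤ l) {d : n → ℂ} (hd : ∀ i, d i ∈ slitPlane) :
    ((l : ℂ) • (1 : Matrix n n ℂ) + diagonal d)⁻¹ = diagonal fun i => ((l : ℂ) + d i)⁻¹ := by
  apply Matrix.inv_eq_right_inv
  have h1 : (l : ℂ) • (1 : Matrix n n ℂ) + diagonal d = diagonal fun i => (l : ℂ) + d i := by
    rw [← Matrix.diagonal_one, ← Matrix.diagonal_smul, Matrix.diagonal_add]
    congr 1
    funext i
    simp
  rw [h1, Matrix.diagonal_mul_diagonal, ← Matrix.diagonal_one]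
  congr 1
  funext i
  exact mul_inv_cancel₀ (NDiag_one hl (hd i))

private theorem NDiag_sec_diag {d : n → ℂ} (hd : ∀ i, d i ∈ slitPlane) : Sec (diagonal d) := by
  intro l hl
  have h1 : (l : ℂ) • (1 : Matrix n n ℂ) + diagonal d = diagonal fun i => (l : ℂ) + d i := by
    rw [← Matrix.diagonal_one, ← Matrix.diagonal_smul, Matrix.diagonal_add]
    congr 1
    funext i
    simp
  rw [h1, Matrix.det_diagonal, Finset.prod_ne_zero_iff]
  intro i _
  exact NDiag_one hl (hd i)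

private theorem NDiag_real {s : ℝ} (hs : 0 < s) (hs1 : s < 1) {x : ℝ} (hx : 0 < x) :
    ((Kc s : ℝ) : ℂ)⁻¹ * ∫ l in Set.Ioi (0 : ℝ), ((l ^ (-s) : ℝ) : ℂ) * ((l : ℂ) + (x : ℂ))⁻¹ =
      (x : ℂ) ^ (-(s : ℂ)) := by
  have hK := Kc_pos hs hs1
  have h1 : ∫ l in Set.Ioi (0 : ℝ), ((l ^ (-s) : ℝ) : ℂ) * ((l : ℂ) + (x : ℂ))⁻¹ =
      ((∫ l in Set.Ioi (0 : ℝ), l ^ (-s) / (l + x) : ℝ) : ℂ) := by
    rw [← integral_complex_ofReal]
    apply setIntegral_congr_fun measurableSet_Ioi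
    intro l _
    simp only
    push_cast
    rw [div_eq_mul_inv]
  have h2 := integral_comp_mul_left_Ioi (fun l : ℝ => l ^ (-s) / (l + x)) 0 hx
  rw [mul_zero] at h2
  have h3 : ∫ u in Set.Ioi (0 : ℝ), (x * u) ^ (-s) / (x * u + x) =
      ∫ u in Set.Ioi (0 : ℝ), (x ^ (-s) * x⁻¹) * (u ^ (-s) / (u + 1)) := by
    apply setIntegral_congr_fun measurableSet_Ioi
    intro u hu
    have hu' : 0 < u := hu
    simp only
    rw [Real.mul_rpow hx.le hu'.le]
    have : u + 1 ≠ 0 := by positivity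
    field_simp
  rw [h3, integral_const_mul] at h2
  have h4 : ∫ l in Set.Ioi (0 : ℝ), l ^ (-s) / (l + x) = x ^ (-s) * Kc s := by
    have h5 : x⁻¹ ≠ 0 := by positivity
    rw [smul_eq_mul] at h2
    apply mul_left_cancel₀ h5
    rw [← h2, Kc]
    ring
  rw [h1, h4]
  have h6 : ((Kc s : ℝ) : ℂ) ≠ 0 := by exact_mod_cast hK.ne'
  rw [← Complex.ofReal_neg, ← Complex.ofReal_cpow hx.le]
  push_cast
  field_simp

private theorem NDiag_N_diag {s : ℝ} {d : n → ℂ} (hd : ∀ i, d i ∈ slitPlane) (i j : n) :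
    N s (diagonal d) i j = if i = j then ((Kc s : ℝ) : ℂ)⁻¹ *
      ∫ l in Set.Ioi (0 : ℝ), ((l ^ (-s) : ℝ) : ℂ) * ((l : ℂ) + d i)⁻¹ else 0 := by
  unfold N
  rw [Matrix.of_apply]
  split_ifs with hij
  · subst hij
    congr 1
    apply setIntegral_congr_fun measurableSet_Ioi
    intro l hl
    simp only
    rw [NDiag_inv_diag (le_of_lt hl) hd, Matrix.diagonal_apply_eq]
  · have : ∫ l in Set.Ioi (0 : ℝ), ((l ^ (-s) : ℝ) : ℂ) *
        ((l : ℂ) • (1 : Matrix n n ℂ) + diagonal d)⁻¹ i j = ∫ l in Set.Ioi (0 : ℝ), (0 : ℂ) := by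
      apply setIntegral_congr_fun measurableSet_Ioi
      intro l hl
      simp only
      rw [NDiag_inv_diag (le_of_lt hl) hd, Matrix.diagonal_apply_ne _ hij, mul_zero]
    rw [this]
    simp

theorem cpow_integral {s : ℝ} (hs : 0 < s) (hs1 : s < 1) {z : ℂ} (hz : z ∈ slitPlane) :
    ((Kc s : ℝ) : ℂ)⁻¹ * ∫ l in Set.Ioi (0 : ℝ), ((l ^ (-s) : ℝ) : ℂ) * ((l : ℂ) + z)⁻¹ =
      z ^ (-(s : ℂ)) := by
  set F : ℂ → ℂ := fun z => N s (diagonal (fun _ : Fin 1 => z)) 0 0 with hF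
  have hFz : ∀ z ∈ slitPlane, F z = ((Kc s : ℝ) : ℂ)⁻¹ *
      ∫ l in Set.Ioi (0 : ℝ), ((l ^ (-s) : ℝ) : ℂ) * ((l : ℂ) + z)⁻¹ := by
    intro z hz
    rw [hF]
    simp only
    rw [NDiag_N_diag (fun _ => hz), if_pos rfl]
  have h1 : DifferentiableOn ℂ F slitPlane := by
    apply N_diff hs hs1 isOpen_slitPlane
    · intro i j
      by_cases hij : i = j
      · subst hij
        simp only [Matrix.diagonal_apply_eq]
        exact differentiableOn_id
      · simp only [Matrix.diagonal_apply_ne _ hij]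
        exact differentiableOn_const _
    · intro z hz
      exact NDiag_sec_diag (fun _ => hz)
  have h2 : DifferentiableOn ℂ (fun z : ℂ => z ^ (-(s : ℂ))) slitPlane := by
    intro z hz
    exact (differentiableAt_id.cpow_const hz).differentiableWithinAt
  have h3 : Set.EqOn F (fun z : ℂ => z ^ (-(s : ℂ))) slitPlane := by
    apply AnalyticOnNhd.eqOn_of_preconnected_of_frequently_eq
      (h1.analyticOnNhd isOpen_slitPlane) (h2.analyticOnNhd isOpen_slitPlane)
      (StarConvex.isPathConnected starConvex_one_slitPlane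
        one_mem_slitPlane).isConnected.isPreconnected
      one_mem_slitPlane
    have h4 : Tendsto (fun x : ℝ => (x : ℂ)) (𝓝[≠] (1 : ℝ)) (𝓝[≠] (1 : ℂ)) := by
      apply tendsto_nhdsWithin_of_tendsto_nhds_of_eventually_within
      · have := (Complex.continuous_ofReal.tendsto (1 : ℝ)).mono_left
          (nhdsWithin_le_nhds (s := {(1 : ℝ)}ᶜ))
        simpa using this
      · filter_upwards [self_mem_nhdsWithin] with x hx
        simp only [Set.mem_compl_iff, Set.mem_singleton_iff] at hx ⊢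
        exact_mod_cast hx
    apply h4.frequently
    apply Eventually.frequently
    filter_upwards [nhdsWithin_le_nhds (Ioi_mem_nhds (zero_lt_one : (0 : ℝ) < 1))] with x hx
    have hx' : (0 : ℝ) < x := hx
    rw [hFz _ (by rw [Complex.ofReal_mem_slitPlane]; exact hx'), NDiag_real hs hs1 hx']
  rw [← hFz z hz]
  exact h3 hz

theorem N_diagonal {s : ℝ} (hs : 0 < s) (hs1 : s < 1) {d : n → ℂ} (hd : ∀ i, d i ∈ slitPlane) :
    N s (diagonal d) = diagonal fun i => d i ^ (-(s : ℂ)) := by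
  ext i j
  rw [NDiag_N_diag hd]
  split_ifs with hij
  · subst hij
    rw [cpow_integral hs hs1 (hd i), Matrix.diagonal_apply_eq]
  · rw [Matrix.diagonal_apply_ne _ hij]

theorem N_conj {s : ℝ} (hs : 0 < s) (hs1 : s < 1) {P Q Y : Matrix n n ℂ} (hPQ : P * Q = 1)
    (hY : Sec Y) : N s (P * Y * Q) = P * N s Y * Q := by
  have hQP : Q * P = 1 := mul_eq_one_comm.mp hPQ
  have h1 : ∀ l : ℝ, 0 ≤ l → ((l : ℂ) • (1 : Matrix n n ℂ) + P * Y * Q)⁻¹ =
      P * ((l : ℂ) • (1 : Matrix n n ℂ) + Y)⁻¹ * Q := by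
    intro l hl
    have hu : IsUnit ((l : ℂ) • (1 : Matrix n n ℂ) + Y).det := (hY l hl).isUnit
    apply Matrix.inv_eq_right_inv
    have h2 : (l : ℂ) • (1 : Matrix n n ℂ) + P * Y * Q =
        P * ((l : ℂ) • (1 : Matrix n n ℂ) + Y) * Q := by
      rw [Matrix.mul_add, Matrix.add_mul, Matrix.mul_smul, Matrix.smul_mul, Matrix.mul_one, hPQ]
    rw [h2]
    calc P * ((l : ℂ) • (1 : Matrix n n ℂ) + Y) * Q *
          (P * ((l : ℂ) • (1 : Matrix n n ℂ) + Y)⁻¹ * Q)
        = P * ((l : ℂ) • (1 : Matrix n n ℂ) + Y) * (Q * P) *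
          ((l : ℂ) • (1 : Matrix n n ℂ) + Y)⁻¹ * Q := by simp only [Matrix.mul_assoc]
      _ = P * (((l : ℂ) • (1 : Matrix n n ℂ) + Y) *
          ((l : ℂ) • (1 : Matrix n n ℂ) + Y)⁻¹) * Q := by
          rw [hQP, Matrix.mul_one, Matrix.mul_assoc P]
      _ = 1 := by rw [Matrix.mul_nonsing_inv _ hu, Matrix.mul_one, hPQ]
  ext i j
  have h2 : N s (P * Y * Q) i j = ((Kc s : ℝ) : ℂ)⁻¹ * ∫ l in Set.Ioi (0 : ℝ),
      ∑ m : n, ∑ k : n, (P i k * Q m j) *
        (((l ^ (-s) : ℝ) : ℂ) * ((l : ℂ) • (1 : Matrix n n ℂ) + Y)⁻¹ k m) := by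
    unfold N
    rw [Matrix.of_apply]
    congr 1
    apply setIntegral_congr_fun measurableSet_Ioi
    intro l hl
    simp only
    rw [h1 l (le_of_lt hl), Matrix.mul_apply, Finset.mul_sum]
    apply Finset.sum_congr rfl
    intro m _
    rw [Matrix.mul_apply, Finset.sum_mul, Finset.mul_sum]
    apply Finset.sum_congr rfl
    intro k _
    ring
  rw [h2, integral_finsetSum]
  · rw [Matrix.mul_apply, Finset.mul_sum]
    apply Finset.sum_congr rfl
    intro m _
    rw [integral_finsetSum]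
    · rw [Matrix.mul_apply, Finset.mul_sum, Finset.sum_mul]
      apply Finset.sum_congr rfl
      intro k _
      rw [integral_const_mul]
      unfold N
      rw [Matrix.of_apply]
      ring
    · intro k _
      exact (integrable_N hs hs1 hY k m).const_mul _
  · intro m _
    apply integrable_finsetSum
    intro k _
    exact (integrable_N hs hs1 hY k m).const_mul _

theorem N_smul {s : ℝ} {r : ℝ} (hr : 0 < r) (Y : Matrix n n ℂ) (hY : Sec Y) :
    N s ((r : ℂ) • Y) = ((r ^ (-s) : ℝ) : ℂ) • N s Y := by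
  ext i j
  have hrc : (r : ℂ) ≠ 0 := by exact_mod_cast hr.ne'
  have h2 := integral_comp_mul_left_Ioi' (fun l : ℝ => ((l ^ (-s) : ℝ) : ℂ) *
    ((l : ℂ) • (1 : Matrix n n ℂ) + (r : ℂ) • Y)⁻¹ i j) 0 hr
  rw [mul_zero] at h2
  have h3 : ∫ u in Set.Ioi (0 : ℝ), (((r * u) ^ (-s) : ℝ) : ℂ) *
      (((r * u : ℝ) : ℂ) • (1 : Matrix n n ℂ) + (r : ℂ) • Y)⁻¹ i j =
      ∫ u in Set.Ioi (0 : ℝ), (((r ^ (-s) : ℝ) : ℂ) * (r : ℂ)⁻¹) *
        (((u ^ (-s) : ℝ) : ℂ) * ((u : ℂ) • (1 : Matrix n n ℂ) + Y)⁻¹ i j) := by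
    apply setIntegral_congr_fun measurableSet_Ioi
    intro u hu
    have hu' : 0 < u := hu
    simp only
    have h4 : ((r * u : ℝ) : ℂ) • (1 : Matrix n n ℂ) + (r : ℂ) • Y =
        (r : ℂ) • ((u : ℂ) • (1 : Matrix n n ℂ) + Y) := by
      rw [smul_add, smul_smul]
      push_cast
      rfl
    rw [h4, NDiag_inv_smul (hY u hu'.le).isUnit hrc, Real.mul_rpow hr.le hu'.le,
      Matrix.smul_apply, smul_eq_mul]
    push_cast
    ring
  rw [h3, integral_const_mul] at h2
  rw [Matrix.smul_apply]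
  unfold N
  rw [Matrix.of_apply, Matrix.of_apply, ← h2]
  rw [Complex.real_smul, smul_eq_mul]
  field_simp

omit [Fintype n] in
private theorem NDiag_conjTranspose (l : ℝ) (Y : Matrix n n ℂ) :
    (l : ℂ) • (1 : Matrix n n ℂ) + Yᴴ = ((l : ℂ) • (1 : Matrix n n ℂ) + Y)ᴴ := by
  rw [Matrix.conjTranspose_add, Matrix.conjTranspose_smul, Matrix.conjTranspose_one]
  congr 2
  simp

theorem N_conjTranspose (s : ℝ) (Y : Matrix n n ℂ) : N s Yᴴ = (N s Y)ᴴ := by
  ext i j
  rw [Matrix.conjTranspose_apply]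
  unfold N
  rw [Matrix.of_apply, Matrix.of_apply, star_mul']
  congr 1
  · rw [star_inv₀]
    congr 1
    exact (Complex.conj_ofReal _).symm
  · change _ = (starRingEnd ℂ) _
    rw [← integral_conj]
    apply setIntegral_congr_fun measurableSet_Ioi
    intro l _
    simp only
    rw [NDiag_conjTranspose, ← Matrix.conjTranspose_nonsing_inv, Matrix.conjTranspose_apply,
      map_mul, Complex.conj_ofReal]
    rfl

theorem Sec.conjTranspose {Y : Matrix n n ℂ} (hY : Sec Y) : Sec Yᴴ := by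
  intro l hl
  rw [NDiag_conjTranspose, Matrix.det_conjTranspose]
  exact star_ne_zero.mpr (hY l hl)

end SRE
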