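import Mathlib
import Pool.Agent.Lib_MP_c281c2_an.Defs
import Pool.Agent.Lib_MP_c281c2_an.EAlg
import Pool.Agent.Lib_MP_c281c2_an.NInt
import Pool.Agent.Lib_MP_c281c2_an.NDiag

/-!
# Piece MPOS: the sandwiched quasi-entropy as a sum over eigenvalues

`Y = U diag(y) U*`, `y > 0` (`Matrix.IsHermitian.spectral_theorem`). `cfc f Y = U diag(f y) U*` (`Matrix.IsHermitian.cfc_eq`, `Matrix.IsHermitian.cfc`). So `N s Y = U diag(y ^ (-s)) U* = W * W` with
`W = cfc (fun x => x ^ ((1 - α) / (2 α))) Y` as `(1 - α) / (2 α) = - sa α / 2` (`N_conj`, `N_diagonal`; `Complex.ofReal_cpow`). `ev (W * W * X) = ev (W * X * W)` (`ev_mul_comm`). `W` is Hermitian, `W X W` is positive semidefinite, and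
`trace (cfc (· ^ α) (W X W)) = ∑ λ_i ^ α`, `λ_i ≥ 0` its eigenvalues (`Matrix.IsHermitian.roots_charpoly_eq_eigenvalues`, `trace` of `U diag U*`), `(λ : ℂ) ^ (α : ℂ) = (λ ^ α : ℝ)` for `λ ≥ 0`.
`Psi_smul`: from `es_eq_Psi`: `N s (c Y) = c ^ (-s) N s Y` (`N_smul`), `ev_smul`, `(c ^ (1 - s) λ) ^ α = c λ ^ α` as `α (1 - s) = 1`. (Or directly from the functional calculus.)
-/

namespace SRE

open Matrix Complex MeasureTheory Filter Topology
open scoped ComplexOrder

variable {n : Type} [Fintype n] [DecidableEq n]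

theorem PosDef.sec {Y : Matrix n n ℂ} (hY : Y.PosDef) : Sec Y := by
  intro l hl
  have h0 : (0 : ℂ) ≤ (l : ℂ) := by
    rw [← ofReal_zero]
    exact real_le_real.mpr hl
  have h : (((l : ℂ) • (1 : Matrix n n ℂ)) + Y).PosDef :=
    Matrix.PosDef.posSemidef_add (Matrix.PosDef.one.posSemidef.smul h0) hY
  exact h.det_pos.ne'

private theorem MPos_pos {x : ℝ} (h : 0 < x) : (0 : ℂ) < (x : ℂ) := by
  rw [← ofReal_zero]
  exact real_lt_real.mpr h

/-- The power `Y ^ a` through the spectral theorem. -/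
private noncomputable def MPosPw {Y : Matrix n n ℂ} (hY : Y.PosDef) (a : ℝ) : Matrix n n ℂ :=
  (hY.1.eigenvectorUnitary : Matrix n n ℂ) *
    diagonal (fun i => ((hY.1.eigenvalues i ^ a : ℝ) : ℂ)) *
    star (hY.1.eigenvectorUnitary : Matrix n n ℂ)

private theorem MPos_star_mul {Y : Matrix n n ℂ} (hY : Y.PosDef) :
    star (hY.1.eigenvectorUnitary : Matrix n n ℂ) * (hY.1.eigenvectorUnitary : Matrix n n ℂ) = 1 :=
  Unitary.coe_star_mul_self _

private theorem MPos_mul_star {Y : Matrix n n ℂ} (hY : Y.PosDef) :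
    (hY.1.eigenvectorUnitary : Matrix n n ℂ) * star (hY.1.eigenvectorUnitary : Matrix n n ℂ) = 1 :=
  Unitary.coe_mul_star_self _

private theorem MPosPw_mul {Y : Matrix n n ℂ} (hY : Y.PosDef) (a b : ℝ) :
    MPosPw hY a * MPosPw hY b = MPosPw hY (a + b) := by
  unfold MPosPw
  set U := (hY.1.eigenvectorUnitary : Matrix n n ℂ) with hU
  have h1 : star U * U = 1 := MPos_star_mul hY
  calc U * diagonal (fun i => ((hY.1.eigenvalues i ^ a : ℝ) : ℂ)) * star U *
        (U * diagonal (fun i => ((hY.1.eigenvalues i ^ b : ℝ) : ℂ)) * star U)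
      = U * diagonal (fun i => ((hY.1.eigenvalues i ^ a : ℝ) : ℂ)) * (star U * U) *
        diagonal (fun i => ((hY.1.eigenvalues i ^ b : ℝ) : ℂ)) * star U := by
          simp only [Matrix.mul_assoc]
    _ = U * (diagonal (fun i => ((hY.1.eigenvalues i ^ a : ℝ) : ℂ)) *
        diagonal (fun i => ((hY.1.eigenvalues i ^ b : ℝ) : ℂ))) * star U := by
          rw [h1, Matrix.mul_one]
          simp only [Matrix.mul_assoc]
    _ = U * diagonal (fun i => ((hY.1.eigenvalues i ^ (a + b) : ℝ) : ℂ)) * star U := by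
          rw [diagonal_mul_diagonal]
          congr 3
          funext i
          rw [← ofReal_mul, ← Real.rpow_add (hY.eigenvalues_pos i)]

private theorem MPosPw_posDef {Y : Matrix n n ℂ} (hY : Y.PosDef) (a : ℝ) :
    (MPosPw hY a).PosDef := by
  unfold MPosPw
  have h1 : (diagonal (fun i => ((hY.1.eigenvalues i ^ a : ℝ) : ℂ))).PosDef := by
    exact Matrix.PosDef.diagonal fun i => MPos_pos (Real.rpow_pos_of_pos (hY.eigenvalues_pos i) a)
  have h2 := h1.mul_mul_conjTranspose_same (B := (hY.1.eigenvectorUnitary : Matrix n n ℂ)) ?_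
  · exact h2
  · intro v w hvw
    have h3 := congrArg (fun x => x ᵥ* star (hY.1.eigenvectorUnitary : Matrix n n ℂ)) hvw
    simpa [Matrix.vecMul_vecMul, MPos_mul_star hY] using h3

private theorem MPos_spec {Y : Matrix n n ℂ} (hY : Y.PosDef) :
    Y = (hY.1.eigenvectorUnitary : Matrix n n ℂ) *
      diagonal (fun i => ((hY.1.eigenvalues i : ℝ) : ℂ)) *
      star (hY.1.eigenvectorUnitary : Matrix n n ℂ) := by
  have h := hY.1.spectral_theorem
  rw [Unitary.conjStarAlgAut_apply] at h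
  exact h

private theorem MPos_N {Y : Matrix n n ℂ} (hY : Y.PosDef) {s : ℝ} (hs : 0 < s) (hs1 : s < 1) :
    N s Y = MPosPw hY (-s) := by
  have hd : (diagonal (fun i => ((hY.1.eigenvalues i : ℝ) : ℂ))).PosDef := by
    exact Matrix.PosDef.diagonal fun i => MPos_pos (hY.eigenvalues_pos i)
  conv_lhs => rw [MPos_spec hY]
  rw [N_conj hs hs1 (MPos_mul_star hY) (PosDef.sec hd), N_diagonal hs hs1]
  · unfold MPosPw
    congr 3
    funext i
    rw [ofReal_cpow (hY.eigenvalues_pos i).le, ofReal_neg]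
  · intro i
    exact Or.inl (by simpa using hY.eigenvalues_pos i)

private theorem MPos_cfc {Y : Matrix n n ℂ} (hY : Y.PosDef) (a : ℝ) :
    cfc (fun x : ℝ => x ^ a) Y = MPosPw hY a := by
  rw [hY.1.cfc_eq, Matrix.IsHermitian.cfc, Unitary.conjStarAlgAut_apply]
  rfl

private theorem MPos_ev {Z : Matrix n n ℂ} (hZ : Z.IsHermitian) :
    ev Z = Finset.univ.val.map (fun i => ((hZ.eigenvalues i : ℝ) : ℂ)) :=
  hZ.roots_charpoly_eq_eigenvalues

private theorem MPos_es_trace {Z : Matrix n n ℂ} (hZ : Z.PosSemidef) (α : ℝ) :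
    es (fun r => r ^ (α : ℂ)) Z = ((cfc (fun x : ℝ => x ^ α) Z).trace.re : ℂ) := by
  have h1 : (cfc (fun x : ℝ => x ^ α) Z).trace = ∑ i, ((hZ.1.eigenvalues i ^ α : ℝ) : ℂ) := by
    rw [hZ.1.cfc_eq, Matrix.IsHermitian.cfc, Unitary.conjStarAlgAut_apply, Matrix.trace_mul_cycle,
      Unitary.coe_star_mul_self, Matrix.one_mul, Matrix.trace_diagonal]
    rfl
  rw [h1, ← ofReal_sum, ofReal_re, ofReal_sum]
  unfold es
  rw [MPos_ev hZ.1, Multiset.map_map]
  change ∑ i, _ = _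
  refine Finset.sum_congr rfl fun i _ => ?_
  rw [Function.comp_apply, ofReal_cpow (hZ.eigenvalues_nonneg i)]

theorem es_eq_Psi {α : ℝ} (hα : 1 < α) {X Y : Matrix n n ℂ} (hX : X.PosSemidef) (hY : Y.PosDef) :
    es (fun r => r ^ (α : ℂ)) (N (sa α) Y * X) = (Psi α X Y : ℂ) := by
  have hα0 : 0 < α := by linarith
  have hs : 0 < sa α := div_pos (by linarith) hα0
  have hs1 : sa α < 1 := by
    unfold sa
    rw [div_lt_one hα0]
    linarith
  have h1 : N (sa α) Y = MPosPw hY ((1 - α) / (2 * α)) * MPosPw hY ((1 - α) / (2 * α)) := by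
    rw [MPosPw_mul, MPos_N hY hs hs1]
    congr 1
    unfold sa
    field_simp
    ring
  have h2 : (MPosPw hY ((1 - α) / (2 * α)) * X * MPosPw hY ((1 - α) / (2 * α))).PosSemidef := by
    have h3 := hX.conjTranspose_mul_mul_same (MPosPw hY ((1 - α) / (2 * α)))
    rwa [(MPosPw_posDef hY _).1.eq] at h3
  have h4 : ev (N (sa α) Y * X) =
      ev (MPosPw hY ((1 - α) / (2 * α)) * X * MPosPw hY ((1 - α) / (2 * α))) := by
    rw [h1, Matrix.mul_assoc, ev_mul_comm]
  unfold Psi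
  rw [MPos_cfc hY, ← MPos_es_trace h2]
  unfold es
  rw [h4]

/-- For positive definite `X` and `Y` the eigenvalues of `Y ^ (-s) X` are positive. -/
theorem ev_N_mul_pos {s : ℝ} (hs : 0 < s) (hs1 : s < 1) {X Y : Matrix n n ℂ} (hX : X.PosDef)
    (hY : Y.PosDef) {r : ℂ} (hr : r ∈ ev (N s Y * X)) : 0 < r.re ∧ r.im = 0 := by
  have h1 : N s Y = MPosPw hY (-s / 2) * MPosPw hY (-s / 2) := by
    rw [MPosPw_mul, MPos_N hY hs hs1]
    congr 1
    ring
  have h2 : (MPosPw hY (-s / 2) * X * MPosPw hY (-s / 2)).PosDef := by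
    have h3 := hX.conjTranspose_mul_mul_same (B := MPosPw hY (-s / 2)) ?_
    · rwa [(MPosPw_posDef hY _).1.eq] at h3
    · intro v w hvw
      have h4 := congrArg (fun x => MPosPw hY (s / 2) *ᵥ x) hvw
      have h5 : MPosPw hY (s / 2) * MPosPw hY (-s / 2) = 1 := by
        rw [MPosPw_mul]
        have : s / 2 + -s / 2 = 0 := by ring
        rw [this]
        unfold MPosPw
        simp [MPos_mul_star hY]
      simpa [Matrix.mulVec_mulVec, h5] using h4
  rw [h1, Matrix.mul_assoc, ev_mul_comm, MPos_ev h2.1] at hr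
  obtain ⟨i, -, rfl⟩ := Multiset.mem_map.mp hr
  exact ⟨by simpa using h2.eigenvalues_pos i, by simp⟩

private theorem MPos_cpow {k : ℝ} (hk : 0 < k) {a : ℝ} (ha : a ≠ 0) (r : ℂ) :
    ((k : ℂ) * r) ^ (a : ℂ) = ((k ^ a : ℝ) : ℂ) * r ^ (a : ℂ) := by
  by_cases hr : r = 0
  · subst hr
    simp [ha]
  · have hk' : (k : ℂ) ≠ 0 := ofReal_ne_zero.mpr hk.ne'
    rw [cpow_def_of_ne_zero (mul_ne_zero hk' hr), cpow_def_of_ne_zero hr, log_ofReal_mul hk hr,
      add_mul, exp_add]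
    congr 1
    rw [ofReal_cpow hk.le, cpow_def_of_ne_zero hk', ofReal_log hk.le]

theorem Psi_smul {α : ℝ} (hα : 1 < α) {c : ℝ} (hc : 0 < c) {X Y : Matrix n n ℂ}
    (hX : X.PosSemidef) (hY : Y.PosDef) : Psi α ((c : ℂ) • X) ((c : ℂ) • Y) = c * Psi α X Y := by
  have hα0 : 0 < α := by linarith
  have hc' : (0 : ℂ) < (c : ℂ) := by
    rw [← ofReal_zero]
    exact real_lt_real.mpr hc
  have h1 := es_eq_Psi hα (hX.smul hc'.le) (hY.smul hc')
  have h2 := es_eq_Psi hα hX hY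
  have h3 : N (sa α) ((c : ℂ) • Y) * ((c : ℂ) • X) =
      ((c ^ (1 / α) : ℝ) : ℂ) • (N (sa α) Y * X) := by
    rw [N_smul hc Y (PosDef.sec hY), Matrix.smul_mul, Matrix.mul_smul, smul_smul]
    congr 1
    have : c ^ (1 / α) = c ^ (-sa α) * c := by
      conv_rhs => rw [← Real.rpow_one c, ← Real.rpow_mul hc.le, ← Real.rpow_add hc]
      congr 1
      unfold sa
      field_simp
      ring
    rw [this, ofReal_mul]
  have hk : (0 : ℝ) < c ^ (1 / α) := Real.rpow_pos_of_pos hc _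
  have h4 : es (fun r => r ^ (α : ℂ)) (((c ^ (1 / α) : ℝ) : ℂ) • (N (sa α) Y * X)) =
      (c : ℂ) * es (fun r => r ^ (α : ℂ)) (N (sa α) Y * X) := by
    unfold es
    rw [ev_smul, Multiset.map_map, ← Multiset.sum_map_mul_left]
    refine congrArg Multiset.sum (Multiset.map_congr rfl fun r _ => ?_)
    rw [Function.comp_apply, MPos_cpow hk hα0.ne']
    congr 2
    rw [← Real.rpow_mul hc.le, one_div, inv_mul_cancel₀ hα0.ne', Real.rpow_one]
  rw [h3, h4, h2] at h1
  have h5 : ((c * Psi α X Y : ℝ) : ℂ) = (Psi α ((c : ℂ) • X) ((c : ℂ) • Y) : ℂ) := by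
    rw [ofReal_mul]
    exact h1
  exact (ofReal_injective h5).symm

end SRE
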