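import Mathlib
import Pool.Agent.Lib_MP_c281c2_an.Defs
import Pool.Agent.Lib_MP_c281c2_an.NInt
import Pool.Agent.Lib_MP_c281c2_an.NDiag

/-!
# Piece NNUM: the numerical range of `Y ^ (-s)`

`N_quad_im`: `x* N x = Kc⁻¹ ∫ l ^ (-s) x* (l + Y)⁻¹ x dl` (finite sums, `integrable_N`), and with `w = (l + Y)⁻¹ x ≠ 0`: `x* (l + Y)⁻¹ x = ((l + Y) w)* w = conj (w* (l + Y) w)`, so
`Im (conj c * x* (l + Y)⁻¹ x) = - Im (c * w* (l + Y) w) < 0` for all `l > 0`. The integral of a negative (integrable) function is negative (`integral_pos_iff_support_of_nonneg` or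
`setIntegral_pos_iff_support_of_nonneg_ae`).

`N_cut`: `H = U diag(h) U*` (`Matrix.IsHermitian.spectral_theorem`), so `Y = H + i b = U diag(h_j + i b) U*`, `N s Y = U diag((h_j + i b) ^ (-s)) U*` (`N_conj`, `N_diagonal`; `h_j + i b` is in the slit plane and
`Sec (diag ..)`), and `x* N x = ∑ |u_j|² (h_j + i b) ^ (-s)` with `u = U* x ≠ 0`. `(h_j + i b) ^ (-s)` has the argument `-s arg (h_j + i b)`, `0 < arg < π`. So `Im < 0` and `Im (e^{i s π} ·) > 0`.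
`sec_cut`: `l + H + i b` has the quadratic form with imaginary part `b |v|² > 0`, so it is injective.
-/

namespace SRE

open Matrix Complex MeasureTheory Filter Topology

variable {n : Type} [Fintype n] [DecidableEq n]

private theorem NNum_quad {s : ℝ} (hs : 0 < s) (hs1 : s < 1) {Y : Matrix n n ℂ} (hY : Sec Y)
    (x : n → ℂ) :
    IntegrableOn (fun l : ℝ => ((l ^ (-s) : ℝ) : ℂ) *
      (star x ⬝ᵥ (((l : ℂ) • (1 : Matrix n n ℂ) + Y)⁻¹ *ᵥ x))) (Set.Ioi 0) ∧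
    star x ⬝ᵥ (N s Y *ᵥ x) = ((Kc s : ℝ) : ℂ)⁻¹ * ∫ l in Set.Ioi (0 : ℝ), ((l ^ (-s) : ℝ) : ℂ) *
      (star x ⬝ᵥ (((l : ℂ) • (1 : Matrix n n ℂ) + Y)⁻¹ *ᵥ x)) := by
  have e : (fun l : ℝ => ((l ^ (-s) : ℝ) : ℂ) *
      (star x ⬝ᵥ (((l : ℂ) • (1 : Matrix n n ℂ) + Y)⁻¹ *ᵥ x))) =
      fun l : ℝ => ∑ i, ∑ j, (star x i * x j) *
        (((l ^ (-s) : ℝ) : ℂ) * ((l : ℂ) • (1 : Matrix n n ℂ) + Y)⁻¹ i j) := by
    funext l
    simp only [dotProduct, mulVec, Finset.mul_sum]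
    refine Finset.sum_congr rfl fun i _ => Finset.sum_congr rfl fun j _ => ?_
    ring
  have hi : ∀ i j, Integrable (fun l : ℝ => (star x i * x j) *
      (((l ^ (-s) : ℝ) : ℂ) * ((l : ℂ) • (1 : Matrix n n ℂ) + Y)⁻¹ i j))
      (volume.restrict (Set.Ioi 0)) := fun i j => (integrable_N hs hs1 hY i j).const_mul _
  rw [e]
  constructor
  · exact integrable_finset_sum _ fun i _ => integrable_finset_sum _ fun j _ => hi i j
  · rw [integral_finset_sum _ fun i _ => integrable_finset_sum _ fun j _ => hi i j]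
    simp only [dotProduct, mulVec, Finset.mul_sum]
    refine Finset.sum_congr rfl fun i _ => ?_
    rw [integral_finset_sum _ fun j _ => hi i j, Finset.mul_sum]
    refine Finset.sum_congr rfl fun j _ => ?_
    rw [integral_const_mul]
    simp only [N, Matrix.of_apply]
    ring

private theorem NNum_point {Y : Matrix n n ℂ} {c : ℂ} {l : ℝ}
    (hd : ((l : ℂ) • (1 : Matrix n n ℂ) + Y).det ≠ 0)
    (hc : ∀ w : n → ℂ, w ≠ 0 →
      0 < (c * (star w ⬝ᵥ (((l : ℂ) • (1 : Matrix n n ℂ) + Y) *ᵥ w))).im)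
    {x : n → ℂ} (hx : x ≠ 0) :
    (starRingEnd ℂ c * (star x ⬝ᵥ (((l : ℂ) • (1 : Matrix n n ℂ) + Y)⁻¹ *ᵥ x))).im < 0 := by
  set Z := (l : ℂ) • (1 : Matrix n n ℂ) + Y with hZ
  have hu : IsUnit Z.det := isUnit_iff_ne_zero.mpr hd
  have hxw : Z *ᵥ (Z⁻¹ *ᵥ x) = x := by
    rw [Matrix.mulVec_mulVec, Matrix.mul_nonsing_inv _ hu, Matrix.one_mulVec]
  have hw : Z⁻¹ *ᵥ x ≠ 0 := by
    intro h
    rw [h, Matrix.mulVec_zero] at hxw
    exact hx hxw.symm
  have h := hc _ hw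
  rw [hxw] at h
  have e : star x ⬝ᵥ (Z⁻¹ *ᵥ x) = starRingEnd ℂ (star (Z⁻¹ *ᵥ x) ⬝ᵥ x) := by
    rw [starRingEnd_apply, ← Matrix.star_dotProduct]
  rw [e, ← map_mul, Complex.conj_im]
  linarith

theorem N_quad_im {s : ℝ} (hs : 0 < s) (hs1 : s < 1) {Y : Matrix n n ℂ} (hY : Sec Y) {c : ℂ}
    (hc : ∀ l : ℝ, 0 < l → ∀ w : n → ℂ, w ≠ 0 →
      0 < (c * (star w ⬝ᵥ (((l : ℂ) • (1 : Matrix n n ℂ) + Y) *ᵥ w))).im)
    {x : n → ℂ} (hx : x ≠ 0) : (starRingEnd ℂ c * (star x ⬝ᵥ (N s Y *ᵥ x))).im < 0 := by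
  obtain ⟨hint, he⟩ := NNum_quad hs hs1 hY x
  have hK := Kc_pos hs hs1
  rw [he]
  have e1 : starRingEnd ℂ c * (((Kc s : ℝ) : ℂ)⁻¹ * ∫ l in Set.Ioi (0 : ℝ), ((l ^ (-s) : ℝ) : ℂ) *
      (star x ⬝ᵥ (((l : ℂ) • (1 : Matrix n n ℂ) + Y)⁻¹ *ᵥ x))) =
      (((Kc s)⁻¹ : ℝ) : ℂ) * ∫ l in Set.Ioi (0 : ℝ), starRingEnd ℂ c * (((l ^ (-s) : ℝ) : ℂ) *
      (star x ⬝ᵥ (((l : ℂ) • (1 : Matrix n n ℂ) + Y)⁻¹ *ᵥ x))) := by
    rw [integral_const_mul]
    push_cast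
    ring
  rw [e1, Complex.im_ofReal_mul]
  have hg : Integrable (fun l : ℝ => starRingEnd ℂ c * (((l ^ (-s) : ℝ) : ℂ) *
      (star x ⬝ᵥ (((l : ℂ) • (1 : Matrix n n ℂ) + Y)⁻¹ *ᵥ x))))
      (volume.restrict (Set.Ioi 0)) := Integrable.const_mul hint _
  have h2 : (∫ l in Set.Ioi (0 : ℝ), starRingEnd ℂ c * (((l ^ (-s) : ℝ) : ℂ) *
      (star x ⬝ᵥ (((l : ℂ) • (1 : Matrix n n ℂ) + Y)⁻¹ *ᵥ x)))).im =
      ∫ l in Set.Ioi (0 : ℝ), (starRingEnd ℂ c * (((l ^ (-s) : ℝ) : ℂ) *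
      (star x ⬝ᵥ (((l : ℂ) • (1 : Matrix n n ℂ) + Y)⁻¹ *ᵥ x)))).im := (integral_im hg).symm
  have hneg : ∀ l : ℝ, l ∈ Set.Ioi (0 : ℝ) → (starRingEnd ℂ c * (((l ^ (-s) : ℝ) : ℂ) *
      (star x ⬝ᵥ (((l : ℂ) • (1 : Matrix n n ℂ) + Y)⁻¹ *ᵥ x)))).im < 0 := by
    intro l hl
    have e2 : starRingEnd ℂ c * (((l ^ (-s) : ℝ) : ℂ) *
        (star x ⬝ᵥ (((l : ℂ) • (1 : Matrix n n ℂ) + Y)⁻¹ *ᵥ x))) = ((l ^ (-s) : ℝ) : ℂ) *
        (starRingEnd ℂ c * (star x ⬝ᵥ (((l : ℂ) • (1 : Matrix n n ℂ) + Y)⁻¹ *ᵥ x))) := by ring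
    rw [e2, Complex.im_ofReal_mul]
    exact mul_neg_of_pos_of_neg (Real.rpow_pos_of_pos hl _)
      (NNum_point (hY l (le_of_lt hl)) (hc l hl) hx)
  have h3 : 0 < ∫ l in Set.Ioi (0 : ℝ), -(starRingEnd ℂ c * (((l ^ (-s) : ℝ) : ℂ) *
      (star x ⬝ᵥ (((l : ℂ) • (1 : Matrix n n ℂ) + Y)⁻¹ *ᵥ x)))).im := by
    rw [setIntegral_pos_iff_support_of_nonneg_ae]
    · have : Set.Ioi (0 : ℝ) ⊆ Function.support (fun l : ℝ => -(starRingEnd ℂ c *
          (((l ^ (-s) : ℝ) : ℂ) *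
          (star x ⬝ᵥ (((l : ℂ) • (1 : Matrix n n ℂ) + Y)⁻¹ *ᵥ x)))).im) := by
        intro l hl
        have := hneg l hl
        simp only [Function.mem_support]
        linarith
      rw [Set.inter_eq_right.mpr this]
      simp
    · refine (ae_restrict_iff' measurableSet_Ioi).mpr (Eventually.of_forall fun l hl => ?_)
      have := hneg l hl
      simp only [Pi.zero_apply]
      linarith
    · exact hg.im.neg
  rw [integral_neg] at h3
  rw [h2]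
  exact mul_neg_of_pos_of_neg (inv_pos.mpr hK) (by linarith)

private theorem NNum_form {H : Matrix n n ℂ} (hH : H.IsHermitian) (b l : ℝ) (v : n → ℂ) :
    (star v ⬝ᵥ (((l : ℂ) • (1 : Matrix n n ℂ) +
      (H + ((b : ℂ) * I) • (1 : Matrix n n ℂ))) *ᵥ v)).im = b * (star v ⬝ᵥ v).re := by
  have h0 : (star v ⬝ᵥ v).im = 0 := by
    have := Matrix.isHermitian_one.im_star_dotProduct_mulVec_self (𝕜 := ℂ) v
    rw [Matrix.one_mulVec] at this
    exact this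
  have h1 : (star v ⬝ᵥ (H *ᵥ v)).im = 0 := hH.im_star_dotProduct_mulVec_self v
  rw [Matrix.add_mulVec, Matrix.add_mulVec, Matrix.smul_mulVec, Matrix.smul_mulVec,
    Matrix.one_mulVec, dotProduct_add, dotProduct_add, dotProduct_smul, dotProduct_smul]
  simp only [smul_eq_mul, Complex.add_im, Complex.mul_im, h0, h1, Complex.mul_re, ofReal_re,
    ofReal_im, I_re, I_im]
  ring

open scoped ComplexOrder in
omit [DecidableEq n] in
private theorem NNum_pos {v : n → ℂ} (hv : v ≠ 0) : 0 < (star v ⬝ᵥ v).re :=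
  (Complex.pos_iff.mp (Matrix.dotProduct_star_self_pos_iff.mpr hv)).1

theorem sec_cut {H : Matrix n n ℂ} (hH : H.IsHermitian) {b : ℝ} (hb : 0 < b) :
    Sec (H + ((b : ℂ) * I) • (1 : Matrix n n ℂ)) := by
  intro l hl hdet
  obtain ⟨v, hv, h⟩ := Matrix.exists_mulVec_eq_zero_iff.mpr hdet
  have h1 : (star v ⬝ᵥ (((l : ℂ) • (1 : Matrix n n ℂ) +
      (H + ((b : ℂ) * I) • (1 : Matrix n n ℂ))) *ᵥ v)).im = 0 := by
    rw [h]; simp
  rw [NNum_form hH] at h1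
  exact absurd h1 (ne_of_gt (mul_pos hb (NNum_pos hv)))

private theorem NNum_arg {s : ℝ} (hs : 0 < s) (hs1 : s < 1) {d : ℂ} (hd : 0 < d.im) :
    0 < (cexp (((s * Real.pi : ℝ) : ℂ) * I) * d ^ (-(s : ℂ))).im := by
  have hd0 : d ≠ 0 := by
    intro h
    simp [h] at hd
  have h1 : 0 ≤ d.arg := Complex.arg_nonneg_iff.mpr hd.le
  have h2 : d.arg < Real.pi := Complex.arg_lt_pi_iff.mpr (Or.inr hd.ne')
  rw [Complex.cpow_def_of_ne_zero hd0, ← Complex.exp_add, Complex.exp_im]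
  refine mul_pos (Real.exp_pos _) ?_
  have e : (((s * Real.pi : ℝ) : ℂ) * I + Complex.log d * -(s : ℂ)).im = s * (Real.pi - d.arg) := by
    simp only [Complex.add_im, Complex.mul_im, Complex.neg_re, Complex.neg_im, ofReal_re,
      ofReal_im, I_re, I_im, Complex.log_im]
    ring
  rw [e]
  refine Real.sin_pos_of_pos_of_lt_pi (mul_pos hs (by linarith)) ?_
  have h3 := Real.pi_pos
  nlinarith

theorem N_cut {s : ℝ} (hs : 0 < s) (hs1 : s < 1) {H : Matrix n n ℂ} (hH : H.IsHermitian) {b : ℝ}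
    (hb : 0 < b) {x : n → ℂ} (hx : x ≠ 0) :
    (star x ⬝ᵥ (N s (H + ((b : ℂ) * I) • (1 : Matrix n n ℂ)) *ᵥ x)).im < 0 ∧
      0 < (cexp (((s * Real.pi : ℝ) : ℂ) * I) *
        (star x ⬝ᵥ (N s (H + ((b : ℂ) * I) • (1 : Matrix n n ℂ)) *ᵥ x))).im := by
  constructor
  · have h := N_quad_im hs hs1 (sec_cut hH hb) (c := 1) (fun l _ w hw => by
      rw [one_mul, NNum_form hH]
      exact mul_pos hb (NNum_pos hw)) hx
    rwa [map_one, one_mul] at h
  · set U : Matrix n n ℂ := (hH.eigenvectorUnitary : Matrix n n ℂ) with hU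
    have hUU : U * star U = 1 := Unitary.mul_star_self_of_mem hH.eigenvectorUnitary.2
    have hUU' : star U * U = 1 := Unitary.star_mul_self_of_mem hH.eigenvectorUnitary.2
    have hsp : H = U * diagonal (fun j => ((hH.eigenvalues j : ℝ) : ℂ)) * star U := by
      have := hH.spectral_theorem
      rw [Unitary.conjStarAlgAut_apply] at this
      exact this
    have hYe : H + ((b : ℂ) * I) • (1 : Matrix n n ℂ) =
        U * (diagonal (fun j => ((hH.eigenvalues j : ℝ) : ℂ)) +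
          ((b : ℂ) * I) • (1 : Matrix n n ℂ)) * star U := by
      rw [mul_add, add_mul, ← hsp, Matrix.mul_smul, Matrix.mul_one, Matrix.smul_mul, hUU]
    have hD : (diagonal (fun j => ((hH.eigenvalues j : ℝ) : ℂ))).IsHermitian := by
      rw [Matrix.isHermitian_diagonal_iff]
      intro j
      exact Complex.conj_ofReal _
    have hdd : diagonal (fun j => ((hH.eigenvalues j : ℝ) : ℂ)) +
        ((b : ℂ) * I) • (1 : Matrix n n ℂ) =
        diagonal (fun j => ((hH.eigenvalues j : ℝ) : ℂ) + (b : ℂ) * I) := by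
      rw [← Matrix.diagonal_one, ← Matrix.diagonal_smul, Matrix.diagonal_add]
      congr 1
      funext j
      simp
    have him : ∀ j, (((hH.eigenvalues j : ℝ) : ℂ) + (b : ℂ) * I).im = b := by
      intro j
      simp
    rw [hYe, N_conj hs hs1 hUU (sec_cut hD hb), hdd, N_diagonal hs hs1 (fun j => by
      rw [Complex.mem_slitPlane_iff]
      right
      rw [him]
      exact hb.ne')]
    set u : n → ℂ := star U *ᵥ x with hu
    have hu0 : u ≠ 0 := by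
      intro h
      apply hx
      have : U *ᵥ u = x := by
        rw [hu, Matrix.mulVec_mulVec, hUU, Matrix.one_mulVec]
      rw [← this, h, Matrix.mulVec_zero]
    have e : star x ⬝ᵥ ((U * diagonal (fun j => (((hH.eigenvalues j : ℝ) : ℂ) + (b : ℂ) * I) ^
        (-(s : ℂ))) * star U) *ᵥ x) = ∑ j, ((Complex.normSq (u j) : ℝ) : ℂ) *
        (((hH.eigenvalues j : ℝ) : ℂ) + (b : ℂ) * I) ^ (-(s : ℂ)) := by
      have hsu : star x ᵥ* U = star u := by
        rw [hu, Matrix.star_mulVec]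
        congr 1
        exact (star_star U).symm
      rw [← Matrix.mulVec_mulVec, ← Matrix.mulVec_mulVec, ← hu, Matrix.dotProduct_mulVec, hsu]
      simp only [dotProduct, Matrix.mulVec_diagonal, Pi.star_apply, RCLike.star_def]
      refine Finset.sum_congr rfl fun j _ => ?_
      rw [Complex.normSq_eq_conj_mul_self]
      ring
    rw [e, Finset.mul_sum, Complex.im_sum]
    have hj : ∀ j, (cexp (((s * Real.pi : ℝ) : ℂ) * I) * (((Complex.normSq (u j) : ℝ) : ℂ) *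
        (((hH.eigenvalues j : ℝ) : ℂ) + (b : ℂ) * I) ^ (-(s : ℂ)))).im =
        Complex.normSq (u j) * (cexp (((s * Real.pi : ℝ) : ℂ) * I) *
        (((hH.eigenvalues j : ℝ) : ℂ) + (b : ℂ) * I) ^ (-(s : ℂ))).im := by
      intro j
      rw [← Complex.im_ofReal_mul]
      congr 1
      ring
    have hp : ∀ j, 0 < (cexp (((s * Real.pi : ℝ) : ℂ) * I) *
        (((hH.eigenvalues j : ℝ) : ℂ) + (b : ℂ) * I) ^ (-(s : ℂ))).im := fun j =>
      NNum_arg hs hs1 (by rw [him]; exact hb)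
    obtain ⟨k, hk⟩ := Function.ne_iff.mp hu0
    refine Finset.sum_pos' (fun j _ => ?_) ⟨k, Finset.mem_univ k, ?_⟩
    · rw [hj]
      exact mul_nonneg (Complex.normSq_nonneg _) (hp j).le
    · rw [hj]
      exact mul_pos (Complex.normSq_pos.mpr hk) (hp k)

end SRE
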