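import Mathlib
import Pool.Agent.Lib_MP_c281c2_an.Defs
import Pool.Agent.Lib_MP_c281c2_an.NInt
import Pool.Agent.Lib_MP_c281c2_an.NHol
import Pool.Agent.Lib_MP_c281c2_an.NNum

/-!
# Piece MSEC: quadratic forms, `Sec (Y z)`, continuity and holomorphy of `M s z`

For a positive definite `A` and `v ≠ 0` the number `v* A v` is real and positive (`Matrix.PosDef`). `quad_X`: `v* X v = a + z b`, `a, b > 0`: `Im = b Im z`, `Im (conj z (a + z b)) = - a Im z`.
`quad_Y`: `v* (l + Y) v = l |v|² + c + z d + δ √z |v|²`; for `0 < Im z`: `0 < Im √z` and `Im (conj z √z) < 0` (`√z = |z|^{1/2} e^{iθ/2}`, `conj z √z = |z|^{3/2} e^{-iθ/2}`, `0 < θ < π`; `Complex.cpow_def`, `Complex.arg`,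
or: `u = √z` satisfies `u ^ 2 = z`, `0 < Re u`, `0 < Im u` and `conj z * u = conj u ^ 2 * u = |u|² conj u`).
`Y_cut`: `(-y) ^ (1/2) = i √y` (`Complex.cpow_def`, `Complex.log_neg..`, or `Complex.arg_ofReal_of_neg`).
`Ok.sec`: `0 < Im z`, `Im z < 0`: the quadratic form of `l + Y z` has a nonzero imaginary part at `v ≠ 0` (for `Im z < 0`: `Im √z < 0`), so `l + Y z` is injective. `z = t > 0` or `z = 0`: positive definite. `z = -y < 0`: `sec_cut`.
`continuousOn_M`: `z ↦ z ^ (1/2)` is continuous on `{0 ≤ Im z}` (at negative reals: `Complex.continuousWithinAt_arg_of_re_neg_of_im_zero`, `continuousWithinAt_log_of_re_neg_of_im_zero`; at `0`: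
`Complex.continuousAt_cpow_zero_of_re_pos` or `|z ^ (1/2)| = |z| ^ (1/2)`), then `N_tendsto`. `diff_M`: `N_diff` on the slit plane, products and sums of entries.
-/

namespace SRE

open Matrix Complex MeasureTheory Filter Topology
open scoped ComplexOrder

variable {n : Type} [Fintype n] [DecidableEq n] {p : Dat n}

omit [DecidableEq n] in
/-- the quadratic form of a positive definite matrix is a positive real number -/
private theorem msec_quad {A : Matrix n n ℂ} (hA : A.PosDef) {v : n → ℂ} (hv : v ≠ 0) :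
    ∃ a : ℝ, 0 < a ∧ star v ⬝ᵥ (A *ᵥ v) = (a : ℂ) := by
  have h := hA.dotProduct_mulVec_pos hv
  rw [Complex.lt_def] at h
  refine ⟨(star v ⬝ᵥ (A *ᵥ v)).re, h.1, ?_⟩
  apply Complex.ext
  · simp
  · simpa using h.2.symm

private theorem msec_norm {v : n → ℂ} (hv : v ≠ 0) :
    ∃ a : ℝ, 0 < a ∧ star v ⬝ᵥ v = (a : ℂ) := by
  obtain ⟨a, ha, h⟩ := msec_quad (Matrix.PosDef.one (n := n) (R := ℂ)) hv
  exact ⟨a, ha, by simpa using h⟩

/-- the square root -/
private theorem msec_sq (z : ℂ) : (z ^ (1 / 2 : ℂ)) ^ 2 = z := by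
  rw [← Complex.cpow_nat_mul]
  norm_num

private theorem msec_root {z : ℂ} (hz : z ≠ 0) :
    (z ^ (1 / 2 : ℂ)).re = Real.exp (Real.log ‖z‖ / 2) * Real.cos (z.arg / 2) ∧
      (z ^ (1 / 2 : ℂ)).im = Real.exp (Real.log ‖z‖ / 2) * Real.sin (z.arg / 2) := by
  have h : z ^ (1 / 2 : ℂ) = cexp (log z * (1 / 2 : ℂ)) := Complex.cpow_def_of_ne_zero hz _
  have hre : (log z * (1 / 2 : ℂ)).re = Real.log ‖z‖ / 2 := by
    have : (log z * (1 / 2 : ℂ)) = ((1 / 2 : ℝ) : ℂ) * log z := by push_cast; ring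
    rw [this, Complex.re_ofReal_mul, Complex.log_re]; ring
  have him : (log z * (1 / 2 : ℂ)).im = z.arg / 2 := by
    have : (log z * (1 / 2 : ℂ)) = ((1 / 2 : ℝ) : ℂ) * log z := by push_cast; ring
    rw [this, Complex.im_ofReal_mul, Complex.log_im]; ring
  rw [h, Complex.exp_re, Complex.exp_im, hre, him]
  exact ⟨rfl, rfl⟩

private theorem msec_im_pos {z : ℂ} (hz : 0 < z.im) : 0 < (z ^ (1 / 2 : ℂ)).im := by
  have h0 : z ≠ 0 := by rintro rfl; simp at hz
  rw [(msec_root h0).2]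
  have h1 : 0 < z.arg := by
    rcases lt_or_eq_of_le ((Complex.arg_nonneg_iff).2 hz.le) with h | h
    · exact h
    · exfalso
      have := (Complex.arg_eq_zero_iff.1 h.symm).2
      exact hz.ne' this
  have h2 : z.arg ≤ Real.pi := Complex.arg_le_pi z
  exact mul_pos (Real.exp_pos _) (Real.sin_pos_of_pos_of_lt_pi (by linarith) (by linarith [Real.pi_pos]))

private theorem msec_im_neg {z : ℂ} (hz : z.im < 0) : (z ^ (1 / 2 : ℂ)).im < 0 := by
  have h0 : z ≠ 0 := by rintro rfl; simp at hz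
  rw [(msec_root h0).2]
  have h1 : z.arg < 0 := Complex.arg_neg_iff.2 hz
  have h2 : -Real.pi < z.arg := Complex.neg_pi_lt_arg z
  exact mul_neg_of_pos_of_neg (Real.exp_pos _) (Real.sin_neg_of_neg_of_neg_pi_lt (by linarith) (by linarith [Real.pi_pos]))

private theorem msec_cut {y : ℝ} (hy : 0 < y) :
    (-(y : ℂ)) ^ (1 / 2 : ℂ) = ((y ^ (1 / 2 : ℝ) : ℝ) : ℂ) * I := by
  have h1 : (-(y : ℂ)) = ((-y : ℝ) : ℂ) := by push_cast; rfl
  rw [h1, Complex.ofReal_cpow_of_nonpos (by linarith)]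
  have h2 : cexp (Real.pi * I * (1 / 2 : ℂ)) = I := by
    have : (Real.pi * I * (1 / 2 : ℂ)) = Real.pi / 2 * I := by ring
    rw [this, Complex.exp_mul_I, Complex.cos_pi_div_two, Complex.sin_pi_div_two]
    simp
  rw [h2]
  push_cast
  rw [neg_neg, Complex.ofReal_cpow hy.le]
  push_cast
  rfl

theorem Dat.Ok.swap (hp : p.Ok) : p.swap.Ok := ⟨hp.B, hp.A, hp.D, hp.C, hp.δ⟩

theorem Dat.Ok.quad_X (hp : p.Ok) {z : ℂ} (hz : 0 < z.im) {v : n → ℂ} (hv : v ≠ 0) :
    0 < (star v ⬝ᵥ (p.X z *ᵥ v)).im ∧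
      (starRingEnd ℂ z * (star v ⬝ᵥ (p.X z *ᵥ v))).im < 0 := by
  obtain ⟨a, ha, ea⟩ := msec_quad hp.A hv
  obtain ⟨b, hb, eb⟩ := msec_quad hp.B hv
  have h : star v ⬝ᵥ (p.X z *ᵥ v) = (a : ℂ) + z * (b : ℂ) := by
    rw [Dat.X, Matrix.add_mulVec, Matrix.smul_mulVec, dotProduct_add, dotProduct_smul, ea, eb, smul_eq_mul]
  rw [h]
  constructor
  · simp
    positivity
  · simp
    nlinarith [mul_pos ha hz]

private theorem msec_form (p : Dat n) (z : ℂ) (l : ℂ) {v : n → ℂ} {c d m : ℝ}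
    (hc : star v ⬝ᵥ (p.C *ᵥ v) = (c : ℂ)) (hd : star v ⬝ᵥ (p.D *ᵥ v) = (d : ℂ))
    (hm : star v ⬝ᵥ v = (m : ℂ)) :
    star v ⬝ᵥ ((l • (1 : Matrix n n ℂ) + p.Y z) *ᵥ v) =
      l * m + (c + z * d + (p.δ : ℂ) * z ^ (1 / 2 : ℂ) * m) := by
  rw [Dat.Y, Matrix.add_mulVec, Matrix.add_mulVec, Matrix.add_mulVec, Matrix.smul_mulVec, Matrix.smul_mulVec,
    Matrix.smul_mulVec, Matrix.one_mulVec, dotProduct_add, dotProduct_add, dotProduct_add, dotProduct_smul,
    dotProduct_smul, dotProduct_smul, hc, hd, hm, smul_eq_mul, smul_eq_mul, smul_eq_mul]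

theorem Dat.Ok.quad_Y (hp : p.Ok) {z : ℂ} (hz : 0 < z.im) {l : ℝ} (hl : 0 ≤ l) {v : n → ℂ}
    (hv : v ≠ 0) :
    0 < (star v ⬝ᵥ (((l : ℂ) • (1 : Matrix n n ℂ) + p.Y z) *ᵥ v)).im ∧
      (starRingEnd ℂ z * (star v ⬝ᵥ (((l : ℂ) • (1 : Matrix n n ℂ) + p.Y z) *ᵥ v))).im < 0 := by
  obtain ⟨c, hc, ec⟩ := msec_quad hp.C hv
  obtain ⟨d, hd, ed⟩ := msec_quad hp.D hv
  obtain ⟨m, hm, em⟩ := msec_norm hv
  rw [msec_form p z l ec ed em]
  have hu := msec_im_pos hz
  have hsq := msec_sq z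
  set u := z ^ (1 / 2 : ℂ) with hudef
  have hδ := hp.δ
  have e1 : (l * m + (c + z * d + (p.δ : ℂ) * u * m) : ℂ).im = z.im * d + p.δ * u.im * m := by
    simp
  have e2 : (starRingEnd ℂ z * (l * m + (c + z * d + (p.δ : ℂ) * u * m))).im =
      -(z.im * (l * m + c)) - p.δ * m * (Complex.normSq u * u.im) := by
    have h3 : starRingEnd ℂ z * (l * m + (c + z * d + (p.δ : ℂ) * u * m)) =
        starRingEnd ℂ z * ((l * m + c : ℝ) : ℂ) + ((Complex.normSq z * d : ℝ) : ℂ) +
          ((p.δ * m * Complex.normSq u : ℝ) : ℂ) * starRingEnd ℂ u := by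
      have h4 : starRingEnd ℂ z = (starRingEnd ℂ u) ^ 2 := by rw [← map_pow, hsq]
      have h5 : ((Complex.normSq z : ℝ) : ℂ) = starRingEnd ℂ z * z := by
        rw [Complex.normSq_eq_conj_mul_self]
      have h6 : ((Complex.normSq u : ℝ) : ℂ) = starRingEnd ℂ u * u := by
        rw [Complex.normSq_eq_conj_mul_self]
      push_cast
      rw [h5, h6, h4]
      ring
    rw [h3]
    simp
    ring
  rw [e1, e2]
  constructor
  · positivity
  · have h7 : 0 < Complex.normSq u := by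
      rw [Complex.normSq_pos]
      rintro h
      rw [h] at hu
      simp at hu
    have h8 : 0 < z.im * (l * m + c) := by positivity
    have h9 : 0 < p.δ * m * (Complex.normSq u * u.im) := by positivity
    linarith

theorem Dat.Y_cut (p : Dat n) {y : ℝ} (hy : 0 < y) :
    p.Y (-(y : ℂ)) = (p.C - (y : ℂ) • p.D) +
      (((p.δ * y ^ (1 / 2 : ℝ) : ℝ) : ℂ) * I) • (1 : Matrix n n ℂ) := by
  rw [Dat.Y, msec_cut hy, neg_smul, ← sub_eq_add_neg]
  congr 2
  push_cast
  ring

theorem Dat.Ok.sec (hp : p.Ok) (z : ℂ) : Sec (p.Y z) := by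
  intro l hl hdet
  obtain ⟨v, hv, hv0⟩ := Matrix.exists_mulVec_eq_zero_iff.2 hdet
  obtain ⟨c, hc, ec⟩ := msec_quad hp.C hv
  obtain ⟨d, hd, ed⟩ := msec_quad hp.D hv
  obtain ⟨m, hm, em⟩ := msec_norm hv
  have hf := msec_form p z l ec ed em
  rw [hv0, dotProduct_zero] at hf
  have hδ := hp.δ
  have him : (z.im * d + p.δ * (z ^ (1 / 2 : ℂ)).im * m : ℝ) = 0 := by
    have := congrArg Complex.im hf
    simp at this
    linarith
  have hre : (l * m + c + z.re * d + p.δ * (z ^ (1 / 2 : ℂ)).re * m : ℝ) = 0 := by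
    have := congrArg Complex.re hf
    simp at this
    linarith
  rcases lt_trichotomy z.im 0 with h | h | h
  · have hu := msec_im_neg h
    have h1 : z.im * d < 0 := mul_neg_of_neg_of_pos h hd
    have h2 : p.δ * (z ^ (1 / 2 : ℂ)).im * m < 0 :=
      mul_neg_of_neg_of_pos (mul_neg_of_pos_of_neg hδ hu) hm
    linarith
  · rcases lt_or_ge z.re 0 with h1 | h1
    · have hz : z = -((-z.re : ℝ) : ℂ) := by
        apply Complex.ext <;> simp [h]
      have hy : 0 < -z.re := by linarith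
      have hc2 := msec_cut hy
      rw [← hz] at hc2
      rw [hc2, h] at him
      have h3 : 0 < (-z.re) ^ (1 / 2 : ℝ) := Real.rpow_pos_of_pos hy _
      have h4 : ((((-z.re) ^ (1 / 2 : ℝ) : ℝ) : ℂ) * I).im = (-z.re) ^ (1 / 2 : ℝ) := by simp
      rw [h4] at him
      have h5 : 0 < p.δ * (-z.re) ^ (1 / 2 : ℝ) * m := by positivity
      linarith
    · have hz : z = ((z.re : ℝ) : ℂ) := by
        apply Complex.ext <;> simp [h]
      have hr : z ^ (1 / 2 : ℂ) = ((z.re ^ (1 / 2 : ℝ) : ℝ) : ℂ) := by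
        rw [Complex.ofReal_cpow h1, ← hz]
        push_cast
        rfl
      rw [hr] at hre
      have h3 : 0 ≤ z.re ^ (1 / 2 : ℝ) := Real.rpow_nonneg h1 _
      rw [Complex.ofReal_re] at hre
      have h4 : 0 ≤ l * m := by positivity
      have h5 : 0 ≤ z.re * d := by positivity
      have h6 : 0 ≤ p.δ * z.re ^ (1 / 2 : ℝ) * m := by positivity
      linarith
  · have hu := msec_im_pos h
    have h1 : 0 < z.im * d := mul_pos h hd
    have h2 : 0 < p.δ * (z ^ (1 / 2 : ℂ)).im * m := by positivity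
    linarith

private theorem msec_root_cont : ContinuousOn (fun z : ℂ => z ^ (1 / 2 : ℂ)) {z : ℂ | 0 ≤ z.im} := by
  intro z hz
  by_cases h : z ∈ slitPlane
  · exact (ContinuousAt.cpow (f := fun z : ℂ => z) continuousAt_id continuousAt_const h).continuousWithinAt
  · by_cases h0 : z = 0
    · subst h0
      have h1 : ContinuousAt (fun x : ℂ × ℂ => x.1 ^ x.2) (0, (1 / 2 : ℂ)) :=
        Complex.continuousAt_cpow_zero_of_re_pos (by norm_num)
      have h2 : ContinuousAt (fun z : ℂ => ((z, (1 / 2 : ℂ)) : ℂ × ℂ)) 0 :=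
        continuousAt_id.prodMk continuousAt_const
      exact (ContinuousAt.comp (f := fun z : ℂ => ((z, (1 / 2 : ℂ)) : ℂ × ℂ)) h1 h2).continuousWithinAt
    · have hre : z.re < 0 := by
        rw [Complex.mem_slitPlane_iff] at h
        push Not at h
        rcases lt_or_eq_of_le h.1 with h1 | h1
        · exact h1
        · exact absurd (Complex.ext h1 h.2) h0
      have him : z.im = 0 := by
        rw [Complex.mem_slitPlane_iff] at h
        push Not at h
        exact h.2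
      have h1 : ContinuousWithinAt log {z : ℂ | 0 ≤ z.im} z :=
        Complex.continuousWithinAt_log_of_re_neg_of_im_zero hre him
      have h2 : ContinuousWithinAt (fun z : ℂ => cexp (log z * (1 / 2 : ℂ))) {z : ℂ | 0 ≤ z.im} z :=
        (h1.mul continuousWithinAt_const).cexp
      refine h2.congr_of_eventuallyEq ?_ (Complex.cpow_def_of_ne_zero h0 _)
      have h3 : ∀ᶠ w in 𝓝 z, w ≠ 0 := isOpen_ne.mem_nhds h0
      exact (h3.filter_mono nhdsWithin_le_nhds).mono fun w hw => Complex.cpow_def_of_ne_zero hw _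

theorem Dat.continuousOn_Y (p : Dat n) : ContinuousOn p.Y {z : ℂ | 0 ≤ z.im} := by
  have h : p.Y = fun z => p.C + z • p.D + ((p.δ : ℂ) * z ^ (1 / 2 : ℂ)) • (1 : Matrix n n ℂ) := rfl
  rw [h]
  exact (continuousOn_const.add (continuousOn_id.smul continuousOn_const)).add
    ((continuousOn_const.mul msec_root_cont).smul continuousOn_const)

theorem Dat.Ok.continuousOn_M (hp : p.Ok) {s : ℝ} (hs : 0 < s) (hs1 : s < 1) :
    ContinuousOn (fun z => p.M s z) {z : ℂ | 0 ≤ z.im} := by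
  intro z hz
  have h1 : Tendsto (fun w => N s (p.Y w)) (𝓝[{z : ℂ | 0 ≤ z.im}] z) (𝓝 (N s (p.Y z))) :=
    N_tendsto (σ := fun _ => s) hs hs1 tendsto_const_nhds (p.continuousOn_Y z hz) (hp.sec z)
  have h2 : Continuous p.X := by
    have : p.X = fun z => p.A + z • p.B := rfl
    rw [this]
    exact continuous_const.add (continuous_id.smul continuous_const)
  exact h1.mul (h2.continuousAt.tendsto.mono_left nhdsWithin_le_nhds)

theorem Dat.Ok.diff_M (hp : p.Ok) {s : ℝ} (hs : 0 < s) (hs1 : s < 1) (i j : n) :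
    DifferentiableOn ℂ (fun z => p.M s z i j) slitPlane := by
  have hY : ∀ i j, DifferentiableOn ℂ (fun z => p.Y z i j) slitPlane := by
    intro i j
    have : (fun z => p.Y z i j) = fun z => p.C i j + z * p.D i j +
        ((p.δ : ℂ) * z ^ (1 / 2 : ℂ)) * (1 : Matrix n n ℂ) i j := by
      funext z
      simp [Dat.Y]
    rw [this]
    have h1 : DifferentiableOn ℂ (fun z : ℂ => z ^ (1 / 2 : ℂ)) slitPlane := fun z hz =>
      (differentiableAt_id.cpow_const hz).differentiableWithinAt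
    exact ((differentiableOn_const _).add (differentiableOn_id.mul (differentiableOn_const _))).add
      (((differentiableOn_const _).mul h1).mul (differentiableOn_const _))
  have hM : (fun z => p.M s z i j) = fun z => ∑ k, N s (p.Y z) i k * p.X z k j := by
    funext z
    simp [Dat.M, Matrix.mul_apply]
  rw [hM]
  refine DifferentiableOn.fun_sum fun k _ => ?_
  refine (N_diff hs hs1 Complex.isOpen_slitPlane hY (fun z _ => hp.sec z) i k).mul ?_
  have : (fun z => p.X z k j) = fun z => p.A k j + z * p.B k j := by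
    funext z
    simp [Dat.X]
  rw [this]
  exact (differentiableOn_const _).add (differentiableOn_id.mul (differentiableOn_const _))

end SRE
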