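import Mathlib
import Pool.Agent.Lib_MP_c281c2_an.Defs
import Pool.Agent.Lib_MP_c281c2_an.EAlg
import Pool.Agent.Lib_MP_c281c2_an.NDiag
import Pool.Agent.Lib_MP_c281c2_an.NNum
import Pool.Agent.Lib_MP_c281c2_an.MSec

/-!
# Piece MINT: the eigenvalues of `M s z` in the slit plane

Let `r` be an eigenvalue: `N X v = r v`, `v ≠ 0`, `x = X v`. Then `x* N x = r x* v = r conj (v* x) = r conj (v* X v)` (`eigen_rel`).
`Im z > 0`: `m = x* N x`, `p = v* X v`. `Im p > 0`, `Im (conj z p) < 0` (`quad_X`), so `x ≠ 0`, and `Im m < 0` (`N_quad_im` with `c = 1`), `Im (z m) > 0` (`N_quad_im` with `c = - conj z`; both by `quad_Y`). If `r` were a real number `≤ 0`: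
`m = r conj p` gives `Im m = - r Im p ≥ 0`. Contradiction. (`ev_slit`, `Im z > 0`.)
`Im z < 0`: `conj z`, `ev_conj`. `ev_conj`: for `z` in the slit plane `(conj z) ^ (1/2) = conj (z ^ (1/2))`, so `Y (conj z) = (Y z)ᴴ`, `X (conj z) = (X z)ᴴ`, `N_conjTranspose`, `M (conj z) = (X z * N (Y z))ᴴ`, `ev_conjTranspose`, `ev_mul_comm`.
`z = t > 0` (`ev_pos`): `Y t` is positive definite, `Y t = U diag(y) U*`, `N = U diag(y_j ^ (-s)) U*` is positive definite (`N_conj`, `N_diagonal`) and `X t` is positive definite; `r conj (v* X v) = x* N x` with both `v* X v > 0` and `x* N x > 0`.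
-/

namespace SRE

open Matrix Complex MeasureTheory Filter Topology
open scoped ComplexOrder

variable {n : Type} [Fintype n] [DecidableEq n] {p : Dat n}

theorem eigen_rel {N' X' : Matrix n n ℂ} {v : n → ℂ} {r : ℂ} (h : (N' * X') *ᵥ v = r • v) :
    star (X' *ᵥ v) ⬝ᵥ (N' *ᵥ (X' *ᵥ v)) = r * starRingEnd ℂ (star v ⬝ᵥ (X' *ᵥ v)) := by
  rw [Matrix.mulVec_mulVec, h, dotProduct_smul, smul_eq_mul, Matrix.star_dotProduct]
  rfl

omit [DecidableEq n] in
private theorem MInt_quad {A : Matrix n n ℂ} (hA : A.PosDef) {v : n → ℂ} (hv : v ≠ 0) :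
    ∃ a : ℝ, 0 < a ∧ (a : ℂ) = star v ⬝ᵥ (A *ᵥ v) := by
  have h := hA.dotProduct_mulVec_pos hv
  rw [Complex.lt_def] at h
  refine ⟨(star v ⬝ᵥ (A *ᵥ v)).re, h.1, ?_⟩
  apply Complex.ext
  · simp
  · simpa using h.2

/-- The numbers `m = x* N x` and `v* X v` at an eigenvector, in the upper half plane. -/
theorem Dat.Ok.eigen_upper (hp : p.Ok) {s : ℝ} (hs : 0 < s) (hs1 : s < 1) {z : ℂ} (hz : 0 < z.im)
    {r : ℂ} (hr : r ∈ ev (p.M s z)) :
    ∃ (a b : ℝ) (m : ℂ), 0 < a ∧ 0 < b ∧ m.im < 0 ∧ 0 < (z * m).im ∧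
      m = r * starRingEnd ℂ (a + z * b) ∧ (∃ v : n → ℂ, v ≠ 0 ∧ (a : ℂ) = star v ⬝ᵥ (p.A *ᵥ v) ∧
        (b : ℂ) = star v ⬝ᵥ (p.B *ᵥ v)) := by
  obtain ⟨v, hv, hMv⟩ := mem_ev_iff.1 hr
  obtain ⟨a, ha, ea⟩ := MInt_quad hp.A hv
  obtain ⟨b, hb, eb⟩ := MInt_quad hp.B hv
  have hP : star v ⬝ᵥ (p.X z *ᵥ v) = (a : ℂ) + z * (b : ℂ) := by
    rw [Dat.X, Matrix.add_mulVec, Matrix.smul_mulVec, dotProduct_add, dotProduct_smul, ← ea, ← eb,
      smul_eq_mul]
  have hrel := eigen_rel (N' := N s (p.Y z)) (X' := p.X z) (v := v) (r := r) hMv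
  have hx : p.X z *ᵥ v ≠ 0 := by
    intro h0
    have h1 := (hp.quad_X hz hv).1
    rw [h0, dotProduct_zero] at h1
    simp at h1
  refine ⟨a, b, star (p.X z *ᵥ v) ⬝ᵥ (N s (p.Y z) *ᵥ (p.X z *ᵥ v)), ha, hb, ?_, ?_, ?_, v, hv,
    ea, eb⟩
  · have h1 := N_quad_im hs hs1 (hp.sec z) (c := 1) (fun l hl w hw => by
      rw [one_mul]
      exact (hp.quad_Y hz hl.le hw).1) hx
    rwa [map_one, one_mul] at h1
  · have h1 := N_quad_im hs hs1 (hp.sec z) (c := -starRingEnd ℂ z) (fun l hl w hw => by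
      rw [neg_mul, Complex.neg_im]
      linarith [(hp.quad_Y hz hl.le hw).2]) hx
    rw [map_neg, Complex.conj_conj, neg_mul, Complex.neg_im] at h1
    linarith
  · rw [hrel, hP]

private theorem MInt_half : (1 / 2 : ℂ) = starRingEnd ℂ (1 / 2 : ℂ) := by
  rw [map_div₀, map_one, map_ofNat]

private theorem MInt_X (hp : p.Ok) (z : ℂ) : p.X (starRingEnd ℂ z) = (p.X z)ᴴ := by
  rw [Dat.X, Dat.X, Matrix.conjTranspose_add, Matrix.conjTranspose_smul, hp.A.isHermitian.eq,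
    hp.B.isHermitian.eq]
  rfl

private theorem MInt_Y (hp : p.Ok) {z : ℂ} (hz : z ∈ slitPlane) :
    p.Y (starRingEnd ℂ z) = (p.Y z)ᴴ := by
  have h1 : (starRingEnd ℂ z) ^ (1 / 2 : ℂ) = starRingEnd ℂ (z ^ (1 / 2 : ℂ)) := by
    rw [Complex.conj_cpow _ _ (Complex.mem_slitPlane_iff_arg.1 hz).1, ← MInt_half]
  rw [Dat.Y, Dat.Y, Matrix.conjTranspose_add, Matrix.conjTranspose_add, Matrix.conjTranspose_smul,
    Matrix.conjTranspose_smul, hp.C.isHermitian.eq, hp.D.isHermitian.eq, Matrix.conjTranspose_one,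
    h1, star_mul']
  have h2 : star (p.δ : ℂ) = (p.δ : ℂ) := Complex.conj_ofReal _
  rw [h2]
  rfl

theorem Dat.Ok.ev_conj (hp : p.Ok) {s : ℝ} (hs : 0 < s) (hs1 : s < 1) {z : ℂ}
    (hz : z ∈ slitPlane) : ev (p.M s (starRingEnd ℂ z)) = (ev (p.M s z)).map (starRingEnd ℂ) := by
  rw [Dat.M, Dat.M, MInt_X hp, MInt_Y hp hz, N_conjTranspose, ← Matrix.conjTranspose_mul,
    ev_conjTranspose, ev_mul_comm]

/-- the fractional power of a positive definite matrix has a positive quadratic form -/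
private theorem MInt_Npos {s : ℝ} (hs : 0 < s) (hs1 : s < 1) {Y : Matrix n n ℂ} (hY : Y.PosDef)
    {x : n → ℂ} (hx : x ≠ 0) : ∃ a : ℝ, 0 < a ∧ (a : ℂ) = star x ⬝ᵥ (N s Y *ᵥ x) := by
  have hH := hY.isHermitian
  set U : Matrix n n ℂ := (hH.eigenvectorUnitary : Matrix n n ℂ) with hU
  have hUU : U * star U = 1 := Unitary.mul_star_self_of_mem hH.eigenvectorUnitary.2
  have hUU' : star U * U = 1 := Unitary.star_mul_self_of_mem hH.eigenvectorUnitary.2
  have hsp : Y = U * diagonal (fun j => ((hH.eigenvalues j : ℝ) : ℂ)) * star U := by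
    have := hH.spectral_theorem
    rw [Unitary.conjStarAlgAut_apply] at this
    exact this
  have hpos : ∀ j, 0 < hH.eigenvalues j := fun j => hY.eigenvalues_pos j
  have hslit : ∀ j, ((hH.eigenvalues j : ℝ) : ℂ) ∈ slitPlane := fun j =>
    Complex.ofReal_mem_slitPlane.2 (hpos j)
  have hsec : Sec (diagonal (fun j => ((hH.eigenvalues j : ℝ) : ℂ))) := by
    intro l hl
    have h1 : (l : ℂ) • (1 : Matrix n n ℂ) + diagonal (fun j => ((hH.eigenvalues j : ℝ) : ℂ)) =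
        diagonal fun j => ((l + hH.eigenvalues j : ℝ) : ℂ) := by
      rw [← Matrix.diagonal_one, ← Matrix.diagonal_smul, Matrix.diagonal_add]
      congr 1
      funext j
      simp
    rw [h1, Matrix.det_diagonal, Finset.prod_ne_zero_iff]
    intro j _
    exact_mod_cast (by linarith [hpos j] : (0 : ℝ) < l + hH.eigenvalues j).ne'
  have hN : N s Y = U * diagonal (fun j => (((hH.eigenvalues j) ^ (-s) : ℝ) : ℂ)) * star U := by
    conv_lhs => rw [hsp]
    rw [N_conj hs hs1 hUU hsec, N_diagonal hs hs1 hslit]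
    congr 2
    congr 1
    funext j
    rw [Complex.ofReal_cpow (hpos j).le]
    push_cast
    rfl
  set u : n → ℂ := star U *ᵥ x with hu
  have hu0 : u ≠ 0 := by
    intro h
    apply hx
    have : U *ᵥ u = x := by
      rw [hu, Matrix.mulVec_mulVec, hUU, Matrix.one_mulVec]
    rw [← this, h, Matrix.mulVec_zero]
  have e : star x ⬝ᵥ (N s Y *ᵥ x) =
      ((∑ j, Complex.normSq (u j) * (hH.eigenvalues j) ^ (-s) : ℝ) : ℂ) := by
    have hsu : star x ᵥ* U = star u := by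
      rw [hu, Matrix.star_mulVec]
      congr 1
      exact (star_star U).symm
    rw [hN, ← Matrix.mulVec_mulVec, ← Matrix.mulVec_mulVec, ← hu, Matrix.dotProduct_mulVec, hsu]
    simp only [dotProduct, Matrix.mulVec_diagonal, Pi.star_apply, RCLike.star_def]
    rw [Complex.ofReal_sum]
    refine Finset.sum_congr rfl fun j _ => ?_
    rw [Complex.ofReal_mul, Complex.normSq_eq_conj_mul_self]
    ring
  obtain ⟨k, hk⟩ := Function.ne_iff.mp hu0
  refine ⟨_, ?_, e.symm⟩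
  refine Finset.sum_pos' (fun j _ => ?_) ⟨k, Finset.mem_univ k, ?_⟩
  · exact mul_nonneg (Complex.normSq_nonneg _) (Real.rpow_nonneg (hpos j).le _)
  · exact mul_pos (Complex.normSq_pos.mpr hk) (Real.rpow_pos_of_pos (hpos k) _)

private theorem MInt_smul {A : Matrix n n ℂ} (hA : A.PosSemidef) {t : ℝ} (ht : 0 ≤ t) :
    ((t : ℂ) • A).PosSemidef :=
  hA.smul (by exact_mod_cast ht)

theorem Dat.Ok.ev_pos (hp : p.Ok) {s : ℝ} (hs : 0 < s) (hs1 : s < 1) {t : ℝ} (ht : 0 ≤ t) {r : ℂ}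
    (hr : r ∈ ev (p.M s (t : ℂ))) : 0 < r.re ∧ r.im = 0 := by
  have hX : (p.X (t : ℂ)).PosDef := hp.A.add_posSemidef (MInt_smul hp.B.posSemidef ht)
  have hY : (p.Y (t : ℂ)).PosDef := by
    have h1 : (p.δ : ℂ) * (t : ℂ) ^ (1 / 2 : ℂ) = ((p.δ * t ^ (1 / 2 : ℝ) : ℝ) : ℂ) := by
      rw [Complex.ofReal_mul, Complex.ofReal_cpow ht]
      push_cast
      rfl
    rw [Dat.Y, h1]
    refine (hp.C.add_posSemidef (MInt_smul hp.D.posSemidef ht)).add_posSemidef ?_
    exact MInt_smul Matrix.PosSemidef.one (mul_nonneg hp.δ.le (Real.rpow_nonneg ht _))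
  obtain ⟨v, hv, hMv⟩ := mem_ev_iff.1 hr
  obtain ⟨P, hP, eP⟩ := MInt_quad hX hv
  have hx : p.X (t : ℂ) *ᵥ v ≠ 0 := by
    intro h0
    rw [h0, dotProduct_zero] at eP
    exact hP.ne' (by exact_mod_cast eP)
  obtain ⟨m, hm, em⟩ := MInt_Npos hs hs1 hY hx
  have hrel := eigen_rel (N' := N s (p.Y (t : ℂ))) (X' := p.X (t : ℂ)) (v := v) (r := r) hMv
  rw [← em, ← eP, Complex.conj_ofReal] at hrel
  have hre : m = r.re * P := by
    have := congrArg Complex.re hrel
    simpa using this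
  have him : 0 = r.im * P := by
    have := congrArg Complex.im hrel
    simpa using this
  constructor
  · by_contra h
    push Not at h
    have := mul_nonpos_of_nonpos_of_nonneg h hP.le
    linarith
  · rcases mul_eq_zero.1 him.symm with h | h
    · exact h
    · exact absurd h hP.ne'

private theorem MInt_slit_upper (hp : p.Ok) {s : ℝ} (hs : 0 < s) (hs1 : s < 1) {z : ℂ}
    (hz : 0 < z.im) {r : ℂ} (hr : r ∈ ev (p.M s z)) : r ∈ slitPlane := by
  obtain ⟨a, b, m, ha, hb, hm, -, e, -⟩ := hp.eigen_upper hs hs1 hz hr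
  rw [Complex.mem_slitPlane_iff]
  by_contra h
  push Not at h
  have h1 : m.im = r.re * (-(z.im * b)) := by
    rw [e]
    simp [h.2]
  have h2 : 0 < z.im * b := mul_pos hz hb
  have h3 : 0 ≤ r.re * (-(z.im * b)) := mul_nonneg_of_nonpos_of_nonpos h.1 (by linarith)
  linarith

theorem Dat.Ok.ev_slit (hp : p.Ok) {s : ℝ} (hs : 0 < s) (hs1 : s < 1) {z : ℂ}
    (hz : z ∈ slitPlane) {r : ℂ} (hr : r ∈ ev (p.M s z)) : r ∈ slitPlane := by
  rcases lt_trichotomy z.im 0 with h | h | h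
  · have h1 : starRingEnd ℂ z ∈ slitPlane := by
      rw [Complex.mem_slitPlane_iff]
      right
      rw [Complex.conj_im]
      linarith
    have h2 := hp.ev_conj hs hs1 h1
    rw [Complex.conj_conj] at h2
    rw [h2, Multiset.mem_map] at hr
    obtain ⟨r', hr', rfl⟩ := hr
    have h3 := MInt_slit_upper hp hs hs1 (z := starRingEnd ℂ z)
      (by rw [Complex.conj_im]; linarith) hr'
    rw [Complex.mem_slitPlane_iff] at h3 ⊢
    rw [Complex.conj_re, Complex.conj_im]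
    rcases h3 with h3 | h3
    · exact Or.inl h3
    · exact Or.inr (neg_ne_zero.2 h3)
  · have h1 : 0 < z.re := by
      rw [Complex.mem_slitPlane_iff] at hz
      rcases hz with h2 | h2
      · exact h2
      · exact absurd h h2
    have h2 : z = ((z.re : ℝ) : ℂ) := by
      apply Complex.ext <;> simp [h]
    rw [h2] at hr
    rw [Complex.mem_slitPlane_iff]
    exact Or.inl (hp.ev_pos hs hs1 h1.le hr).1
  · exact MInt_slit_upper hp hs hs1 h hr

end SRE
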