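import Mathlib
import Pool.Agent.Lib_MP_c281c2_an.Defs
import Pool.Agent.Lib_MP_c281c2_an.EAlg
import Pool.Agent.Lib_MP_c281c2_an.NNum
import Pool.Agent.Lib_MP_c281c2_an.MSec
import Pool.Agent.Lib_MP_c281c2_an.MInt

/-!
# Piece MCUT: the eigenvalues on the cut

`z = -y`, `y > 0`. `Y z = H + i b` (`Dat.Y_cut`), `X z` is Hermitian. Let `N X v = r v`, `v ≠ 0`, `x = X v`, `m = x* N x = r * P` with the REAL number `P = v* X v` (`eigen_rel`). If `x = 0` then `r v = 0`, `r = 0`, `arg r = 0`.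
If `x ≠ 0`: `Im m < 0`, `Im (e^{i s π} m) > 0` (`N_cut`), i.e. `arg m ∈ (-sπ, 0)`, `m ≠ 0`, so `P ≠ 0`. `P > 0`: `r = m / P` has `arg r = arg m`. `P < 0`: `r = -m / |P|` has `arg r = arg m + π ∈ (π - sπ, π)`.
(Hence `r` is never a negative real number and `ev_near_cut` is not needed.)
`ev_cut`: the conclusion.
-/

namespace SRE

open Matrix Complex MeasureTheory Filter Topology
open scoped ComplexOrder

variable {n : Type} [Fintype n] [DecidableEq n] {p : Dat n}

/-- The arguments of the numbers `m` of `N_cut`. -/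
private lemma arg_MCut {s : ℝ} (hs : 0 < s) (hs1 : s < 1) {m : ℂ} (h1 : m.im < 0)
    (h2 : 0 < (cexp (((s * Real.pi : ℝ) : ℂ) * I) * m).im) :
    -(s * Real.pi) < m.arg ∧ m.arg < 0 := by
  have hpi := Real.pi_pos
  have hneg : m.arg < 0 := Complex.arg_neg_iff.mpr h1
  refine ⟨?_, hneg⟩
  have hgt : -Real.pi < m.arg := Complex.neg_pi_lt_arg m
  have hm : m = (‖m‖ : ℂ) * cexp ((m.arg : ℂ) * I) := (Complex.norm_mul_exp_arg_mul_I m).symm
  have hm0 : 0 < ‖m‖ := by
    rw [norm_pos_iff]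
    rintro rfl
    simp at h1
  have hcalc : cexp (((s * Real.pi : ℝ) : ℂ) * I) * m =
      (‖m‖ : ℂ) * cexp (((s * Real.pi + m.arg : ℝ) : ℂ) * I) := by
    conv_lhs => rw [hm]
    have : (((s * Real.pi + m.arg : ℝ) : ℂ) * I) =
        ((s * Real.pi : ℝ) : ℂ) * I + (m.arg : ℂ) * I := by
      push_cast
      ring
    rw [this, Complex.exp_add]
    ring
  rw [hcalc, Complex.im_ofReal_mul, Complex.exp_ofReal_mul_I_im] at h2
  have hsin : 0 < Real.sin (s * Real.pi + m.arg) := by
    by_contra hcon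
    push Not at hcon
    nlinarith
  by_contra hcon
  push Not at hcon
  have h3 : s * Real.pi + m.arg ≤ 0 := by linarith
  have h4 : -Real.pi ≤ s * Real.pi + m.arg := by nlinarith
  have := Real.sin_nonpos_of_nonpos_of_neg_pi_le h3 h4
  linarith

theorem Dat.Ok.ev_cut (hp : p.Ok) {s : ℝ} (hs : 0 < s) (hs1 : s < 1) {y : ℝ} (hy : 0 < y) {r : ℂ}
    (hr : r ∈ ev (p.M s (-(y : ℂ)))) :
    r = 0 ∨ (-(s * Real.pi) < r.arg ∧ r.arg < 0) ∨
      (Real.pi - s * Real.pi < r.arg ∧ r.arg < Real.pi) := by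
  obtain ⟨v, hv, h⟩ := mem_ev_iff.mp hr
  have hrel := eigen_rel (N' := N s (p.Y (-(y : ℂ)))) (X' := p.X (-(y : ℂ))) (v := v) (r := r) h
  -- `X` is Hermitian
  have hX : (p.X (-(y : ℂ))).IsHermitian := by
    unfold Dat.X
    refine hp.A.isHermitian.add ?_
    have hB := hp.B.isHermitian
    unfold Matrix.IsHermitian at hB ⊢
    rw [Matrix.conjTranspose_smul, hB]
    congr 1
    simp
  have hreal : starRingEnd ℂ (star v ⬝ᵥ (p.X (-(y : ℂ)) *ᵥ v)) =
      star v ⬝ᵥ (p.X (-(y : ℂ)) *ᵥ v) := by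
    have h1 : star (star v ⬝ᵥ (p.X (-(y : ℂ)) *ᵥ v)) = star v ⬝ᵥ (p.X (-(y : ℂ)) *ᵥ v) := by
      rw [← Matrix.star_dotProduct, Matrix.star_mulVec, hX.eq, ← Matrix.dotProduct_mulVec]
    exact h1
  obtain ⟨P, hP⟩ := Complex.conj_eq_iff_real.mp hreal
  rw [hP, Complex.conj_ofReal] at hrel
  by_cases hx : p.X (-(y : ℂ)) *ᵥ v = 0
  · left
    have h0 : r • v = 0 := by
      rw [← h]
      unfold Dat.M
      rw [← Matrix.mulVec_mulVec, hx, Matrix.mulVec_zero]
    exact (smul_eq_zero.mp h0).resolve_right hv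
  · right
    have hH : (p.C - (y : ℂ) • p.D).IsHermitian := by
      refine hp.C.isHermitian.sub ?_
      have hD := hp.D.isHermitian
      unfold Matrix.IsHermitian at hD ⊢
      rw [Matrix.conjTranspose_smul, hD]
      congr 1
      simp
    have hb : 0 < p.δ * y ^ (1 / 2 : ℝ) := mul_pos hp.δ (Real.rpow_pos_of_pos hy _)
    have hcut := N_cut hs hs1 hH hb hx
    rw [← p.Y_cut hy, hrel] at hcut
    obtain ⟨hm1, hm2⟩ := arg_MCut hs hs1 hcut.1 hcut.2
    have hP0 : P ≠ 0 := by
      rintro rfl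
      have := hcut.1
      simp at this
    rcases lt_or_gt_of_ne hP0 with hneg | hpos
    · right
      have h1 : (-(r * (P : ℂ))).arg = (r * (P : ℂ)).arg + Real.pi :=
        Complex.arg_neg_eq_arg_add_pi_of_im_neg hcut.1
      have h2 : -(r * (P : ℂ)) = ((-P : ℝ) : ℂ) * r := by
        push_cast
        ring
      rw [h2, Complex.arg_real_mul r (by linarith : (0 : ℝ) < -P)] at h1
      constructor
      · linarith
      · linarith
    · left
      have h2 : r * (P : ℂ) = (P : ℂ) * r := mul_comm _ _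
      rw [h2, Complex.arg_real_mul r hpos] at hm1 hm2
      exact ⟨hm1, hm2⟩

/-- On the closed upper half plane all eigenvalues are in the slit plane or zero. -/
theorem Dat.Ok.ev_closed (hp : p.Ok) {s : ℝ} (hs : 0 < s) (hs1 : s < 1) {z : ℂ} (hz : 0 ≤ z.im)
    {r : ℂ} (hr : r ∈ ev (p.M s z)) : r = 0 ∨ r ∈ slitPlane := by
  by_cases hzs : z ∈ slitPlane
  · exact Or.inr (hp.ev_slit hs hs1 hzs hr)
  · rw [Complex.mem_slitPlane_iff] at hzs
    push Not at hzs
    obtain ⟨hre, him⟩ := hzs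
    rcases eq_or_lt_of_le hre with h0 | hlt
    · -- `z = 0`
      have hz0 : z = ((0 : ℝ) : ℂ) := by
        apply Complex.ext
        · simpa using h0
        · simpa using him
      rw [hz0] at hr
      have := hp.ev_pos hs hs1 (le_refl (0 : ℝ)) hr
      right
      rw [Complex.mem_slitPlane_iff]
      exact Or.inl this.1
    · -- `z = -y`
      have hz1 : z = -((-z.re : ℝ) : ℂ) := by
        apply Complex.ext
        · simp
        · simpa using him
      rw [hz1] at hr
      have hpi := Real.pi_pos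
      rcases hp.ev_cut hs hs1 (by linarith : (0 : ℝ) < -z.re) hr with h | h | h
      · exact Or.inl h
      · right
        rw [Complex.mem_slitPlane_iff_arg]
        refine ⟨by linarith [h.2], ?_⟩
        rintro rfl
        have := h.2
        simp at this
      · right
        rw [Complex.mem_slitPlane_iff_arg]
        refine ⟨by linarith [h.2], ?_⟩
        rintro rfl
        have h1 := h.1
        rw [Complex.arg_zero] at h1
        nlinarith

end SRE
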