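import Mathlib
import Pool.Agent.Lib_MP_c281c2_an.Defs
import Pool.Agent.Lib_MP_c281c2_an.EAlg
import Pool.Agent.Lib_MP_c281c2_an.NInt
import Pool.Agent.Lib_MP_c281c2_an.NHol
import Pool.Agent.Lib_MP_c281c2_an.NDiag
import Pool.Agent.Lib_MP_c281c2_an.MSec

/-!
# Piece MSWAP: exchange of `0` and `∞`, growth

For `z ≠ 0`, `0 ≤ Im z` let `u = (conj z)⁻¹ = z / |z|²` (`0 ≤ Im u`). Then `conj (u ^ (1/2)) = z ^ (-1/2)` (also for negative `z`: `u ^ (1/2) = i |z|^{-1/2}`), so `(p.swap.Y u)ᴴ = D + z⁻¹ C + δ z ^ (-1/2)` and `Y z = z • (p.swap.Y u)ᴴ`, `X z = z • (p.swap.X u)ᴴ` (`swap_X`, `swap_Y`).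
`N_swap`: `N s (p.Y z) = z ^ (-s) • (N s (p.swap.Y u))ᴴ`. For `z = t > 0` this is `N_smul` and `N_conjTranspose`. On the slit plane both sides are holomorphic if the right side is written as
`z ^ (-s) • N s (Z z)` with `Z z = D + z⁻¹ C + δ z ^ (-1/2)` (which is `(p.swap.Y (conj z)⁻¹)ᴴ`, so `Sec (Z z)` by `Ok.sec` and `Sec.conjTranspose`), so they agree on the slit plane (identity theorem, entrywise; the slit plane is preconnected).
For `z = -y < 0`: both sides are continuous on `{0 ≤ Im z} \ {0}` (`N_tendsto`), and `-y` is a limit of points of the upper half plane.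
`ev_swap`: `M z = N s (Y z) * X z = z ^ (-s) * z • (N̂ᴴ * X̂ᴴ) = z ^ (1 - s) • (X̂ * N̂)ᴴ` (`Complex.cpow_add`), `ev_smul`, `ev_conjTranspose`, `ev_mul_comm`.
`growth`: `p.M s` is continuous on the compact set `{0 ≤ Im z, ‖z‖ ≤ 1}` (`continuousOn_M`), so its entries are bounded there and the eigenvalues too (`norm_ev_le`); the same for `p.swap`; for `‖z‖ ≥ 1` use `ev_swap` and `‖u‖ ≤ 1`:
`‖r‖ ≤ C ‖z‖ ^ (1 - s)` (`Complex.norm_cpow_eq_rpow_re_of_...`; in general `‖z ^ (x : ℂ)‖ = ‖z‖ ^ x` for real `x` and `z ≠ 0`).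
-/

namespace SRE

open Matrix Complex MeasureTheory Filter Topology
open scoped ComplexOrder

variable {n : Type} [Fintype n] [DecidableEq n] {p : Dat n}

omit [Fintype n] in
private theorem MSwap_one_conj : ((1 : Matrix n n ℂ))ᴴ = 1 := Matrix.conjTranspose_one

private theorem MSwap_arg {z : ℂ} (hz : z ≠ 0) : ((starRingEnd ℂ z)⁻¹).arg = z.arg := by
  have h1 : (starRingEnd ℂ z)⁻¹ = (((Complex.normSq z)⁻¹ : ℝ) : ℂ) * z := by
    rw [Complex.inv_def, Complex.conj_conj, Complex.normSq_conj, mul_comm]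
  rw [h1, Complex.arg_real_mul]
  exact inv_pos.2 (Complex.normSq_pos.2 hz)

private theorem MSwap_im {z : ℂ} (hz : 0 ≤ z.im) : 0 ≤ ((starRingEnd ℂ z)⁻¹).im := by
  rw [Complex.inv_im, Complex.conj_im, neg_neg, Complex.normSq_conj]
  exact div_nonneg hz (Complex.normSq_nonneg z)

private theorem MSwap_log {z : ℂ} (hz : z ≠ 0) :
    starRingEnd ℂ (log ((starRingEnd ℂ z)⁻¹)) = -log z := by
  apply Complex.ext
  · rw [Complex.conj_re, Complex.log_re, Complex.neg_re, Complex.log_re, norm_inv, Complex.norm_conj,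
      Real.log_inv]
  · rw [Complex.conj_im, Complex.log_im, Complex.neg_im, Complex.log_im, MSwap_arg hz]

private theorem MSwap_root {z : ℂ} (hz : z ≠ 0) :
    starRingEnd ℂ (((starRingEnd ℂ z)⁻¹) ^ (1 / 2 : ℂ)) = (z ^ (1 / 2 : ℂ))⁻¹ := by
  have hu : (starRingEnd ℂ z)⁻¹ ≠ 0 := inv_ne_zero ((map_ne_zero _).2 hz)
  rw [Complex.cpow_def_of_ne_zero hu, Complex.cpow_def_of_ne_zero hz, ← Complex.exp_conj, map_mul,
    MSwap_log hz, ← Complex.exp_neg, neg_mul]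
  congr 3
  have : (1 / 2 : ℂ) = ((1 / 2 : ℝ) : ℂ) := by push_cast; rfl
  rw [this, Complex.conj_ofReal]

private theorem MSwap_sq (z : ℂ) : (z ^ (1 / 2 : ℂ)) ^ 2 = z := by
  rw [← Complex.cpow_nat_mul]
  norm_num

/-- the matrix `D + z⁻¹ C + δ z ^ (-1/2)` -/
private noncomputable def MSwap_Z (p : Dat n) (z : ℂ) : Matrix n n ℂ :=
  p.D + z⁻¹ • p.C + ((p.δ : ℂ) * (z ^ (1 / 2 : ℂ))⁻¹) • (1 : Matrix n n ℂ)

private theorem MSwap_ZH (hp : p.Ok) {z : ℂ} (hz : z ≠ 0) :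
    (p.swap.Y (starRingEnd ℂ z)⁻¹)ᴴ = MSwap_Z p z := by
  rw [Dat.Y, MSwap_Z, Matrix.conjTranspose_add, Matrix.conjTranspose_add, Matrix.conjTranspose_smul,
    Matrix.conjTranspose_smul, Matrix.conjTranspose_one]
  have hC : p.swap.Cᴴ = p.D := hp.D.isHermitian
  have hD : p.swap.Dᴴ = p.C := hp.C.isHermitian
  have h1 : star (starRingEnd ℂ z)⁻¹ = z⁻¹ := by
    change starRingEnd ℂ _ = _
    rw [map_inv₀, Complex.conj_conj]
  have h2 : star (((p.swap.δ : ℝ) : ℂ) * ((starRingEnd ℂ z)⁻¹) ^ (1 / 2 : ℂ)) =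
      (p.δ : ℂ) * (z ^ (1 / 2 : ℂ))⁻¹ := by
    change starRingEnd ℂ _ = _
    rw [map_mul, MSwap_root hz, Complex.conj_ofReal]
    rfl
  rw [hC, hD, h1, h2]

private theorem MSwap_Y (p : Dat n) {z : ℂ} (hz : z ≠ 0) : p.Y z = z • MSwap_Z p z := by
  rw [Dat.Y, MSwap_Z, smul_add, smul_add, smul_smul, smul_smul, mul_inv_cancel₀ hz, one_smul]
  have h1 : z * ((p.δ : ℂ) * (z ^ (1 / 2 : ℂ))⁻¹) = (p.δ : ℂ) * z ^ (1 / 2 : ℂ) := by
    have h2 := MSwap_sq z
    have h3 : z ^ (1 / 2 : ℂ) ≠ 0 := by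
      intro h
      rw [h] at h2
      apply hz
      rw [← h2]
      simp
    field_simp
    rw [h2]
    ring
  rw [h1]
  abel

private theorem MSwap_sec (hp : p.Ok) {z : ℂ} (hz : z ≠ 0) : Sec (MSwap_Z p z) := by
  rw [← MSwap_ZH hp hz]
  exact Sec.conjTranspose (hp.swap.sec _)

private theorem MSwap_cpow_within {z : ℂ} (hz : 0 ≤ z.im) (h0 : z ≠ 0) (x : ℂ) :
    ContinuousWithinAt (fun w : ℂ => w ^ x) {w : ℂ | 0 ≤ w.im} z := by
  by_cases h : z ∈ slitPlane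
  · exact (ContinuousAt.cpow (f := fun z : ℂ => z) continuousAt_id continuousAt_const
      h).continuousWithinAt
  · have hre : z.re < 0 ∧ z.im = 0 := by
      rw [Complex.mem_slitPlane_iff] at h
      push Not at h
      refine ⟨?_, h.2⟩
      rcases lt_or_eq_of_le h.1 with h1 | h1
      · exact h1
      · exact absurd (Complex.ext h1 h.2) h0
    have h1 : ContinuousWithinAt log {z : ℂ | 0 ≤ z.im} z :=
      Complex.continuousWithinAt_log_of_re_neg_of_im_zero hre.1 hre.2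
    have h2 : ContinuousWithinAt (fun z : ℂ => cexp (log z * x)) {z : ℂ | 0 ≤ z.im} z :=
      (h1.mul continuousWithinAt_const).cexp
    refine h2.congr_of_eventuallyEq ?_ (Complex.cpow_def_of_ne_zero h0 _)
    have h3 : ∀ᶠ w in 𝓝 z, w ≠ 0 := isOpen_ne.mem_nhds h0
    exact (h3.filter_mono nhdsWithin_le_nhds).mono fun w hw => Complex.cpow_def_of_ne_zero hw _

private theorem MSwap_root_ne {z : ℂ} (hz : z ≠ 0) : z ^ (1 / 2 : ℂ) ≠ 0 := by
  intro h
  have h2 := MSwap_sq z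
  rw [h] at h2
  apply hz
  rw [← h2]
  simp

private theorem MSwap_Z_within (p : Dat n) {z : ℂ} (hz : 0 ≤ z.im) (h0 : z ≠ 0) :
    ContinuousWithinAt (fun w : ℂ => MSwap_Z p w) {w : ℂ | 0 ≤ w.im} z := by
  have h1 : ContinuousWithinAt (fun w : ℂ => (w ^ (1 / 2 : ℂ))⁻¹) {w : ℂ | 0 ≤ w.im} z :=
    (MSwap_cpow_within hz h0 _).inv₀ (MSwap_root_ne h0)
  have h2 : ContinuousWithinAt (fun w : ℂ => w⁻¹) {w : ℂ | 0 ≤ w.im} z :=
    (continuousAt_inv₀ h0).continuousWithinAt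
  exact (continuousWithinAt_const.add (h2.smul continuousWithinAt_const)).add
    ((continuousWithinAt_const.mul h1).smul continuousWithinAt_const)

private theorem MSwap_real (hp : p.Ok) {s t : ℝ} (ht : 0 < t) :
    N s (p.Y (t : ℂ)) = (t : ℂ) ^ (-(s : ℂ)) • N s (MSwap_Z p (t : ℂ)) := by
  have h0 : (t : ℂ) ≠ 0 := by exact_mod_cast ht.ne'
  rw [MSwap_Y p h0, N_smul ht _ (MSwap_sec hp h0)]
  congr 1
  rw [Complex.ofReal_cpow ht.le]
  push_cast
  rfl

private theorem MSwap_slit (hp : p.Ok) {s : ℝ} (hs : 0 < s) (hs1 : s < 1) {z : ℂ}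
    (hz : z ∈ slitPlane) : N s (p.Y z) = z ^ (-(s : ℂ)) • N s (MSwap_Z p z) := by
  have hr : DifferentiableOn ℂ (fun z : ℂ => z ^ (1 / 2 : ℂ)) slitPlane := fun z hz =>
    (differentiableAt_id.cpow_const hz).differentiableWithinAt
  have hY : ∀ i j, DifferentiableOn ℂ (fun z => p.Y z i j) slitPlane := by
    intro i j
    have : (fun z => p.Y z i j) = fun z => p.C i j + z * p.D i j +
        ((p.δ : ℂ) * z ^ (1 / 2 : ℂ)) * (1 : Matrix n n ℂ) i j := by
      funext z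
      simp [Dat.Y]
    rw [this]
    exact ((differentiableOn_const _).add (differentiableOn_id.mul (differentiableOn_const _))).add
      (((differentiableOn_const _).mul hr).mul (differentiableOn_const _))
  have hZ : ∀ i j, DifferentiableOn ℂ (fun z => MSwap_Z p z i j) slitPlane := by
    intro i j
    have : (fun z => MSwap_Z p z i j) = fun z => p.D i j + z⁻¹ * p.C i j +
        ((p.δ : ℂ) * (z ^ (1 / 2 : ℂ))⁻¹) * (1 : Matrix n n ℂ) i j := by
      funext z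
      simp [MSwap_Z]
    rw [this]
    have h1 : DifferentiableOn ℂ (fun z : ℂ => z⁻¹) slitPlane := fun z hz =>
      (differentiableAt_inv (slitPlane_ne_zero hz)).differentiableWithinAt
    have h2 : DifferentiableOn ℂ (fun z : ℂ => (z ^ (1 / 2 : ℂ))⁻¹) slitPlane :=
      hr.inv fun z hz => MSwap_root_ne (slitPlane_ne_zero hz)
    exact ((differentiableOn_const _).add (h1.mul (differentiableOn_const _))).add
      (((differentiableOn_const _).mul h2).mul (differentiableOn_const _))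
  ext i j
  have h1 : DifferentiableOn ℂ (fun z => N s (p.Y z) i j) slitPlane :=
    N_diff hs hs1 isOpen_slitPlane hY (fun z _ => hp.sec z) i j
  have h2 : DifferentiableOn ℂ (fun z => z ^ (-(s : ℂ)) * N s (MSwap_Z p z) i j) slitPlane := by
    refine DifferentiableOn.mul ?_
      (N_diff hs hs1 isOpen_slitPlane hZ (fun z hz => MSwap_sec hp (slitPlane_ne_zero hz)) i j)
    intro z hz
    exact (differentiableAt_id.cpow_const hz).differentiableWithinAt
  have h3 : Set.EqOn (fun z => N s (p.Y z) i j)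
      (fun z => z ^ (-(s : ℂ)) * N s (MSwap_Z p z) i j) slitPlane := by
    apply AnalyticOnNhd.eqOn_of_preconnected_of_frequently_eq
      (h1.analyticOnNhd isOpen_slitPlane) (h2.analyticOnNhd isOpen_slitPlane)
      (StarConvex.isPathConnected starConvex_one_slitPlane
        one_mem_slitPlane).isConnected.isPreconnected
      one_mem_slitPlane
    have h4 : Tendsto (fun x : ℝ => (x : ℂ)) (𝓝[≠] (1 : ℝ)) (𝓝[≠] (1 : ℂ)) := by
      apply tendsto_nhdsWithin_of_tendsto_nhds_of_eventually_within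
      · have := (Complex.continuous_ofReal.tendsto (1 : ℝ)).mono_left
          (nhdsWithin_le_nhds (s := {(1 : ℝ)}ᶜ))
        simpa using this
      · filter_upwards [self_mem_nhdsWithin] with x hx
        simp only [Set.mem_compl_iff, Set.mem_singleton_iff] at hx ⊢
        exact_mod_cast hx
    apply h4.frequently
    apply Eventually.frequently
    filter_upwards [nhdsWithin_le_nhds (Ioi_mem_nhds (zero_lt_one : (0 : ℝ) < 1))] with x hx
    have hx' : (0 : ℝ) < x := hx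
    rw [MSwap_real hp hx', Matrix.smul_apply, smul_eq_mul]
  rw [Matrix.smul_apply, smul_eq_mul]
  exact h3 hz

private theorem MSwap_all (hp : p.Ok) {s : ℝ} (hs : 0 < s) (hs1 : s < 1) {z : ℂ} (hz : 0 ≤ z.im)
    (hz0 : z ≠ 0) : N s (p.Y z) = z ^ (-(s : ℂ)) • N s (MSwap_Z p z) := by
  by_cases h : z ∈ slitPlane
  · exact MSwap_slit hp hs hs1 h
  · have hzim : z.im = 0 := by
      rw [Complex.mem_slitPlane_iff] at h
      push Not at h
      exact h.2
    -- the path `z + t i`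
    have hpath : Tendsto (fun t : ℝ => z + (t : ℂ) * I) (𝓝[>] (0 : ℝ)) (𝓝[{w : ℂ | 0 ≤ w.im}] z) := by
      apply tendsto_nhdsWithin_of_tendsto_nhds_of_eventually_within
      · have hc : Continuous fun t : ℝ => z + (t : ℂ) * I := by fun_prop
        have := (hc.tendsto 0).mono_left (nhdsWithin_le_nhds (s := Set.Ioi (0 : ℝ)))
        simpa using this
      · filter_upwards [self_mem_nhdsWithin] with t ht
        have ht' : (0 : ℝ) < t := ht
        simp [hzim, ht'.le]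
    have h1 : Tendsto (fun t : ℝ => N s (p.Y (z + (t : ℂ) * I))) (𝓝[>] (0 : ℝ)) (𝓝 (N s (p.Y z))) :=
      N_tendsto (σ := fun _ => s) hs hs1 tendsto_const_nhds
        (Tendsto.comp (p.continuousOn_Y z hz) hpath) (hp.sec z)
    have h2 : Tendsto (fun t : ℝ => N s (MSwap_Z p (z + (t : ℂ) * I))) (𝓝[>] (0 : ℝ))
        (𝓝 (N s (MSwap_Z p z))) :=
      N_tendsto (σ := fun _ => s) hs hs1 tendsto_const_nhds
        (Tendsto.comp (MSwap_Z_within p hz hz0) hpath) (MSwap_sec hp hz0)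
    have h3 : Tendsto (fun t : ℝ => (z + (t : ℂ) * I) ^ (-(s : ℂ))) (𝓝[>] (0 : ℝ))
        (𝓝 (z ^ (-(s : ℂ)))) :=
      Tendsto.comp (MSwap_cpow_within hz hz0 (-(s : ℂ))) hpath
    refine tendsto_nhds_unique_of_eventuallyEq h1 (h3.smul h2) ?_
    filter_upwards [self_mem_nhdsWithin] with t ht
    have ht' : (0 : ℝ) < t := ht
    apply MSwap_slit hp hs hs1
    rw [Complex.mem_slitPlane_iff]
    right
    simp [hzim, ht'.ne']

theorem Dat.Ok.N_swap (hp : p.Ok) {s : ℝ} (hs : 0 < s) (hs1 : s < 1) {z : ℂ} (hz : 0 ≤ z.im)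
    (hz0 : z ≠ 0) : N s (p.Y z) = z ^ (-(s : ℂ)) • (N s (p.swap.Y (starRingEnd ℂ z)⁻¹))ᴴ := by
  rw [← N_conjTranspose, MSwap_ZH hp hz0]
  exact MSwap_all hp hs hs1 hz hz0

private theorem MSwap_X (hp : p.Ok) {z : ℂ} (hz0 : z ≠ 0) :
    p.X z = z • (p.swap.X (starRingEnd ℂ z)⁻¹)ᴴ := by
  have hA : p.swap.Aᴴ = p.B := hp.B.isHermitian
  have hB : p.swap.Bᴴ = p.A := hp.A.isHermitian
  have h1 : star (starRingEnd ℂ z)⁻¹ = z⁻¹ := by
    change starRingEnd ℂ _ = _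
    rw [map_inv₀, Complex.conj_conj]
  rw [Dat.X, Dat.X, Matrix.conjTranspose_add, Matrix.conjTranspose_smul, hA, hB, h1, smul_add,
    smul_smul, mul_inv_cancel₀ hz0, one_smul, add_comm]

theorem Dat.Ok.ev_swap (hp : p.Ok) {s : ℝ} (hs : 0 < s) (hs1 : s < 1) {z : ℂ} (hz : 0 ≤ z.im)
    (hz0 : z ≠ 0) : ev (p.M s z) = (ev (p.swap.M s (starRingEnd ℂ z)⁻¹)).map
      (fun r => z ^ ((1 - s : ℝ) : ℂ) * starRingEnd ℂ r) := by
  have h1 : p.M s z = z ^ ((1 - s : ℝ) : ℂ) •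
      (p.swap.X (starRingEnd ℂ z)⁻¹ * N s (p.swap.Y (starRingEnd ℂ z)⁻¹))ᴴ := by
    have h2 : z ^ ((1 - s : ℝ) : ℂ) = z ^ (-(s : ℂ)) * z := by
      have h3 : ((1 - s : ℝ) : ℂ) = -(s : ℂ) + 1 := by push_cast; ring
      rw [h3, Complex.cpow_add _ _ hz0, Complex.cpow_one]
    rw [Dat.M, hp.N_swap hs hs1 hz hz0, MSwap_X hp hz0, Matrix.smul_mul, Matrix.mul_smul, smul_smul,
      h2, Matrix.conjTranspose_mul]
  rw [h1, ev_smul, ev_conjTranspose, Multiset.map_map, ev_mul_comm]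
  rfl

private theorem MSwap_bound (hp : p.Ok) {s : ℝ} (hs : 0 < s) (hs1 : s < 1) :
    ∃ K : ℝ, 0 ≤ K ∧ ∀ z : ℂ, 0 ≤ z.im → ‖z‖ ≤ 1 → ∀ r ∈ ev (p.M s z), ‖r‖ ≤ K := by
  have hcomp : IsCompact ({z : ℂ | 0 ≤ z.im} ∩ Metric.closedBall 0 1) := by
    refine (isCompact_closedBall (0 : ℂ) 1).inter_left ?_
    exact isClosed_le continuous_const Complex.continuous_im
  have hcont : ContinuousOn (fun z => ∑ i, ∑ j, ‖p.M s z i j‖)
      ({z : ℂ | 0 ≤ z.im} ∩ Metric.closedBall 0 1) := by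
    have h1 := (hp.continuousOn_M hs hs1).mono
      (Set.inter_subset_left (s := {z : ℂ | 0 ≤ z.im}) (t := Metric.closedBall 0 1))
    refine continuousOn_finset_sum _ fun i _ => continuousOn_finset_sum _ fun j _ => ?_
    have h2 : Continuous fun A : Matrix n n ℂ => ‖A i j‖ := by fun_prop
    exact h2.comp_continuousOn h1
  obtain ⟨K, hK⟩ := hcomp.exists_bound_of_continuousOn hcont
  refine ⟨Fintype.card n * max K 0, by positivity, fun z hz hz1 r hr => ?_⟩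
  refine norm_ev_le (M := p.M s z) (fun i j => ?_) hr
  have hmem : z ∈ {z : ℂ | 0 ≤ z.im} ∩ Metric.closedBall 0 1 := ⟨hz, by simpa using hz1⟩
  have h1 := hK z hmem
  rw [Real.norm_of_nonneg (Finset.sum_nonneg fun _ _ => Finset.sum_nonneg fun _ _ => norm_nonneg _)]
    at h1
  have h2 : ‖p.M s z i j‖ ≤ ∑ j, ‖p.M s z i j‖ :=
    Finset.single_le_sum (f := fun j => ‖p.M s z i j‖) (fun _ _ => norm_nonneg _) (Finset.mem_univ j)
  have h3 : ∑ j, ‖p.M s z i j‖ ≤ ∑ i, ∑ j, ‖p.M s z i j‖ :=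
    Finset.single_le_sum (f := fun i => ∑ j, ‖p.M s z i j‖)
      (fun _ _ => Finset.sum_nonneg fun _ _ => norm_nonneg _) (Finset.mem_univ i)
  exact (h2.trans (h3.trans h1)).trans (le_max_left _ _)

theorem Dat.Ok.growth (hp : p.Ok) {s : ℝ} (hs : 0 < s) (hs1 : s < 1) :
    ∃ C : ℝ, 0 < C ∧ ∀ z : ℂ, 0 ≤ z.im → ∀ r ∈ ev (p.M s z), ‖r‖ ≤ C * (1 + ‖z‖) ^ (1 - s) := by
  obtain ⟨K₁, hK₁, h₁⟩ := MSwap_bound hp hs hs1
  obtain ⟨K₂, hK₂, h₂⟩ := MSwap_bound hp.swap hs hs1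
  refine ⟨K₁ + K₂ + 1, by positivity, fun z hz r hr => ?_⟩
  rcases le_total ‖z‖ 1 with h | h
  · have h3 := h₁ z hz h r hr
    have h4 : (1 : ℝ) ≤ (1 + ‖z‖) ^ (1 - s) :=
      Real.one_le_rpow (by linarith [norm_nonneg z]) (by linarith)
    nlinarith
  · have hz0 : z ≠ 0 := by
      rintro rfl
      simp at h
      linarith
    rw [hp.ev_swap hs hs1 hz hz0, Multiset.mem_map] at hr
    obtain ⟨r', hr', rfl⟩ := hr
    have hu : ‖(starRingEnd ℂ z)⁻¹‖ ≤ 1 := by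
      rw [norm_inv, Complex.norm_conj]
      exact inv_le_one_of_one_le₀ h
    have h3 := h₂ _ (MSwap_im hz) hu r' hr'
    rw [norm_mul, Complex.norm_conj, Complex.norm_cpow_real]
    have h4 : ‖z‖ ^ (1 - s) ≤ (1 + ‖z‖) ^ (1 - s) :=
      Real.rpow_le_rpow (norm_nonneg z) (by linarith) (by linarith)
    have h5 : 0 ≤ ‖z‖ ^ (1 - s) := Real.rpow_nonneg (norm_nonneg z) _
    calc ‖z‖ ^ (1 - s) * ‖r'‖ ≤ (1 + ‖z‖) ^ (1 - s) * K₂ :=
          mul_le_mul h4 h3 (norm_nonneg _) (h5.trans h4)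
      _ ≤ (K₁ + K₂ + 1) * (1 + ‖z‖) ^ (1 - s) := by
          have h6 : 0 ≤ (1 + ‖z‖) ^ (1 - s) := h5.trans h4
          nlinarith

end SRE
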