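import Mathlib
import Pool.Agent.Lib_MP_c281c2_an.Defs
import Pool.Agent.Lib_MP_c281c2_an.EAlg
import Pool.Agent.Lib_MP_c281c2_an.ECont
import Pool.Agent.Lib_MP_c281c2_an.EHol
import Pool.Agent.Lib_MP_c281c2_an.MSec
import Pool.Agent.Lib_MP_c281c2_an.MInt
import Pool.Agent.Lib_MP_c281c2_an.MCut
import Pool.Agent.Lib_MP_c281c2_an.MSwap

/-!
# Piece SHOL: the function `S`

`0 < sa α < 1` for `1 < α`. `S_diff`: `differentiableAt_es` with `f r = r ^ α`, analytic on the slit plane (`ev_slit`, `diff_M`). `S_cont`: `es_tendsto` with `l = 𝓝[{0 ≤ Im}] z₀`; all eigenvalues at `z₀` are in the slit plane or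
zero (`ev_closed`), where `r ↦ r ^ α` is continuous (at `0`: `‖r ^ α‖ = ‖r‖ ^ α`). `S_growth`: `growth`, `α (1 - sa α) = 1`, `card_ev`. `S_conj`: `ev_conj`, `(conj r) ^ α = conj (r ^ α)` in the slit plane. `S_cut`: the definitions.
-/

namespace SRE

open Matrix Complex MeasureTheory Filter Topology
open scoped ComplexOrder

variable {n : Type} [Fintype n] [DecidableEq n] {p : Dat n}

theorem sa_pos {α : ℝ} (hα : 1 < α) : 0 < sa α := by
  unfold sa
  exact div_pos (by linarith) (by linarith)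

theorem sa_lt_one {α : ℝ} (hα : 1 < α) : sa α < 1 := by
  unfold sa
  rw [div_lt_one (by linarith)]
  linarith

theorem Dat.Ok.S_diff (hp : p.Ok) {α : ℝ} (hα : 1 < α) :
    DifferentiableOn ℂ (p.S α) slitPlane := by
  intro z₀ hz₀
  refine DifferentiableAt.differentiableWithinAt ?_
  refine differentiableAt_es (M := fun z => p.M (sa α) z) (f := fun r => r ^ (α : ℂ)) ?_ ?_
  · filter_upwards [isOpen_slitPlane.mem_nhds hz₀] with z hz i j
    exact (hp.diff_M (sa_pos hα) (sa_lt_one hα) i j).differentiableAt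
      (isOpen_slitPlane.mem_nhds hz)
  · intro r hr
    have hr' : r ∈ slitPlane := hp.ev_slit (sa_pos hα) (sa_lt_one hα) hz₀ hr
    exact analyticAt_id.cpow analyticAt_const hr'

theorem Dat.Ok.S_cont (hp : p.Ok) {α : ℝ} (hα : 1 < α) :
    ContinuousOn (p.S α) {z : ℂ | 0 ≤ z.im} := by
  intro z₀ hz₀
  have hM : Tendsto (fun z => p.M (sa α) z) (𝓝[{z : ℂ | 0 ≤ z.im}] z₀) (𝓝 (p.M (sa α) z₀)) :=
    hp.continuousOn_M (sa_pos hα) (sa_lt_one hα) z₀ hz₀
  refine es_tendsto (f := fun _ r => r ^ (α : ℂ)) (f₀ := fun r => r ^ (α : ℂ)) hM ?_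
  intro r hr
  have hc : ContinuousAt (fun x : ℂ => x ^ (α : ℂ)) r := by
    rcases hp.ev_closed (sa_pos hα) (sa_lt_one hα) hz₀ hr with h | h
    · subst h
      exact continuousAt_cpow_const_of_re_pos (Or.inl (by simp))
        (by rw [Complex.ofReal_re]; linarith)
    · exact continuousAt_cpow_const h
  refine Tendsto.mono_left ?_ inf_le_left
  exact hc.tendsto.comp tendsto_snd

theorem Dat.Ok.S_growth (hp : p.Ok) {α : ℝ} (hα : 1 < α) :
    ∃ C : ℝ, 0 < C ∧ ∀ z : ℂ, 0 ≤ z.im → ‖p.S α z‖ ≤ C * (1 + ‖z‖) := by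
  obtain ⟨C, hC, hg⟩ := hp.growth (sa_pos hα) (sa_lt_one hα)
  have hCα : 0 < C ^ α := Real.rpow_pos_of_pos hC α
  refine ⟨Fintype.card n * C ^ α + 1, by positivity, fun z hz => ?_⟩
  have hz1 : 0 ≤ 1 + ‖z‖ := by positivity
  have h1 : ∀ r ∈ ev (p.M (sa α) z), ‖r ^ (α : ℂ)‖ ≤ C ^ α * (1 + ‖z‖) := by
    intro r hr
    have h2 := hg z hz r hr
    have h3 : ((1 + ‖z‖) ^ (1 - sa α)) ^ α = 1 + ‖z‖ := by
      rw [← Real.rpow_mul hz1]
      have h4 : (1 - sa α) * α = 1 := by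
        unfold sa
        have : α ≠ 0 := by linarith
        field_simp
        ring
      rw [h4, Real.rpow_one]
    rw [Complex.norm_cpow_real]
    calc ‖r‖ ^ α ≤ (C * (1 + ‖z‖) ^ (1 - sa α)) ^ α :=
          Real.rpow_le_rpow (norm_nonneg _) h2 (by linarith)
      _ = C ^ α * (1 + ‖z‖) := by
          rw [Real.mul_rpow hC.le (Real.rpow_nonneg hz1 _), h3]
  have h5 : ‖p.S α z‖ ≤
      ((ev (p.M (sa α) z)).map fun r => ‖r ^ (α : ℂ)‖).sum := by
    unfold Dat.S es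
    refine (norm_multiset_sum_le _).trans ?_
    rw [Multiset.map_map]
    rfl
  have h6 : ((ev (p.M (sa α) z)).map fun r => ‖r ^ (α : ℂ)‖).sum ≤
      Multiset.card ((ev (p.M (sa α) z)).map fun r => ‖r ^ (α : ℂ)‖) • (C ^ α * (1 + ‖z‖)) := by
    refine Multiset.sum_le_card_nsmul _ _ ?_
    intro x hx
    obtain ⟨r, hr, rfl⟩ := Multiset.mem_map.1 hx
    exact h1 r hr
  rw [Multiset.card_map, card_ev, nsmul_eq_mul] at h6
  nlinarith [h5, h6]

theorem Dat.Ok.S_conj (hp : p.Ok) {α : ℝ} (hα : 1 < α) {z : ℂ} (hz : z ∈ slitPlane) :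
    p.S α (starRingEnd ℂ z) = starRingEnd ℂ (p.S α z) := by
  have h1 := hp.ev_conj (sa_pos hα) (sa_lt_one hα) hz
  unfold Dat.S es
  rw [h1, Multiset.map_map, map_multiset_sum, Multiset.map_map]
  congr 1
  refine Multiset.map_congr rfl fun r hr => ?_
  have hr' : r ∈ slitPlane := hp.ev_slit (sa_pos hα) (sa_lt_one hα) hz hr
  have h2 := Complex.conj_cpow r (α : ℂ) (Complex.slitPlane_arg_ne_pi hr')
  rw [Complex.conj_ofReal] at h2
  exact h2

theorem Dat.S_cut (p : Dat n) (α y : ℝ) : -(p.S α (-(y : ℂ))).im = p.sp α y + p.sm α y := by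
  classical
  unfold Dat.S Dat.sp Dat.sm es
  refine Multiset.induction_on (ev (p.M (sa α) (-(y : ℂ)))) ?_ ?_
  · simp
  · intro a s ih
    simp only [Multiset.map_cons, Multiset.sum_cons, Complex.add_im]
    by_cases h : a.arg ≤ 0
    · simp only [h, if_true]
      linarith
    · simp only [h, if_false]
      linarith

end SRE
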