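import Mathlib
import Pool.Agent.Lib_MP_c281c2_an.Defs
import Pool.Agent.Lib_MP_c281c2_an.EAlg
import Pool.Agent.Lib_MP_c281c2_an.ECont
import Pool.Agent.Lib_MP_c281c2_an.EHol
import Pool.Agent.Lib_MP_c281c2_an.NInt
import Pool.Agent.Lib_MP_c281c2_an.NHol
import Pool.Agent.Lib_MP_c281c2_an.MPos
import Pool.Agent.Lib_MP_c281c2_an.SHol

/-!
# Piece FLIM: the limit of the regularised pencils

`fam A B C D κ`: the pencil with `A + κ`, `B + κ`, `C + κ`, `D + κ` and `δ = κ`. `fam_ok`: a positive semidefinite matrix plus `κ > 0` is positive definite.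
`fam_near`: near `(κ, z) = (0, 1)`: `Y z → C + D` (positive definite), so `Sec` (`isOpen_sec`), `(κ, z) ↦ M (sa (α + κ)) z` is continuous there (`N_tendsto` with `σ = sa (α + κ)`; `z ^ (1/2)` is continuous near `1`), and the eigenvalues of
`M (sa α) 1 = N s (C + D) * (A + B)` are positive (`ev_N_mul_pos`), so near `(0, 1)` all eigenvalues are in the slit plane (`ev_tendsto`). Take `κ₀`, `ρ` such that all this holds on `[0, κ₀] × closedBall 1 ρ` (and `ρ < 1`, so that the ball is in the slit plane).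
Continuity of `F κ z = (fam κ).S (α + κ) z`: `es_tendsto` along `𝓝[K] (κ₁, z₁)` with `f (κ, z) r = r ^ (α + κ)`, jointly continuous at `r` in the slit plane. Holomorphy in `z`: `differentiableAt_es` (`N_diff` on the open ball).
`fam_zero`: at `κ = 0` and real `t > 0`: `es_eq_Psi` for `A + t B` (positive semidefinite) and `C + t D` (positive definite: `C + t D ≥ min(1, t) (C + D)`).
-/

namespace SRE

open Matrix Complex MeasureTheory Filter Topology Metric
open scoped ComplexOrder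

variable {n : Type} [Fintype n] [DecidableEq n]

/-- The family of regularised pencils. -/
noncomputable def fam (A B C D : Matrix n n ℂ) (κ : ℝ) : Dat n :=
  ⟨A + (κ : ℂ) • 1, B + (κ : ℂ) • 1, C + (κ : ℂ) • 1, D + (κ : ℂ) • 1, κ⟩

private theorem flim_smul_one {κ : ℝ} (hκ : 0 < κ) :
    ((κ : ℂ) • (1 : Matrix n n ℂ)).PosDef :=
  Matrix.PosDef.one.smul (by exact_mod_cast hκ)

theorem fam_ok {A B C D : Matrix n n ℂ} (hA : A.PosSemidef) (hB : B.PosSemidef)
    (hC : C.PosSemidef) (hD : D.PosSemidef) {κ : ℝ} (hκ : 0 < κ) : (fam A B C D κ).Ok :=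
  ⟨Matrix.PosDef.posSemidef_add hA (flim_smul_one hκ),
    Matrix.PosDef.posSemidef_add hB (flim_smul_one hκ),
    Matrix.PosDef.posSemidef_add hC (flim_smul_one hκ),
    Matrix.PosDef.posSemidef_add hD (flim_smul_one hκ), hκ⟩

private theorem flim_Y_cont (A B C D : Matrix n n ℂ) {x₁ : ℝ × ℂ} (hz : x₁.2 ∈ slitPlane) :
    ContinuousAt (fun x : ℝ × ℂ => (fam A B C D x.1).Y x.2) x₁ := by
  have h1 : ContinuousAt (fun x : ℝ × ℂ => ((x.1 : ℝ) : ℂ)) x₁ := by fun_prop
  have h2 : ContinuousAt (fun x : ℝ × ℂ => x.2) x₁ := by fun_prop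
  have h3 : ContinuousAt (fun x : ℝ × ℂ => x.2 ^ (1 / 2 : ℂ)) x₁ :=
    (continuousAt_cpow_const hz).comp h2
  unfold Dat.Y fam
  exact ((continuousAt_const.add (h1.smul continuousAt_const)).add
    (h2.smul (continuousAt_const.add (h1.smul continuousAt_const)))).add
    ((h1.mul h3).smul continuousAt_const)

private theorem flim_X_cont (A B C D : Matrix n n ℂ) {x₁ : ℝ × ℂ} :
    ContinuousAt (fun x : ℝ × ℂ => (fam A B C D x.1).X x.2) x₁ := by
  have h1 : ContinuousAt (fun x : ℝ × ℂ => ((x.1 : ℝ) : ℂ)) x₁ := by fun_prop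
  have h2 : ContinuousAt (fun x : ℝ × ℂ => x.2) x₁ := by fun_prop
  unfold Dat.X fam
  exact (continuousAt_const.add (h1.smul continuousAt_const)).add
    (h2.smul (continuousAt_const.add (h1.smul continuousAt_const)))

private theorem flim_sa_cont {α : ℝ} {x₁ : ℝ × ℂ} (h : 1 < α + x₁.1) :
    ContinuousAt (fun x : ℝ × ℂ => sa (α + x.1)) x₁ := by
  unfold sa
  have h0 : α + x₁.1 ≠ 0 := by linarith
  have h1 : ContinuousAt (fun x : ℝ × ℂ => α + x.1) x₁ := by fun_prop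
  exact (h1.sub continuousAt_const).div h1 h0

private theorem flim_M_cont (A B C D : Matrix n n ℂ) {α : ℝ} {x₁ : ℝ × ℂ}
    (hz : x₁.2 ∈ slitPlane) (h : 1 < α + x₁.1) (hs : Sec ((fam A B C D x₁.1).Y x₁.2)) :
    ContinuousAt (fun x : ℝ × ℂ => (fam A B C D x.1).M (sa (α + x.1)) x.2) x₁ := by
  have h1 := N_tendsto (sa_pos h) (sa_lt_one h) (flim_sa_cont h).tendsto
    (flim_Y_cont A B C D hz).tendsto hs
  have h2 := (flim_X_cont A B C D (x₁ := x₁)).tendsto
  unfold Dat.M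
  exact h1.mul h2

/-- The good points. -/
private def flim_P (A B C D : Matrix n n ℂ) (α : ℝ) (x : ℝ × ℂ) : Prop :=
  x.2 ∈ slitPlane ∧ 1 < α + x.1 ∧ Sec ((fam A B C D x.1).Y x.2) ∧
    ∀ r ∈ ev ((fam A B C D x.1).M (sa (α + x.1)) x.2), r ∈ slitPlane

private theorem flim_X_zero (A B C D : Matrix n n ℂ) (z : ℂ) :
    (fam A B C D 0).X z = A + z • B := by
  simp [fam, Dat.X]

private theorem flim_Y_zero (A B C D : Matrix n n ℂ) (z : ℂ) :
    (fam A B C D 0).Y z = C + z • D := by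
  simp [fam, Dat.Y]

private theorem flim_P_ev {A B C D : Matrix n n ℂ} (hAB : (A + B).PosDef) (hCD : (C + D).PosDef)
    {α : ℝ} (hα : 1 < α) : ∀ᶠ x in 𝓝 ((0, 1) : ℝ × ℂ), flim_P A B C D α x := by
  have h1m : ((0, 1) : ℝ × ℂ).2 ∈ slitPlane := one_mem_slitPlane
  have hα0 : 1 < α + ((0, 1) : ℝ × ℂ).1 := by simpa using hα
  have hY1 : (fam A B C D ((0, 1) : ℝ × ℂ).1).Y ((0, 1) : ℝ × ℂ).2 = C + D := by
    have := flim_Y_zero A B C D 1
    rw [one_smul] at this
    exact this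
  have hX1 : (fam A B C D ((0, 1) : ℝ × ℂ).1).X ((0, 1) : ℝ × ℂ).2 = A + B := by
    have := flim_X_zero A B C D 1
    rw [one_smul] at this
    exact this
  have hS1 : Sec ((fam A B C D ((0, 1) : ℝ × ℂ).1).Y ((0, 1) : ℝ × ℂ).2) := by
    rw [hY1]; exact PosDef.sec hCD
  have e1 : ∀ᶠ x in 𝓝 ((0, 1) : ℝ × ℂ), x.2 ∈ slitPlane :=
    continuous_snd.continuousAt.eventually (isOpen_slitPlane.eventually_mem h1m)
  have e2 : ∀ᶠ x in 𝓝 ((0, 1) : ℝ × ℂ), 1 < α + x.1 := by
    have hc : ContinuousAt (fun x : ℝ × ℂ => α + x.1) (0, 1) := by fun_prop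
    exact hc.eventually_const_lt hα0
  have e3 : ∀ᶠ x in 𝓝 ((0, 1) : ℝ × ℂ), Sec ((fam A B C D x.1).Y x.2) :=
    (flim_Y_cont A B C D h1m).eventually (isOpen_sec.eventually_mem hS1)
  have e4 : ∀ᶠ x in 𝓝 ((0, 1) : ℝ × ℂ),
      ∀ r ∈ ev ((fam A B C D x.1).M (sa (α + x.1)) x.2), r ∈ slitPlane := by
    refine ev_tendsto (flim_M_cont A B C D h1m hα0 hS1).tendsto ?_
    intro r hr
    unfold Dat.M at hr
    rw [hY1, hX1] at hr
    have h3 := ev_N_mul_pos (sa_pos hα0) (sa_lt_one hα0) hAB hCD hr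
    exact isOpen_slitPlane.mem_nhds (Or.inl h3.1)
  filter_upwards [e1, e2, e3, e4] with x h1 h2 h3 h4
  exact ⟨h1, h2, h3, h4⟩

private theorem flim_S_cont {A B C D : Matrix n n ℂ} {α : ℝ} {x₁ : ℝ × ℂ}
    (h : flim_P A B C D α x₁) :
    ContinuousAt (fun x : ℝ × ℂ => (fam A B C D x.1).S (α + x.1) x.2) x₁ := by
  obtain ⟨h1, h2, h3, h4⟩ := h
  unfold Dat.S
  refine es_tendsto (f := fun (x : ℝ × ℂ) (r : ℂ) => r ^ ((α + x.1 : ℝ) : ℂ))
    (f₀ := fun r => r ^ ((α + x₁.1 : ℝ) : ℂ)) (flim_M_cont A B C D h1 h2 h3).tendsto ?_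
  intro r hr
  refine Tendsto.mono_left ?_ inf_le_left
  rw [← nhds_prod_eq]
  have k1 : Tendsto (fun x : (ℝ × ℂ) × ℂ => x.2) (𝓝 (x₁, r)) (𝓝 r) :=
    continuous_snd.tendsto (x₁, r)
  have k2 : Tendsto (fun x : (ℝ × ℂ) × ℂ => ((α + x.1.1 : ℝ) : ℂ)) (𝓝 (x₁, r))
      (𝓝 ((α + x₁.1 : ℝ) : ℂ)) := by
    have hc : Continuous (fun x : (ℝ × ℂ) × ℂ => ((α + x.1.1 : ℝ) : ℂ)) := by fun_prop
    exact hc.tendsto (x₁, r)
  exact k1.cpow k2 (h4 r hr)

theorem fam_near {A B C D : Matrix n n ℂ} (hAB : (A + B).PosDef) (hCD : (C + D).PosDef) {α : ℝ}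
    (hα : 1 < α) : ∃ κ₀ ρ : ℝ, 0 < κ₀ ∧ 0 < ρ ∧
      ContinuousOn (fun x : ℝ × ℂ => (fam A B C D x.1).S (α + x.1) x.2)
        (Set.Icc 0 κ₀ ×ˢ closedBall 1 ρ) ∧
      ∀ κ ∈ Set.Icc 0 κ₀, DifferentiableOn ℂ ((fam A B C D κ).S (α + κ)) (ball 1 ρ) := by
  obtain ⟨ε, hε, hball⟩ := Metric.eventually_nhds_iff_ball.mp (flim_P_ev hAB hCD hα)
  have hin : ∀ x ∈ Set.Icc (0 : ℝ) (ε / 2) ×ˢ closedBall (1 : ℂ) (ε / 2),
      flim_P A B C D α x := by
    rintro ⟨κ, z⟩ ⟨hκ, hz⟩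
    refine hball _ ?_
    rw [mem_ball, Prod.dist_eq, max_lt_iff]
    simp only [mem_closedBall] at hz
    constructor
    · rw [Real.dist_eq, sub_zero, abs_of_nonneg hκ.1]
      have := hκ.2
      simp only at this ⊢
      linarith
    · simp only
      linarith
  refine ⟨ε / 2, ε / 2, by linarith, by linarith, ?_, ?_⟩
  · intro x hx
    exact (flim_S_cont (hin x hx)).continuousWithinAt
  · intro κ hκ z₀ hz₀
    have hP : ∀ z ∈ ball (1 : ℂ) (ε / 2), flim_P A B C D α (κ, z) := fun z hz =>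
      hin _ ⟨hκ, ball_subset_closedBall hz⟩
    have hα1 : 1 < α + κ := (hP z₀ hz₀).2.1
    have hYd : ∀ i j, DifferentiableOn ℂ (fun z => (fam A B C D κ).Y z i j)
        (ball (1 : ℂ) (ε / 2)) := by
      intro i j z hz
      have hsl : z ∈ slitPlane := (hP z hz).1
      have hd : DifferentiableAt ℂ (fun z : ℂ => z ^ (1 / 2 : ℂ)) z :=
        differentiableAt_id.cpow (differentiableAt_const _) hsl
      unfold Dat.Y
      simp only [Matrix.add_apply, Matrix.smul_apply, smul_eq_mul]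
      refine DifferentiableAt.differentiableWithinAt ?_
      exact ((differentiableAt_const _).add (differentiableAt_id.mul
        (differentiableAt_const _))).add (((differentiableAt_const _).mul hd).mul
        (differentiableAt_const _))
    have hN := fun i j => N_diff (sa_pos hα1) (sa_lt_one hα1) isOpen_ball hYd
      (fun z hz => (hP z hz).2.2.1) i j
    have hMd : ∀ z ∈ ball (1 : ℂ) (ε / 2), ∀ i j,
        DifferentiableAt ℂ (fun z => (fam A B C D κ).M (sa (α + κ)) z i j) z := by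
      intro z hz i j
      unfold Dat.M
      simp only [Matrix.mul_apply]
      refine DifferentiableAt.fun_sum fun k _ => ?_
      refine ((hN i k).differentiableAt (isOpen_ball.mem_nhds hz)).mul ?_
      unfold Dat.X
      simp only [Matrix.add_apply, Matrix.smul_apply, smul_eq_mul]
      exact (differentiableAt_const _).add (differentiableAt_id.mul (differentiableAt_const _))
    refine DifferentiableAt.differentiableWithinAt ?_
    refine differentiableAt_es ?_ ?_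
    · filter_upwards [isOpen_ball.mem_nhds hz₀] with z hz
      exact hMd z hz
    · intro r hr
      have hsl : r ∈ slitPlane := (hP z₀ hz₀).2.2.2 r hr
      exact analyticAt_id.cpow analyticAt_const hsl

theorem fam_zero {A B C D : Matrix n n ℂ} (hA : A.PosSemidef) (hB : B.PosSemidef)
    (hC : C.PosSemidef) (hD : D.PosSemidef) (hCD : (C + D).PosDef) {α : ℝ}
    (hα : 1 < α) {t : ℝ} (ht : 0 < t) :
    (fam A B C D 0).S (α + 0) (t : ℂ) = (Psi α (A + (t : ℂ) • B) (C + (t : ℂ) • D) : ℂ) := by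
  have hX : (A + (t : ℂ) • B).PosSemidef :=
    hA.add (hB.smul (by exact_mod_cast ht.le))
  have hY : (C + (t : ℂ) • D).PosDef := by
    have hm : (0 : ℝ) < min 1 t := lt_min one_pos ht
    have h1 : (((min 1 t : ℝ) : ℂ) • (C + D)).PosDef := hCD.smul (by exact_mod_cast hm)
    have h2 : (((1 - min 1 t : ℝ) : ℂ) • C).PosSemidef :=
      hC.smul (by exact_mod_cast sub_nonneg.mpr (min_le_left 1 t))
    have h3 : (((t - min 1 t : ℝ) : ℂ) • D).PosSemidef :=
      hD.smul (by exact_mod_cast sub_nonneg.mpr (min_le_right 1 t))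
    have h4 : C + (t : ℂ) • D = ((min 1 t : ℝ) : ℂ) • (C + D) +
        (((1 - min 1 t : ℝ) : ℂ) • C + ((t - min 1 t : ℝ) : ℂ) • D) := by
      push_cast
      module
    rw [h4]
    exact h1.add_posSemidef (h2.add h3)
  rw [add_zero]
  unfold Dat.S Dat.M
  rw [flim_X_zero, flim_Y_zero]
  exact es_eq_Psi hα hX hY

end SRE
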