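import Mathlib

/-!
# Piece KINT: fractional integrals

Let `c = ∫_0^∞ u ^ (α - 3) (1 + u) ^ (-α - 1) du > 0` (convergent as `α > 2`). The substitution `q = y + (t + y) u` gives `kernel`:
`∫_y^∞ (q - y) ^ (α - 3) (t + q) ^ (-α - 1) dq = c (t + y) ^ (-3)` for `t > 0`, `y ≥ 0`.
`frac_repr`: for `f` continuous on `(0, ∞)` with `|f y| ≤ C (1 + y)`, `n q = ∫_0^q (q - y) ^ (α - 3) f y dy`: Fubini on `{0 < y < q}` (the integrand is bounded by `(q - y) ^ (α - 3) (t + q) ^ (-α - 1) C (1 + y)`, whose integral over `q` is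
`c C (1 + y) / (t + y) ^ 3`, integrable in `y`; `MeasureTheory.integral_integral_swap`, `integrable_prod_iff`): `∫_0^∞ f y / (t + y) ^ 3 dy = c⁻¹ ∫_0^∞ (t + q) ^ (-α - 1) n q dq`, and `q ↦ (t + q) ^ (-α - 1) n q` is integrable.
`mono1`: if `n ≥ 0` then `t ^ (α + 1) ∫ f / (t + y) ^ 3 = c⁻¹ ∫ (t / (t + q)) ^ (α + 1) n q dq` is nondecreasing in `t`. `mono2`: `t ^ (α - 2) ∫ f / (t⁻¹ + y) ^ 3 = c⁻¹ ∫ t ^ (α - 2) (t⁻¹ + q) ^ (-α - 1) n q dq`
is nondecreasing in `t` (both factors are nondecreasing and nonnegative).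
-/

namespace SRE

open MeasureTheory Filter Topology

/-- the constant of the kernel -/
private noncomputable def kIntC (α : ℝ) : ℝ := ∫ u in Set.Ioi (0 : ℝ), u ^ (α - 3) * (1 + u) ^ (-α - 1)

private theorem kInt_c_int {α : ℝ} (hα : 2 < α) :
    IntegrableOn (fun u : ℝ => u ^ (α - 3) * (1 + u) ^ (-α - 1)) (Set.Ioi 0) := by
  have h1 : IntegrableOn (fun u : ℝ => u ^ (α - 3)) (Set.Ioc 0 1) := by
    have := intervalIntegral.intervalIntegrable_rpow' (a := 0) (b := 1) (r := α - 3) (by linarith)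
    rwa [intervalIntegrable_iff_integrableOn_Ioc_of_le zero_le_one] at this
  have h2 : IntegrableOn (fun u : ℝ => u ^ (-4 : ℝ)) (Set.Ioi 1) :=
    integrableOn_Ioi_rpow_of_lt (by norm_num) one_pos
  have hm : Measurable (fun u : ℝ => u ^ (α - 3) * (1 + u) ^ (-α - 1)) := by
    fun_prop
  rw [← Set.Ioc_union_Ioi_eq_Ioi (zero_le_one : (0 : ℝ) ≤ 1)]
  refine IntegrableOn.union ?_ ?_
  · refine Integrable.mono' h1 hm.aestronglyMeasurable ?_
    filter_upwards [ae_restrict_mem measurableSet_Ioc] with u hu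
    have hu0 : 0 < u := hu.1
    rw [Real.norm_of_nonneg (by positivity)]
    have : (1 + u) ^ (-α - 1) ≤ 1 := Real.rpow_le_one_of_one_le_of_nonpos (by linarith) (by linarith)
    have h0 : 0 ≤ u ^ (α - 3) := by positivity
    nlinarith
  · refine Integrable.mono' h2 hm.aestronglyMeasurable ?_
    filter_upwards [ae_restrict_mem measurableSet_Ioi] with u hu
    have hu1 : (1 : ℝ) < u := hu
    have hu0 : 0 < u := by linarith
    rw [Real.norm_of_nonneg (by positivity)]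
    have h3 : (1 + u) ^ (-α - 1) ≤ u ^ (-α - 1) :=
      Real.rpow_le_rpow_of_nonpos hu0 (by linarith) (by linarith)
    calc u ^ (α - 3) * (1 + u) ^ (-α - 1) ≤ u ^ (α - 3) * u ^ (-α - 1) :=
          mul_le_mul_of_nonneg_left h3 (by positivity)
      _ = u ^ (-4 : ℝ) := by
          rw [← Real.rpow_add hu0]
          congr 1
          ring

private theorem kInt_c_pos {α : ℝ} (hα : 2 < α) : 0 < kIntC α := by
  unfold kIntC
  rw [setIntegral_pos_iff_support_of_nonneg_ae]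
  · have : Set.Ioi (0 : ℝ) ⊆ (Function.support fun u : ℝ => u ^ (α - 3) * (1 + u) ^ (-α - 1)) ∩ Set.Ioi 0 := by
      intro u hu
      have hu0 : (0 : ℝ) < u := hu
      refine ⟨?_, hu⟩
      rw [Function.mem_support]
      positivity
    exact lt_of_lt_of_le (by simp) (measure_mono this)
  · filter_upwards [ae_restrict_mem measurableSet_Ioi] with u hu
    have hu0 : (0 : ℝ) < u := hu
    simp only [Pi.zero_apply]
    positivity
  · exact kInt_c_int hα

private theorem kInt_eq {α t y : ℝ} (ht : 0 < t) (hy : 0 ≤ y) {q : ℝ} (hq : y < q) :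
    (q - y) ^ (α - 3) * (t + q) ^ (-α - 1) = ((t + y) ^ 4)⁻¹ *
      (((t + y)⁻¹ * (q - y)) ^ (α - 3) * (1 + (t + y)⁻¹ * (q - y)) ^ (-α - 1)) := by
  have hs : 0 < t + y := by linarith
  have hv : 0 < q - y := by linarith
  have e1 : 1 + (t + y)⁻¹ * (q - y) = (t + y)⁻¹ * (t + q) := by
    field_simp
    ring
  rw [e1, Real.mul_rpow (by positivity) (by positivity), Real.mul_rpow (by positivity) (by linarith)]
  have e2 : ((t + y)⁻¹) ^ (α - 3) * ((t + y)⁻¹) ^ (-α - 1) = (t + y) ^ 4 := by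
    rw [← Real.rpow_add (by positivity)]
    have : α - 3 + (-α - 1) = -((4 : ℕ) : ℝ) := by push_cast; ring
    rw [this, Real.rpow_neg (by positivity), Real.rpow_natCast, inv_pow, inv_inv]
  calc (q - y) ^ (α - 3) * (t + q) ^ (-α - 1)
      = ((t + y) ^ 4)⁻¹ * (t + y) ^ 4 * ((q - y) ^ (α - 3) * (t + q) ^ (-α - 1)) := by
        rw [inv_mul_cancel₀ (by positivity), one_mul]
    _ = _ := by
        nth_rewrite 2 [← e2]
        ring

private theorem kInt_kernel {α : ℝ} (hα : 2 < α) {t y : ℝ} (ht : 0 < t) (hy : 0 ≤ y) :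
    IntegrableOn (fun q : ℝ => (q - y) ^ (α - 3) * (t + q) ^ (-α - 1)) (Set.Ioi y) ∧
    ∫ q in Set.Ioi y, (q - y) ^ (α - 3) * (t + q) ^ (-α - 1) = kIntC α / (t + y) ^ 3 := by
  have hs : 0 < t + y := by linarith
  have hsi : 0 < (t + y)⁻¹ := by positivity
  set g : ℝ → ℝ := fun u => u ^ (α - 3) * (1 + u) ^ (-α - 1) with hg
  have hpre : (fun x : ℝ => x - y) ⁻¹' (Set.Ioi 0) = Set.Ioi y := by
    ext x
    simp
  have hmp : MeasurePreserving (fun x : ℝ => x - y) volume volume :=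
    measurePreserving_sub_right volume y
  have hme : MeasurableEmbedding (fun x : ℝ => x - y) := (MeasurableEquiv.subRight y).measurableEmbedding
  have heq : Set.EqOn (fun q : ℝ => (q - y) ^ (α - 3) * (t + q) ^ (-α - 1))
      (fun q => ((t + y) ^ 4)⁻¹ * ((fun v => g ((t + y)⁻¹ * v)) (q - y))) (Set.Ioi y) := by
    intro q hq
    exact kInt_eq ht hy hq
  have hint0 : IntegrableOn (fun v => g ((t + y)⁻¹ * v)) (Set.Ioi 0) := by
    rw [integrableOn_Ioi_comp_mul_left_iff g 0 hsi, mul_zero]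
    exact kInt_c_int hα
  constructor
  · rw [integrableOn_congr_fun heq measurableSet_Ioi]
    refine Integrable.const_mul ?_ _
    have := (hmp.integrableOn_comp_preimage hme (f := fun v => g ((t + y)⁻¹ * v)) (s := Set.Ioi 0)).2 hint0
    rw [hpre] at this
    exact this
  · rw [setIntegral_congr_fun measurableSet_Ioi heq, integral_const_mul]
    have h1 := hmp.setIntegral_preimage_emb hme (fun v => g ((t + y)⁻¹ * v)) (Set.Ioi 0)
    rw [hpre] at h1
    rw [h1, integral_comp_mul_left_Ioi g 0 hsi, mul_zero]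
    simp only [inv_inv, smul_eq_mul]
    unfold kIntC
    simp only [hg]
    field_simp

theorem integrable_div {f : ℝ → ℝ} (hf : ContinuousOn f (Set.Ioi 0)) {C : ℝ}
    (hC : ∀ y : ℝ, 0 < y → |f y| ≤ C * (1 + y)) {t : ℝ} (ht : 0 < t) :
    IntegrableOn (fun y => f y / (t + y) ^ 3) (Set.Ioi 0) := by
  have hC0 : 0 ≤ C := by
    have := (abs_nonneg _).trans (hC 1 one_pos)
    linarith
  have h1 : IntegrableOn (fun y : ℝ => C * (1 + t⁻¹) * (y + t) ^ (-2 : ℝ)) (Set.Ioi 0) :=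
    (integrableOn_add_rpow_Ioi_of_lt (by norm_num) (by linarith)).const_mul _
  refine Integrable.mono' h1 ?_ ?_
  · refine (ContinuousOn.div hf ?_ ?_).aestronglyMeasurable measurableSet_Ioi
    · fun_prop
    · intro y hy
      have hy0 : (0 : ℝ) < y := hy
      positivity
  · filter_upwards [ae_restrict_mem measurableSet_Ioi] with y hy
    have hy0 : (0 : ℝ) < y := hy
    have hs : 0 < t + y := by linarith
    rw [Real.norm_eq_abs, abs_div, abs_of_pos (by positivity : 0 < (t + y) ^ 3), div_le_iff₀ (by positivity)]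
    have e : (y + t) ^ (-2 : ℝ) * (t + y) ^ 3 = t + y := by
      rw [add_comm y t, Real.rpow_neg hs.le]
      have : (t + y) ^ (2 : ℝ) = (t + y) ^ 2 := by
        rw [← Real.rpow_natCast]; norm_num
      rw [this]
      field_simp
    rw [mul_assoc, e]
    have h3 : 1 + y ≤ (1 + t⁻¹) * (t + y) := by
      have : (1 + t⁻¹) * (t + y) = t + y + 1 + t⁻¹ * y := by
        field_simp
        ring
      rw [this]
      have : 0 < t⁻¹ * y := by positivity
      linarith
    calc |f y| ≤ C * (1 + y) := hC y hy0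
      _ ≤ C * ((1 + t⁻¹) * (t + y)) := mul_le_mul_of_nonneg_left h3 hC0
      _ = C * (1 + t⁻¹) * (t + y) := by ring

private theorem kInt_repr {α : ℝ} (hα : 2 < α) {f : ℝ → ℝ} (hf : ContinuousOn f (Set.Ioi 0)) {C : ℝ}
    (hC : ∀ y : ℝ, 0 < y → |f y| ≤ C * (1 + y)) {t : ℝ} (ht : 0 < t) :
    IntegrableOn (fun q : ℝ => (t + q) ^ (-α - 1) * ∫ y in Set.Ioo (0 : ℝ) q, (q - y) ^ (α - 3) * f y)
      (Set.Ioi 0) ∧
    ∫ q in Set.Ioi (0 : ℝ), (t + q) ^ (-α - 1) * ∫ y in Set.Ioo (0 : ℝ) q, (q - y) ^ (α - 3) * f y =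
      kIntC α * ∫ y in Set.Ioi (0 : ℝ), f y / (t + y) ^ 3 := by
  set F : ℝ → ℝ → ℝ := fun q y => (t + q) ^ (-α - 1) *
    (Set.indicator {p : ℝ × ℝ | p.2 < p.1} (fun p : ℝ × ℝ => (p.1 - p.2) ^ (α - 3)) (q, y) * f y) with hF
  set μ : Measure ℝ := volume.restrict (Set.Ioi 0) with hμ
  have hFy : ∀ y : ℝ, 0 < y → ∀ q : ℝ, 0 < q → F q y =
      Set.indicator (Set.Ioi y) (fun q => ((q - y) ^ (α - 3) * (t + q) ^ (-α - 1)) * f y) q := by
    intro y hy q hq
    simp only [hF]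
    by_cases h : y < q
    · rw [Set.indicator_of_mem (show (q, y) ∈ {p : ℝ × ℝ | p.2 < p.1} from h),
        Set.indicator_of_mem (show q ∈ Set.Ioi y from h)]
      ring
    · rw [Set.indicator_of_notMem (show (q, y) ∉ {p : ℝ × ℝ | p.2 < p.1} from h),
        Set.indicator_of_notMem (show q ∉ Set.Ioi y from h)]
      ring
  have hmeas : AEStronglyMeasurable (Function.uncurry F) (μ.prod μ) := by
    have h1 : AEStronglyMeasurable f μ := hf.aestronglyMeasurable measurableSet_Ioi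
    have h2 : AEStronglyMeasurable (fun p : ℝ × ℝ => f p.2) (μ.prod μ) := h1.comp_snd
    have h3 : Measurable (Set.indicator {p : ℝ × ℝ | p.2 < p.1} (fun p : ℝ × ℝ => (p.1 - p.2) ^ (α - 3))) :=
      Measurable.indicator (by fun_prop) (measurableSet_lt measurable_snd measurable_fst)
    have h4 : Measurable (fun p : ℝ × ℝ => (t + p.1) ^ (-α - 1)) := by fun_prop
    exact h4.aestronglyMeasurable.mul (h3.aestronglyMeasurable.mul h2)
  have hinner : ∀ y : ℝ, 0 < y → Integrable (fun q => F q y) μ ∧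
      (∫ q, F q y ∂μ = kIntC α * (f y / (t + y) ^ 3)) ∧
      (∫ q, ‖F q y‖ ∂μ = kIntC α * |f y / (t + y) ^ 3|) := by
    intro y hy
    obtain ⟨k1, k2⟩ := kInt_kernel hα ht hy.le
    have hsub : Set.Ioi (0 : ℝ) ∩ Set.Ioi y = Set.Ioi y := by
      rw [Set.inter_eq_right]
      exact Set.Ioi_subset_Ioi hy.le
    have hs : 0 < t + y := by linarith
    refine ⟨?_, ?_, ?_⟩
    · have : Integrable (fun q => Set.indicator (Set.Ioi y)
          (fun q => ((q - y) ^ (α - 3) * (t + q) ^ (-α - 1)) * f y) q) μ :=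
        ((integrable_indicator_iff measurableSet_Ioi).2 (k1.mul_const (f y))).restrict
      refine this.congr ?_
      filter_upwards [ae_restrict_mem measurableSet_Ioi] with q hq
      exact (hFy y hy q hq).symm
    · rw [setIntegral_congr_fun measurableSet_Ioi (fun q hq => hFy y hy q hq),
        setIntegral_indicator measurableSet_Ioi, hsub, integral_mul_const, k2]
      ring
    · have e : ∀ q ∈ Set.Ioi (0 : ℝ), ‖F q y‖ =
          Set.indicator (Set.Ioi y) (fun q => ((q - y) ^ (α - 3) * (t + q) ^ (-α - 1)) * |f y|) q := by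
        intro q hq
        rw [hFy y hy q hq]
        have hq0 : (0 : ℝ) < q := hq
        by_cases h : q ∈ Set.Ioi y
        · rw [Set.indicator_of_mem h, Set.indicator_of_mem h, Real.norm_eq_abs, abs_mul,
            abs_of_nonneg]
          have : 0 < q - y := by
            have : y < q := h
            linarith
          positivity
        · rw [Set.indicator_of_notMem h, Set.indicator_of_notMem h, norm_zero]
      rw [setIntegral_congr_fun measurableSet_Ioi e,
        setIntegral_indicator measurableSet_Ioi, hsub, integral_mul_const, k2, abs_div,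
        abs_of_pos (by positivity : 0 < (t + y) ^ 3)]
      ring
  have hint : Integrable (Function.uncurry F) (μ.prod μ) := by
    rw [integrable_prod_iff' hmeas]
    constructor
    · filter_upwards [ae_restrict_mem measurableSet_Ioi] with y hy
      exact (hinner y hy).1
    · have h1 : Integrable (fun y => kIntC α * |f y / (t + y) ^ 3|) μ :=
        (Integrable.abs (integrable_div hf hC ht)).const_mul _
      refine h1.congr ?_
      filter_upwards [ae_restrict_mem measurableSet_Ioi] with y hy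
      exact (hinner y hy).2.2.symm
  have hq : ∀ q ∈ Set.Ioi (0 : ℝ), ∫ y, F q y ∂μ =
      (t + q) ^ (-α - 1) * ∫ y in Set.Ioo (0 : ℝ) q, (q - y) ^ (α - 3) * f y := by
    intro q hq
    simp only [hF]
    rw [integral_const_mul]
    congr 1
    have e : ∀ y ∈ Set.Ioi (0 : ℝ), Set.indicator {p : ℝ × ℝ | p.2 < p.1}
        (fun p : ℝ × ℝ => (p.1 - p.2) ^ (α - 3)) (q, y) * f y =
        Set.indicator (Set.Iio q) (fun y => (q - y) ^ (α - 3) * f y) y := by
      intro y _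
      by_cases h : y < q
      · rw [Set.indicator_of_mem (show (q, y) ∈ {p : ℝ × ℝ | p.2 < p.1} from h),
          Set.indicator_of_mem (show y ∈ Set.Iio q from h)]
      · rw [Set.indicator_of_notMem (show (q, y) ∉ {p : ℝ × ℝ | p.2 < p.1} from h),
          Set.indicator_of_notMem (show y ∉ Set.Iio q from h), zero_mul]
    rw [setIntegral_congr_fun measurableSet_Ioi e, setIntegral_indicator measurableSet_Iio,
      Set.Ioi_inter_Iio]
  constructor
  · have h1 : Integrable (fun q => ∫ y, F q y ∂μ) μ := hint.integral_prod_left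
    refine h1.congr ?_
    filter_upwards [ae_restrict_mem measurableSet_Ioi] with q hq'
    exact hq q hq'
  · rw [← setIntegral_congr_fun measurableSet_Ioi hq, integral_integral_swap hint,
      ← integral_const_mul]
    exact setIntegral_congr_fun measurableSet_Ioi fun y hy => (hinner y hy).2.1

theorem mono1 {α : ℝ} (hα : 2 < α) {f : ℝ → ℝ} (hf : ContinuousOn f (Set.Ioi 0)) {C : ℝ}
    (hC : ∀ y : ℝ, 0 < y → |f y| ≤ C * (1 + y))
    (hn : ∀ q : ℝ, 0 < q → 0 ≤ ∫ y in Set.Ioo (0 : ℝ) q, (q - y) ^ (α - 3) * f y) :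
    MonotoneOn (fun t : ℝ => t ^ (α + 1) * ∫ y in Set.Ioi (0 : ℝ), f y / (t + y) ^ 3)
      (Set.Ioi 0) := by
  intro t ht t' ht' htt
  have ht0 : (0 : ℝ) < t := ht
  have ht0' : (0 : ℝ) < t' := ht'
  obtain ⟨i1, e1⟩ := kInt_repr hα hf hC ht0
  obtain ⟨i2, e2⟩ := kInt_repr hα hf hC ht0'
  have hc := kInt_c_pos hα
  simp only
  refine le_of_mul_le_mul_left ?_ hc
  have r1 : kIntC α * (t ^ (α + 1) * ∫ y in Set.Ioi (0 : ℝ), f y / (t + y) ^ 3) =
      ∫ q in Set.Ioi (0 : ℝ), t ^ (α + 1) * ((t + q) ^ (-α - 1) *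
        ∫ y in Set.Ioo (0 : ℝ) q, (q - y) ^ (α - 3) * f y) := by
    rw [integral_const_mul, e1]
    ring
  have r2 : kIntC α * (t' ^ (α + 1) * ∫ y in Set.Ioi (0 : ℝ), f y / (t' + y) ^ 3) =
      ∫ q in Set.Ioi (0 : ℝ), t' ^ (α + 1) * ((t' + q) ^ (-α - 1) *
        ∫ y in Set.Ioo (0 : ℝ) q, (q - y) ^ (α - 3) * f y) := by
    rw [integral_const_mul, e2]
    ring
  rw [r1, r2]
  refine setIntegral_mono_on (i1.const_mul _) (i2.const_mul _) measurableSet_Ioi fun q hq => ?_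
  have hq0 : (0 : ℝ) < q := hq
  rw [← mul_assoc, ← mul_assoc]
  refine mul_le_mul_of_nonneg_right ?_ (hn q hq0)
  have key : ∀ s : ℝ, 0 < s → s ^ (α + 1) * (s + q) ^ (-α - 1) = (s / (s + q)) ^ (α + 1) := by
    intro s hs
    rw [Real.div_rpow hs.le (by linarith), div_eq_mul_inv, ← Real.rpow_neg (by linarith)]
    congr 2
    ring
  rw [key t ht0, key t' ht0']
  refine Real.rpow_le_rpow (by positivity) ?_ (by linarith)
  rw [div_le_div_iff₀ (by positivity) (by positivity)]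
  nlinarith

theorem mono2 {α : ℝ} (hα : 2 < α) {f : ℝ → ℝ} (hf : ContinuousOn f (Set.Ioi 0)) {C : ℝ}
    (hC : ∀ y : ℝ, 0 < y → |f y| ≤ C * (1 + y))
    (hn : ∀ q : ℝ, 0 < q → 0 ≤ ∫ y in Set.Ioo (0 : ℝ) q, (q - y) ^ (α - 3) * f y) :
    MonotoneOn (fun t : ℝ => t ^ (α - 2) * ∫ y in Set.Ioi (0 : ℝ), f y / (t⁻¹ + y) ^ 3)
      (Set.Ioi 0) := by
  intro t ht t' ht' htt
  have ht0 : (0 : ℝ) < t := ht
  have ht0' : (0 : ℝ) < t' := ht'
  have hti : 0 < t⁻¹ := by positivity
  have hti' : 0 < t'⁻¹ := by positivity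
  have htti : t'⁻¹ ≤ t⁻¹ := inv_anti₀ ht0 htt
  obtain ⟨i1, e1⟩ := kInt_repr hα hf hC hti
  obtain ⟨i2, e2⟩ := kInt_repr hα hf hC hti'
  have hc := kInt_c_pos hα
  simp only
  refine le_of_mul_le_mul_left ?_ hc
  have r1 : kIntC α * (t ^ (α - 2) * ∫ y in Set.Ioi (0 : ℝ), f y / (t⁻¹ + y) ^ 3) =
      ∫ q in Set.Ioi (0 : ℝ), t ^ (α - 2) * ((t⁻¹ + q) ^ (-α - 1) *
        ∫ y in Set.Ioo (0 : ℝ) q, (q - y) ^ (α - 3) * f y) := by
    rw [integral_const_mul, e1]
    ring
  have r2 : kIntC α * (t' ^ (α - 2) * ∫ y in Set.Ioi (0 : ℝ), f y / (t'⁻¹ + y) ^ 3) =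
      ∫ q in Set.Ioi (0 : ℝ), t' ^ (α - 2) * ((t'⁻¹ + q) ^ (-α - 1) *
        ∫ y in Set.Ioo (0 : ℝ) q, (q - y) ^ (α - 3) * f y) := by
    rw [integral_const_mul, e2]
    ring
  rw [r1, r2]
  refine setIntegral_mono_on (i1.const_mul _) (i2.const_mul _) measurableSet_Ioi fun q hq => ?_
  have hq0 : (0 : ℝ) < q := hq
  rw [← mul_assoc, ← mul_assoc]
  refine mul_le_mul_of_nonneg_right ?_ (hn q hq0)
  have k1 : t ^ (α - 2) ≤ t' ^ (α - 2) := Real.rpow_le_rpow ht0.le htt (by linarith)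
  have k2 : (t⁻¹ + q) ^ (-α - 1) ≤ (t'⁻¹ + q) ^ (-α - 1) :=
    Real.rpow_le_rpow_of_nonpos (by positivity) (by linarith) (by linarith)
  exact mul_le_mul k1 k2 (by positivity) (by positivity)

/-- The substitution `y = 1 / z`. -/
theorem subst_inv {f : ℝ → ℝ} {t : ℝ} (ht : 0 < t) :
    ∫ y in Set.Ioi (0 : ℝ), y * f y⁻¹ / (t + y) ^ 3 =
      t⁻¹ ^ 3 * ∫ y in Set.Ioi (0 : ℝ), f y / (t⁻¹ + y) ^ 3 := by
  rw [← integral_comp_rpow_Ioi (fun y : ℝ => y * f y⁻¹ / (t + y) ^ 3) (p := -1) (by norm_num),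
    ← integral_const_mul]
  refine setIntegral_congr_fun measurableSet_Ioi fun x hx => ?_
  have hx0 : (0 : ℝ) < x := hx
  simp only [smul_eq_mul]
  rw [Real.rpow_neg_one, inv_inv]
  have e1 : x ^ ((-1 : ℝ) - 1) = (x ^ 2)⁻¹ := by
    rw [show ((-1 : ℝ) - 1) = -((2 : ℕ) : ℝ) by norm_num, Real.rpow_neg hx0.le, Real.rpow_natCast]
  rw [e1]
  have e2 : t + x⁻¹ = t * x⁻¹ * (t⁻¹ + x) := by
    field_simp
    ring
  rw [e2]
  have h3 : 0 < t⁻¹ + x := by positivity
  rw [abs_neg, abs_one]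
  field_simp

end SRE
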