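import Mathlib
import Pool.Agent.Lib_MP_c281c2_an.Defs
import Pool.Agent.Lib_MP_c281c2_an.EAlg
import Pool.Agent.Lib_MP_c281c2_an.ECont
import Pool.Agent.Lib_MP_c281c2_an.MSec
import Pool.Agent.Lib_MP_c281c2_an.MInt
import Pool.Agent.Lib_MP_c281c2_an.MCut
import Pool.Agent.Lib_MP_c281c2_an.MSwap
import Pool.Agent.Lib_MP_c281c2_an.SHol

/-!
# Piece SSP: the functions `sp` and `sm` on the cut

`sp_cont`: `es_tendsto` along `y ↦ -y` (`continuousOn_M`): the function `r ↦ if arg r ≤ 0 then - Im (r ^ α) else 0` is continuous at the points `r₀` with `arg r₀ < 0` (it is `- Im (r ^ α)` near `r₀`, as `Im r < 0` near `r₀`), with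
`0 < arg r₀ < π` (it is `0` near `r₀`), and at `0` (it is bounded by `‖r‖ ^ α`); by `ev_cut` there are no other eigenvalues on the cut. `sp_bound`: `growth`, `card_ev`, `‖r ^ α‖ = ‖r‖ ^ α`, `α (1 - sa α) = 1`.
`sm_swap`: `ev_swap` at `z = -y`, `u = -1/y`: `r = z ^ (1 - s) * conj r'`, `z ^ (1 - s) = y ^ (1 - s) e^{iπ(1 - s)}`. By `ev_cut` for `p.swap`: `r' = 0`, or `arg r' ∈ (-sπ, 0)`: `arg r = π (1 - s) - arg r' ∈ (π - sπ, π)` and
`r ^ α = y e^{iπ} conj (r' ^ α) = - y conj (r' ^ α)`, so `- Im (r ^ α) = - y Im (r' ^ α)`; or `arg r' ∈ (π - sπ, π)`: `arg r = π (1 - s) - arg r' ∈ (-sπ, 0)`, no contribution to `sm`, and none of `r'` to `swap.sp`.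
-/

namespace SRE

open Matrix Complex MeasureTheory Filter Topology
open scoped ComplexOrder

variable {n : Type} [Fintype n] [DecidableEq n] {p : Dat n}

private theorem ssp_norm_cpow (r : ℂ) (α : ℝ) : ‖r ^ (α : ℂ)‖ = ‖r‖ ^ α :=
  Complex.norm_cpow_real r α

private theorem ssp_im_le (r : ℂ) (α : ℝ) : |(r ^ (α : ℂ)).im| ≤ ‖r‖ ^ α := by
  rw [← ssp_norm_cpow]
  exact Complex.abs_im_le_norm _

private theorem ssp_sa {α : ℝ} (hα : 1 < α) : (1 - sa α) * α = 1 := by
  unfold sa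
  have : α ≠ 0 := by linarith
  field_simp
  ring

private theorem ssp_sum_le (s : Multiset ℂ) (g : ℂ → ℝ) (B : ℝ) (h : ∀ r ∈ s, |g r| ≤ B) :
    |(s.map g).sum| ≤ Multiset.card s * B := by
  induction s using Multiset.induction_on with
  | empty => simp
  | cons a s ih =>
    have h1 := h a (Multiset.mem_cons_self a s)
    have h2 := ih (fun r hr => h r (Multiset.mem_cons_of_mem hr))
    rw [Multiset.map_cons, Multiset.sum_cons, Multiset.card_cons]
    have h3 := abs_add_le (g a) (s.map g).sum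
    push_cast
    nlinarith

/-- The function `r ↦ if arg r ≤ 0 then - Im (r ^ α) else 0`. -/
private noncomputable def sspg (α : ℝ) (r : ℂ) : ℝ := by
  classical exact if r.arg ≤ 0 then -(r ^ (α : ℂ)).im else 0

private theorem sspg_of_le {α : ℝ} {r : ℂ} (h : r.arg ≤ 0) :
    sspg α r = -(r ^ (α : ℂ)).im := if_pos h

private theorem sspg_of_pos {α : ℝ} {r : ℂ} (h : 0 < r.arg) : sspg α r = 0 := if_neg (not_le.2 h)

private theorem sspg_le {α : ℝ} (r : ℂ) : |sspg α r| ≤ ‖r‖ ^ α := by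
  rcases le_or_gt r.arg 0 with h | h
  · rw [sspg_of_le h, abs_neg]
    exact ssp_im_le r α
  · rw [sspg_of_pos h, abs_zero]
    positivity

private theorem sspg_zero {α : ℝ} (hα : 1 < α) : sspg α 0 = 0 := by
  have h := sspg_le (α := α) 0
  rw [norm_zero, Real.zero_rpow (by linarith)] at h
  exact abs_nonpos_iff.1 h

private theorem sspg_cont {α : ℝ} (hα : 1 < α) {r : ℂ}
    (hr : r = 0 ∨ (-(sa α * Real.pi) < r.arg ∧ r.arg < 0) ∨
      (Real.pi - sa α * Real.pi < r.arg ∧ r.arg < Real.pi)) : ContinuousAt (sspg α) r := by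
  have hpi := Real.pi_pos
  rcases hr with rfl | ⟨-, h⟩ | ⟨h1, h2⟩
  · have h0 : Tendsto (fun r : ℂ => ‖r‖ ^ α) (𝓝 0) (𝓝 0) := by
      have h1 : ContinuousAt (fun r : ℂ => ‖r‖ ^ α) 0 :=
        (continuous_norm.rpow_const (fun _ => Or.inr (by linarith))).continuousAt
      have h2 := h1.tendsto
      simpa [Real.zero_rpow (by linarith : α ≠ 0)] using h2
    show Tendsto (sspg α) (𝓝 0) (𝓝 (sspg α 0))
    rw [sspg_zero hα]
    refine squeeze_zero_norm (fun r => ?_) h0
    rw [Real.norm_eq_abs]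
    exact sspg_le r
  · have hs : r ∈ slitPlane := by
      rw [mem_slitPlane_iff_arg]
      refine ⟨by linarith, fun h0 => ?_⟩
      rw [h0, arg_zero] at h
      exact lt_irrefl _ h
    have hc : ContinuousAt (fun r : ℂ => -(r ^ (α : ℂ)).im) r :=
      (Complex.continuous_im.continuousAt.comp (continuousAt_cpow_const hs)).neg
    refine hc.congr ?_
    have h3 : ∀ᶠ x in 𝓝 r, x.arg < 0 := (continuousAt_arg hs).eventually_lt_const h
    filter_upwards [h3] with x hx
    exact (sspg_of_le hx.le).symm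
  · have h0 : 0 < r.arg := by
      have := sa_lt_one hα
      nlinarith
    have hs : r ∈ slitPlane := by
      rw [mem_slitPlane_iff_arg]
      refine ⟨by linarith, fun h3 => ?_⟩
      rw [h3, arg_zero] at h0
      exact lt_irrefl _ h0
    have hc : ContinuousAt (fun _ : ℂ => (0 : ℝ)) r := continuousAt_const
    refine hc.congr ?_
    have h3 : ∀ᶠ x in 𝓝 r, 0 < x.arg := (continuousAt_arg hs).eventually_const_lt h0
    filter_upwards [h3] with x hx
    exact (sspg_of_pos hx).symm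

private theorem ssp_sp (p : Dat n) (α y : ℝ) :
    p.sp α y = es (sspg α) (p.M (sa α) (-(y : ℂ))) := rfl

private theorem ssp_sm (p : Dat n) (α y : ℝ) :
    p.sm α y = es (fun r => -(r ^ (α : ℂ)).im - sspg α r) (p.M (sa α) (-(y : ℂ))) := by
  unfold Dat.sm
  congr 1
  funext r
  rcases le_or_gt r.arg 0 with h | h
  · rw [if_pos h, sspg_of_le h]
    ring
  · rw [if_neg (not_le.2 h), sspg_of_pos h]
    ring

private theorem ssp_exp {w : ℂ} (h1 : -Real.pi < w.im) (h2 : w.im ≤ Real.pi) (α : ℝ) :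
    (exp w).arg = w.im ∧ ((exp w) ^ (α : ℂ)).im = Real.exp (α * w.re) * Real.sin (α * w.im) := by
  have hl : log (exp w) = w := log_exp h1 h2
  constructor
  · rw [← Complex.log_im, hl]
  · rw [cpow_def_of_ne_zero (exp_ne_zero w), hl, exp_im]
    have e1 : (w * (α : ℂ)).re = α * w.re := by
      rw [mul_comm, Complex.re_ofReal_mul]
    have e2 : (w * (α : ℂ)).im = α * w.im := by
      rw [mul_comm, Complex.im_ofReal_mul]
    rw [e1, e2]

private theorem ssp_log_neg {y : ℝ} (hy : 0 < y) :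
    (log (-(y : ℂ))).re = Real.log y ∧ (log (-(y : ℂ))).im = Real.pi := by
  constructor
  · rw [Complex.log_re, norm_neg, Complex.norm_of_nonneg hy.le]
  · rw [Complex.log_im, ← Complex.ofReal_neg, Complex.arg_ofReal_of_neg (by linarith)]

private theorem ssp_swap_term {α : ℝ} (hα : 1 < α) {y : ℝ} (hy : 0 < y) {r : ℂ}
    (hr : r = 0 ∨ (-(sa α * Real.pi) < r.arg ∧ r.arg < 0) ∨
      (Real.pi - sa α * Real.pi < r.arg ∧ r.arg < Real.pi)) :
    -(((-(y : ℂ)) ^ ((1 - sa α : ℝ) : ℂ) * starRingEnd ℂ r) ^ (α : ℂ)).im -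
      sspg α ((-(y : ℂ)) ^ ((1 - sa α : ℝ) : ℂ) * starRingEnd ℂ r) = y * sspg α r := by
  have hpi := Real.pi_pos
  have hs0 := sa_pos hα
  have hs1 := sa_lt_one hα
  have hsa := ssp_sa hα
  by_cases h0 : r = 0
  · subst h0
    have hα0 : (α : ℂ) ≠ 0 := by
      rw [Ne, Complex.ofReal_eq_zero]
      linarith
    rw [map_zero, mul_zero, sspg_zero hα, zero_cpow hα0]
    simp
  · obtain ⟨hl1, hl2⟩ := ssp_log_neg hy
    have hy0 : (-(y : ℂ)) ≠ 0 := by
      rw [neg_ne_zero, Ne, Complex.ofReal_eq_zero]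
      exact hy.ne'
    set w : ℂ := log (-(y : ℂ)) * ((1 - sa α : ℝ) : ℂ) + starRingEnd ℂ (log r) with hw
    have hwr : (-(y : ℂ)) ^ ((1 - sa α : ℝ) : ℂ) * starRingEnd ℂ r = exp w := by
      rw [hw, exp_add, cpow_def_of_ne_zero hy0, exp_conj, exp_log h0]
    have hre : w.re = (1 - sa α) * Real.log y + (log r).re := by
      rw [hw, Complex.add_re, Complex.conj_re, mul_comm, Complex.re_ofReal_mul, hl1]
    have him : w.im = (1 - sa α) * Real.pi - r.arg := by
      rw [hw, Complex.add_im, Complex.conj_im, mul_comm, Complex.im_ofReal_mul, hl2, Complex.log_im]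
      ring
    rw [hwr]
    rcases hr with hr | ⟨h1, h2⟩ | ⟨h1, h2⟩
    · exact absurd hr h0
    · have hw1 : -Real.pi < w.im := by rw [him]; nlinarith
      have hw2 : w.im ≤ Real.pi := by rw [him]; nlinarith
      obtain ⟨e1, e2⟩ := ssp_exp hw1 hw2 α
      have hpos : 0 < (exp w).arg := by rw [e1, him]; nlinarith
      have hr1 : -Real.pi < (log r).im := by rw [Complex.log_im]; exact Complex.neg_pi_lt_arg r
      have hr2 : (log r).im ≤ Real.pi := by rw [Complex.log_im]; exact Complex.arg_le_pi r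
      obtain ⟨-, e4⟩ := ssp_exp hr1 hr2 α
      rw [exp_log h0] at e4
      rw [sspg_of_pos hpos, sspg_of_le h2.le, e2, e4, hre, him, Complex.log_im]
      have t1 : α * ((1 - sa α) * Real.log y + (log r).re) = Real.log y + α * (log r).re := by
        have : α * ((1 - sa α) * Real.log y + (log r).re) =
          ((1 - sa α) * α) * Real.log y + α * (log r).re := by ring
        rw [this, hsa, one_mul]
      have t2 : α * ((1 - sa α) * Real.pi - r.arg) = Real.pi - α * r.arg := by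
        have : α * ((1 - sa α) * Real.pi - r.arg) =
          ((1 - sa α) * α) * Real.pi - α * r.arg := by ring
        rw [this, hsa, one_mul]
      rw [t1, t2, Real.exp_add, Real.exp_log hy, Real.sin_pi_sub]
      ring
    · have hw1 : -Real.pi < w.im := by rw [him]; nlinarith
      have hw2 : w.im ≤ Real.pi := by rw [him]; nlinarith
      obtain ⟨e1, -⟩ := ssp_exp hw1 hw2 α
      have hneg : (exp w).arg ≤ 0 := by rw [e1, him]; nlinarith
      have hpos : 0 < r.arg := by nlinarith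
      rw [sspg_of_le hneg, sspg_of_pos hpos]
      ring

theorem Dat.Ok.sp_cont (hp : p.Ok) {α : ℝ} (hα : 1 < α) :
    ContinuousOn (p.sp α) (Set.Ioi 0) := by
  intro y₀ hy₀
  have hy₀' : (0 : ℝ) < y₀ := hy₀
  have hM : Tendsto (fun y : ℝ => p.M (sa α) (-(y : ℂ))) (𝓝[Set.Ioi 0] y₀)
      (𝓝 (p.M (sa α) (-(y₀ : ℂ)))) := by
    have h1 : ContinuousWithinAt (fun z => p.M (sa α) z) {z : ℂ | 0 ≤ z.im} (-(y₀ : ℂ)) :=
      hp.continuousOn_M (sa_pos hα) (sa_lt_one hα) (-(y₀ : ℂ)) (by simp)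
    have h2 : Tendsto (fun y : ℝ => -(y : ℂ)) (𝓝[Set.Ioi 0] y₀)
        (𝓝[{z : ℂ | 0 ≤ z.im}] (-(y₀ : ℂ))) := by
      refine tendsto_nhdsWithin_iff.2 ⟨?_, Filter.Eventually.of_forall fun y => by simp⟩
      exact (Complex.continuous_ofReal.neg.tendsto y₀).mono_left nhdsWithin_le_nhds
    exact h1.tendsto.comp h2
  show Tendsto (p.sp α) (𝓝[Set.Ioi 0] y₀) (𝓝 (p.sp α y₀))
  have h3 := es_tendsto (l := 𝓝[Set.Ioi 0] y₀) hM (f := fun _ r => sspg α r) (f₀ := sspg α)
    (fun r hr => by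
      have hc := sspg_cont hα (hp.ev_cut (sa_pos hα) (sa_lt_one hα) hy₀' hr)
      exact (hc.tendsto.comp tendsto_snd).mono_left inf_le_left)
  exact h3

theorem Dat.Ok.sp_bound (hp : p.Ok) {α : ℝ} (hα : 1 < α) :
    ∃ C : ℝ, 0 < C ∧ ∀ y : ℝ, 0 < y → |p.sp α y| ≤ C * (1 + y) := by
  obtain ⟨C, hC, h⟩ := hp.growth (sa_pos hα) (sa_lt_one hα)
  refine ⟨Fintype.card n * C ^ α + 1, by positivity, fun y hy => ?_⟩
  have hn : ‖(-(y : ℂ))‖ = y := by rw [norm_neg, Complex.norm_of_nonneg hy.le]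
  have h1 : ∀ r ∈ ev (p.M (sa α) (-(y : ℂ))), |sspg α r| ≤ C ^ α * (1 + y) := by
    intro r hr
    refine (sspg_le r).trans ?_
    have h2 := h (-(y : ℂ)) (by simp) r hr
    rw [hn] at h2
    have h3 : ‖r‖ ^ α ≤ (C * (1 + y) ^ (1 - sa α)) ^ α :=
      Real.rpow_le_rpow (norm_nonneg r) h2 (by linarith)
    refine h3.trans (le_of_eq ?_)
    rw [Real.mul_rpow hC.le (by positivity), ← Real.rpow_mul (by linarith), ssp_sa hα,
      Real.rpow_one]
  have h4 := ssp_sum_le _ _ _ h1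
  rw [card_ev] at h4
  have h5 : |p.sp α y| ≤ Fintype.card n * (C ^ α * (1 + y)) := h4
  have h6 : (0 : ℝ) < C ^ α := by positivity
  nlinarith

theorem Dat.Ok.sm_swap (hp : p.Ok) {α : ℝ} (hα : 1 < α) {y : ℝ} (hy : 0 < y) :
    p.sm α y = y * p.swap.sp α y⁻¹ := by
  have hy0 : (-(y : ℂ)) ≠ 0 := by
    rw [neg_ne_zero, Ne, Complex.ofReal_eq_zero]
    exact hy.ne'
  have hz : (starRingEnd ℂ (-(y : ℂ)))⁻¹ = -((y⁻¹ : ℝ) : ℂ) := by
    rw [map_neg, Complex.conj_ofReal, inv_neg, Complex.ofReal_inv]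
  have hev := hp.ev_swap (sa_pos hα) (sa_lt_one hα) (z := -(y : ℂ)) (by simp) hy0
  rw [hz] at hev
  rw [ssp_sm, ssp_sp]
  unfold es
  rw [hev, Multiset.map_map, ← Multiset.sum_map_mul_left]
  congr 1
  refine Multiset.map_congr rfl fun r hr => ?_
  exact ssp_swap_term hα hy (hp.swap.ev_cut (sa_pos hα) (sa_lt_one hα) (inv_pos.2 hy) hr)

end SRE
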