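import Mathlib

/-!
# Piece SCAU: a Cauchy formula on the slit plane

For `w` in the closed unit disc, `w ≠ 1`, let `ζ(w) = t ((1 + w) / (1 - w)) ^ 2`. For `|w| < 1` the number `(1 + w) / (1 - w)` has positive real part, so `ζ(w)` is in the slit plane; if moreover `Im w > 0` then
`Im ((1 + w) / (1 - w)) > 0` and `Im ζ(w) > 0` (`Im (u ^ 2) = 2 Re u Im u`). For `w = e^{iθ}`, `0 < θ < π`: `(1 + w) / (1 - w) = i cot (θ/2)`, `ζ = - t cot² (θ/2)`.
Let `F w = S (ζ w)` for `0 ≤ Im w`, `F w = conj (S (ζ (conj w)))` for `Im w < 0` (`F = S ∘ ζ` on the open disc by `hconj`), and `H w = F w (1 + w) (1 - w) ^ 3`, `H 1 = 0`. `H` is continuous on the closed disc: the map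
`w ↦ ζ(w)` is continuous for `w ≠ 1` and maps the closed upper half disc to `{0 ≤ Im z}`; on the real axis the two formulas agree (`S` is real at the positive reals by `hconj`; at `w = -1`: `ζ = 0`, and `(1 + w) = 0`, `F` bounded: the value is `0`);
at `w = 1`: `‖S ζ‖ ≤ C (1 + ‖ζ‖) ≤ C' / |1 - w|²`, so `‖H w‖ ≤ C'' |1 - w| → 0`. `H` is holomorphic in the open disc. Therefore (`DiffContOnCl`; Cauchy integral for the second derivative, for example through the coefficients of `cauchyPowerSeries`,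
or the mean value property `circleAverage = value at 0` for the function `(H w - H 0 - H' 0 w) / w ^ 2` (`dslope` twice), or the formula for `‖w‖ = ρ < 1` and `ρ → 1`)
`H'' 0 / 2 = (2πi)⁻¹ ∮_{|w| = 1} H w / w ^ 3 dw = (2π)⁻¹ ∫_{-π}^{π} H(e^{iθ}) e^{-2iθ} dθ`. As `ζ' 0 = 4 t`, `ζ'' 0 = 16 t` and `(1 + w)(1 - w)^3 = 1 - 2 w + 2 w ^ 3 - w ^ 4`: `H'' 0 = 16 t² S''(t)`
(`S'' ζ'^2 + S' ζ'' + 2 S' ζ' (-2) + 0 = 16 t² S'' + 16 t S' - 16 t S'`).
For `w = e^{iθ}`: `(1 + w)(1 - w)^3 / w ^ 2 = 16 i cos (θ/2) sin³ (θ/2)`; the part over `(-π, 0)` is the conjugate of the part over `(0, π)`. So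
`8 t² S''(t) = π⁻¹ ∫_0^π Re (16 i S(-t cot²(θ/2))) cos (θ/2) sin³ (θ/2) dθ`.
-/

namespace SRE

open Complex MeasureTheory Filter Topology

/-- The change of variables `ζ w = t ((1 + w) / (1 - w)) ^ 2`. -/
private noncomputable def SCauZ (t : ℝ) (w : ℂ) : ℂ := (t : ℂ) * ((1 + w) / (1 - w)) ^ 2

/-- `S (ζ w) (1 + w) (1 - w) ^ 3`. -/
private noncomputable def SCauG (S : ℂ → ℂ) (t : ℝ) (w : ℂ) : ℂ :=
  S (SCauZ t w) * ((1 + w) * (1 - w) ^ 3)

private theorem SCau_ne {w : ℂ} (hw : ‖w‖ < 1) : (1 : ℂ) - w ≠ 0 := by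
  intro h
  have h1 : w = 1 := by linear_combination -h
  rw [h1] at hw
  simp at hw

private theorem SCau_re (w : ℂ) :
    ((1 + w) / (1 - w)).re = (1 - normSq w) / normSq (1 - w) := by
  rw [Complex.div_re, ← add_div]
  congr 1
  simp [normSq_apply]
  ring

private theorem SCau_im (w : ℂ) :
    ((1 + w) / (1 - w)).im = 2 * w.im / normSq (1 - w) := by
  rw [Complex.div_im, ← sub_div]
  congr 1
  simp
  ring

private theorem SCauZ_re (t : ℝ) (w : ℂ) : (SCauZ t w).re =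
    t * (((1 + w) / (1 - w)).re ^ 2 - ((1 + w) / (1 - w)).im ^ 2) := by
  simp [SCauZ, sq]

private theorem SCauZ_im (t : ℝ) (w : ℂ) : (SCauZ t w).im =
    t * (2 * ((1 + w) / (1 - w)).re * ((1 + w) / (1 - w)).im) := by
  rw [SCauZ, Complex.im_ofReal_mul, sq, Complex.mul_im]
  ring

private theorem SCau_slit {t : ℝ} (ht : 0 < t) {w : ℂ} (hw : ‖w‖ < 1) :
    SCauZ t w ∈ slitPlane := by
  have h1 : 0 < normSq (1 - w) := normSq_pos.2 (SCau_ne hw)
  have h2 : normSq w < 1 := by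
    rw [normSq_eq_norm_sq]
    nlinarith [norm_nonneg w]
  have hre : 0 < ((1 + w) / (1 - w)).re := by
    rw [SCau_re]
    exact div_pos (by linarith) h1
  rw [mem_slitPlane_iff]
  by_cases hi : ((1 + w) / (1 - w)).im = 0
  · left
    rw [SCauZ_re, hi]
    have : 0 < ((1 + w) / (1 - w)).re ^ 2 := by positivity
    nlinarith
  · right
    rw [SCauZ_im]
    exact mul_ne_zero ht.ne' (mul_ne_zero (mul_ne_zero two_ne_zero hre.ne') hi)

private theorem SCau_up {t : ℝ} (ht : 0 < t) {w : ℂ} (hw : ‖w‖ ≤ 1) (hi : 0 ≤ w.im) :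
    0 ≤ (SCauZ t w).im := by
  have h1 : 0 ≤ normSq (1 - w) := normSq_nonneg _
  have h2 : normSq w ≤ 1 := by
    rw [normSq_eq_norm_sq]
    nlinarith [norm_nonneg w]
  rw [SCauZ_im, SCau_re, SCau_im]
  have h3 : 0 ≤ (1 - normSq w) / normSq (1 - w) := div_nonneg (by linarith) h1
  have h4 : 0 ≤ 2 * w.im / normSq (1 - w) := div_nonneg (by linarith) h1
  positivity

private theorem SCau_conj (t : ℝ) (w : ℂ) :
    SCauZ t (starRingEnd ℂ w) = starRingEnd ℂ (SCauZ t w) := by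
  simp [SCauZ]

private theorem SCauG_conj {S : ℂ → ℂ}
    (hconj : ∀ z ∈ slitPlane, S (starRingEnd ℂ z) = starRingEnd ℂ (S z)) {t : ℝ} (ht : 0 < t)
    {w : ℂ} (hw : ‖w‖ < 1) :
    starRingEnd ℂ (SCauG S t (starRingEnd ℂ w)) = SCauG S t w := by
  have h := hconj _ (SCau_slit ht hw)
  simp only [SCauG, SCau_conj, h]
  simp

private theorem SCauZ_cont (t : ℝ) {w : ℂ} (hw : w ≠ 1) : ContinuousAt (SCauZ t) w := by
  have h : (1 : ℂ) - w ≠ 0 := sub_ne_zero.2 hw.symm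
  unfold SCauZ
  fun_prop (disch := assumption)

private theorem SCauG_one (S : ℂ → ℂ) (t : ℝ) : SCauG S t 1 = 0 := by
  simp [SCauG]

private theorem SCauG_bound {S : ℂ → ℂ} {C : ℝ}
    (hg : ∀ z : ℂ, 0 ≤ z.im → ‖S z‖ ≤ C * (1 + ‖z‖)) {t : ℝ} (ht : 0 < t) {w : ℂ}
    (hw : ‖w‖ ≤ 1) (hi : 0 ≤ w.im) : ‖SCauG S t w‖ ≤ C * (4 + 4 * t) * 2 * ‖1 - w‖ := by
  have hC : 0 ≤ C := by
    have h := hg 0 (by simp)
    simp at h
    exact le_trans (norm_nonneg _) h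
  by_cases h1 : w = 1
  · subst h1
    simp [SCauG_one]
  have hne : (1 : ℂ) - w ≠ 0 := sub_ne_zero.2 (Ne.symm h1)
  have hn : 0 < ‖1 - w‖ := norm_pos_iff.2 hne
  have ha : ‖1 + w‖ ≤ 2 := by
    have h := norm_add_le (1 : ℂ) w
    rw [norm_one] at h
    linarith
  have hb : ‖1 - w‖ ≤ 2 := by
    have h := norm_sub_le (1 : ℂ) w
    rw [norm_one] at h
    linarith
  have hz : ‖SCauZ t w‖ = t * (‖1 + w‖ / ‖1 - w‖) ^ 2 := by
    simp [SCauZ, abs_of_pos ht]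
  have hS := hg (SCauZ t w) (SCau_up ht hw hi)
  rw [hz] at hS
  have ha0 : 0 ≤ ‖1 + w‖ := norm_nonneg _
  calc ‖SCauG S t w‖ = ‖S (SCauZ t w)‖ * (‖1 + w‖ * ‖1 - w‖ ^ 3) := by
        simp [SCauG]
    _ ≤ (C * (1 + t * (‖1 + w‖ / ‖1 - w‖) ^ 2)) * (‖1 + w‖ * ‖1 - w‖ ^ 3) := by
        gcongr
    _ = C * (‖1 - w‖ ^ 2 + t * ‖1 + w‖ ^ 2) * ‖1 + w‖ * ‖1 - w‖ := by
        field_simp
    _ ≤ C * (2 ^ 2 + t * 2 ^ 2) * 2 * ‖1 - w‖ := by
        gcongr
    _ = C * (4 + 4 * t) * 2 * ‖1 - w‖ := by ring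

private theorem SCauG_contOn {S : ℂ → ℂ} (hc : ContinuousOn S {z : ℂ | 0 ≤ z.im}) {C : ℝ}
    (hg : ∀ z : ℂ, 0 ≤ z.im → ‖S z‖ ≤ C * (1 + ‖z‖)) {t : ℝ} (ht : 0 < t) :
    ContinuousOn (SCauG S t) {w : ℂ | ‖w‖ ≤ 1 ∧ 0 ≤ w.im} := by
  rintro w ⟨hw, hi⟩
  by_cases h1 : w = 1
  · subst h1
    rw [ContinuousWithinAt, SCauG_one]
    refine squeeze_zero_norm' (a := fun w : ℂ => C * (4 + 4 * t) * 2 * ‖1 - w‖) ?_ ?_
    · filter_upwards [self_mem_nhdsWithin] with z hz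
      exact SCauG_bound hg ht hz.1 hz.2
    · have h : ContinuousAt (fun w : ℂ => C * (4 + 4 * t) * 2 * ‖1 - w‖) 1 := by fun_prop
      have h2 := h.tendsto
      simp only [sub_self, norm_zero, mul_zero] at h2
      exact h2.mono_left nhdsWithin_le_nhds
  · have hS : ContinuousWithinAt (fun w => S (SCauZ t w)) {w : ℂ | ‖w‖ ≤ 1 ∧ 0 ≤ w.im} w := by
      refine ContinuousWithinAt.comp (t := {z : ℂ | 0 ≤ z.im}) (hc _ (SCau_up ht hw hi))
        (SCauZ_cont t h1).continuousWithinAt ?_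
      rintro z ⟨hz, hzi⟩
      exact SCau_up ht hz hzi
    exact hS.mul (by fun_prop)

/-- The function `H` of the docstring. -/
private noncomputable def SCauH (S : ℂ → ℂ) (t : ℝ) (w : ℂ) : ℂ :=
  if 0 ≤ w.im then SCauG S t w else starRingEnd ℂ (SCauG S t (starRingEnd ℂ w))

private theorem SCauH_ball {S : ℂ → ℂ}
    (hconj : ∀ z ∈ slitPlane, S (starRingEnd ℂ z) = starRingEnd ℂ (S z)) {t : ℝ} (ht : 0 < t)
    {w : ℂ} (hw : ‖w‖ < 1) : SCauH S t w = SCauG S t w := by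
  unfold SCauH
  split_ifs
  · rfl
  · exact SCauG_conj hconj ht hw

private theorem SCauG_real {S : ℂ → ℂ}
    (hconj : ∀ z ∈ slitPlane, S (starRingEnd ℂ z) = starRingEnd ℂ (S z)) {t : ℝ} (ht : 0 < t)
    {w : ℂ} (hw : ‖w‖ ≤ 1) (hi : w.im = 0) :
    starRingEnd ℂ (SCauG S t (starRingEnd ℂ w)) = SCauG S t w := by
  rcases lt_or_eq_of_le hw with h | h
  · exact SCauG_conj hconj ht h
  · have hw' : w = ((w.re : ℝ) : ℂ) := by
      apply Complex.ext <;> simp [hi]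
    rw [hw', Complex.norm_real, Real.norm_eq_abs] at h
    rcases (abs_eq zero_le_one).1 h with h1 | h1
    · rw [hw', h1]
      simp [SCauG]
    · rw [hw', h1]
      simp [SCauG]

private theorem SCauH_contOn {S : ℂ → ℂ} (hc : ContinuousOn S {z : ℂ | 0 ≤ z.im}) {C : ℝ}
    (hg : ∀ z : ℂ, 0 ≤ z.im → ‖S z‖ ≤ C * (1 + ‖z‖))
    (hconj : ∀ z ∈ slitPlane, S (starRingEnd ℂ z) = starRingEnd ℂ (S z)) {t : ℝ} (ht : 0 < t) :
    ContinuousOn (SCauH S t) (Metric.closedBall (0 : ℂ) 1) := by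
  have h0 := SCauG_contOn hc hg ht
  have h1 : ContinuousOn (SCauH S t) {w : ℂ | ‖w‖ ≤ 1 ∧ 0 ≤ w.im} := by
    refine h0.congr ?_
    rintro w ⟨-, hi⟩
    simp [SCauH, hi]
  have h2 : ContinuousOn (SCauH S t) {w : ℂ | ‖w‖ ≤ 1 ∧ w.im ≤ 0} := by
    have h3 : ContinuousOn (fun w => starRingEnd ℂ (SCauG S t (starRingEnd ℂ w)))
        {w : ℂ | ‖w‖ ≤ 1 ∧ w.im ≤ 0} := by
      refine Complex.continuous_conj.comp_continuousOn ?_
      refine h0.comp Complex.continuous_conj.continuousOn ?_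
      rintro w ⟨hw, hi⟩
      refine ⟨?_, ?_⟩
      · rw [RCLike.norm_conj]
        exact hw
      · simp only [Complex.conj_im]
        linarith
    refine h3.congr ?_
    rintro w ⟨hw, hi⟩
    simp only [SCauH]
    split_ifs with h
    · exact (SCauG_real hconj ht hw (le_antisymm hi h)).symm
    · rfl
  have hcl1 : IsClosed {w : ℂ | ‖w‖ ≤ 1 ∧ 0 ≤ w.im} :=
    (isClosed_le continuous_norm continuous_const).inter
      (isClosed_le continuous_const Complex.continuous_im)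
  have hcl2 : IsClosed {w : ℂ | ‖w‖ ≤ 1 ∧ w.im ≤ 0} :=
    (isClosed_le continuous_norm continuous_const).inter
      (isClosed_le Complex.continuous_im continuous_const)
  refine (h1.union_of_isClosed h2 hcl1 hcl2).mono ?_
  intro w hw
  rw [mem_closedBall_zero_iff] at hw
  rcases le_total 0 w.im with h | h
  · exact Or.inl ⟨hw, h⟩
  · exact Or.inr ⟨hw, h⟩

private theorem SCauZ_deriv (t : ℝ) {w : ℂ} (hw : w ≠ 1) :
    HasDerivAt (SCauZ t) (4 * t * (1 + w) / (1 - w) ^ 3) w := by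
  have h : (1 : ℂ) - w ≠ 0 := sub_ne_zero.2 hw.symm
  have h1 : HasDerivAt (fun w : ℂ => (1 + w)) 1 w := (hasDerivAt_id w).const_add 1
  have h2 : HasDerivAt (fun w : ℂ => (1 - w)) (-1) w := (hasDerivAt_id w).const_sub 1
  have h3 := ((h1.div h2 h).pow 2).const_mul (t : ℂ)
  refine HasDerivAt.congr_deriv (f := SCauZ t) h3 ?_
  simp only [Pi.div_apply, Nat.add_one_sub_one, pow_one, Nat.cast_ofNat]
  field_simp
  ring

private theorem SCauG_deriv {S : ℂ → ℂ} (hd : DifferentiableOn ℂ S slitPlane) {t : ℝ}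
    (ht : 0 < t) {w : ℂ} (hw : ‖w‖ < 1) :
    HasDerivAt (SCauG S t) (deriv S (SCauZ t w) * (4 * t * (1 + w) ^ 2) +
      S (SCauZ t w) * ((1 - w) ^ 3 - 3 * (1 + w) * (1 - w) ^ 2)) w := by
  have hne := SCau_ne hw
  have hw1 : w ≠ 1 := fun h => hne (by rw [h, sub_self])
  have hs := SCau_slit ht hw
  have h1 : HasDerivAt (fun w : ℂ => (1 + w)) 1 w := (hasDerivAt_id w).const_add 1
  have h2 : HasDerivAt (fun w : ℂ => (1 - w)) (-1) w := (hasDerivAt_id w).const_sub 1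
  have h3 : HasDerivAt S (deriv S (SCauZ t w)) (SCauZ t w) :=
    (hd.differentiableAt (isOpen_slitPlane.mem_nhds hs)).hasDerivAt
  have h4 := h3.comp w (SCauZ_deriv t hw1)
  have h5 := h4.mul (h1.mul (h2.pow 3))
  refine HasDerivAt.congr_deriv (f := SCauG S t) h5 ?_
  simp only [Pi.mul_apply, Pi.pow_apply, Function.comp_apply]
  field_simp
  push_cast
  ring

private theorem SCauZ_zero (t : ℝ) : SCauZ t 0 = t := by simp [SCauZ]

private theorem SCauG_iter {S : ℂ → ℂ} (hd : DifferentiableOn ℂ S slitPlane) {t : ℝ}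
    (ht : 0 < t) : iteratedDeriv 2 (SCauG S t) 0 = 16 * t ^ 2 * iteratedDeriv 2 S (t : ℂ) := by
  have hball : Metric.ball (0 : ℂ) 1 ∈ 𝓝 (0 : ℂ) := Metric.ball_mem_nhds _ one_pos
  have he : deriv (SCauG S t) =ᶠ[𝓝 0] fun w => deriv S (SCauZ t w) * (4 * t * (1 + w) ^ 2) +
      S (SCauZ t w) * ((1 - w) ^ 3 - 3 * (1 + w) * (1 - w) ^ 2) := by
    filter_upwards [hball] with w hw
    rw [mem_ball_zero_iff] at hw
    exact (SCauG_deriv hd ht hw).deriv
  have hs : SCauZ t 0 ∈ slitPlane := SCau_slit ht (by simp)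
  have hd' : DifferentiableOn ℂ (deriv S) slitPlane := hd.deriv isOpen_slitPlane
  have hz := SCauZ_deriv t (w := 0) zero_ne_one
  have a1 : HasDerivAt S (deriv S (SCauZ t 0)) (SCauZ t 0) :=
    (hd.differentiableAt (isOpen_slitPlane.mem_nhds hs)).hasDerivAt
  have a2 : HasDerivAt (deriv S) (deriv (deriv S) (SCauZ t 0)) (SCauZ t 0) :=
    (hd'.differentiableAt (isOpen_slitPlane.mem_nhds hs)).hasDerivAt
  have b1 := a1.comp (0 : ℂ) hz
  have b2 := a2.comp (0 : ℂ) hz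
  have h1 : HasDerivAt (fun w : ℂ => (1 + w)) 1 0 := (hasDerivAt_id (0 : ℂ)).const_add 1
  have h2 : HasDerivAt (fun w : ℂ => (1 - w)) (-1) 0 := (hasDerivAt_id (0 : ℂ)).const_sub 1
  have c1 := b2.mul ((h1.pow 2).const_mul (4 * (t : ℂ)))
  have c2 := b1.mul ((h2.pow 3).sub ((h1.const_mul 3).mul (h2.pow 2)))
  have c3 := c1.add c2
  have hI : iteratedDeriv 2 (SCauG S t) 0 = deriv (deriv (SCauG S t)) 0 := by
    rw [iteratedDeriv_eq_iterate]
    rfl
  have hI2 : iteratedDeriv 2 S (t : ℂ) = deriv (deriv S) (t : ℂ) := by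
    rw [iteratedDeriv_eq_iterate]
    rfl
  rw [hI, hI2, he.deriv_eq]
  have hfin : deriv (fun w => deriv S (SCauZ t w) * (4 * t * (1 + w) ^ 2) +
      S (SCauZ t w) * ((1 - w) ^ 3 - 3 * (1 + w) * (1 - w) ^ 2)) 0 = _ := c3.deriv
  rw [hfin]
  simp only [Pi.mul_apply, Pi.pow_apply, Function.comp_apply, Pi.sub_apply, SCauZ_zero]
  push_cast
  ring

private theorem SCauH_iter {S : ℂ → ℂ} (hd : DifferentiableOn ℂ S slitPlane)
    (hconj : ∀ z ∈ slitPlane, S (starRingEnd ℂ z) = starRingEnd ℂ (S z)) {t : ℝ} (ht : 0 < t) :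
    iteratedDeriv 2 (SCauH S t) 0 = 16 * t ^ 2 * iteratedDeriv 2 S (t : ℂ) := by
  rw [← SCauG_iter hd ht]
  have hball : Metric.ball (0 : ℂ) 1 ∈ 𝓝 (0 : ℂ) := Metric.ball_mem_nhds _ one_pos
  have he : SCauH S t =ᶠ[𝓝 0] SCauG S t := by
    filter_upwards [hball] with w hw
    rw [mem_ball_zero_iff] at hw
    exact SCauH_ball hconj ht hw
  exact he.iteratedDeriv_eq 2

/-- The integrand on the circle. -/
private noncomputable def SCauK (S : ℂ → ℂ) (t : ℝ) (θ : ℝ) : ℂ :=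
  SCauH S t (exp (θ * I)) * exp (-(2 * θ * I))

private theorem SCau_exp_mem (θ : ℝ) : ‖exp ((θ : ℂ) * I)‖ = 1 := norm_exp_ofReal_mul_I θ

private theorem SCauK_cont {S : ℂ → ℂ} (hc : ContinuousOn S {z : ℂ | 0 ≤ z.im}) {C : ℝ}
    (hg : ∀ z : ℂ, 0 ≤ z.im → ‖S z‖ ≤ C * (1 + ‖z‖))
    (hconj : ∀ z ∈ slitPlane, S (starRingEnd ℂ z) = starRingEnd ℂ (S z)) {t : ℝ} (ht : 0 < t) :
    Continuous (SCauK S t) := by
  unfold SCauK
  refine Continuous.mul ?_ (by fun_prop)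
  refine (SCauH_contOn hc hg hconj ht).comp_continuous (by fun_prop) ?_
  intro θ
  rw [mem_closedBall_zero_iff, SCau_exp_mem]

private theorem SCauK_circle (S : ℂ → ℂ) (t : ℝ) :
    (∮ z in C((0 : ℂ), 1), (1 / (z - 0) ^ (2 + 1)) • SCauH S t z) =
      I * ∫ θ in (0 : ℝ)..(2 * Real.pi), SCauK S t θ := by
  rw [circleIntegral, ← intervalIntegral.integral_const_mul]
  refine intervalIntegral.integral_congr fun θ _ => ?_
  simp only [deriv_circleMap, circleMap, ofReal_one, one_mul, zero_add, sub_zero, smul_eq_mul,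
    SCauK]
  have h : exp (-(2 * (θ : ℂ) * I)) = (exp ((θ : ℂ) * I) ^ 2)⁻¹ := by
    rw [← Complex.exp_nat_mul, ← Complex.exp_neg]
    congr 1
    push_cast
    ring
  rw [h]
  have hne := Complex.exp_ne_zero ((θ : ℂ) * I)
  field_simp

private theorem SCauK_up (S : ℂ → ℂ) (t : ℝ) {θ : ℝ} (h0 : 0 < θ) (h1 : θ < Real.pi) :
    SCauK S t θ = S (-((t * (Real.cot (θ / 2)) ^ 2 : ℝ) : ℂ)) *
      (16 * I * Real.cos (θ / 2) * Real.sin (θ / 2) ^ 3) := by
  have hi : 0 ≤ (exp ((θ : ℂ) * I)).im := by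
    rw [Complex.exp_ofReal_mul_I_im]
    exact (Real.sin_pos_of_pos_of_lt_pi h0 h1).le
  have hs : 0 < Real.sin (θ / 2) := Real.sin_pos_of_pos_of_lt_pi (by linarith) (by linarith)
  have hs' : (Real.sin (θ / 2) : ℂ) ≠ 0 := by exact_mod_cast hs.ne'
  set x : ℂ := exp (((θ / 2 : ℝ) : ℂ) * I) with hx
  have hxne : x ≠ 0 := Complex.exp_ne_zero _
  have hx2 : exp ((θ : ℂ) * I) = x ^ 2 := by
    rw [hx, ← Complex.exp_nat_mul]
    congr 1
    push_cast
    ring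
  have hxe : x = Real.cos (θ / 2) + Real.sin (θ / 2) * I := by
    rw [hx, Complex.exp_mul_I, Complex.ofReal_cos, Complex.ofReal_sin]
  have hcs : (Real.cos (θ / 2) : ℂ) ^ 2 + (Real.sin (θ / 2) : ℂ) ^ 2 = 1 := by
    exact_mod_cast Real.cos_sq_add_sin_sq (θ / 2)
  have hinv : exp (-(2 * (θ : ℂ) * I)) = (x ^ 4)⁻¹ := by
    rw [hx, ← Complex.exp_nat_mul, ← Complex.exp_neg]
    congr 1
    push_cast
    ring
  have hp : 1 + x ^ 2 = 2 * Real.cos (θ / 2) * x := by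
    rw [hxe]
    linear_combination (-(1 : ℂ)) * hcs + (Real.sin (θ / 2) : ℂ) ^ 2 * Complex.I_sq
  have hm : 1 - x ^ 2 = -2 * I * Real.sin (θ / 2) * x := by
    rw [hxe]
    linear_combination (-(1 : ℂ)) * hcs + (Real.sin (θ / 2) : ℂ) ^ 2 * Complex.I_sq
  have hz : SCauZ t (x ^ 2) = -((t * (Real.cot (θ / 2)) ^ 2 : ℝ) : ℂ) := by
    rw [SCauZ, hp, hm, Real.cot_eq_cos_div_sin]
    push_cast
    have hI : I ^ 2 = -1 := Complex.I_sq
    rw [show (2 * (Complex.cos (θ / 2)) * x / (-2 * I * Complex.sin (θ / 2) * x)) ^ 2 =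
      (Complex.cos (θ / 2)) ^ 2 / (I ^ 2 * (Complex.sin (θ / 2)) ^ 2) by
        have hs2 : Complex.sin ((θ : ℂ) / 2) ≠ 0 := by
          have := hs'
          push_cast at this
          exact this
        field_simp, hI]
    ring
  rw [SCauK, SCauH, if_pos hi, hinv, hx2, SCauG, hz, hp, hm]
  field_simp
  linear_combination (-16 * S (-((t * (Real.cot (θ / 2)) ^ 2 : ℝ) : ℂ)) *
    (Real.cos (θ / 2) : ℂ)) * Complex.I_sq

private theorem SCauK_down (S : ℂ → ℂ) (t : ℝ) {θ : ℝ} (h0 : 0 < θ) (h1 : θ < Real.pi) :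
    SCauK S t (2 * Real.pi - θ) = starRingEnd ℂ (SCauK S t θ) := by
  have hs := Real.sin_pos_of_pos_of_lt_pi h0 h1
  have hi : 0 ≤ (exp ((θ : ℂ) * I)).im := by
    rw [Complex.exp_ofReal_mul_I_im]
    exact hs.le
  have he : exp (((2 * Real.pi - θ : ℝ) : ℂ) * I) = starRingEnd ℂ (exp ((θ : ℂ) * I)) := by
    rw [← Complex.exp_conj]
    have h : (((2 * Real.pi - θ : ℝ) : ℂ) * I) = starRingEnd ℂ ((θ : ℂ) * I) + 2 * Real.pi * I := by
      simp
      ring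
    rw [h, Complex.exp_periodic]
  have hi2 : ¬ 0 ≤ (exp (((2 * Real.pi - θ : ℝ) : ℂ) * I)).im := by
    rw [he, Complex.conj_im, Complex.exp_ofReal_mul_I_im]
    linarith
  have he2 : exp (-(2 * ((2 * Real.pi - θ : ℝ) : ℂ) * I)) =
      starRingEnd ℂ (exp (-(2 * (θ : ℂ) * I))) := by
    have h2 : exp (-(2 * ((2 * Real.pi - θ : ℝ) : ℂ) * I)) =
        (exp (((2 * Real.pi - θ : ℝ) : ℂ) * I) ^ 2)⁻¹ := by
      rw [← Complex.exp_nat_mul, ← Complex.exp_neg]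
      congr 1
      push_cast
      ring
    have h3 : exp (-(2 * (θ : ℂ) * I)) = (exp ((θ : ℂ) * I) ^ 2)⁻¹ := by
      rw [← Complex.exp_nat_mul, ← Complex.exp_neg]
      congr 1
      push_cast
      ring
    rw [h2, h3, he]
    simp only [map_inv₀, map_pow]
  rw [SCauK, SCauK, SCauH, SCauH, if_pos hi, if_neg hi2, he2, he, Complex.conj_conj, map_mul]

theorem cauchy_circle {S : ℂ → ℂ} (hd : DifferentiableOn ℂ S slitPlane)
    (hc : ContinuousOn S {z : ℂ | 0 ≤ z.im}) {C : ℝ}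
    (hg : ∀ z : ℂ, 0 ≤ z.im → ‖S z‖ ≤ C * (1 + ‖z‖))
    (hconj : ∀ z ∈ slitPlane, S (starRingEnd ℂ z) = starRingEnd ℂ (S z)) {t : ℝ} (ht : 0 < t) :
    iteratedDeriv 2 S (t : ℂ) = ((2 / (Real.pi * t ^ 2) * ∫ θ in Set.Ioo (0 : ℝ) Real.pi,
      -(S (-((t * (Real.cot (θ / 2)) ^ 2 : ℝ) : ℂ))).im * Real.cos (θ / 2) *
        Real.sin (θ / 2) ^ 3 : ℝ) : ℂ) := by
  have hdH : ∀ z ∈ Metric.ball (0 : ℂ) 1 \ ∅, DifferentiableAt ℂ (SCauH S t) z := by
    rintro w ⟨hw, -⟩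
    have hw' := mem_ball_zero_iff.1 hw
    have he : SCauH S t =ᶠ[𝓝 w] SCauG S t := by
      filter_upwards [Metric.isOpen_ball.mem_nhds hw] with z hz
      exact SCauH_ball hconj ht (mem_ball_zero_iff.1 hz)
    exact he.differentiableAt_iff.2 (SCauG_deriv hd ht hw').differentiableAt
  have hC :=
    Complex.circleIntegral_one_div_sub_center_pow_smul_of_differentiable_on_off_countable
      (f := SCauH S t) (c := 0) (s := ∅) one_pos 2 Set.countable_empty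
      (SCauH_contOn hc hg hconj ht) hdH
  rw [SCauK_circle, SCauH_iter hd hconj ht] at hC
  have hK := SCauK_cont hc hg hconj ht
  have hpi := Real.pi_pos
  have hsplit : ∫ θ in (0 : ℝ)..(2 * Real.pi), SCauK S t θ =
      (∫ θ in (0 : ℝ)..Real.pi, SCauK S t θ) + ∫ θ in Real.pi..(2 * Real.pi), SCauK S t θ :=
    (intervalIntegral.integral_add_adjacent_intervals (hK.intervalIntegrable _ _)
      (hK.intervalIntegrable _ _)).symm
  have hfirst : ∫ θ in (0 : ℝ)..Real.pi, SCauK S t θ =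
      ∫ θ in Set.Ioo (0 : ℝ) Real.pi, SCauK S t θ := by
    rw [intervalIntegral.integral_of_le hpi.le, integral_Ioc_eq_integral_Ioo]
  have hsecond : ∫ θ in Real.pi..(2 * Real.pi), SCauK S t θ =
      starRingEnd ℂ (∫ θ in Set.Ioo (0 : ℝ) Real.pi, SCauK S t θ) := by
    have h := intervalIntegral.integral_comp_sub_left (f := SCauK S t) (a := 0)
      (b := Real.pi) (2 * Real.pi)
    rw [show 2 * Real.pi - Real.pi = Real.pi by ring, sub_zero] at h
    rw [← h, intervalIntegral.integral_of_le hpi.le, integral_Ioc_eq_integral_Ioo,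
      ← integral_conj]
    refine setIntegral_congr_fun measurableSet_Ioo fun θ hθ => ?_
    exact SCauK_down S t hθ.1 hθ.2
  have hint : IntegrableOn (SCauK S t) (Set.Ioo (0 : ℝ) Real.pi) :=
    (hK.integrableOn_Icc (a := 0) (b := Real.pi)).mono_set Set.Ioo_subset_Icc_self
  have hre : (∫ θ in Set.Ioo (0 : ℝ) Real.pi, SCauK S t θ).re =
      16 * ∫ θ in Set.Ioo (0 : ℝ) Real.pi,
        -(S (-((t * (Real.cot (θ / 2)) ^ 2 : ℝ) : ℂ))).im * Real.cos (θ / 2) *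
          Real.sin (θ / 2) ^ 3 := by
    have h := Complex.reCLM.integral_comp_comm hint
    simp only [Complex.reCLM_apply] at h
    rw [← h, ← integral_const_mul]
    refine setIntegral_congr_fun measurableSet_Ioo fun θ hθ => ?_
    rw [SCauK_up S t hθ.1 hθ.2]
    have h16 : (16 * I * Real.cos (θ / 2) * Real.sin (θ / 2) ^ 3 : ℂ) =
        ((16 * Real.cos (θ / 2) * Real.sin (θ / 2) ^ 3 : ℝ) : ℂ) * I := by
      push_cast
      ring
    rw [h16, Complex.mul_re, Complex.re_ofReal_mul, Complex.im_ofReal_mul, Complex.I_re,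
      Complex.I_im]
    ring
  rw [hsplit, hfirst, hsecond, Complex.add_conj, hre] at hC
  have hfac : ((2 : ℕ).factorial : ℂ) = 2 := by norm_num [Nat.factorial]
  rw [hfac, smul_eq_mul] at hC
  set J : ℝ := ∫ θ in Set.Ioo (0 : ℝ) Real.pi,
        -(S (-((t * (Real.cot (θ / 2)) ^ 2 : ℝ) : ℂ))).im * Real.cos (θ / 2) *
          Real.sin (θ / 2) ^ 3 with hJ
  have hpi' : (Real.pi : ℂ) ≠ 0 := by exact_mod_cast hpi.ne'
  have ht' : (t : ℂ) ≠ 0 := by exact_mod_cast ht.ne'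
  have hfin : (2 * J : ℂ) = Real.pi * t ^ 2 * iteratedDeriv 2 S (t : ℂ) := by
    have h1 : I * (16 * (2 * J : ℂ)) = I * (16 * (Real.pi * t ^ 2 * iteratedDeriv 2 S (t : ℂ))) := by
      push_cast at hC
      linear_combination hC
    have h2 := mul_left_cancel₀ Complex.I_ne_zero h1
    exact mul_left_cancel₀ (by norm_num) h2
  push_cast
  field_simp
  linear_combination -hfin


end SRE
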