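import Mathlib
import Pool.Agent.Lib_MP_c281c2_an.SCau

/-!
# Piece SSUB: a change of variables

`subst_cot`: `y = t cot² (θ/2)` is a decreasing bijection from `(0, π)` to `(0, ∞)`, `dy/dθ = - t cot (θ/2) / sin² (θ/2)`, `t + y = t / sin² (θ/2)`, so `|dy/dθ| / (t + y) ^ 3 = t⁻² cos (θ/2) sin³ (θ/2)`
(`MeasureTheory.integral_image_eq_integral_abs_deriv_smul`; no integrability is needed).
-/

namespace SRE

open Complex MeasureTheory Filter Topology

private theorem SSub_sin_pos {θ : ℝ} (h : θ ∈ Set.Ioo (0 : ℝ) Real.pi) : 0 < Real.sin (θ / 2) :=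
  Real.sin_pos_of_pos_of_lt_pi (by linarith [h.1]) (by linarith [h.2, Real.pi_pos])

private theorem SSub_cos_pos {θ : ℝ} (h : θ ∈ Set.Ioo (0 : ℝ) Real.pi) : 0 < Real.cos (θ / 2) :=
  Real.cos_pos_of_mem_Ioo ⟨by linarith [h.1, Real.pi_pos], by linarith [h.2]⟩

private theorem SSub_hasDeriv {t θ : ℝ} (h : θ ∈ Set.Ioo (0 : ℝ) Real.pi) :
    HasDerivAt (fun x : ℝ => t * (Real.cot (x / 2)) ^ 2)
      (-(t * Real.cos (θ / 2) / Real.sin (θ / 2) ^ 3)) θ := by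
  have hs := (SSub_sin_pos h).ne'
  have hx : HasDerivAt (fun x : ℝ => x / 2) (1 / 2) θ := (hasDerivAt_id θ).div_const 2
  have hc : HasDerivAt (fun x : ℝ => Real.cos (x / 2)) (-Real.sin (θ / 2) * (1 / 2)) θ :=
    hx.cos
  have hsn : HasDerivAt (fun x : ℝ => Real.sin (x / 2)) (Real.cos (θ / 2) * (1 / 2)) θ :=
    hx.sin
  have hq := ((hc.div hsn hs).pow 2).const_mul t
  have e : (fun x : ℝ => t * (Real.cot (x / 2)) ^ 2) =
      fun x : ℝ => t * ((fun x : ℝ => Real.cos (x / 2)) / fun x : ℝ => Real.sin (x / 2)) x ^ 2 := by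
    funext x
    simp [Real.cot_eq_cos_div_sin]
  rw [e]
  refine hq.congr_deriv ?_
  have h1 : Real.sin (θ / 2) ^ 2 + Real.cos (θ / 2) ^ 2 = 1 := Real.sin_sq_add_cos_sq _
  have h2 : -Real.sin (θ / 2) * (1 / 2) * Real.sin (θ / 2) -
      Real.cos (θ / 2) * (Real.cos (θ / 2) * (1 / 2)) = -(1 / 2) := by
    linear_combination (-(1 / 2) : ℝ) * h1
  rw [h2]
  simp only [Pi.div_apply, Nat.cast_ofNat, Nat.add_one_sub_one, pow_one]
  field_simp

private theorem SSub_injOn {t : ℝ} (ht : 0 < t) :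
    Set.InjOn (fun x : ℝ => t * (Real.cot (x / 2)) ^ 2) (Set.Ioo (0 : ℝ) Real.pi) := by
  intro a ha b hb hab
  have hca : 0 < Real.cot (a / 2) := by
    rw [Real.cot_eq_cos_div_sin]; exact div_pos (SSub_cos_pos ha) (SSub_sin_pos ha)
  have hcb : 0 < Real.cot (b / 2) := by
    rw [Real.cot_eq_cos_div_sin]; exact div_pos (SSub_cos_pos hb) (SSub_sin_pos hb)
  have h1 : Real.cot (a / 2) ^ 2 = Real.cot (b / 2) ^ 2 := mul_left_cancel₀ ht.ne' hab
  have h2 : Real.cot (a / 2) = Real.cot (b / 2) :=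
    (pow_left_inj₀ hca.le hcb.le two_ne_zero).1 h1
  have h3 : Real.tan (a / 2) = Real.tan (b / 2) := by
    rw [← inv_inj, Real.tan_inv_eq_cot, Real.tan_inv_eq_cot, h2]
  have h4 := Real.injOn_tan (x₁ := a / 2) (x₂ := b / 2)
    ⟨by linarith [ha.1, Real.pi_pos], by linarith [ha.2]⟩
    ⟨by linarith [hb.1, Real.pi_pos], by linarith [hb.2]⟩ h3
  linarith

private theorem SSub_image {t : ℝ} (ht : 0 < t) :
    (fun x : ℝ => t * (Real.cot (x / 2)) ^ 2) '' (Set.Ioo (0 : ℝ) Real.pi) = Set.Ioi 0 := by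
  ext y
  constructor
  · rintro ⟨a, ha, rfl⟩
    have hca : 0 < Real.cot (a / 2) := by
      rw [Real.cot_eq_cos_div_sin]; exact div_pos (SSub_cos_pos ha) (SSub_sin_pos ha)
    exact mul_pos ht (pow_pos hca 2)
  · intro hy
    have hy : 0 < y := hy
    have hu : 0 < Real.sqrt (t / y) := Real.sqrt_pos.2 (div_pos ht hy)
    refine ⟨2 * Real.arctan (Real.sqrt (t / y)), ⟨?_, ?_⟩, ?_⟩
    · have := Real.arctan_pos.2 hu
      linarith
    · have := Real.arctan_lt_pi_div_two (Real.sqrt (t / y))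
      linarith
    · have e1 : 2 * Real.arctan (Real.sqrt (t / y)) / 2 = Real.arctan (Real.sqrt (t / y)) := by
        ring
      simp only [e1]
      rw [← Real.tan_inv_eq_cot, Real.tan_arctan, inv_pow, Real.sq_sqrt (div_pos ht hy).le]
      field_simp

theorem subst_cot (f : ℝ → ℝ) {t : ℝ} (ht : 0 < t) :
    ∫ θ in Set.Ioo (0 : ℝ) Real.pi, f (t * (Real.cot (θ / 2)) ^ 2) * Real.cos (θ / 2) *
        Real.sin (θ / 2) ^ 3 = t ^ 2 * ∫ y in Set.Ioi (0 : ℝ), f y / (t + y) ^ 3 := by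
  have h := integral_image_eq_integral_abs_deriv_smul (measurableSet_Ioo (a := (0 : ℝ))
    (b := Real.pi)) (fun θ hθ => (SSub_hasDeriv (t := t) hθ).hasDerivWithinAt) (SSub_injOn ht)
    (fun y : ℝ => f y / (t + y) ^ 3)
  rw [SSub_image ht] at h
  rw [h, ← integral_const_mul]
  refine setIntegral_congr_fun measurableSet_Ioo fun θ hθ => ?_
  have hs := SSub_sin_pos hθ
  have hc := SSub_cos_pos hθ
  have h1 : Real.sin (θ / 2) ^ 2 + Real.cos (θ / 2) ^ 2 = 1 := Real.sin_sq_add_cos_sq _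
  have e1 : t + t * (Real.cot (θ / 2)) ^ 2 = t / Real.sin (θ / 2) ^ 2 := by
    rw [Real.cot_eq_cos_div_sin]
    field_simp
    linear_combination h1
  have e2 : |(-(t * Real.cos (θ / 2) / Real.sin (θ / 2) ^ 3))| =
      t * Real.cos (θ / 2) / Real.sin (θ / 2) ^ 3 := by
    rw [abs_neg, abs_of_pos (by positivity)]
  simp only [smul_eq_mul]
  rw [e1, e2]
  field_simp

theorem cauchy_slit {S : ℂ → ℂ} (hd : DifferentiableOn ℂ S slitPlane)
    (hc : ContinuousOn S {z : ℂ | 0 ≤ z.im}) {C : ℝ}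
    (hg : ∀ z : ℂ, 0 ≤ z.im → ‖S z‖ ≤ C * (1 + ‖z‖))
    (hconj : ∀ z ∈ slitPlane, S (starRingEnd ℂ z) = starRingEnd ℂ (S z)) {t : ℝ} (ht : 0 < t) :
    iteratedDeriv 2 S (t : ℂ) =
      ((2 / Real.pi * ∫ y in Set.Ioi (0 : ℝ), -(S (-(y : ℂ))).im / (t + y) ^ 3 : ℝ) : ℂ) := by
  rw [cauchy_circle hd hc hg hconj ht]
  have h := subst_cot (fun y : ℝ => -(S (-(y : ℂ))).im) ht
  rw [h]
  congr 1
  have hp := Real.pi_pos.ne'
  field_simp

end SRE
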