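import Mathlib
import Pool.Agent.Lib_MP_c281c2_an.Defs
import Pool.Agent.Lib_MP_c281c2_an.EAlg
import Pool.Agent.Lib_MP_c281c2_an.MSec
import Pool.Agent.Lib_MP_c281c2_an.MInt
import Pool.Agent.Lib_MP_c281c2_an.MCut

/-!
# Piece MINF: the eigenvalues for large `|z|`

`exists_ratio`: `v* A v ≤ K v* B v` for a constant `K > 0` (compactness of the unit sphere, or `λ_max(A) / λ_min(B)`).
`ev_inf`. If `Im z = 0`: `z = t ≥ 0`: `arg r = 0` (`ev_pos`), `arg (z + q) ≥ 0`. `z = -y < -q`: `arg (z + q) = π`, `ev_cut` (`arg 0 = 0`).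
`Im z > 0`: `a, b, m` from `eigen_upper`, `a ≤ K b`. `P = a + z b`. `r conj P = m`. We may assume `Im r < 0`. `Im (z m) > 0`, `Im m < 0` say `-arg z < arg m < 0`, and `r = m P / |P|²`, `0 < arg P < arg z`. So
`arg r = arg m + arg P > - (arg z - arg P) =: -β` (`0 < β`), `sin β = Im (z conj P) / (|z| |P|) = a Im z / (|z| |P|)`, `cos β > 0` for `|z| > K`. With `r₁ = |z| ≥ 2 K`: `|P| ≥ b (r₁ - K) ≥ b r₁ / 2`, so `sin β ≤ 2 K Im z / r₁²`.
`γ = arg (z + q)`: `sin γ = Im z / |z + q| ≥ Im z / (r₁ + q)`. If `γ ≤ π / 2`: `β ≤ (π/2) sin β ≤ π K Im z / r₁² ≤ s Im z / (r₁ + q) ≤ s sin γ ≤ s γ` for `r₁` large. If `γ > π / 2`: `β ≤ (π / 2) sin β ≤ π K / r₁ ≤ s π / 2 ≤ s γ` for `r₁` large. So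
`arg r ≥ -β ≥ - s γ`. (Avoid angles if possible: for `Im r < 0` the claim is about `r` only; `Complex.arg_mul_eq_add_arg_iff`, `Complex.abs_arg_lt_pi_div_two_iff` etc. may help.)
-/

namespace SRE

open Matrix Complex MeasureTheory Filter Topology
open scoped ComplexOrder

variable {n : Type} [Fintype n] [DecidableEq n] {p : Dat n}

omit [DecidableEq n] in
/-- the quadratic form of a scaled vector -/
private theorem MInf_scale (A : Matrix n n ℂ) (c : ℝ) (v : n → ℂ) :
    star ((c : ℂ) • v) ⬝ᵥ (A *ᵥ ((c : ℂ) • v)) = ((c ^ 2 : ℝ) : ℂ) * (star v ⬝ᵥ (A *ᵥ v)) := by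
  rw [Matrix.mulVec_smul, star_smul, smul_dotProduct, dotProduct_smul]
  simp only [smul_eq_mul, RCLike.star_def, Complex.conj_ofReal]
  push_cast
  ring

theorem exists_ratio {A B : Matrix n n ℂ} (hA : A.PosDef) (hB : B.PosDef) :
    ∃ K : ℝ, 0 < K ∧ ∀ (v : n → ℂ) (a b : ℝ), (a : ℂ) = star v ⬝ᵥ (A *ᵥ v) →
      (b : ℂ) = star v ⬝ᵥ (B *ᵥ v) → a ≤ K * b := by
  have hcont : ∀ C : Matrix n n ℂ, Continuous fun v : n → ℂ => (star v ⬝ᵥ (C *ᵥ v)).re := by
    intro C
    simp only [dotProduct, Matrix.mulVec, Pi.star_apply]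
    fun_prop
  have hS : IsCompact (Metric.sphere (0 : n → ℂ) 1) := isCompact_sphere 0 1
  have hpos : ∀ v : n → ℂ, v ≠ 0 → 0 < (star v ⬝ᵥ (B *ᵥ v)).re := by
    intro v hv
    have h := hB.dotProduct_mulVec_pos hv
    rw [Complex.lt_def] at h
    exact h.1
  have hsph : ∀ v ∈ Metric.sphere (0 : n → ℂ) 1, v ≠ 0 := by
    rintro v hv rfl
    simp at hv
  have hcf : ContinuousOn (fun v : n → ℂ => (star v ⬝ᵥ (A *ᵥ v)).re / (star v ⬝ᵥ (B *ᵥ v)).re)
      (Metric.sphere (0 : n → ℂ) 1) :=
    (hcont A).continuousOn.div (hcont B).continuousOn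
      fun v hv => (hpos v (hsph v hv)).ne'
  obtain ⟨M, hM⟩ := hS.bddAbove_image hcf
  refine ⟨|M| + 1, by positivity, fun v a b ha hb => ?_⟩
  by_cases hv : v = 0
  · subst hv
    have ha' : a = 0 := by
      have : (a : ℂ) = 0 := by rw [ha]; simp
      exact_mod_cast this
    have hb' : b = 0 := by
      have : (b : ℂ) = 0 := by rw [hb]; simp
      exact_mod_cast this
    rw [ha', hb']
    simp
  · have hb0 : 0 < b := by
      have := hpos v hv
      rw [← hb] at this
      simpa using this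
    have hn : 0 < ‖v‖ := norm_pos_iff.mpr hv
    have hu : ((‖v‖⁻¹ : ℝ) : ℂ) • v ∈ Metric.sphere (0 : n → ℂ) 1 := by
      rw [mem_sphere_zero_iff_norm, norm_smul, Complex.norm_real, norm_inv, norm_norm]
      exact inv_mul_cancel₀ hn.ne'
    have h1 := hM ⟨_, hu, rfl⟩
    simp only [MInf_scale] at h1
    rw [← ha, ← hb, ← Complex.ofReal_mul, ← Complex.ofReal_mul, Complex.ofReal_re,
      Complex.ofReal_re, mul_div_mul_left _ _ (by positivity)] at h1
    have h2 : a ≤ M * b := (div_le_iff₀ hb0).mp h1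
    have h3 : M * b ≤ |M| * b := mul_le_mul_of_nonneg_right (le_abs_self M) hb0.le
    linarith

theorem Dat.Ok.ev_inf (hp : p.Ok) {s : ℝ} (hs : 0 < s) (hs1 : s < 1) {q : ℝ} (hq : 0 < q) :
    ∃ ρ : ℝ, 0 < ρ ∧ ∀ z : ℂ, 0 ≤ z.im → ρ ≤ ‖z‖ → ∀ r ∈ ev (p.M s z),
      -(s * (z + q).arg) ≤ r.arg := by
  obtain ⟨K, hK, hAB⟩ := exists_ratio hp.A hp.B
  have hpi := Real.pi_pos
  refine ⟨2 * K + q + 4 * K / s + 1, by positivity, fun z hz hzn r hr => ?_⟩
  have h4 : 0 < 4 * K / s := by positivity
  have hz1 : 2 * K ≤ ‖z‖ := by linarith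
  have hz2 : q < ‖z‖ := by linarith
  have hz3 : 4 * K / s ≤ ‖z‖ := by linarith
  have hz0 : 0 < ‖z‖ := by linarith
  rcases eq_or_lt_of_le hz with him | him
  · -- real `z`
    rcases le_or_gt 0 z.re with hre | hre
    · have hzr : z = ((z.re : ℝ) : ℂ) := by
        apply Complex.ext
        · simp
        · simpa using him.symm
      rw [hzr] at hr
      have h1 := hp.ev_pos hs hs1 hre hr
      have hr0 : r.arg = 0 := by
        rw [Complex.arg_eq_zero_iff]
        exact ⟨h1.1.le, h1.2⟩
      have hz0' : 0 ≤ (z + q).arg := by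
        rw [Complex.arg_nonneg_iff]
        simpa using hz
      rw [hr0]
      have := mul_nonneg hs.le hz0'
      linarith
    · have hzr : z = -((-z.re : ℝ) : ℂ) := by
        apply Complex.ext
        · simp
        · simpa using him.symm
      have hnorm : ‖z‖ = -z.re := by
        rw [hzr, norm_neg, Complex.norm_real, Real.norm_eq_abs, abs_of_pos (by linarith)]
        simp
      have harg : (z + q).arg = Real.pi := by
        rw [Complex.arg_eq_pi_iff]
        constructor
        · simp only [Complex.add_re, Complex.ofReal_re]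
          linarith
        · simpa using him.symm
      rw [hzr] at hr
      rw [harg]
      rcases hp.ev_cut hs hs1 (by linarith : (0 : ℝ) < -z.re) hr with h | h | h
      · rw [h, Complex.arg_zero]
        have := mul_pos hs hpi
        linarith
      · exact h.1.le
      · linarith [h.1]
  · -- upper half plane
    obtain ⟨a, b, m, ha, hb, -, hzm, hm, v, -, hva, hvb⟩ := hp.eigen_upper hs hs1 him hr
    have hle := hAB v a b hva hvb
    have hγ0 : 0 ≤ (z + q).arg := by
      rw [Complex.arg_nonneg_iff]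
      simpa using hz
    rcases le_or_gt 0 r.im with hri | hri
    · have h1 : 0 ≤ r.arg := Complex.arg_nonneg_iff.mpr hri
      have := mul_nonneg hs.le hγ0
      linarith
    · -- `w = z conj P = a z + b |z|²`
      have hw : z * starRingEnd ℂ (a + z * b) = ((a : ℝ) : ℂ) * z + ((b * ‖z‖ ^ 2 : ℝ) : ℂ) := by
        rw [map_add, map_mul, Complex.conj_ofReal, Complex.conj_ofReal, mul_add, ← mul_assoc,
          Complex.mul_conj, Complex.normSq_eq_norm_sq]
        push_cast
        ring
      set w : ℂ := ((a : ℝ) : ℂ) * z + ((b * ‖z‖ ^ 2 : ℝ) : ℂ) with hwdef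
      have hwim : w.im = a * z.im := by
        rw [hwdef, Complex.add_im, Complex.im_ofReal_mul, Complex.ofReal_im, add_zero]
      have hwre : w.re = a * z.re + b * ‖z‖ ^ 2 := by
        rw [hwdef, Complex.add_re, Complex.re_ofReal_mul, Complex.ofReal_re]
      have hrw : 0 < (r * w).im := by
        have : z * m = r * w := by
          rw [hm, ← hw]
          ring
        rwa [this] at hzm
      have hzre : -‖z‖ ≤ z.re := by
        have := Complex.abs_re_le_norm z
        exact (abs_le.mp this).1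
      have hwre' : b * ‖z‖ ^ 2 / 2 ≤ w.re := by
        rw [hwre]
        have h1 : a * z.re ≥ -(K * b * ‖z‖) := by
          have h2 : a * (-‖z‖) ≤ a * z.re := mul_le_mul_of_nonneg_left hzre ha.le
          have h3 : a * ‖z‖ ≤ K * b * ‖z‖ := mul_le_mul_of_nonneg_right hle hz0.le
          linarith
        have h5 : K * b * ‖z‖ ≤ b * ‖z‖ ^ 2 / 2 := by
          have h6 : 0 ≤ b * ‖z‖ := by positivity
          have := mul_le_mul_of_nonneg_right hz1 h6
          have h7 : b * ‖z‖ ^ 2 = ‖z‖ * (b * ‖z‖) := by ring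
          rw [h7]
          linarith
        linarith
      have hwre0 : 0 < w.re := lt_of_lt_of_le (by positivity) hwre'
      have hwim0 : 0 < w.im := by rw [hwim]; positivity
      have hw0 : w ≠ 0 := by
        intro h
        rw [h] at hwre0
        simp at hwre0
      have hr0 : r ≠ 0 := by
        intro h
        rw [h] at hri
        simp at hri
      have hβ0 : 0 ≤ w.arg := Complex.arg_nonneg_iff.mpr hwim0.le
      have hβ1 : w.arg < Real.pi / 2 := by
        have := Complex.abs_arg_lt_pi_div_two_iff.mpr (Or.inl hwre0)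
        exact (abs_lt.mp this).2
      have hra : r.arg < 0 := Complex.arg_neg_iff.mpr hri
      have hra' : -Real.pi < r.arg := Complex.neg_pi_lt_arg r
      have hsum : (r * w).arg = r.arg + w.arg :=
        Complex.arg_mul hr0 hw0 ⟨by linarith, by linarith⟩
      have hsum0 : 0 ≤ (r * w).arg := Complex.arg_nonneg_iff.mpr hrw.le
      have hβ : w.arg ≤ 2 * K * z.im / ‖z‖ ^ 2 := by
        have h1 : w.arg ≤ Real.tan w.arg := Real.le_tan hβ0 hβ1
        rw [Complex.tan_arg] at h1
        refine h1.trans ?_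
        rw [hwim, div_le_div_iff₀ hwre0 (by positivity)]
        have h2 : 2 * K * z.im * (b * ‖z‖ ^ 2 / 2) ≤ 2 * K * z.im * w.re :=
          mul_le_mul_of_nonneg_left hwre' (by positivity)
        have h3 : a * z.im * ‖z‖ ^ 2 ≤ K * b * z.im * ‖z‖ ^ 2 := by
          have h4 : 0 ≤ z.im * ‖z‖ ^ 2 := by positivity
          have := mul_le_mul_of_nonneg_right hle h4
          linarith
        linarith
      have hγ : z.im / (‖z‖ + q) ≤ (z + q).arg := by
        have h1 : Real.sin (z + q).arg ≤ (z + q).arg := Real.sin_le hγ0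
        rw [Complex.sin_arg] at h1
        refine le_trans ?_ h1
        have h2 : (z + q).im = z.im := by simp
        rw [h2]
        have h3 : ‖z + q‖ ≤ ‖z‖ + q := by
          refine (norm_add_le _ _).trans ?_
          rw [Complex.norm_real, Real.norm_eq_abs, abs_of_pos hq]
        have h4 : 0 < ‖z + q‖ := by
          rw [norm_pos_iff]
          intro h
          rw [h] at h2
          simp only [Complex.zero_im] at h2
          linarith
        exact div_le_div_of_nonneg_left him.le h4 h3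
      have hmain : 2 * K * z.im / ‖z‖ ^ 2 ≤ s * (z.im / (‖z‖ + q)) := by
        rw [mul_div_assoc', div_le_div_iff₀ (by positivity) (by positivity)]
        have h1 : 4 * K ≤ s * ‖z‖ := by
          rw [div_le_iff₀ hs] at hz3
          linarith
        have h2 : 2 * K * (‖z‖ + q) ≤ s * ‖z‖ ^ 2 := by
          have h3 : 2 * K * (‖z‖ + q) ≤ 2 * K * (2 * ‖z‖) :=
            mul_le_mul_of_nonneg_left (by linarith) (by positivity)
          have h5 : 4 * K * ‖z‖ ≤ s * ‖z‖ * ‖z‖ := mul_le_mul_of_nonneg_right h1 hz0.le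
          have h6 : s * ‖z‖ ^ 2 = s * ‖z‖ * ‖z‖ := by ring
          linarith
        have := mul_le_mul_of_nonneg_left h2 him.le
        linarith
      have hfin := mul_le_mul_of_nonneg_left hγ hs.le
      linarith

end SRE
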