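import Mathlib
import Pool.Agent.Lib_MP_c281c2_an.Defs
import Pool.Agent.Lib_MP_c281c2_an.EHol
import Pool.Agent.Lib_MP_c281c2_an.MSec
import Pool.Agent.Lib_MP_c281c2_an.MInt
import Pool.Agent.Lib_MP_c281c2_an.MCut
import Pool.Agent.Lib_MP_c281c2_p.Main

/-!
# Piece WTOU: `W` is touched from below

`im_cpow_mul`: `r ^ α = ‖r‖ ^ α e^{i α arg r}` etc. (`Complex.cpow_def`, `Complex.log`).

`wf_touch`: let `0 < Im z₀`, `r₀` in the slit plane. (1) If `Im r₀ < 0` and `ω₀ = α arg r₀ + (α - 1) arg (z₀ + q) < 0`, the same holds near `(z₀, r₀)` (`arg` is continuous on the slit plane), so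
`wf z r = - Im (r ^ α (z + q) ^ (α - 1)) = Re (k z * r ^ α)` near `(z₀, r₀)` with `k z = I (z + q) ^ (α - 1)`. (2) Otherwise `wf z₀ r₀ = 0` and `0 ≤ wf z r` near `(z₀, r₀)`: if `Im r₀ > 0`: `wf = 0` near `(z₀, r₀)`. If `Im r₀ = 0` then
`arg r₀ = 0`, `ω₀ = (α - 1) arg (z₀ + q) > 0`, so `wf = 0` near. If `Im r₀ < 0` and `ω₀ > 0`: `wf = 0` near. If `Im r₀ < 0` and `ω₀ = 0`: near `(z₀, r₀)` the number `ω = α arg r + (α - 1) arg (z + q)` is in `(-π, π)`, and
`Im (r ^ α (z + q) ^ (α - 1)) = ‖r‖ ^ α ‖z + q‖ ^ (α - 1) sin ω` (`im_cpow_mul`), which is `≤ 0` if `ω < 0`. So `(k z * 0).re ≤ wf z r`.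

`touch_W`: with `φ r₀ = (· ^ α)` in case (1) and `φ r₀ = 0` in case (2) the hypotheses of `touch_es` hold for the family `M s z` (`diff_M`, `ev_slit`). `MPc281p.Touch` (`Lib_MP_c281c2_p/Sub.lean`) follows: take a radius `ρ` for the
two `∀ᶠ` of `touch_es`.
-/

namespace SRE

open Matrix Complex MeasureTheory Filter Topology Metric
open scoped ComplexOrder

variable {n : Type} [Fintype n] [DecidableEq n] {p : Dat n}

theorem im_cpow_mul {α q : ℝ} {z r : ℂ} (hr : r ≠ 0) (hz : z + q ≠ 0) :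
    (r ^ (α : ℂ) * (z + q) ^ ((α - 1 : ℝ) : ℂ)).im =
      ‖r‖ ^ α * ‖z + q‖ ^ (α - 1) * Real.sin (α * r.arg + (α - 1) * (z + q).arg) := by
  have hr' : 0 < ‖r‖ := norm_pos_iff.2 hr
  have hz' : 0 < ‖z + q‖ := norm_pos_iff.2 hz
  rw [Complex.cpow_def_of_ne_zero hr, Complex.cpow_def_of_ne_zero hz, ← Complex.exp_add, Complex.exp_im,
    Real.rpow_def_of_pos hr', Real.rpow_def_of_pos hz', ← Real.exp_add]
  have e1 : (Complex.log r * (α : ℂ) + Complex.log (z + q) * ((α - 1 : ℝ) : ℂ)).re =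
      Real.log ‖r‖ * α + Real.log ‖z + q‖ * (α - 1) := by
    rw [Complex.add_re, Complex.re_mul_ofReal, Complex.re_mul_ofReal, Complex.log_re, Complex.log_re]
  have e2 : (Complex.log r * (α : ℂ) + Complex.log (z + q) * ((α - 1 : ℝ) : ℂ)).im =
      α * r.arg + (α - 1) * (z + q).arg := by
    rw [Complex.add_im, Complex.im_mul_ofReal, Complex.im_mul_ofReal, Complex.log_im, Complex.log_im]
    ring
  rw [e1, e2]

private theorem slit_WTou {q : ℝ} {z : ℂ} (hz : 0 < z.im) : z + q ∈ slitPlane := by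
  rw [Complex.mem_slitPlane_iff]
  right
  rw [Complex.add_im, Complex.ofReal_im, add_zero]
  exact hz.ne'

private theorem wf_nonneg_WTou {α q : ℝ} {z r : ℂ} (hz : 0 < z.im)
    (hω : -Real.pi < α * r.arg + (α - 1) * (z + q).arg) : 0 ≤ wf α q z r := by
  unfold wf
  split_ifs with h
  · have hr : r ≠ 0 := by
      rintro rfl
      simp at h
    have hz' : z + q ≠ 0 := Complex.slitPlane_ne_zero (slit_WTou hz)
    rw [im_cpow_mul hr hz']
    have h1 := Real.sin_nonpos_of_nonpos_of_neg_pi_le h.2.le hω.le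
    have h2 : 0 ≤ ‖r‖ ^ α * ‖z + q‖ ^ (α - 1) := by positivity
    nlinarith [mul_nonneg h2 (neg_nonneg.2 h1)]
  · exact le_rfl

theorem Dat.Ok.touch_W (hp : p.Ok) {α : ℝ} (hα : 2 < α) {q : ℝ} (hq : 0 < q) {z : ℂ}
    (hz : 0 < z.im) : MPc281p.Touch (p.W α q) z := by
  classical
  have hs : 0 < sa α := by
    unfold sa
    apply div_pos <;> linarith
  have hs1 : sa α < 1 := by
    unfold sa
    rw [div_lt_one (by linarith)]
    linarith
  have hslit : ∀ z : ℂ, 0 < z.im → z ∈ slitPlane := fun z hz => by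
    rw [Complex.mem_slitPlane_iff]
    exact Or.inr hz.ne'
  have hnear : ∀ᶠ v in 𝓝 z, 0 < v.im := by
    have : IsOpen {v : ℂ | 0 < v.im} := isOpen_lt continuous_const Complex.continuous_im
    exact this.mem_nhds hz
  -- the data
  let s := sa α
  let k : ℂ → ℂ := fun v => I * (v + q) ^ ((α - 1 : ℝ) : ℂ)
  let cond : ℂ → Prop := fun r => r.im < 0 ∧ α * r.arg + (α - 1) * (z + q).arg < 0
  let φ : ℂ → ℂ → ℂ := fun r₀ => if cond r₀ then fun r => r ^ (α : ℂ) else fun _ => 0
  have hev : ∀ r ∈ ev (p.M s z), r ∈ slitPlane := fun r hr => hp.ev_slit hs hs1 (hslit _ hz) hr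
  have hM : ∀ᶠ v in 𝓝 z, ∀ i j, DifferentiableAt ℂ (fun v => p.M s v i j) v := by
    filter_upwards [hnear] with v hv i j
    exact (hp.diff_M hs hs1 i j).differentiableAt (Complex.isOpen_slitPlane.mem_nhds (hslit _ hv))
  have hk : ∀ᶠ v in 𝓝 z, DifferentiableAt ℂ k v := by
    filter_upwards [hnear] with v hv
    exact (differentiableAt_const _).mul
      ((differentiableAt_id.add (differentiableAt_const _)).cpow (differentiableAt_const _) (slit_WTou hv))
  have hφ : ∀ r ∈ ev (p.M s z), AnalyticAt ℂ (φ r) r := by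
    intro r hr
    show AnalyticAt ℂ (if cond r then fun r => r ^ (α : ℂ) else fun _ => 0) r
    split_ifs
    · exact analyticAt_id.cpow analyticAt_const (hev r hr)
    · exact analyticAt_const
  have hre : ∀ v r : ℂ, (k v * r ^ (α : ℂ)).re = -(r ^ (α : ℂ) * (v + q) ^ ((α - 1 : ℝ) : ℂ)).im := by
    intro v r
    show (I * (v + q) ^ ((α - 1 : ℝ) : ℂ) * r ^ (α : ℂ)).re = _
    rw [mul_assoc, mul_comm ((v + q) ^ ((α - 1 : ℝ) : ℂ)), Complex.I_mul_re]
  have hw₀ : ∀ r ∈ ev (p.M s z), wf α q z r = (k z * φ r r).re := by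
    intro r hr
    by_cases hc : cond r
    · have e1 : φ r = fun r => r ^ (α : ℂ) := if_pos hc
      rw [e1, hre]
      unfold wf
      rw [if_pos hc]
    · have e1 : φ r = fun _ => 0 := if_neg hc
      rw [e1]
      unfold wf
      rw [if_neg hc]
      simp
  have hcont : ∀ r₀ ∈ ev (p.M s z), ContinuousAt (fun x : ℂ × ℂ => α * x.2.arg + (α - 1) * (x.1 + q).arg) (z, r₀) := by
    intro r₀ hr₀
    have h1 : ContinuousAt (fun x : ℂ × ℂ => x.2.arg) (z, r₀) :=
      ContinuousAt.comp (f := fun x : ℂ × ℂ => x.2) (g := Complex.arg) (Complex.continuousAt_arg (hev r₀ hr₀)) continuousAt_snd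
    have h2 : ContinuousAt (fun x : ℂ × ℂ => x.1 + (q : ℂ)) (z, r₀) := continuousAt_fst.add continuousAt_const
    have h4 : ContinuousAt (fun x : ℂ × ℂ => (x.1 + q).arg) (z, r₀) :=
      ContinuousAt.comp (f := fun x : ℂ × ℂ => x.1 + (q : ℂ)) (g := Complex.arg)
        (Complex.continuousAt_arg (slit_WTou hz)) h2
    exact (continuousAt_const.mul h1).add (continuousAt_const.mul h4)
  have hnear2 : ∀ r₀ : ℂ, ∀ᶠ x : ℂ × ℂ in 𝓝 (z, r₀), 0 < x.1.im := fun r₀ =>
    (continuousAt_fst (p := (z, r₀))).eventually hnear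
  have hwf : ∀ r₀ ∈ ev (p.M s z), ∀ᶠ x : ℂ × ℂ in 𝓝 (z, r₀), (k x.1 * φ r₀ x.2).re ≤ wf α q x.1 x.2 := by
    intro r₀ hr₀
    have hc0 := hcont r₀ hr₀
    by_cases hc : cond r₀
    · have e1 : φ r₀ = fun r => r ^ (α : ℂ) := if_pos hc
      rw [e1]
      have h1 : ∀ᶠ x : ℂ × ℂ in 𝓝 (z, r₀), α * x.2.arg + (α - 1) * (x.1 + q).arg < 0 :=
        hc0.eventually (Iio_mem_nhds hc.2)
      have h2 : ∀ᶠ x : ℂ × ℂ in 𝓝 (z, r₀), x.2.im < 0 := by
        have h3 : ContinuousAt (fun x : ℂ × ℂ => x.2.im) (z, r₀) :=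
          (Complex.continuous_im.comp continuous_snd).continuousAt
        exact h3.eventually (Iio_mem_nhds hc.1)
      filter_upwards [h1, h2] with x hx1 hx2
      rw [hre]
      unfold wf
      rw [if_pos ⟨hx2, hx1⟩]
    · have e1 : φ r₀ = fun _ => 0 := if_neg hc
      rw [e1]
      rcases lt_or_ge 0 r₀.im with him | him
      · have h2 : ∀ᶠ x : ℂ × ℂ in 𝓝 (z, r₀), 0 < x.2.im := by
          have h3 : ContinuousAt (fun x : ℂ × ℂ => x.2.im) (z, r₀) :=
            (Complex.continuous_im.comp continuous_snd).continuousAt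
          exact h3.eventually (Ioi_mem_nhds him)
        filter_upwards [h2] with x hx
        unfold wf
        rw [if_neg (fun h => absurd h.1 (not_lt.2 hx.le))]
        simp
      · have hω : 0 ≤ α * r₀.arg + (α - 1) * (z + q).arg := by
          rcases him.lt_or_eq with h | h
          · by_contra hn
            exact hc ⟨h, not_le.1 hn⟩
          · have h1 : 0 < r₀.re := by
              have h2 := hev r₀ hr₀
              rw [Complex.mem_slitPlane_iff] at h2
              rcases h2 with h2 | h2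
              · exact h2
              · exact absurd h h2
            have h2 : r₀.arg = 0 := Complex.arg_eq_zero_iff.2 ⟨h1.le, h⟩
            rw [h2, mul_zero, zero_add]
            have h3 : 0 ≤ (z + q).arg := by
              rw [Complex.arg_nonneg_iff, Complex.add_im, Complex.ofReal_im, add_zero]
              exact hz.le
            have h4 : 0 ≤ α - 1 := by linarith
            positivity
        have h1 : ∀ᶠ x : ℂ × ℂ in 𝓝 (z, r₀), -Real.pi < α * x.2.arg + (α - 1) * (x.1 + q).arg :=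
          hc0.eventually (Ioi_mem_nhds (lt_of_lt_of_le (by linarith [Real.pi_pos]) hω))
        filter_upwards [h1, hnear2 r₀] with x hx1 hx2
        have h2 := wf_nonneg_WTou hx2 hx1
        simpa using h2
  obtain ⟨h, C, h1, h2, h3⟩ := touch_es (M := fun v => p.M s v) (z₀ := z) (k := k) (w := fun v r => wf α q v r) (φ := φ)
    hM hk hφ hw₀ hwf
  obtain ⟨ρ, hρ, hball⟩ := Metric.eventually_nhds_iff_ball.1 (h1.and h3)
  refine ⟨h, ρ, C, hρ, ?_, ?_, ?_⟩
  · intro v hv
    exact (hball v hv).1.differentiableWithinAt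
  · exact h2.symm
  · intro v hv
    exact (hball v hv).2

end SRE
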