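import Mathlib
import Pool.Agent.Lib_MP_c281c2_an.Defs
import Pool.Agent.Lib_MP_c281c2_an.EAlg
import Pool.Agent.Lib_MP_c281c2_an.ECont
import Pool.Agent.Lib_MP_c281c2_an.MSec
import Pool.Agent.Lib_MP_c281c2_an.MInt
import Pool.Agent.Lib_MP_c281c2_an.MCut
import Pool.Agent.Lib_MP_c281c2_an.MInf
import Pool.Agent.Lib_MP_c281c2_an.MSwap
import Pool.Agent.Lib_MP_c281c2_an.SHol
import Pool.Agent.Lib_MP_c281c2_an.WTou

/-!
# Piece WCON: `W` is continuous on the closed half plane, zero for large `|z|`, and `|W z| ≤ C ‖z + q‖ ^ (α - 1)`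

`abs_wf_le`: `|wf α q z r| ≤ ‖r‖ ^ α * ‖z + q‖ ^ (α - 1)`.
`wf_cont`: `(z, r) ↦ wf α q z r` restricted to `{0 ≤ Im z}` is continuous at `(z₀, r₀)` if `r₀ = 0` or `r₀` in the slit plane. `r₀ = 0` or `z₀ = -q`: `abs_wf_le`. Otherwise `arg r` is continuous at `r₀` and `arg (z + q)` is continuous at `z₀` within
`{0 ≤ Im z}` (also for `z₀ + q < 0`: `Complex.continuousWithinAt_arg_of_re_neg_of_im_zero`), and with `im_cpow_mul`, `ω = α arg r + (α - 1) arg (z + q)`: `wf = - ‖r‖ ^ α ‖z + q‖ ^ (α - 1) sin ω` if `Im r < 0` and `ω < 0`, else `0`.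
If `Im r₀ > 0`: zero near. If `Im r₀ < 0`: the function `ω ↦ if ω < 0 then sin ω else 0` is continuous (`sin 0 = 0`). If `Im r₀ = 0`, `r₀ > 0`: `arg r₀ = 0`, `ω₀ = (α - 1) arg (z₀ + q) ≥ 0`: if `ω₀ > 0` it is zero near, if `ω₀ = 0` it tends to `0` as
`|sin ω| ≤ |ω| → 0`.
`W_cont`: `es_tendsto` with `l = 𝓝[{0 ≤ Im}] z₀`, `ev_closed`, `continuousOn_M`.
`W_inf`: `ev_inf` with `s = sa α`: `α arg r + (α - 1) arg (z + q) = α (arg r + s arg (z + q)) ≥ 0`, so all terms are zero.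
`W_bound`: `κ` from `W_inf`. For `‖z‖ < κ` the eigenvalues are bounded (`growth`), `abs_wf_le`, `card_ev`.
-/

namespace SRE

open Matrix Complex MeasureTheory Filter Topology Metric
open scoped ComplexOrder

variable {n : Type} [Fintype n] [DecidableEq n] {p : Dat n}

theorem abs_wf_le {α q : ℝ} (hα : 1 < α) (z r : ℂ) :
    |wf α q z r| ≤ ‖r‖ ^ α * ‖z + q‖ ^ (α - 1) := by
  have h0 : 0 ≤ ‖r‖ ^ α * ‖z + q‖ ^ (α - 1) :=
    mul_nonneg (Real.rpow_nonneg (norm_nonneg _) _) (Real.rpow_nonneg (norm_nonneg _) _)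
  unfold wf
  split_ifs with h
  · rw [abs_neg]
    refine (Complex.abs_im_le_norm _).trans (le_of_eq ?_)
    rw [norm_mul, Complex.norm_cpow_real, Complex.norm_cpow_real]
  · rw [abs_zero]; exact h0

/-- The argument of the product, as a function of the pair. -/
private noncomputable def wcOm (α q : ℝ) (x : ℂ × ℂ) : ℝ :=
  α * x.2.arg + (α - 1) * (x.1 + q).arg

private lemma wc_formula {α q : ℝ} {x : ℂ × ℂ} (hr : x.2 ≠ 0) (hz : x.1 + q ≠ 0) (him : x.2.im < 0) :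
    wf α q x.1 x.2
      = -(‖x.2‖ ^ α * ‖x.1 + q‖ ^ (α - 1) * Real.sin (min (wcOm α q x) 0)) := by
  unfold wf
  by_cases h : α * x.2.arg + (α - 1) * (x.1 + q).arg < 0
  · rw [if_pos ⟨him, h⟩, im_cpow_mul hr hz, wcOm, min_eq_left h.le]
  · rw [if_neg (fun h' => h h'.2), wcOm, min_eq_right (not_lt.1 h), Real.sin_zero, mul_zero,
      neg_zero]

private lemma wc_zero {α q : ℝ} {x : ℂ × ℂ} (him : ¬ x.2.im < 0) : wf α q x.1 x.2 = 0 := by
  unfold wf
  rw [if_neg (fun h' => him h'.1)]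

private lemma wc_abs {α q : ℝ} {x : ℂ × ℂ} (hr : x.2 ≠ 0) (hz : x.1 + q ≠ 0) :
    ‖wf α q x.1 x.2‖
      ≤ ‖x.2‖ ^ α * ‖x.1 + q‖ ^ (α - 1) * |Real.sin (min (wcOm α q x) 0)| := by
  have h0 : 0 ≤ ‖x.2‖ ^ α * ‖x.1 + q‖ ^ (α - 1) :=
    mul_nonneg (Real.rpow_nonneg (norm_nonneg _) _) (Real.rpow_nonneg (norm_nonneg _) _)
  by_cases him : x.2.im < 0
  · rw [wc_formula hr hz him, norm_neg, Real.norm_eq_abs, abs_mul, abs_of_nonneg h0]
  · rw [wc_zero him, norm_zero]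
    exact mul_nonneg h0 (abs_nonneg _)

private lemma wc_cont_norm {α q : ℝ} (hα : 1 < α) :
    Continuous fun x : ℂ × ℂ => ‖x.2‖ ^ α * ‖x.1 + q‖ ^ (α - 1) := by
  refine Continuous.mul ?_ ?_
  · exact (continuous_norm.comp continuous_snd).rpow_const fun _ => Or.inr (by linarith)
  · exact (continuous_norm.comp (continuous_fst.add continuous_const)).rpow_const
      fun _ => Or.inr (by linarith)

theorem wf_cont {α q : ℝ} (hα : 1 < α) {z₀ r₀ : ℂ} (hz : 0 ≤ z₀.im)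
    (hr : r₀ = 0 ∨ r₀ ∈ slitPlane) :
    Tendsto (fun x : ℂ × ℂ => wf α q x.1 x.2) ((𝓝[{z : ℂ | 0 ≤ z.im}] z₀) ×ˢ 𝓝 r₀)
      (𝓝 (wf α q z₀ r₀)) := by
  set l : Filter (ℂ × ℂ) := (𝓝[{z : ℂ | 0 ≤ z.im}] z₀) ×ˢ 𝓝 r₀ with hl
  have hle : l ≤ 𝓝 (z₀, r₀) := by
    rw [hl, nhds_prod_eq]
    exact Filter.prod_mono nhdsWithin_le_nhds le_rfl
  have hP : Tendsto (fun x : ℂ × ℂ => ‖x.2‖ ^ α * ‖x.1 + q‖ ^ (α - 1)) l
      (𝓝 (‖r₀‖ ^ α * ‖z₀ + q‖ ^ (α - 1))) :=
    ((wc_cont_norm (q := q) hα).tendsto (z₀, r₀)).mono_left hle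
  by_cases h0 : r₀ = 0 ∨ z₀ + q = 0
  · have hz0 : ‖r₀‖ ^ α * ‖z₀ + q‖ ^ (α - 1) = 0 := by
      rcases h0 with h | h
      · rw [h, norm_zero, Real.zero_rpow (by linarith), zero_mul]
      · rw [h, norm_zero, Real.zero_rpow (by linarith), mul_zero]
    rw [hz0] at hP
    have h1 : wf α q z₀ r₀ = 0 := by
      have := abs_wf_le (q := q) hα z₀ r₀
      rw [hz0] at this
      exact abs_eq_zero.1 (le_antisymm this (abs_nonneg _))
    rw [h1]
    refine squeeze_zero_norm (fun x => ?_) hP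
    exact abs_wf_le hα x.1 x.2
  · have hr0 : r₀ ≠ 0 := fun h => h0 (Or.inl h)
    have hz0 : z₀ + q ≠ 0 := fun h => h0 (Or.inr h)
    have hrs : r₀ ∈ slitPlane := hr.resolve_left hr0
    have ear : Tendsto (fun x : ℂ × ℂ => x.2.arg) l (𝓝 r₀.arg) :=
      (Complex.continuousAt_arg hrs).tendsto.comp (tendsto_snd (f := 𝓝[{z : ℂ | 0 ≤ z.im}] z₀))
    have eaz : Tendsto (fun x : ℂ × ℂ => (x.1 + q).arg) l (𝓝 (z₀ + q).arg) := by
      have h1 : Tendsto (fun z : ℂ => z + q) (𝓝[{z : ℂ | 0 ≤ z.im}] z₀)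
          (𝓝[{z : ℂ | 0 ≤ z.im}] (z₀ + q)) := by
        refine tendsto_nhdsWithin_iff.2 ⟨?_, ?_⟩
        · exact ((continuous_id.add continuous_const).tendsto z₀).mono_left nhdsWithin_le_nhds
        · filter_upwards [self_mem_nhdsWithin] with z hz'
          simpa using hz'
      have h2 : Tendsto arg (𝓝[{z : ℂ | 0 ≤ z.im}] (z₀ + q)) (𝓝 (z₀ + q).arg) := by
        by_cases hs : z₀ + q ∈ slitPlane
        · exact (Complex.continuousAt_arg hs).tendsto.mono_left nhdsWithin_le_nhds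
        · rw [Complex.mem_slitPlane_iff, not_or, not_lt, not_not] at hs
          have hre : (z₀ + q).re < 0 := lt_of_le_of_ne hs.1 fun h =>
            hz0 (Complex.ext (by simpa using h) (by simpa using hs.2))
          exact Complex.continuousWithinAt_arg_of_re_neg_of_im_zero hre hs.2
      exact (h2.comp h1).comp (tendsto_fst (g := 𝓝 r₀))
    have eom : Tendsto (wcOm α q) l (𝓝 (wcOm α q (z₀, r₀))) :=
      (ear.const_mul α).add (eaz.const_mul (α - 1))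
    have esin : Tendsto (fun x => Real.sin (min (wcOm α q x) 0)) l
        (𝓝 (Real.sin (min (wcOm α q (z₀, r₀)) 0))) :=
      (Real.continuous_sin.tendsto _).comp (eom.min tendsto_const_nhds)
    have er : ∀ᶠ x : ℂ × ℂ in l, x.2 ≠ 0 :=
      hle (continuous_snd.continuousAt.eventually_ne hr0)
    have ez : ∀ᶠ x : ℂ × ℂ in l, x.1 + q ≠ 0 :=
      hle ((continuous_fst.add continuous_const).continuousAt.eventually_ne hz0)
    have hIm : Tendsto (fun x : ℂ × ℂ => x.2.im) l (𝓝 r₀.im) :=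
      ((Complex.continuous_im.comp continuous_snd).tendsto (z₀, r₀)).mono_left hle
    rcases lt_trichotomy r₀.im 0 with h | h | h
    · have e1 : ∀ᶠ x : ℂ × ℂ in l, x.2.im < 0 := hIm.eventually (gt_mem_nhds h)
      rw [wc_formula (x := (z₀, r₀)) hr0 hz0 h]
      refine Tendsto.congr' ?_ (hP.mul esin).neg
      filter_upwards [er, ez, e1] with x h1 h2 h3
      exact (wc_formula h1 h2 h3).symm
    · have hre : 0 < r₀.re := by
        rcases Complex.mem_slitPlane_iff.1 hrs with h' | h'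
        · exact h'
        · exact absurd h h'
      have harg : r₀.arg = 0 := Complex.arg_eq_zero_iff.2 ⟨hre.le, h⟩
      have hom : 0 ≤ wcOm α q (z₀, r₀) := by
        simp only [wcOm, harg, mul_zero, zero_add]
        refine mul_nonneg (by linarith) (Complex.arg_nonneg_iff.2 ?_)
        simpa using hz
      have h1 : wf α q z₀ r₀ = 0 := wc_zero (x := (z₀, r₀)) (by simp [h])
      rw [h1]
      have e2 : Tendsto (fun x : ℂ × ℂ => ‖x.2‖ ^ α * ‖x.1 + q‖ ^ (α - 1)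
          * |Real.sin (min (wcOm α q x) 0)|) l (𝓝 0) := by
        have := hP.mul esin.abs
        rwa [min_eq_right hom, Real.sin_zero, abs_zero, mul_zero] at this
      refine squeeze_zero_norm' ?_ e2
      filter_upwards [er, ez] with x h2 h3
      exact wc_abs h2 h3
    · have e1 : ∀ᶠ x : ℂ × ℂ in l, 0 < x.2.im := hIm.eventually (lt_mem_nhds h)
      rw [wc_zero (x := (z₀, r₀)) (not_lt.2 h.le)]
      refine Tendsto.congr' ?_ tendsto_const_nhds
      filter_upwards [e1] with x h3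
      exact (wc_zero (not_lt.2 h3.le)).symm

theorem Dat.Ok.W_cont (hp : p.Ok) {α : ℝ} (hα : 2 < α) {q : ℝ} (hq : 0 < q) :
    ContinuousOn (p.W α q) {z : ℂ | 0 ≤ z.im} := by
  have h1 : 1 < α := by linarith
  intro z₀ hz₀
  have him : 0 ≤ z₀.im := hz₀
  have hM : Tendsto (fun z => p.M (sa α) z) (𝓝[{z : ℂ | 0 ≤ z.im}] z₀)
      (𝓝 (p.M (sa α) z₀)) :=
    ((hp.continuousOn_M (sa_pos h1) (sa_lt_one h1)) z₀ him).tendsto
  have hes := es_tendsto hM (f := fun z => wf α q z) (f₀ := wf α q z₀)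
    (fun r hr => by
      have h2 := wf_cont (q := q) h1 him (hp.ev_closed (sa_pos h1) (sa_lt_one h1) him hr)
      exact h2.mono_left inf_le_left)
  exact hes

theorem Dat.Ok.W_inf (hp : p.Ok) {α : ℝ} (hα : 2 < α) {q : ℝ} (hq : 0 < q) :
    ∃ κ : ℝ, ∀ z : ℂ, 0 ≤ z.im → κ ≤ ‖z‖ → p.W α q z = 0 := by
  have h1 : 1 < α := by linarith
  obtain ⟨ρ, hρ, hev⟩ := hp.ev_inf (sa_pos h1) (sa_lt_one h1) hq
  refine ⟨ρ, fun z him hle => ?_⟩
  unfold Dat.W es
  refine Multiset.sum_eq_zero fun y hy => ?_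
  obtain ⟨r, hr, rfl⟩ := Multiset.mem_map.1 hy
  have h2 := hev z him hle r hr
  unfold wf
  rw [if_neg]
  rintro ⟨-, h3⟩
  have h4 : α * sa α = α - 1 := by
    unfold sa
    field_simp
  have h5 : α * (-(sa α * (z + q).arg)) ≤ α * r.arg :=
    mul_le_mul_of_nonneg_left h2 (by linarith)
  have h6 : α * (-(sa α * (z + q).arg)) = -((α - 1) * (z + q).arg) := by
    rw [← h4]; ring
  linarith

theorem Dat.Ok.W_bound (hp : p.Ok) {α : ℝ} (hα : 2 < α) {q : ℝ} (hq : 0 < q) :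
    ∃ C : ℝ, ∀ z : ℂ, 0 ≤ z.im → |p.W α q z| ≤ C * ‖z + q‖ ^ (α - 1) := by
  have h1 : 1 < α := by linarith
  obtain ⟨ρ, hV⟩ := hp.W_inf hα hq
  set K : Set ℂ := closedBall (0 : ℂ) ρ ∩ {z : ℂ | 0 ≤ z.im} with hK
  have hKc : IsCompact K :=
    (isCompact_closedBall (0 : ℂ) ρ).inter_right (isClosed_le continuous_const Complex.continuous_im)
  have hcont : ContinuousOn (fun z => ∑ i, ∑ j, ‖p.M (sa α) z i j‖) K := by
    refine continuousOn_finsetSum _ fun i _ => continuousOn_finsetSum _ fun j _ => ?_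
    have h2 : ContinuousOn (fun z => p.M (sa α) z) K :=
      (hp.continuousOn_M (sa_pos h1) (sa_lt_one h1)).mono fun z hz => hz.2
    have h3 : Continuous fun A : Matrix n n ℂ => ‖A i j‖ := (Continuous.matrix_elem continuous_id i j).norm
    exact h3.comp_continuousOn h2
  obtain ⟨B, hB⟩ := hKc.exists_bound_of_continuousOn hcont
  have hBij : ∀ z ∈ K, ∀ i j, ‖p.M (sa α) z i j‖ ≤ B := by
    intro z hz i j
    have h2 := hB z hz
    refine le_trans ?_ ((Real.le_norm_self _).trans h2)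
    refine le_trans ?_ (Finset.single_le_sum (f := fun i => ∑ j, ‖p.M (sa α) z i j‖)
      (fun i _ => Finset.sum_nonneg fun j _ => norm_nonneg _) (Finset.mem_univ i))
    exact Finset.single_le_sum (f := fun j => ‖p.M (sa α) z i j‖)
      (fun j _ => norm_nonneg _) (Finset.mem_univ j)
  set m : ℝ := ((Fintype.card n : ℕ) : ℝ) with hm
  have hm0 : 0 ≤ m := Nat.cast_nonneg _
  set R : ℝ := m * |B| with hR
  have hR0 : 0 ≤ R := mul_nonneg hm0 (abs_nonneg _)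
  have hC0 : 0 ≤ m * R ^ α := mul_nonneg hm0 (Real.rpow_nonneg hR0 _)
  refine ⟨m * R ^ α, fun z him => ?_⟩
  have hrhs : 0 ≤ m * R ^ α * ‖z + q‖ ^ (α - 1) :=
    mul_nonneg hC0 (Real.rpow_nonneg (norm_nonneg _) _)
  by_cases hle : ρ ≤ ‖z‖
  · rw [hV z him hle, abs_zero]; exact hrhs
  have hlt : ‖z‖ < ρ := not_le.1 hle
  have hzK : z ∈ K := ⟨by simpa using hlt.le, him⟩
  have hterm : ∀ r ∈ ev (p.M (sa α) z), ‖wf α q z r‖ ≤ R ^ α * ‖z + q‖ ^ (α - 1) := by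
    intro r hr
    have h4 : ‖r‖ ≤ R := norm_ev_le (K := |B|) (fun i j => (hBij _ hzK i j).trans (le_abs_self _)) hr
    refine (abs_wf_le h1 z r).trans ?_
    exact mul_le_mul_of_nonneg_right (Real.rpow_le_rpow (norm_nonneg _) h4 (by linarith))
      (Real.rpow_nonneg (norm_nonneg _) _)
  rw [← Real.norm_eq_abs]
  unfold Dat.W es
  refine (norm_multiset_sum_le _).trans ?_
  refine (Multiset.sum_le_card_nsmul _ (R ^ α * ‖z + q‖ ^ (α - 1)) ?_).trans ?_
  · intro y hy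
    obtain ⟨u, hu, rfl⟩ := Multiset.mem_map.1 hy
    obtain ⟨r, hr, rfl⟩ := Multiset.mem_map.1 hu
    exact hterm r hr
  · rw [Multiset.card_map, Multiset.card_map, card_ev, nsmul_eq_mul, ← mul_assoc]

end SRE
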