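import Mathlib
import Pool.Agent.Lib_MP_c281c2_an.Defs
import Pool.Agent.Lib_MP_c281c2_an.SHol
import Pool.Agent.Lib_MP_c281c2_an.MInt
import Pool.Agent.Lib_MP_c281c2_an.MCut
import Pool.Agent.Lib_MP_c281c2_an.WTou
import Pool.Agent.Lib_MP_c281c2_an.WCon
import Pool.Agent.Lib_MP_c281c2_p.Main

/-!
# Piece WINT: the key lemma

`MPc281p.halfplane` (`Lib_MP_c281c2_p/Main.lean`) for `W = p.W α q`, `a = α - 1`: `touch_W`, `W_cont`, `W_bound`, `W_inf`, and
`W_pos`: `x ≥ 0`: all eigenvalues are positive (`ev_pos`), so `wf = 0`. `W_neg`: `x ≤ -q`: `x = -y`, `y > 0`. If `x = -q` the factor `(x + q) ^ (α - 1)` is zero. If `x < -q`: `arg (x + q) = π`, and by `ev_cut`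
`α arg r + (α - 1) π > - α s π + (α - 1) π = 0` if `Im r < 0` (`α sa α = α - 1`), so `wf = 0`. `W_mid`: `0 < y < q`: `W (-y) = (q - y) ^ (α - 1) * sp y`: `arg (q - y) = 0`, `(q - y) ^ (α - 1)` is a positive real number,
and for an eigenvalue `r`: if `Im r < 0` then `arg r < 0` and both are `- Im (r ^ α)` (times the factor); if `Im r ≥ 0` then `wf = 0`, and `arg r ≤ 0` only if `arg r = 0`, and then `Im (r ^ α) = 0`.
So `W (-y) / (q - y) ^ 2 = (q - y) ^ (α - 3) * sp y`.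
-/

namespace SRE

open Matrix Complex MeasureTheory Filter Topology Metric
open scoped ComplexOrder

variable {n : Type} [Fintype n] [DecidableEq n] {p : Dat n}

private theorem WInt_es {f g : ℂ → ℝ} {M : Matrix n n ℂ} (h : ∀ r ∈ ev M, f r = g r) :
    es f M = es g M := by
  unfold es
  rw [Multiset.map_congr rfl h]

private theorem WInt_zero {f : ℂ → ℝ} {M : Matrix n n ℂ} (h : ∀ r ∈ ev M, f r = 0) :
    es f M = 0 := by
  rw [WInt_es h]
  unfold es
  rw [Multiset.map_const', Multiset.sum_replicate, smul_zero]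

theorem Dat.Ok.W_pos (hp : p.Ok) {α : ℝ} (hα : 1 < α) {q : ℝ} (x : ℝ) (hx : 0 ≤ x) :
    p.W α q x = 0 := by
  refine WInt_zero fun r hr => ?_
  have h6 := hp.ev_pos (sa_pos hα) (sa_lt_one hα) hx hr
  unfold wf
  rw [if_neg]
  rintro ⟨h7, _⟩
  rw [h6.2] at h7
  exact lt_irrefl _ h7

theorem Dat.Ok.W_neg (hp : p.Ok) {α : ℝ} (hα : 1 < α) {q : ℝ} (hq : 0 < q) (x : ℝ)
    (hx : x ≤ -q) : p.W α q x = 0 := by
  have hs := sa_pos hα
  have hs1 := sa_lt_one hα
  have hαs : α * sa α = α - 1 := by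
    unfold sa
    field_simp
  have hpi := Real.pi_pos
  refine WInt_zero fun r hr => ?_
  rcases eq_or_lt_of_le hx with h0 | h0
  · -- `x = -q`
    have h1 : ((x : ℝ) : ℂ) + (q : ℂ) = 0 := by
      rw [h0, ofReal_neg, neg_add_cancel]
    unfold wf
    split_ifs
    · rw [h1, zero_cpow (by exact_mod_cast (by linarith : α - 1 ≠ 0)), mul_zero, zero_im, neg_zero]
    · rfl
  · have hzq : ((x : ℝ) : ℂ) + (q : ℂ) = ((x + q : ℝ) : ℂ) := by rw [ofReal_add]
    have harg : ((x + q : ℝ) : ℂ).arg = Real.pi := arg_ofReal_of_neg (by linarith)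
    have hr' : r ∈ ev (p.M (sa α) (-((-x : ℝ) : ℂ))) := by
      rw [← ofReal_neg, neg_neg]
      exact hr
    unfold wf
    rw [if_neg]
    rintro ⟨h4, h5⟩
    rw [hzq, harg] at h5
    rcases hp.ev_cut hs hs1 (y := -x) (by linarith) hr' with h6 | h6 | h6
    · rw [h6] at h4
      exact absurd h4 (by simp)
    · have h7 : -(α * (sa α * Real.pi)) < α * r.arg := by nlinarith [h6.1]
      have h8 : α * (sa α * Real.pi) = (α - 1) * Real.pi := by rw [← mul_assoc, hαs]
      linarith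
    · have h7 : r.arg < 0 := arg_neg_iff.mpr h4
      have h8 : sa α * Real.pi < Real.pi := by nlinarith
      linarith [h6.1]

theorem Dat.W_mid (p : Dat n) {α : ℝ} (hα : 1 < α) {q y : ℝ} (hy : 0 < y) (hyq : y < q) :
    p.W α q (-(y : ℂ)) = (q - y) ^ (α - 1) * p.sp α y := by
  classical
  have ht : 0 < q - y := by linarith
  have hzq : -(y : ℂ) + (q : ℂ) = ((q - y : ℝ) : ℂ) := by
    rw [ofReal_sub]
    ring
  have harg : ((q - y : ℝ) : ℂ).arg = 0 := arg_ofReal_of_nonneg ht.le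
  unfold Dat.W Dat.sp
  have key : es (wf α q (-(y : ℂ))) (p.M (sa α) (-(y : ℂ))) =
      es (fun r => (q - y) ^ (α - 1) * (if r.arg ≤ 0 then -(r ^ (α : ℂ)).im else 0))
        (p.M (sa α) (-(y : ℂ))) := by
    refine WInt_es fun r _ => ?_
    unfold wf
    rw [hzq, harg, mul_zero, add_zero]
    by_cases h1 : r.im < 0
    · have h2 : r.arg < 0 := arg_neg_iff.mpr h1
      have h8 : α * r.arg < 0 := mul_neg_of_pos_of_neg (by linarith) h2
      rw [if_pos ⟨h1, h8⟩, if_pos h2.le, ← ofReal_cpow ht.le, im_mul_ofReal]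
      ring
    · rw [if_neg (fun h => h1 h.1)]
      have h2 : 0 ≤ r.arg := not_lt.mp fun h => h1 (arg_neg_iff.mp h)
      by_cases h3 : r.arg ≤ 0
      · have h4 : r.arg = 0 := le_antisymm h3 h2
        obtain ⟨h5, h6⟩ := arg_eq_zero_iff.mp h4
        have h7 : r = ((r.re : ℝ) : ℂ) := Complex.ext rfl h6
        rw [if_pos h3, h7, ← ofReal_cpow h5, ofReal_im, neg_zero, mul_zero]
      · rw [if_neg h3, mul_zero]
  rw [key]
  unfold es
  rw [Multiset.sum_map_mul_left]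

/-- **The key lemma.** -/
theorem Dat.Ok.key (hp : p.Ok) {α : ℝ} (hα : 2 < α) {q : ℝ} (hq : 0 < q) :
    0 ≤ ∫ y in Set.Ioo (0 : ℝ) q, (q - y) ^ (α - 3) * p.sp α y := by
  obtain ⟨C, hC⟩ := hp.W_bound hα hq
  obtain ⟨κ, hκ⟩ := hp.W_inf hα hq
  have h1 := MPc281p.halfplane hq (a := α - 1) (by linarith) (hp.W_cont hα hq)
    (fun z hz => hp.touch_W hα hq hz) (fun x hx => hp.W_neg (by linarith) hq x hx)
    (fun x hx => hp.W_pos (by linarith) x hx) hC hκ
  rw [intervalIntegral.integral_of_le hq.le, integral_Ioc_eq_integral_Ioo] at h1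
  have h2 : ∫ y in Set.Ioo (0 : ℝ) q, p.W α q (-(y : ℂ)) / (q - y) ^ 2 =
      ∫ y in Set.Ioo (0 : ℝ) q, (q - y) ^ (α - 3) * p.sp α y := by
    refine setIntegral_congr_fun measurableSet_Ioo fun y hy => ?_
    have ht : 0 < q - y := by linarith [hy.2]
    show p.W α q (-(y : ℂ)) / (q - y) ^ 2 = (q - y) ^ (α - 3) * p.sp α y
    rw [p.W_mid (by linarith) hy.1 hy.2]
    have h3 : (q - y) ^ (α - 1) = (q - y) ^ (α - 3) * (q - y) ^ 2 := by
      rw [← Real.rpow_natCast (q - y) 2, ← Real.rpow_add ht]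
      congr 1
      push_cast
      ring
    rw [h3]
    field_simp
  rw [h2] at h1
  exact h1

end SRE
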