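import Mathlib
import Pool.Agent.Lib_MP_c281c2_an.Defs
import Pool.Agent.Lib_MP_c281c2_an.SHol
import Pool.Agent.Lib_MP_c281c2_an.SSp
import Pool.Agent.Lib_MP_c281c2_an.SSub
import Pool.Agent.Lib_MP_c281c2_an.WInt
import Pool.Agent.Lib_MP_c281c2_an.KInt

/-!
# The monotonicity of `t ^ (α + 1) S''(t)` for the regularised pencil
-/

namespace SRE

open Matrix Complex MeasureTheory Filter Topology
open scoped ComplexOrder

variable {n : Type} [Fintype n] [DecidableEq n] {p : Dat n}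

theorem Dat.Ok.sm_int (hp : p.Ok) {α : ℝ} (hα : 1 < α) {t : ℝ} (ht : 0 < t) :
    IntegrableOn (fun y => p.sm α y / (t + y) ^ 3) (Set.Ioi 0) ∧
      ∫ y in Set.Ioi (0 : ℝ), p.sm α y / (t + y) ^ 3 =
        t⁻¹ ^ 3 * ∫ y in Set.Ioi (0 : ℝ), p.swap.sp α y / (t⁻¹ + y) ^ 3 := by
  obtain ⟨C, hC, hb⟩ := hp.swap.sp_bound hα
  have h1 : ∀ y ∈ Set.Ioi (0 : ℝ), p.sm α y / (t + y) ^ 3 =
      y * p.swap.sp α y⁻¹ / (t + y) ^ 3 := fun y hy => by rw [hp.sm_swap hα hy]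
  refine ⟨?_, ?_⟩
  · rw [integrableOn_congr_fun h1 measurableSet_Ioi]
    refine integrable_div (C := C) ?_ (fun y hy => ?_) ht
    · refine continuousOn_id.mul ((hp.swap.sp_cont hα).comp (continuousOn_inv₀.mono ?_) ?_)
      · intro y hy
        exact (ne_of_gt hy : y ≠ 0)
      · intro y hy
        exact Set.mem_Ioi.mpr (inv_pos.mpr hy)
    · rw [abs_mul, abs_of_pos hy]
      calc y * |p.swap.sp α y⁻¹| ≤ y * (C * (1 + y⁻¹)) :=
            mul_le_mul_of_nonneg_left (hb _ (inv_pos.mpr hy)) hy.le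
        _ = C * (1 + y) := by
            field_simp
            ring
  · rw [setIntegral_congr_fun measurableSet_Ioi h1]
    exact subst_inv ht

theorem Dat.Ok.mono (hp : p.Ok) {α : ℝ} (hα : 2 < α) :
    MonotoneOn (fun t : ℝ => t ^ (α + 1) * (iteratedDeriv 2 (p.S α) (t : ℂ)).re) (Set.Ioi 0) := by
  have hα1 : 1 < α := by linarith
  obtain ⟨C, hC, hg⟩ := hp.S_growth hα1
  obtain ⟨C1, hC1, hb1⟩ := hp.sp_bound hα1
  obtain ⟨C2, hC2, hb2⟩ := hp.swap.sp_bound hα1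
  have key : ∀ t ∈ Set.Ioi (0 : ℝ), t ^ (α + 1) * (iteratedDeriv 2 (p.S α) (t : ℂ)).re =
      2 / Real.pi * (t ^ (α + 1) * ∫ y in Set.Ioi (0 : ℝ), p.sp α y / (t + y) ^ 3) +
      2 / Real.pi * (t ^ (α - 2) * ∫ y in Set.Ioi (0 : ℝ), p.swap.sp α y / (t⁻¹ + y) ^ 3) := by
    intro t ht
    have ht' : 0 < t := ht
    rw [cauchy_slit (hp.S_diff hα1) (hp.S_cont hα1) hg
      (fun z hz => hp.S_conj hα1 hz) ht', ofReal_re]
    have h1 : ∫ y in Set.Ioi (0 : ℝ), -(p.S α (-(y : ℂ))).im / (t + y) ^ 3 =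
        (∫ y in Set.Ioi (0 : ℝ), p.sp α y / (t + y) ^ 3) +
          ∫ y in Set.Ioi (0 : ℝ), p.sm α y / (t + y) ^ 3 := by
      rw [← integral_add (integrable_div (hp.sp_cont hα1) hb1 ht') (hp.sm_int hα1 ht').1]
      refine integral_congr_ae (Filter.Eventually.of_forall fun y => ?_)
      show -(p.S α (-(y : ℂ))).im / (t + y) ^ 3 = p.sp α y / (t + y) ^ 3 + p.sm α y / (t + y) ^ 3
      rw [p.S_cut, add_div]
    rw [h1, (hp.sm_int hα1 ht').2]
    have h2 : t ^ (α + 1) * t⁻¹ ^ 3 = t ^ (α - 2) := by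
      rw [show α - 2 = (α + 1) - (3 : ℕ) by push_cast; ring, Real.rpow_sub_natCast ht'.ne',
        inv_pow, div_eq_mul_inv]
    rw [← h2]
    ring
  refine MonotoneOn.congr ?_ (fun t ht => (key t ht).symm)
  have hpi : 0 ≤ 2 / Real.pi := by positivity
  refine MonotoneOn.add ?_ ?_
  · intro a ha b hb hab
    exact mul_le_mul_of_nonneg_left (mono1 hα (hp.sp_cont hα1) hb1
      (fun q hq => hp.key hα hq) ha hb hab) hpi
  · intro a ha b hb hab
    exact mul_le_mul_of_nonneg_left (mono2 hα (hp.swap.sp_cont hα1) hb2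
      (fun q hq => hp.swap.key hα hq) ha hb hab) hpi

end SRE
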