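import Mathlib
import Pool.Agent.Lib_MP_c281c2_an.Defs
import Pool.Agent.Lib_MP_c281c2_an.FMono
import Pool.Agent.Lib_MP_c281c2_an.FGen
import Pool.Agent.Lib_MP_c281c2_an.FLim
import Pool.Agent.Lib_MP_c281c2_an.MPos

/-!
# The main theorem
-/

namespace SRE

open Matrix Complex MeasureTheory Filter Topology Metric
open scoped ComplexOrder

variable {n : Type} [Fintype n] [DecidableEq n]

private theorem Main_psd {A B : Matrix n n ℂ} (hA : A.PosSemidef) (hB : B.PosSemidef) {t : ℝ}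
    (ht : 0 ≤ t) : (A + (t : ℂ) • B).PosSemidef := by
  refine hA.add (hB.smul ?_)
  rw [← ofReal_zero]
  exact real_le_real.mpr ht

private theorem Main_pd {A B : Matrix n n ℂ} (hA : A.PosSemidef) (hB : B.PosSemidef)
    (hAB : (A + B).PosDef) {t : ℝ} (ht : 0 < t) : (A + (t : ℂ) • B).PosDef := by
  have hm : 0 < min 1 t := lt_min one_pos ht
  have h1 : A + (t : ℂ) • B = ((min 1 t : ℝ) : ℂ) • (A + B) +
      (((1 - min 1 t : ℝ) : ℂ) • A + ((t - min 1 t : ℝ) : ℂ) • B) := by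
    push_cast
    module
  rw [h1]
  refine (hAB.smul ?_).add_posSemidef ((hA.smul ?_).add (hB.smul ?_))
  · rw [← ofReal_zero]
    exact real_lt_real.mpr hm
  · rw [← ofReal_zero]
    exact real_le_real.mpr (sub_nonneg.mpr (min_le_left _ _))
  · rw [← ofReal_zero]
    exact real_le_real.mpr (sub_nonneg.mpr (min_le_right _ _))

theorem main_aux {A B C D : Matrix n n ℂ} (hA : A.PosSemidef) (hB : B.PosSemidef)
    (hC : C.PosSemidef) (hD : D.PosSemidef) (hAB : (A + B).PosDef) (hCD : (C + D).PosDef) {α : ℝ}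
    (hα : 2 ≤ α) :
    0 ≤ (α + 1) * (iteratedDeriv 2 ((fam A B C D 0).S (α + 0)) 1).re +
      (iteratedDeriv 3 ((fam A B C D 0).S (α + 0)) 1).re := by
  have hα1 : 1 < α := by linarith
  obtain ⟨κ₀, ρ, hκ, hρ, hc, hd⟩ := fam_near hAB hCD hα1
  have h2 := deriv_tendsto (F := fun κ => (fam A B C D κ).S (α + κ)) hκ hρ hc hd 2
  have h3 := deriv_tendsto (F := fun κ => (fam A B C D κ).S (α + κ)) hκ hρ hc hd 3
  have h4 : Tendsto (fun κ : ℝ => (α + κ + 1) *
      (iteratedDeriv 2 ((fam A B C D κ).S (α + κ)) 1).re +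
      (iteratedDeriv 3 ((fam A B C D κ).S (α + κ)) 1).re) (𝓝[>] 0)
      (𝓝 ((α + 0 + 1) * (iteratedDeriv 2 ((fam A B C D 0).S (α + 0)) 1).re +
      (iteratedDeriv 3 ((fam A B C D 0).S (α + 0)) 1).re)) := by
    refine Tendsto.add (Tendsto.mul ?_ ?_) ?_
    · refine Tendsto.mono_left ?_ nhdsWithin_le_nhds
      exact (Continuous.tendsto (by fun_prop) 0)
    · exact (continuous_re.tendsto _).comp h2
    · exact (continuous_re.tendsto _).comp h3
  rw [add_zero] at h4 ⊢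
  refine ge_of_tendsto h4 ?_
  filter_upwards [self_mem_nhdsWithin] with κ hκ'
  have hκ0 : 0 < κ := hκ'
  have hok := fam_ok hA hB hC hD hκ0
  have h5 := mono_deriv (hok.S_diff (α := α + κ) (by linarith))
    (hok.mono (α := α + κ) (by linarith))
  exact h5

/-- **Compatibility of the sandwiched quasi-relative entropy.** -/
theorem main {α : ℝ} (hα : 2 ≤ α) {X Y H K : Matrix n n ℂ} (hX : X.PosDef) (hY : Y.PosDef)
    (hXp : (X + H).PosSemidef) (hXm : (X - H).PosSemidef) (hYp : (Y + K).PosSemidef)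
    (hYm : (Y - K).PosSemidef) :
    ContDiffAt ℝ ⊤ (fun τ : ℝ => Psi α (X + (τ : ℂ) • H) (Y + (τ : ℂ) • K)) 0 ∧
    -(2 * α - 1) * iteratedDeriv 2 (fun τ : ℝ => Psi α (X + (τ : ℂ) • H) (Y + (τ : ℂ) • K)) 0 ≤
      iteratedDeriv 3 (fun τ : ℝ => Psi α (X + (τ : ℂ) • H) (Y + (τ : ℂ) • K)) 0 := by
  have hα1 : 1 < α := by linarith
  have hAB : ((X - H) + (X + H)).PosDef := by
    have : (X - H) + (X + H) = X + X := by abel
    rw [this]
    exact hX.add hX
  have hCD : ((Y - K) + (Y + K)).PosDef := by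
    have : (Y - K) + (Y + K) = Y + Y := by abel
    rw [this]
    exact hY.add hY
  obtain ⟨κ₀, ρ, hκ, hρ, hc, hd⟩ := fam_near hAB hCD hα1
  have h0 := hd 0 ⟨le_rfl, hκ.le⟩
  have hF : ∀ᶠ z in 𝓝 (1 : ℂ), DifferentiableAt ℂ
      ((fam (X - H) (X + H) (Y - K) (Y + K) 0).S (α + 0)) z := by
    filter_upwards [isOpen_ball.mem_nhds (mem_ball_self hρ)] with z hz
    exact h0.differentiableAt (isOpen_ball.mem_nhds hz)
  have hm := main_aux hXm hXp hYm hYp hAB hCD hα
  have hφ : ∀ᶠ τ : ℝ in 𝓝 0, Psi α (X + (τ : ℂ) • H) (Y + (τ : ℂ) • K) = (1 - τ) / 2 *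
      ((fam (X - H) (X + H) (Y - K) (Y + K) 0).S (α + 0) (((1 + τ) / (1 - τ) : ℝ) : ℂ)).re := by
    filter_upwards [isOpen_Ioo.mem_nhds (show (0 : ℝ) ∈ Set.Ioo (-1 : ℝ) 1 by norm_num)] with τ hτ
    have h1 : 0 < 1 - τ := by linarith [hτ.2]
    have h2 : 0 < 1 + τ := by linarith [hτ.1]
    have ht : 0 < (1 + τ) / (1 - τ) := div_pos h2 h1
    have hc0 : 0 < (1 - τ) / 2 := by positivity
    rw [fam_zero hXm hXp hYm hYp hCD hα1 ht, ofReal_re, ← Psi_smul hα1 hc0]
    · congr 1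
      · rw [smul_add, smul_smul]
        ext i j
        simp only [Matrix.add_apply, Matrix.smul_apply, Matrix.sub_apply, smul_eq_mul]
        push_cast
        have h3 : (1 - (τ : ℂ)) ≠ 0 := by
          rw [← ofReal_one, ← ofReal_sub]
          exact ofReal_ne_zero.mpr h1.ne'
        field_simp
        ring
      · rw [smul_add, smul_smul]
        ext i j
        simp only [Matrix.add_apply, Matrix.smul_apply, Matrix.sub_apply, smul_eq_mul]
        push_cast
        have h3 : (1 - (τ : ℂ)) ≠ 0 := by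
          rw [← ofReal_one, ← ofReal_sub]
          exact ofReal_ne_zero.mpr h1.ne'
        field_simp
        ring
    · exact Main_psd hXm hXp ht.le
    · exact Main_pd hYm hYp hCD ht
  obtain ⟨m1, m2, m3⟩ := mobius hF hφ
  refine ⟨m1, ?_⟩
  rw [m2, m3]
  nlinarith [hm]

end SRE
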